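import Pool.Agent.SPR.GtA

/-!
# SPR/GtB: the full twist of a disc, both directions   (difficulty 3)

`gt_iff`, direction `←` (direction `→` is `gt_le`).  `K̃ l = Rt d o (K l)`, `b̃ q = Rt d o (b q)` (`rt_boxb`, `rt_two`, `rt_equi`), `d' (y, s, t) = d (y, 1/2 + s/4, t)`: `BBox d' R₁ 2` (`|s| < 2` gives `|1/2 + s/4| < 1 < S₁`), equivariant.
`CPieces K̃ b̃ d' f₁ f₂ c μ β' ς η ρ'` with `β' i = β i + ς i ρ i / 2`, `ρ' i = ρ i / 4`: `piece`: `d' (y, s, t) = d (y, 1/2 + s/4, t) = b (cj (ς i) ((y - c i) / μ i), β' i + ς i ρ' i s, t)`, and `Rt d o` fixes `d (y, s₁, t)` for `|s₁| ≥ 1/8` (`rt_fix`; `1/2 + s/4 > 1/4`).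
`inter`, `off`, `InB b̃ d'`: if `d' (y, s, t) = Rt d o x` then `x = d (y, 1/2 + s/4, t)` (`rt_fix`, `rt_inj`).
`gt_le` for `K̃, b̃, d', -o`, with `θ'` and `θ` exchanged: hypothesis `Carries (Tw b̃ θ' ∘ K̃) = Carries (Rt d o ∘ Tw b θ' ∘ K)` (`rt_tw`), conclusion `Carries (Rt d' (-o) ∘ Rt d o ∘ Tw b θ ∘ K)`.
`ring_perm` gives `F`.  Claim `F (K₂ l) = Rt d' (-o) (Rt d o (K₂ l))`, `K₂ l = Tw b θ (K l)`: if `K₂ l = d (y, s, t)` with `‖y‖ < 1`, `|s| < 1`, then `‖y‖ ≤ 1/2` (if `K l` is in the box `b`, then `K₂ l` is in the box `b`: `hin`; if not, `K₂ l = K l`: `hp.off`; periodicity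
as in Par).  `|s| < 1/8`: `gs (4 (s - 1/2)) = 0`, both are `d (ex (o gs s) y, s, t)`; `|s - 1/2| < 1/32`: `gs s = 1`, `F` gives `ex (o (1 - gs (4 (s - 1/2))))`, `Rt d'(-o)` gives `Ro (-o gs (4 (s - 1/2)))`, equal as `ex o = 1`; other `s`:
`gs s - gs (4 (s - 1/2))` is an integer, `Rt d o`, `Rt d' (-o)` fix the point (`rt_fix`, for `d'` with `s₁ = 4 (s - 1/2)`, `|s₁| ≥ 1/8`; if `|s₁| ≥ 2` use `rt_out`).  If `K₂ l` is not in `d ({‖y‖ < 1, |s| < 1})` everything is the identity.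
Then `PTH.Carries.map` with `F.symm` (`PTH.ld_perm_symm`).
-/

open scoped Manifold ContDiff Topology
open Set Filter
open Complex (I)
open Pool.Agent.RSG (E4 cj ex)

namespace Pool.Agent.SPR

open Pool.Agent.RBM (Box gs Ro MsR IsM)
open Pool.Agent.COR (BBox EquiB TwoStrands CPieces)

theorem GtB_gs0 {s : ℝ} (h : s ≤ -(1 / 8)) : gs s = 0 := CSG.stp_zero (by norm_num) h

theorem GtB_gs1 {s : ℝ} (h : 1 / 16 ≤ s) : gs s = 1 := CSG.stp_one (by norm_num) h

theorem GtB_gs_int {s : ℝ} (h : 1 / 8 ≤ |s|) : ∃ m : ℤ, gs s = m := by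
  rcases le_abs.1 h with h1 | h1
  · exact ⟨1, by rw [GtB_gs1 (by linarith)]; simp⟩
  · exact ⟨0, by rw [GtB_gs0 (by linarith)]; simp⟩

theorem GtB_ivt {f : ℝ → ℝ} (hf : ContDiff ℝ ∞ f) {x : ℝ} (h1 : f (-(1 / 2)) ≤ x) (h2 : x ≤ f (1 / 2)) :
    ∃ u, |u| ≤ 1 / 2 ∧ f u = x := by
  obtain ⟨u, hu, he⟩ := intermediate_value_Icc (by norm_num : (-(1 / 2) : ℝ) ≤ 1 / 2)
    hf.continuous.continuousOn ⟨h1, h2⟩
  exact ⟨u, abs_le.2 hu, he⟩

section
variable {EP : Type*} [NormedAddCommGroup EP] [NormedSpace ℝ EP] {HP : Type*} [TopologicalSpace HP]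
  {IP : ModelWithCorners ℝ EP HP} {P : Type*} [TopologicalSpace P] [ChartedSpace HP P]
  {b d : ℂ × ℝ × ℝ → P} {a : ℝ → P → P} {K : ℝ → P} {R S o : ℝ}

/-- the shifted disc box -/
noncomputable def GtB_d (d : ℂ × ℝ × ℝ → P) (q : ℂ × ℝ × ℝ) : P := d (q.1, 1 / 2 + q.2.1 / 4, q.2.2)

noncomputable def GtB_eq : (ℂ × ℝ × ℝ) ≃ (ℂ × ℝ × ℝ) where
  toFun q := (q.1, 1 / 2 + q.2.1 / 4, q.2.2)
  invFun q := (q.1, 4 * (q.2.1 - 1 / 2), q.2.2)
  left_inv := by
    rintro ⟨y, s, t⟩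
    refine Prod.ext rfl (Prod.ext ?_ rfl)
    show 4 * (1 / 2 + s / 4 - 1 / 2) = s
    ring
  right_inv := by
    rintro ⟨y, s, t⟩
    refine Prod.ext rfl (Prod.ext ?_ rfl)
    show 1 / 2 + 4 * (s - 1 / 2) / 4 = s
    ring

theorem GtB_ld (x : ℂ × ℝ × ℝ) :
    IsLocalDiffeomorphAt 𝓘(ℝ, ℂ × ℝ × ℝ) 𝓘(ℝ, ℂ × ℝ × ℝ) ∞ GtB_eq x := by
  refine CSG.ld_of_perm ?_ ?_ x
  · show ContDiff ℝ ∞ fun q : ℂ × ℝ × ℝ => (q.1, 1 / 2 + q.2.1 / 4, q.2.2)
    fun_prop
  · show ContDiff ℝ ∞ fun q : ℂ × ℝ × ℝ => (q.1, 4 * (q.2.1 - 1 / 2), q.2.2)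
    fun_prop

theorem GtB_lt {s : ℝ} (h : |s| < 2) : |1 / 2 + s / 4| < 1 := by
  rw [abs_lt] at h ⊢
  constructor <;> linarith [h.1, h.2]

theorem GtB_ge {s : ℝ} (h : |s| ≤ 1) : 1 / 8 ≤ |1 / 2 + s / 4| := by
  rw [abs_le] at h
  exact le_trans (by linarith [h.1] : (1 / 8 : ℝ) ≤ 1 / 2 + s / 4) (le_abs_self _)

theorem GtB_le {s : ℝ} (h : |s| ≤ 1) : |1 / 2 + s / 4| ≤ 1 := by
  rw [abs_le] at h ⊢
  constructor <;> linarith [h.1, h.2]

theorem GtB_bbox (hd : BBox IP d R S) (hS : 1 < S) : BBox IP (GtB_d d) R 2 where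
  per z s t := hd.per _ _ _
  loc z s t hz hs := by
    have h1 := hd.loc z (1 / 2 + s / 4) t hz (lt_trans (GtB_lt hs) hS)
    exact IsLocalDiffeomorphAt.comp (hf := GtB_ld (z, s, t)) (hg := h1)
  inj z s t z' s' t' hz hs hz' hs' he := by
    obtain ⟨h1, h2, h3⟩ := hd.inj z (1 / 2 + s / 4) t z' (1 / 2 + s' / 4) t' hz (lt_trans (GtB_lt hs) hS)
      hz' (lt_trans (GtB_lt hs') hS) he
    exact ⟨h1, by linarith, h3⟩

/-- The shifted box contains only fixed points of `Rt d o`. -/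
theorem GtB_cancel (hd : BBox IP d R S) (hR : 1 < R) (hS : 1 < S) {y : ℂ} {s t : ℝ} (hy : ‖y‖ ≤ 1)
    (hs : |s| ≤ 1) {p : P} (h : Rt d o p = d (y, 1 / 2 + s / 4, t)) : p = d (y, 1 / 2 + s / 4, t) := by
  apply rt_inj (o := o) hd hR hS
  rw [h, rt_fix hd hR hS (lt_of_le_of_lt hy hR) (lt_of_le_of_lt (GtB_le hs) hS) (Or.inr (GtB_ge hs)) t]

/-- the two full twists in `d` -/
theorem GtB_claim (hd : BBox IP d R S) (hR : 1 < R) (hS : 1 < S) (ho : o = 1 ∨ o = -1) {F : P → P}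
    (hF : ∀ (y : ℂ) (s t : ℝ), ‖y‖ ≤ 3 / 4 → |s| < 1 →
      F (d (y, s, t)) = d (ex (o * (gs s - gs (4 * (s - 1 / 2)))) * y, s, t))
    (hF' : ∀ p, (∀ (y : ℂ) (s t : ℝ), ‖y‖ < 1 → |s| < 1 → d (y, s, t) ≠ p) → F p = p) {p : P}
    (hp : ∀ (y : ℂ) (s t : ℝ), ‖y‖ < 1 → |s| < 1 → d (y, s, t) = p → ‖y‖ ≤ 1 / 2) :
    F p = Rt (GtB_d d) (-o) (Rt d o p) := by
  have exo : ex o = 1 := by
    rcases ho with h | h
    · rw [h]
      have := RSG.ex_int 1
      simpa using this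
    · rw [h]
      have := RSG.ex_int (-1)
      simpa using this
  by_cases hc : ∃ (y : ℂ) (s t : ℝ), ‖y‖ < 1 ∧ |s| < 1 ∧ d (y, s, t) = p
  · obtain ⟨y, s, t, hy, hs, he⟩ := hc
    have hy2 : ‖y‖ ≤ 1 / 2 := hp y s t hy hs he
    rw [← he, hF y s t (by linarith) hs]
    have hyR : ‖y‖ < R := by linarith
    have hsS : |s| < S := by linarith
    have hd' := GtB_bbox hd hS
    -- points which are not in the shifted disc
    have hfix : ∀ z : ℂ, ‖z‖ < 1 → 1 / 8 ≤ |4 * (s - 1 / 2)| →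
        Rt (GtB_d d) (-o) (d (z, s, t)) = d (z, s, t) := by
      intro z hz hs4
      apply rt_out
      intro y' s' t' hy' hs' he'
      have h1 := hd.inj y' (1 / 2 + s' / 4) t' z s t (by linarith)
        (lt_trans (GtB_lt (by linarith)) hS) (by linarith) hsS he'
      have h2 : 4 * (s - 1 / 2) = s' := by linarith [h1.2.1]
      rw [h2] at hs4
      linarith
    rcases lt_or_ge |s| (1 / 8) with h8 | h8
    · have h9 := abs_lt.1 h8
      have h10 : 1 / 8 ≤ |4 * (s - 1 / 2)| := by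
        rw [le_abs]
        right
        linarith [h9.2]
      rw [rt_box hd hR hS hy h8 t, RBM.Ro_low _ (by linarith : ‖y‖ ≤ 3 / 4), hfix _ ?_ h10,
        GtB_gs0 (by linarith [h9.2] : 4 * (s - 1 / 2) ≤ -(1 / 8)), sub_zero]
      rw [norm_mul, RSG.ex_norm, one_mul]
      exact hy
    · rw [rt_fix hd hR hS hyR hsS (Or.inr h8) t]
      rcases lt_or_ge |4 * (s - 1 / 2)| (1 / 8) with h4 | h4
      · have h9 := abs_lt.1 h4
        rw [GtB_gs1 (by linarith [h9.1] : 1 / 16 ≤ s)]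
        have e1 : d (y, s, t) = GtB_d d (y, 4 * (s - 1 / 2), t) := by
          show d (y, s, t) = d (y, 1 / 2 + 4 * (s - 1 / 2) / 4, t)
          congr 2
          congr 1
          ring
        rw [e1, rt_box hd' hR (by norm_num) hy h4 t, RBM.Ro_low _ (by linarith : ‖y‖ ≤ 3 / 4)]
        show _ = d (ex (-o * gs (4 * (s - 1 / 2))) * y, 1 / 2 + 4 * (s - 1 / 2) / 4, t)
        have e2 : 1 / 2 + 4 * (s - 1 / 2) / 4 = s := by ring
        have e3 : o * (1 - gs (4 * (s - 1 / 2))) = o + -o * gs (4 * (s - 1 / 2)) := by ring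
        rw [e2, e3, RSG.ex_add, exo, one_mul]
      · rw [hfix y hy h4]
        obtain ⟨m1, hm1⟩ := GtB_gs_int h8
        obtain ⟨m2, hm2⟩ := GtB_gs_int h4
        have e4 : ex (o * (gs s - gs (4 * (s - 1 / 2)))) = 1 := by
          rw [hm1, hm2]
          rcases ho with h | h
          · rw [h]
            have := RSG.ex_int (m1 - m2)
            push_cast at this
            rw [one_mul]
            exact this
          · rw [h]
            have := RSG.ex_int (-(m1 - m2))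
            push_cast at this
            rw [neg_one_mul]
            exact this
        rw [e4, one_mul]
  · push Not at hc
    rw [hF' p hc, rt_out (d := d) (fun y s t hy hs => hc y s t hy (by linarith)), rt_out]
    intro y s t hy hs
    exact hc y (1 / 2 + s / 4) t hy (GtB_lt (by linarith))

end

/-- the part of `K₂` in the disc box -/
theorem GtB_half {K : ℝ → PTH.SP} (hper : ∀ l, K (l + 1) = K l)
    {b d : ℂ × ℝ × ℝ → PTH.SP} (hb : Box PTH.ISP b 5) {f₁ f₂ : ℝ → ℝ} {ε₁ ε₂ : ℝ}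
    (hs : TwoStrands b K f₁ f₂ ε₁ ε₂) {k : ℕ} {c μ : Fin k → ℂ} {β ς η ρ : Fin k → ℝ}
    (hp : CPieces K b d f₁ f₂ c μ β ς η ρ) (hin : InB b d) (θ : ℝ → ℝ) (l : ℝ) (y : ℂ) (s t : ℝ)
    (hy : ‖y‖ < 1) (hs1 : |s| < 1) (he : d (y, s, t) = Tw b θ (K l)) : ‖y‖ ≤ 1 / 2 := by
  by_cases hc : ∃ (z : ℂ) (s' t' : ℝ), ‖z‖ < 5 ∧ |s'| < 1 ∧ b (z, s', t') = K l
  · obtain ⟨z, s', t', hz, hs', hK⟩ := hc
    rw [← hK, tw_box hb θ hz hs'] at he
    exact (hin y s t _ s' t' hy.le hs1.le (by rw [norm_mul, RSG.ex_norm, one_mul]; exact hz) hs' he).2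
  · push Not at hc
    rw [tw_out θ hc] at he
    exfalso
    have hperZ : ∀ (m : ℤ) (x : ℝ), K (x + m) = K x := by
      intro m
      induction m using Int.induction_on with
      | zero => intro x; simp
      | succ n ih =>
        intro x
        have h1 := ih (x + 1)
        have h2 := hper x
        push_cast at h1 ⊢
        rw [show x + ((n : ℝ) + 1) = x + 1 + n by ring, h1, h2]
      | pred n ih =>
        intro x
        have h1 := ih (x - 1)
        have h2 := hper (x - 1)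
        push_cast at h1 ⊢
        rw [show x + (-(n : ℝ) - 1) = x - 1 + -n by ring, h1, ← h2, sub_add_cancel]
    -- choose the integer translate
    obtain ⟨m, hm⟩ : ∃ m : ℤ, f₁ (-(1 / 2)) ≤ l + m ∧ l + m < f₁ (-(1 / 2)) + 1 := by
      refine ⟨⌈f₁ (-(1 / 2)) - l⌉, ?_, ?_⟩
      · linarith [Int.le_ceil (f₁ (-(1 / 2)) - l)]
      · linarith [Int.ceil_lt_add_one (f₁ (-(1 / 2)) - l)]
    have hKm : K (l + m) = K l := hperZ m l
    rcases le_total (l + m) (f₁ (1 / 2)) with h1 | h1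
    · obtain ⟨u, hu, hfu⟩ := GtB_ivt hs.smooth₁ hm.1 h1
      have h2 := hs.strand₁ u (by linarith)
      rw [hfu, hKm] at h2
      refine hc 1 (ε₁ * u) 0 (by norm_num) ?_ h2.symm
      rcases hs.sign₁ with h | h <;> rw [h] <;> simp <;> linarith
    · rcases le_total (l + m) (f₂ (-(1 / 2))) with h2 | h2
      · exact hp.off (l + m) (Or.inl ⟨h1, h2⟩) y s t hy.le hs1.le (by rw [hKm]; exact he.symm)
      · rcases le_total (l + m) (f₂ (1 / 2)) with h3 | h3
        · obtain ⟨u, hu, hfu⟩ := GtB_ivt hs.smooth₂ h2 h3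
          have h4 := hs.strand₂ u (by linarith)
          rw [hfu, hKm] at h4
          refine hc (-1) (ε₂ * u) 0 (by norm_num) ?_ h4.symm
          rcases hs.sign₂ with h | h <;> rw [h] <;> simp <;> linarith
        · exact hp.off (l + m) (Or.inr ⟨h3, hm.2.le⟩) y s t hy.le hs1.le (by rw [hKm]; exact he.symm)

theorem GtB_pieces {K : ℝ → PTH.SP} {b d : ℂ × ℝ × ℝ → PTH.SP} {f₁ f₂ : ℝ → ℝ} {R₁ S₁ : ℝ}
    (hR : 1 < R₁) (hS : 1 < S₁) (hd : BBox PTH.ISP d R₁ S₁) {k : ℕ} {c μ : Fin k → ℂ}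
    {β ς η ρ : Fin k → ℝ} (hp : CPieces K b d f₁ f₂ c μ β ς η ρ) (o : ℝ) :
    CPieces (fun l => Rt d o (K l)) (fun q => Rt d o (b q)) (GtB_d d) f₁ f₂ c μ
      (fun i => β i + ς i * ρ i / 2) ς η (fun i => ρ i / 4) where
  eta := hp.eta
  mu := hp.mu
  rho i := by
    have := hp.rho i
    linarith
  small := hp.small
  dist := hp.dist
  range i := by
    have h1 := hp.range i
    have h2 := hp.rho i
    have h3 : |β i + ς i * ρ i / 2| ≤ |β i| + ρ i / 2 := by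
      refine le_trans (abs_add_le _ _) ?_
      rcases hp.sign i with h | h <;> rw [h]
      · rw [one_mul, abs_of_pos (by linarith : (0 : ℝ) < ρ i / 2)]
      · rw [neg_one_mul, neg_div, abs_neg, abs_of_pos (by linarith : (0 : ℝ) < ρ i / 2)]
    linarith
  sign := hp.sign
  piece i y s t hy hs := by
    have hy1 : ‖y‖ ≤ 1 / 100 := by
      have h1 := hp.small i
      have h2 : ‖y‖ ≤ ‖y - c i‖ + ‖c i‖ := by
        have := norm_add_le (y - c i) (c i)
        rwa [sub_add_cancel] at this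
      linarith
    have h1 := hp.piece i y (1 / 2 + s / 4) t hy (GtB_lt (by linarith))
    have e1 : β i + ς i * ρ i * (1 / 2 + s / 4) = β i + ς i * ρ i / 2 + ς i * (ρ i / 4) * s := by ring
    rw [e1] at h1
    show d (y, 1 / 2 + s / 4, t) = Rt d o (b (cj (ς i) ((y - c i) / μ i),
      β i + ς i * ρ i / 2 + ς i * (ρ i / 4) * s, t))
    rw [← h1]
    exact (rt_fix hd hR hS (by linarith) (lt_trans (GtB_lt (by linarith)) hS)
      (Or.inr (GtB_ge hs.le)) t).symm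
  inter y s t z s' t' hy hs hz hs' he := by
    have h1 := GtB_cancel (o := o) hd hR hS hy.le hs.le (p := b (z, s', t')) he.symm
    exact hp.inter y (1 / 2 + s / 4) t z s' t' hy (GtB_lt (by linarith)) hz hs' h1.symm
  off l hl y s t hy hs he := by
    have h1 := GtB_cancel (o := o) hd hR hS hy hs (p := K l) he
    exact hp.off l hl y (1 / 2 + s / 4) t hy (GtB_le hs) h1

/-- **Full twist of a disc.** -/
theorem gt_iff {a : ℝ → PTH.SP → PTH.SP} (ha : PTH.Act PTH.ISP a) {K : ℝ → PTH.SP}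
    {b d : ℂ × ℝ × ℝ → PTH.SP} (hb : Box PTH.ISP b 5) (heqb : EquiB a b) {f₁ f₂ : ℝ → ℝ} {ε₁ ε₂ : ℝ}
    (hs : TwoStrands b K f₁ f₂ ε₁ ε₂) {R₁ S₁ : ℝ} (hR : 1 < R₁) (hS : 1 < S₁)
    (hd : BBox PTH.ISP d R₁ S₁) (heqd : EquiB a d) {k : ℕ} {c μ : Fin k → ℂ} {β ς η ρ : Fin k → ℝ}
    (hp : CPieces K b d f₁ f₂ c μ β ς η ρ) (hin : InB b d) {o : ℝ} (ho : o = 1 ∨ o = -1)
    {θ θ' : ℝ → ℝ} {m m' : ℤ} (hθ : IsStep θ m) (hθ' : IsStep θ' m') (he : Even (m - m' - k))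
    {n : ℤ} {X : Type*} [TopologicalSpace X] [ChartedSpace E4 X] [T2Space X] :
    PTH.Carries PTH.ISP a n (fun l => Tw b θ (K l)) X ↔
      PTH.Carries PTH.ISP a n (fun l => Rt d o (Tw b θ' (K l))) X := by
  constructor
  · exact gt_le ha hb heqb hs hR hS hd heqd hp hin ho hθ hθ' he
  · intro h
    have hper : ∀ l, K (l + 1) = K l := by
      intro l
      obtain ⟨κ, j, hT, -, hK, -⟩ := h
      have h1 := hK (l + 1)
      rw [hT.perl, hK l] at h1
      exact (tw_inj hb θ' (rt_inj hd hR hS h1)).symm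
    have hd' := GtB_bbox hd hS
    have heqd' : EquiB a (GtB_d d) := fun z s t => heqd z (1 / 2 + s / 4) t
    have hb' := rt_boxb hb hd hR hS hin ho
    have heqb' : EquiB a (fun q => Rt d o (b q)) := by
      intro z s t
      show Rt d o (b (z, s, t)) = a t (Rt d o (b (z, s, 0)))
      rw [heqb z s t, rt_equi ha hd hR hS heqd]
    have hs' := rt_two hs hR hS hd o
    have hp' := GtB_pieces hR hS hd hp o
    have hin' : InB (fun q => Rt d o (b q)) (GtB_d d) := by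
      intro y s t z s' t' hy hs0 hz hs0' he0
      have h1 := GtB_cancel (o := o) hd hR hS hy hs0 (p := b (z, s', t')) he0.symm
      exact hin y (1 / 2 + s / 4) t z s' t' hy (GtB_le hs0) hz hs0' h1.symm
    have he' : Even (m' - m - k) := by
      have h1 : m' - m - (k : ℤ) = -(m - m' - k) - 2 * k := by ring
      rw [h1]
      exact he.neg.sub (even_two_mul _)
    have h2 : PTH.Carries PTH.ISP a n
        (fun l => Tw (fun q => Rt d o (b q)) θ' (Rt d o (K l))) X := by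
      have e1 : (fun l => Tw (fun q => Rt d o (b q)) θ' (Rt d o (K l)))
          = fun l => Rt d o (Tw b θ' (K l)) := by
        funext l
        exact rt_tw (a := a) hper hb hs hR hS hd hin ho θ' l
      rw [e1]
      exact h
    have h3 := gt_le ha hb' heqb' hs' hR (by norm_num) hd' heqd' hp' hin'
      (o := -o) (by rcases ho with h | h <;> rw [h] <;> simp) hθ' hθ he' h2
    obtain ⟨F, hFl, hFa, hF, hF'⟩ := ring_perm ha hd hR hS heqd o
    have h4 : (fun l => Rt (GtB_d d) (-o) (Tw (fun q => Rt d o (b q)) θ (Rt d o (K l))))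
        = fun l => F (Tw b θ (K l)) := by
      funext l
      rw [rt_tw (a := a) hper hb hs hR hS hd hin ho θ l]
      exact (GtB_claim hd hR hS ho hF hF' (fun y s t hy hs1 he1 =>
        GtB_half hper hb hs hp hin θ l y s t hy hs1 he1)).symm
    rw [h4] at h3
    have h5 := PTH.Carries.map F.symm (fun p => PTH.ld_perm_symm hFl p) (fun t p => by
      rw [Equiv.symm_apply_eq, hFa, Equiv.apply_symm_apply]) h3
    have e5 : (fun l => F.symm (F (Tw b θ (K l)))) = fun l => Tw b θ (K l) := by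
      funext l
      rw [Equiv.symm_apply_apply]
    rw [e5] at h5
    exact h5

end Pool.Agent.SPR
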