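import Pool.Agent.SPR.LiA
import Pool.Agent.SPR.GtB

/-!
# SPR/LiB: the twist theorems for arcs   (difficulty 3)

Let `K₁, K₂` be knots with arcs `γ₁, γ₂` and the same tail; `b = lft C β`.
* `untwist`: `K l = Tw b (-θ) (K₁ l)`.  Then `Tw b θ (K l) = K₁ l` for all `l` (`tw_add`, `tw_zero`).  `K` is periodic.  `K l = C (γ l, 0)` for `|l| < 1/4`: `l = f₁ u`: `K₁ l = C (γ₁ l, 0) = b (ex (θ (ε₁ u)), ε₁ u, 0) = Tw b θ (b (1, ε₁ u, 0))` (`tw_strand`,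
  `chart_mt`), so `K l = b (1, ε₁ u, 0) = C (γ l, 0)` (`ATwo.strand₁`, `chart_mt`); `l = f₂ u` similarly (`-ex (θ ..) = ex (θ ..) * (-1)`); other `l`: `MT (γ l) (γ₁ l)`, `K₁ l = C (γ l, 0)`, by `ATwo.off` it is not in the box `b` (`chart_eq`), `tw_out`.
  `1/4 ≤ l ≤ 3/4`: `K₁ l` is outside `V`, hence outside `b` (`HBox.inn`), so `K l = K₁ l`.  So `AKnot C γ K` (`‖(γ l).1‖ < 1`: for `l` in the windows by `HBox.inn` and `MT`, for other `l` from `‖(γ₁ l).1‖ < 1`).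
* `arc_tw`: the `K` of `γ₁` (`untwist`, `θ`) and the `K` of `γ₂` (`θ'`) are equal: both are `C (γ l, 0)` for `|l| < 1/4`, on `[1/4, 3/4]` both are the common tail (here `K₂ l = K₁ l`), and periodic.  `tw_par` (both directions) for `K` (`atwo_lift`).
* `arc_gt`: `K` from `untwist` for `γ₁`, `θ`.  `K₂ l = Rt d o (K l)`, `d = lft C δ`: for `|l| < 1/4`: if `MT (δ (y, s)) (γ l)` with `‖y‖ < 1`, `|s| < 1/8`: `K l = d (y, s, 0)`, `rt_box`, `IsRtArc`, `chart_mt`; otherwise `rt_out` (`chart_eq`); for the tail: outside `V`.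
  `gt_iff` with `θ' = 0`, `m' = 0` (`tw_zero`), the hypotheses from `atwo_lift`, `apieces_lift`, `lft_box`, `lft_bbox`, `lft_equi`.
-/

open scoped Manifold ContDiff Topology
open Set Filter
open Complex (I)
open Pool.Agent.RSG (E4 cj ex)

namespace Pool.Agent.SPR

open Pool.Agent.RBM (Box gs Ro)
open Pool.Agent.COR (BBox EquiB TwoStrands CPieces)

universe u

theorem LiB_MT_fst {x y : ℂ × ℝ} (h : MT x y) : y.1 = x.1 := by
  obtain ⟨m, rfl⟩ := h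
  simp

theorem LiB_abs {ε u : ℝ} (hε : ε = 1 ∨ ε = -1) (hu : |u| < 1) : |ε * u| < 1 := by
  rcases hε with rfl | rfl <;> simpa using hu

theorem LiB_lft (C : ℂ × ℝ × ℝ → PTH.SP) (β : ℂ × ℝ → ℂ × ℝ) (z : ℂ) (s t : ℝ) :
    lft C β (z, s, t) = C ((β (z, s)).1, (β (z, s)).2, t) := rfl

theorem LiB_per_ext {f g : ℝ → PTH.SP} (hf : ∀ l, f (l + 1) = f l) (hg : ∀ l, g (l + 1) = g l)
    (h1 : ∀ l, |l| < 1 / 4 → f l = g l) (h2 : ∀ l, 1 / 4 ≤ l → l ≤ 3 / 4 → f l = g l) : f = g := by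
  have hp : Function.Periodic (fun l => (f l, g l)) 1 := fun l => by
    change (f (l + 1), g (l + 1)) = (f l, g l)
    rw [hf, hg]
  funext x
  obtain ⟨y, hy, hxy⟩ := hp.exists_mem_Ioc one_pos x (-(1 / 4))
  have e1 : f x = f y := congrArg Prod.fst hxy
  have e2 : g x = g y := congrArg Prod.snd hxy
  rw [e1, e2]
  rcases lt_or_ge y (1 / 4) with h | h
  · exact h1 y (abs_lt.2 ⟨hy.1, h⟩)
  · refine h2 y h ?_
    have := hy.2
    linarith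

theorem LiB_cancel {C : ℂ × ℝ × ℝ → PTH.SP} {β : ℂ × ℝ → ℂ × ℝ} (hb : Box PTH.ISP (lft C β) 5)
    (θ : ℝ → ℝ) (p : PTH.SP) : Tw (lft C β) (fun s => -θ s) (Tw (lft C β) θ p) = p := by
  rw [tw_add hb]
  have : (fun s => -θ s + θ s) = fun _ => (0 : ℝ) := by
    funext s
    ring
  rw [this, tw_zero hb]

theorem LiB_cancel' {C : ℂ × ℝ × ℝ → PTH.SP} {β : ℂ × ℝ → ℂ × ℝ} (hb : Box PTH.ISP (lft C β) 5)
    (θ : ℝ → ℝ) (p : PTH.SP) : Tw (lft C β) θ (Tw (lft C β) (fun s => -θ s) p) = p := by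
  rw [tw_add hb]
  have : (fun s => θ s + -θ s) = fun _ => (0 : ℝ) := by
    funext s
    ring
  rw [this, tw_zero hb]

theorem untwist {a : ℝ → PTH.SP → PTH.SP} {C : ℂ × ℝ × ℝ → PTH.SP} {K₁ : ℝ → PTH.SP}
    {β : ℂ × ℝ → ℂ × ℝ} {γ γ₁ : ℝ → ℂ × ℝ} {f₁ f₂ : ℝ → ℝ} {ε₁ ε₂ : ℝ} (ha : PTH.Act PTH.ISP a)
    (hC : PTH.VChart PTH.ISP a C) (hK : AKnot PTH.ISP C γ₁ K₁) (hβ : HBox β 5 1)
    (hs : ATwo β γ f₁ f₂ ε₁ ε₂) {θ : ℝ → ℝ} (h₁ : IsTwArc β f₁ f₂ ε₁ ε₂ θ γ γ₁) :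
    AKnot PTH.ISP C γ (fun l => Tw (lft C β) (fun s => -θ s) (K₁ l)) ∧
      (∀ l, Tw (lft C β) θ (Tw (lft C β) (fun s => -θ s) (K₁ l)) = K₁ l) ∧
      ∀ l, 1 / 4 ≤ l → l ≤ 3 / 4 → Tw (lft C β) (fun s => -θ s) (K₁ l) = K₁ l := by
  have hb : Box PTH.ISP (lft C β) 5 := lft_box ha hC hβ
  have htail : ∀ l, 1 / 4 ≤ l → l ≤ 3 / 4 → Tw (lft C β) (fun s => -θ s) (K₁ l) = K₁ l := by
    intro l hl1 hl2
    apply tw_out
    intro z s t hz hs' heq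
    exact hK.outer l hl1 hl2 _ _ _ (hβ.inn z s hz hs') heq.symm
  refine ⟨⟨?_, ?_, ?_⟩, fun l => LiB_cancel' hb θ _, htail⟩
  · intro l
    rw [hK.per]
  · intro l hl
    obtain ⟨hn, hKl⟩ := hK.inner l hl
    by_cases hf₁ : ∃ u, |u| < 1 ∧ l = f₁ u
    · obtain ⟨u, hu, rfl⟩ := hf₁
      have hsu := LiB_abs hs.sign₁ hu
      have h1 : ‖(1 : ℂ)‖ < 5 := by simp
      have hm := hs.strand₁ u hu
      have hm' := h₁.1 u hu
      refine ⟨?_, ?_⟩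
      · rw [LiB_MT_fst hm]
        exact hβ.inn _ _ h1 hsu
      · have e1 : K₁ (f₁ u) = Tw (lft C β) θ (lft C β (1, ε₁ * u, 0)) := by
          rw [tw_strand hb θ (Or.inl rfl) hsu, mul_one, LiB_lft, hKl]
          exact (chart_mt hC hm' 0).symm
        rw [e1, LiB_cancel hb, LiB_lft]
        exact chart_mt hC hm 0
    · by_cases hf₂ : ∃ u, |u| < 1 ∧ l = f₂ u
      · obtain ⟨u, hu, rfl⟩ := hf₂
        have hsu := LiB_abs hs.sign₂ hu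
        have h1 : ‖(-1 : ℂ)‖ < 5 := by simp
        have hm := hs.strand₂ u hu
        have hm' := h₁.2.1 u hu
        refine ⟨?_, ?_⟩
        · rw [LiB_MT_fst hm]
          exact hβ.inn _ _ h1 hsu
        · have e1 : K₁ (f₂ u) = Tw (lft C β) θ (lft C β (-1, ε₂ * u, 0)) := by
            rw [tw_strand hb θ (Or.inr rfl) hsu, mul_neg_one, LiB_lft, hKl]
            exact (chart_mt hC hm' 0).symm
          rw [e1, LiB_cancel hb, LiB_lft]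
          exact chart_mt hC hm 0
      · have hoff : ∀ u, |u| < 1 → l ≠ f₁ u ∧ l ≠ f₂ u := fun u hu =>
          ⟨fun h => hf₁ ⟨u, hu, h⟩, fun h => hf₂ ⟨u, hu, h⟩⟩
        have hm := h₁.2.2 l hl hoff
        have hnl : ‖(γ l).1‖ < 1 := by
          rw [← LiB_MT_fst hm]
          exact hn
        have hKl' : K₁ l = C ((γ l).1, (γ l).2, 0) := by
          rw [hKl]
          exact (chart_mt hC hm 0).symm
        refine ⟨hnl, ?_⟩
        rw [tw_out, hKl']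
        intro z s t hz hs' heq
        rw [LiB_lft, hKl'] at heq
        exact hs.off l hl hoff z s hz hs' (chart_eq hC (hβ.inn z s hz hs') hnl heq).1
  · intro l hl1 hl2 z Y t hz
    rw [htail l hl1 hl2]
    exact hK.outer l hl1 hl2 z Y t hz

/-- **Full twists of a ribbon count modulo `2`** (contains the 4-move: `γ₁ = γ`, `θ = 0`, `θ' s = 2 o gs (2 s)`). -/
theorem arc_tw {β : ℂ × ℝ → ℂ × ℝ} {γ γ₁ γ₂ : ℝ → ℂ × ℝ} {f₁ f₂ : ℝ → ℝ} {ε₁ ε₂ : ℝ} (hβ : HBox β 5 1)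
    (hs : ATwo β γ f₁ f₂ ε₁ ε₂) {θ θ' : ℝ → ℝ} {m m' : ℤ} (hθ : IsStep θ m) (hθ' : IsStep θ' m')
    (he : Even (m - m')) (h₁ : IsTwArc β f₁ f₂ ε₁ ε₂ θ γ γ₁) (h₂ : IsTwArc β f₁ f₂ ε₁ ε₂ θ' γ γ₂) :
    PTH.ArcEq.{u} γ₁ γ₂ := by
  intro a C K₁ K₂ n X _ _ _ ha hC hK₁ hK₂ ht
  have hb : Box PTH.ISP (lft C β) 5 := lft_box ha hC hβ
  obtain ⟨A₁, inv₁, tail₁⟩ := untwist ha hC (AKnot.of_vknot hK₁) hβ hs h₁
  obtain ⟨A₂, inv₂, tail₂⟩ := untwist ha hC (AKnot.of_vknot hK₂) hβ hs h₂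
  have hKK : (fun l => Tw (lft C β) (fun s => -θ s) (K₁ l)) =
      fun l => Tw (lft C β) (fun s => -θ' s) (K₂ l) := by
    apply LiB_per_ext A₁.per A₂.per
    · intro l hl
      rw [(A₁.inner l hl).2, (A₂.inner l hl).2]
    · intro l hl1 hl2
      rw [tail₁ l hl1 hl2, tail₂ l hl1 hl2]
      exact (ht l hl1 hl2).symm
  have e₁ : K₁ = fun l => Tw (lft C β) θ (Tw (lft C β) (fun s => -θ s) (K₁ l)) :=
    funext fun l => (inv₁ l).symm
  have e₂ : K₂ = fun l => Tw (lft C β) θ' (Tw (lft C β) (fun s => -θ s) (K₁ l)) := by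
    funext l
    have := congrFun hKK l
    change Tw (lft C β) (fun s => -θ s) (K₁ l) = Tw (lft C β) (fun s => -θ' s) (K₂ l) at this
    rw [this]
    exact (inv₂ l).symm
  have hts := atwo_lift hC A₁ hβ hs
  have heq : EquiB a (lft C β) := lft_equi hC
  constructor
  · intro h
    rw [e₁] at h
    rw [e₂]
    exact tw_par ha hb heq hts hθ hθ' he h
  · intro h
    rw [e₂] at h
    rw [e₁]
    refine tw_par ha hb heq hts hθ' hθ ?_ h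
    have : m' - m = -(m - m') := by ring
    rw [this]
    exact he.neg

/-- **Full twist of a disc which meets the ribbon in `k` pieces.** -/
theorem arc_gt {β δ : ℂ × ℝ → ℂ × ℝ} {γ γ₁ γ₂ : ℝ → ℂ × ℝ} {f₁ f₂ : ℝ → ℝ} {ε₁ ε₂ : ℝ} (hβ : HBox β 5 1)
    (hs : ATwo β γ f₁ f₂ ε₁ ε₂) {R S : ℝ} (hδ : HBox δ R S) (hR : 1 < R) (hS : 1 < S) {k : ℕ}
    {c μ : Fin k → ℂ} {bi ς η ρ : Fin k → ℝ} (hp : APieces γ β δ f₁ f₂ c μ bi ς η ρ) {o : ℝ}
    (ho : o = 1 ∨ o = -1) {θ : ℝ → ℝ} {m : ℤ} (hθ : IsStep θ m) (he : Even (m - k))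
    (h₁ : IsTwArc β f₁ f₂ ε₁ ε₂ θ γ γ₁) (h₂ : IsRtArc δ o γ γ₂) : PTH.ArcEq.{u} γ₁ γ₂ := by
  intro a C K₁ K₂ n X _ _ _ ha hC hK₁ hK₂ ht
  have hb : Box PTH.ISP (lft C β) 5 := lft_box ha hC hβ
  have hd : BBox PTH.ISP (lft C δ) R S := lft_bbox ha hC hδ
  obtain ⟨A₁, inv₁, tail₁⟩ := untwist ha hC (AKnot.of_vknot hK₁) hβ hs h₁
  obtain ⟨hp', hin⟩ := apieces_lift hC A₁ hβ hs hδ hR hS hp
  have hKK : (fun l => Rt (lft C δ) o (Tw (lft C β) (fun s => -θ s) (K₁ l))) = K₂ := by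
    apply LiB_per_ext (fun l => congrArg (Rt (lft C δ) o) (A₁.per l)) hK₂.per
    · intro l hl
      obtain ⟨hn, hl1⟩ := A₁.inner l hl
      obtain ⟨hn2, hl2⟩ := hK₂.inner l hl
      rw [hl1, hl2]
      by_cases hex : ∃ (y : ℂ) (s : ℝ), ‖y‖ < 1 ∧ |s| < 1 / 8 ∧ MT (δ (y, s)) (γ l)
      · obtain ⟨y, s, hy, hs', hm⟩ := hex
        rw [← chart_mt hC hm 0, ← LiB_lft C δ y s 0, rt_box hd hR hS hy hs' 0, LiB_lft]
        exact chart_mt hC (h₂.1 l y s hl hy hs' hm) 0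
      · have hno : ∀ (y : ℂ) (s : ℝ), ‖y‖ < 1 → |s| < 1 / 8 → ¬ MT (δ (y, s)) (γ l) :=
          fun y s hy hs' hm => hex ⟨y, s, hy, hs', hm⟩
        rw [rt_out]
        · exact chart_mt hC (h₂.2 l hl hno) 0
        · intro y s t hy hs' heq
          rw [LiB_lft] at heq
          have hin1 : ‖(δ (y, s)).1‖ < 1 := hδ.inn y s (hy.trans hR) (hs'.trans (by linarith))
          exact hno y s hy hs' (chart_eq hC hin1 hn heq).1
    · intro l hl1 hl2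
      rw [tail₁ l hl1 hl2, rt_out]
      · exact (ht l hl1 hl2).symm
      · intro y s t hy hs' heq
        have hin1 : ‖(δ (y, s)).1‖ < 1 := hδ.inn y s (hy.trans hR) (hs'.trans (by linarith))
        exact hK₁.outer l hl1 hl2 _ _ _ hin1 heq.symm
  have e₁ : K₁ = fun l => Tw (lft C β) θ (Tw (lft C β) (fun s => -θ s) (K₁ l)) :=
    funext fun l => (inv₁ l).symm
  have e₂ : K₂ = fun l => Rt (lft C δ) o
      (Tw (lft C β) (fun _ => 0) (Tw (lft C β) (fun s => -θ s) (K₁ l))) := by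
    rw [← hKK]
    funext l
    rw [tw_zero hb]
  have h0 : IsStep (fun _ => (0 : ℝ)) 0 := ⟨contDiff_const, fun _ _ => rfl, fun _ _ => by simp⟩
  have hmain := gt_iff (n := n) (X := X) ha hb (lft_equi hC) (atwo_lift hC A₁ hβ hs) hR hS hd (lft_equi hC)
    hp' hin ho hθ h0 (by simpa using he)
  rw [← e₁, ← e₂] at hmain
  exact hmain

end Pool.Agent.SPR
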