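import Pool.Agent.SPR.CvS

/-!
# SPR/CvW: the inputs b2e, b2o, b2o' of `CSW.WIn` for `PTH.Gam`   (difficulty 2)

* `mk_GB`: `PTH.mk_gw`, `PTH.mk_xs`: `mk (GB r b) = pw (gaB r b) (2r - 1) * x ^ (-1 - gaB r b (2r - 1))`; `CSW.pw γ (n + 1) = pw γ n * x ^ (γ (n+1) - γ n) * y`: `pw (gaB r b) n = y ^ n` for `n < r` (and `n = r` if `b`), `= y ^ j x⁻¹ y ^ (n - j)` with `j = r - 1` (`b = false`, `n ≥ r`), `j = r` (`b = true`, `n > r`): induction on `n`
  (with `n = 2 r - 1`; for `r = 1`, `b = true`: `pw = y`, `x ^ (-1 - 0)`).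
* `mk_GB'`: by induction `pw (fun i => γ i + i) n = s0 (pw γ n)` (for `γ 0 = 0`; `x ^ (γ (n+1) - γ n + 1) y = s0 (x ^ (γ (n+1) - γ n) y)`), exponent of the last factor: `-1 - γ n + 1`.
* `b2_words`: `r` even: `b2e` (`o = 1`) gives `PathEq (wB r b L) (wB' r b L)` (`uB_low`: `wB r b L ρ = qsp .. ρ` for `ρ ≤ 1/8`: `st (5 ρ - 5/2) = 0`, `pos L 0 = 0`); `r` odd: `b2o` with `w = wB r b L`, `w₂ = wB r (!b) L` (`uB_ind`; `epsB (!b) = - epsB b`), `w' = wB' r b L`.  `pathEq_of_words` (`wB_isPath`, `wB'_isPath`, `sumGB`, `wB_sh` ..; `PathEq.symm`),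
  `mem_GamF_iff'`.
-/

open scoped Manifold ContDiff Topology
open Set Filter
open Complex (I)

namespace Pool.Agent.SPR

open Pool.Agent.PTH (IsSeg IsPath SH pos sumZ cat gw xs Gam)
open Pool.Agent.CSW (F2 fx fy s0)

universe u

theorem CvW_pw_zero {γ : ℕ → ℤ} {n : ℕ} (h : ∀ i, i ≤ n → γ i = 0) : CSW.pw γ n = fy ^ n := by
  induction n with
  | zero => rfl
  | succ n ih =>
    show CSW.pw γ n * fx ^ (γ (n + 1) - γ n) * fy = _
    rw [ih (fun i hi => h i (by omega)), h (n + 1) le_rfl, h n (by omega), sub_zero, zpow_zero, mul_one, pow_succ]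

theorem CvW_pw_const {γ : ℕ → ℤ} {a : ℕ} {k : ℕ} (h : ∀ i, i ≤ k → γ (a + i) = γ a) :
    CSW.pw γ (a + k) = CSW.pw γ a * fy ^ k := by
  induction k with
  | zero => rw [pow_zero, mul_one]; rfl
  | succ k ih =>
    show CSW.pw γ (a + k) * fx ^ (γ (a + k + 1) - γ (a + k)) * fy = _
    rw [ih (fun i hi => h i (by omega)), show a + k + 1 = a + (k + 1) by ring, h (k + 1) le_rfl, h k (by omega),
      sub_self, zpow_zero, mul_one, mul_assoc, pow_succ]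

theorem CvW_pw_jump {γ : ℕ → ℤ} {a : ℕ} (h : γ (a + 1) - γ a = -1) :
    CSW.pw γ (a + 1) = CSW.pw γ a * fx⁻¹ * fy := by
  show CSW.pw γ a * fx ^ (γ (a + 1) - γ a) * fy = _
  rw [h, zpow_neg_one]

theorem CvW_pw_add {γ : ℕ → ℤ} (n : ℕ) : CSW.pw (fun i => γ i + i) n = s0 (CSW.pw γ n) := by
  induction n with
  | zero =>
    show (1 : F2) = s0 1
    rw [map_one]
  | succ n ih =>
    show CSW.pw (fun i => γ i + i) n * fx ^ ((γ (n + 1) + ((n + 1 : ℕ) : ℤ)) - (γ n + (n : ℤ))) * fy =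
      s0 (CSW.pw γ n * fx ^ (γ (n + 1) - γ n) * fy)
    rw [ih, map_mul, map_mul, map_zpow, CSW.s0_x, CSW.s0_y,
      show (γ (n + 1) + ((n + 1 : ℕ) : ℤ)) - (γ n + (n : ℤ)) = (γ (n + 1) - γ n) + 1 by push_cast; ring, zpow_add_one]
    simp only [mul_assoc]

theorem CvW_st {ρ : ℝ} (h : ρ ≤ 1 / 8) : Real.smoothTransition (5 * ρ - 5 / 2) = 0 :=
  Real.smoothTransition.zero_of_nonpos (by linarith)

theorem CvW_low (r : ℕ) (b : Bool) (L : List (Bool × Bool)) {ρ : ℝ} (h : ρ ≤ 1 / 8) :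
    wB r b L ρ = qsp r (epsB b) ρ := by
  unfold wB
  rw [CvW_st h, mul_zero, (PTH.pos_seg L).start 0 le_rfl, uB_low b h]
  exact add_zero _

theorem CvW_path (r : ℕ) (hr : 1 ≤ r) (b : Bool) (L : List (Bool × Bool)) :
    IsPath (wB r b L) (sumZ (GB r b ++ L)) := by
  rw [PTH.sumZ_append, sumGB hr b]
  exact wB_isPath hr b L

theorem CvW_path' (r : ℕ) (hr : 1 ≤ r) (b : Bool) (L : List (Bool × Bool)) :
    IsPath (wB' r b L) (sumZ (GB' r b ++ L)) := by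
  rw [PTH.sumZ_append, sumGB' hr b]
  exact wB'_isPath hr b L

section
variable {r : ℕ}

theorem mk_GB_false (hr : 1 ≤ r) : (FreeGroup.mk (GB r false) : F2) = fy ^ (r - 1) * fx⁻¹ * fy ^ r := by
  unfold GB
  rw [← FreeGroup.mul_mk, PTH.mk_gw, PTH.mk_xs]
  obtain ⟨k, rfl⟩ : ∃ k, r = k + 1 := ⟨r - 1, by omega⟩
  have g0 : ∀ i, i ≤ k → gaB (k + 1) false i = 0 := by
    intro i hi
    unfold gaB
    rw [if_pos (Or.inl (by omega))]
  have g1 : ∀ i, k + 1 ≤ i → gaB (k + 1) false i = -1 := by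
    intro i hi
    unfold gaB
    rw [if_neg]
    rintro (h | ⟨h, -⟩)
    · omega
    · exact absurd h (by decide)
  rw [show 2 * (k + 1) - 1 = (k + 1) + k by omega, g1 _ (by omega),
    CvW_pw_const (γ := gaB (k + 1) false) (a := k + 1) (k := k) (fun i hi => by rw [g1 _ (by omega), g1 _ (by omega)]),
    CvW_pw_jump (γ := gaB (k + 1) false) (a := k) (by rw [g1 _ (by omega), g0 _ le_rfl]; rfl), CvW_pw_zero g0,
    sub_self, zpow_zero, mul_one, Nat.add_sub_cancel, pow_succ' fy k]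
  simp only [mul_assoc]
theorem mk_GB_true (hr : 1 ≤ r) : (FreeGroup.mk (GB r true) : F2) = fy ^ r * fx⁻¹ * fy ^ (r - 1) := by
  unfold GB
  rw [← FreeGroup.mul_mk, PTH.mk_gw, PTH.mk_xs]
  have g0 : ∀ i, i ≤ r → gaB r true i = 0 := by
    intro i hi
    unfold gaB
    rw [if_pos]
    rcases Nat.lt_or_ge i r with h | h
    · exact Or.inl h
    · exact Or.inr ⟨rfl, by omega⟩
  have g1 : ∀ i, r + 1 ≤ i → gaB r true i = -1 := by
    intro i hi
    unfold gaB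
    rw [if_neg]
    rintro (h | ⟨-, h⟩)
    · omega
    · omega
  rcases Nat.lt_or_ge 1 r with h | h
  · obtain ⟨k, rfl⟩ : ∃ k, r = k + 2 := ⟨r - 2, by omega⟩
    rw [show 2 * (k + 2) - 1 = (k + 2 + 1) + k by omega, g1 _ (by omega),
      CvW_pw_const (γ := gaB (k + 2) true) (a := k + 2 + 1) (k := k) (fun i hi => by rw [g1 _ (by omega), g1 _ (by omega)]),
      CvW_pw_jump (γ := gaB (k + 2) true) (a := k + 2) (by rw [g1 _ (by omega), g0 _ le_rfl]; rfl), CvW_pw_zero g0,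
      sub_self, zpow_zero, mul_one, show k + 2 - 1 = k + 1 by omega, pow_succ' fy k]
    simp only [mul_assoc]
  · obtain rfl : r = 1 := by omega
    rw [show 2 * 1 - 1 = 1 by norm_num, CvW_pw_zero g0, g0 1 le_rfl, sub_zero, zpow_neg_one, show 1 - 1 = 0 by norm_num,
      pow_zero, mul_one]
theorem mk_GB' (hr : 1 ≤ r) (b : Bool) :
    (FreeGroup.mk (GB' r b) : F2) = s0 (FreeGroup.mk (GB r b)) * fx := by
  unfold GB GB'
  rw [← FreeGroup.mul_mk, ← FreeGroup.mul_mk, PTH.mk_gw, PTH.mk_gw, PTH.mk_xs, PTH.mk_xs, CvW_pw_add, map_mul, map_zpow,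
    CSW.s0_x, mul_assoc (s0 (CSW.pw (gaB r b) (2 * r - 1))), ← zpow_add_one]
  congr 2
  have h : ((2 * r - 1 : ℕ) : ℤ) = 2 * (r : ℤ) - 1 := by
    rw [Nat.cast_sub (by omega)]
    push_cast
    ring
  rw [h]
  ring

theorem even_words (hr : 1 ≤ r) (he : Even r) (b : Bool) (L : List (Bool × Bool)) :
    PTH.PathEq.{u} (PTH.wpath (GB' r b ++ L)) (PTH.wpath (GB r b ++ L)) := by
  have key : PTH.PathEq.{u} (wB r b L) (wB' r b L) :=
    b2e hr he (epsB_or b) (o := 1) (Or.inl rfl) (fun ρ hρ => CvW_low r b L hρ) (fun ρ => by rw [one_mul]; rfl)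
  exact ((PTH.pathEq_of_words (CvW_path r hr b L) (CvW_path' r hr b L) (wB_sh hr b L) (wB'_sh hr b L)).1 key).symm
theorem odd_words (hr : 1 ≤ r) (ho : Odd r) (b : Bool) (L : List (Bool × Bool)) :
    PTH.PathEq.{u} (PTH.wpath (GB' r b ++ L)) (PTH.wpath (GB r (!b) ++ L)) := by
  have hε : epsB (!b) = -epsB b := by cases b <;> simp [epsB]
  have hP := wB_isPath hr b L
  have key : PTH.PathEq.{u} (wB r (!b) L) (wB' r b L) :=
    b2o hr ho (epsB_or b) (o := 1) (Or.inl rfl) (w := wB r b L) hP.smooth hP.avoid (fun ρ hρ => CvW_low r b L hρ)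
      (fun ρ hρ => by rw [CvW_low r (!b) L hρ, hε])
      (fun ρ hρ => by
        unfold wB
        rw [uB_ind hr (!b) b hρ])
      (fun ρ => by rw [one_mul]; rfl)
  exact ((PTH.pathEq_of_words (CvW_path r hr (!b) L) (CvW_path' r hr b L) (wB_sh hr (!b) L) (wB'_sh hr b L)).1 key).symm

end

theorem win_b2e : ∀ r, 2 ≤ r → Even r → s0 (fy ^ (r - 1) * fx⁻¹ * fy ^ r) * fx *
    (fy ^ (r - 1) * fx⁻¹ * fy ^ r)⁻¹ ∈ Gam.{u} := by
  intro r hr he
  have hr1 : 1 ≤ r := by omega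
  show _ ∈ PTH.GamF.{u}
  rw [← mk_GB_false hr1, ← mk_GB' hr1 false]
  exact (PTH.mem_GamF_iff' (GB' r false) (GB r false)).2 (fun L => even_words hr1 he false L)
theorem win_b2o : ∀ r, 1 ≤ r → Odd r → s0 (fy ^ r * fx⁻¹ * fy ^ (r - 1)) * fx *
    (fy ^ (r - 1) * fx⁻¹ * fy ^ r)⁻¹ ∈ Gam.{u} := by
  intro r hr ho
  show _ ∈ PTH.GamF.{u}
  rw [← mk_GB_false hr, ← mk_GB_true hr, ← mk_GB' hr true]
  exact (PTH.mem_GamF_iff' (GB' r true) (GB r false)).2 (fun L => odd_words hr ho true L)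
theorem win_b2o' : ∀ r, 1 ≤ r → Odd r → s0 (fy ^ (r - 1) * fx⁻¹ * fy ^ r) * fx *
    (fy ^ r * fx⁻¹ * fy ^ (r - 1))⁻¹ ∈ Gam.{u} := by
  intro r hr ho
  show _ ∈ PTH.GamF.{u}
  rw [← mk_GB_false hr, ← mk_GB_true hr, ← mk_GB' hr false]
  exact (PTH.mem_GamF_iff' (GB' r false) (GB r true)).2 (fun L => odd_words hr ho false L)

end Pool.Agent.SPR
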