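import Pool.Agent.SPR.Rib

/-!
# SPR/Dsk: the level disc meets the ribbon in `r` pieces   (difficulty 3)

`dsk r (y, s) = Th r (3/25 y, 1/4 + s/16)`, radius `2`, `|s| < 2`.  `dsk_hbox`: `Th_mt`: `1/4 + s'/16 = 1/4 + s/16 + n` gives `n = 0` (`|s' - s|/16 < 1/4`), then `s = s'`, `y = y'`; norm `Lm (..) 3/25 ‖y‖ < 1`.
`dsk_pieces`, ribbon `rbf r (1/8)`.  `k = r`, `c i = 25/3 mR Cn i`, `μ i = 25/3 muR Cn i`, `ς i = 1`, `η i = -25/3 muR Lm i`, `bi i = (i + 1/4 - r/2) / (r - 1/4)`, `ρ i = 1 / (16 (r - 1/4))`.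
* `small`: `25/3 Lm (mR + 4 |muR|) ≤ 25/3 * 1.009 * 1.001 * 0.001 * (1 + 1/400) < 1/100`.  `dist`: `25/3 mR ‖Cn i - Cn j‖ ≥ 25/3 * 0.001 * 3/r` (`Cn_dist`) and `4 η i + 4 η j ≤ 8 * 25/3 * 1.01 * 1.001 * 0.001 / (2000 r)`.
* `range`: `|i + 1/4 - r/2| + 1/16 < (r - 1/4)/2` for `0 ≤ i ≤ r - 1`.
* `piece`: `u = bi i + ρ i s`, `|u| < 1/2`, `tv r (1/8) u = r/2 + (r - 1/4) u = i + 1/4 + s/16` (`tv_mid`); `rbf = Th r (mR + muR z, i + 1/4 + s/16) = Th r (Cn i (mR + muR z), 1/4 + s/16) + (0, i)` (`Th_shift`), `z = (y - c i)/μ i`: `Cn i (mR + muR z) = 3/25 y`.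
* Common lemma: `MT (rbf r (1/8) (z, u)) (dsk r (y, s))`, `‖z‖ < 5`, `|u| < 1`, `|s| ≤ 1`: `Th_mt`: `1/4 + s/16 = tv u + n`, so `tv u = 1/4 + s/16 + i`, `i = -n`, `tv u ∈ [9/80, r - 9/80]` (`tv_bd`) gives `0 ≤ i ≤ r - 1`; `mR + muR z = Cn (-i) 3/25 y`, i.e. `y = c i + μ i z`.
  `inter`: `‖y - c i‖ = η i ‖z‖`.  `inb`: `tv u ∈ [i + 3/16, i + 5/16] ⊂ (1/8, r - 1/8)`: `tv_half`; `‖y‖ ≤ 25/3 Lm (mR + 5 |muR|) ≤ 1/2`.
* `off`: `MT (dsk r (y, s)) (γ l)`, `‖y‖ ≤ 1`, `|s| ≤ 1`.  `4 l ≥ 1/8`: `‖(γ l).1‖ ≥ 1/8 > 3/25 Lm (..)`.  `pin`: level `0` is not `1/4 + s/16` modulo integers.  inner: level in `[0, wd]`: no.  spiral: `S = Ssp r (4 l) = 1/4 + s/16 + n`, `0 ≤ n ≤ 2 r - 1`, `3/16 ≤ S ≤ 2 r - 11/16`, so `4 l = rad r S` (`S_inv`);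
  `n < r`: `S = tv u`, `|u| < 1/2` (`tv_inv`), `l = f₁ u`; `n ≥ r`: `S - r = tv u`, `l = f₂ u`.
`rt_path`: `IsRtArc (dsk r) o (arc w) (arc w')`.  Let `|l| < 1/4`, `ρ = 4 l`, `S = Ssp r ρ`.
* `MT (dsk r (y, s)) (arc w l)` with `‖y‖ < 1`, `|s| < 1/8`: as in `off` (`qarc_path`) `l` is on the spiral, `S = 1/4 + s/16 + n`, `zq = Cn (-n) 3/25 y` (up to the choice of signs), `‖y‖ ≤ 25/3 * 1.01 * rh0 ≤ 3/4`, so `Ro (o gs s) y = ex (o gs s) y`; `GG r ρ = n + gs s`: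
  the term `k = n` is `gs s`, for `k < n` the argument is `16 (n - k) + s ≥ 1/16`: `1`, for `k > n`: `0`.  `w' ρ = w ρ + (o GG, 0)`: `arc w' l` is `arc w l` with the first component multiplied by `ex (o (n + gs s)) = ex (o gs s)` (`o = ±1`): `= dsk r (ex (o gs s) y, s) + (0, n)`.
* otherwise `ex (o GG r ρ) = 1`: if some term of `GG` is not `0` or `1`, then `16 (S - k - 1/4) = s ∈ (-1/8, 1/16)`, `0 < S < 2 r - wd`, so `ρ < rad r (2 r)`, and the point is `dsk r (y, s)` modulo integers with `‖y‖ = 25/3 ‖zq‖.. < 1`: contradiction.  (for `l ≤ 0` all terms are `0`.)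
-/

open scoped Manifold ContDiff Topology
open Set Filter
open Complex (I)
open Pool.Agent.RSG (E4 cj ex)

namespace Pool.Agent.SPR

/-- the level disc -/
noncomputable def dsk (r : ℕ) (q : ℂ × ℝ) : ℂ × ℝ := Th r (3 / 25 * q.1, 1 / 4 + q.2 / 16)

section
variable {r : ℕ} {ε o : ℝ} {γ : ℝ → ℂ × ℝ} {w w' : ℝ → ℝ × ℝ}

/-- the affine coordinates of the level disc -/
noncomputable def Dsk_e : (ℂ × ℝ) ≃ (ℂ × ℝ) where
  toFun q := (3 / 25 * q.1, 1 / 4 + q.2 / 16)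
  invFun q := (25 / 3 * q.1, 16 * (q.2 - 1 / 4))
  left_inv q := by
    ext1
    · simp only; ring
    · simp only; ring
  right_inv q := by
    ext1
    · simp only; ring
    · simp only; ring

theorem Dsk_e_ld (q : ℂ × ℝ) : IsLocalDiffeomorphAt 𝓘(ℝ, ℂ × ℝ) 𝓘(ℝ, ℂ × ℝ) ∞ Dsk_e q := by
  apply CSG.ld_of_perm
  · show ContDiff ℝ ∞ fun q : ℂ × ℝ => ((3 / 25 : ℂ) * q.1, 1 / 4 + q.2 / 16)
    fun_prop
  · show ContDiff ℝ ∞ fun q : ℂ × ℝ => ((25 / 3 : ℂ) * q.1, 16 * (q.2 - 1 / 4))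
    fun_prop

theorem Dsk_lm (hr : 1 ≤ r) {x : ℝ} (h : |x| ≤ 4 * r) : Lm r x ≤ 121 / 120 ∧ 119 / 120 ≤ Lm r x := by
  have h1 := Lm_bd hr h
  rw [abs_le] at h1
  constructor <;> linarith

theorem Dsk_norm325 (y : ℂ) : ‖(3 / 25 : ℂ) * y‖ = 3 / 25 * ‖y‖ := by
  rw [norm_mul]
  norm_num

theorem dsk_hbox (hr : 1 ≤ r) : HBox (dsk r) 2 2 := by
  have hr' : (1 : ℝ) ≤ r := by exact_mod_cast hr
  refine ⟨?_, ?_, ?_⟩
  · intro z s _ _
    exact IsLocalDiffeomorphAt.comp (hf := Dsk_e_ld (z, s)) (hg := Th_ld r _)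
  · intro z s z' s' _ hs _ hs' h
    rw [dsk, dsk, Th_mt] at h
    obtain ⟨n, h1, h2⟩ := h
    simp only at h1 h2
    rw [abs_lt] at hs hs'
    have hn : n = 0 := by
      have h3 : (-1 : ℝ) < n := by linarith
      have h4 : (n : ℝ) < 1 := by linarith
      have h5 : (-1 : ℤ) < n := by exact_mod_cast h3
      have h6 : n < 1 := by exact_mod_cast h4
      omega
    subst hn
    push_cast at h1 h2
    rw [Cn_zero, one_mul] at h2
    refine ⟨?_, by linarith⟩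
    exact mul_left_cancel₀ (by norm_num) h2
  · intro z s hz hs
    rw [dsk, Th_norm, Dsk_norm325]
    rw [abs_lt] at hs
    have h1 := (Dsk_lm hr (x := 1 / 4 + s / 16) (by rw [abs_le]; constructor <;> linarith)).1
    calc Lm r (1 / 4 + s / 16) * (3 / 25 * ‖z‖) ≤ 121 / 120 * (3 / 25 * 2) := by
          apply mul_le_mul h1 (by linarith) (by positivity) (by norm_num)
      _ < 1 := by norm_num

theorem Dsk_cn_neg (r : ℕ) (x : ℝ) : Cn r (-x) * Cn r x = 1 := by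
  rw [← Cn_add, neg_add_cancel, Cn_zero]

/-- the points of the ribbon in the level disc -/
theorem Dsk_pt (hr : 1 ≤ r) {y z : ℂ} {s u : ℝ} (hu : |u| < 1) (hs : |s| ≤ 1)
    (h : MT (rbf r (1 / 8) (z, u)) (dsk r (y, s))) :
    ∃ i : Fin r, tv r (1 / 8) u = (i : ℕ) + 1 / 4 + s / 16 ∧
      y = (25 / 3 * mR r : ℝ) * Cn r (i : ℕ) + ((25 / 3 * muR r : ℝ) * Cn r (i : ℕ)) * z := by
  have hr' : (1 : ℝ) ≤ r := by exact_mod_cast hr
  rw [rbf, dsk, Th_mt] at h
  obtain ⟨n, h1, h2⟩ := h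
  simp only at h1 h2
  rw [abs_le] at hs
  obtain ⟨h3, h4⟩ := tv_bd hr (v := 1 / 8) (by norm_num) (by linarith) hu.le
  have hn1 : n ≤ 0 := by
    have h5 : (n : ℝ) < 1 := by linarith
    have h6 : n < 1 := by exact_mod_cast h5
    omega
  have hn2 : -(r : ℤ) < n := by
    have h5 : -(r : ℝ) < n := by linarith
    exact_mod_cast h5
  obtain ⟨i, hi⟩ : ∃ i : ℕ, n = -(i : ℤ) := ⟨(-n).toNat, by omega⟩
  have hir : i < r := by omega
  subst hi
  push_cast at h1 h2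
  refine ⟨⟨i, hir⟩, by simp only; linarith, ?_⟩
  simp only
  have h5 := Dsk_cn_neg r i
  unfold Bf at h2
  simp only at h2
  have h6 : y = 25 / 3 * (Cn r i * (Cn r (-(i : ℝ)) * (3 / 25 * y))) := by
    rw [← mul_assoc (Cn r i), mul_comm (Cn r i), h5]
    ring
  rw [h6, ← h2]
  push_cast
  ring

theorem Dsk_mu (hr : 1 ≤ r) (i : ℕ) :
    ‖((25 / 3 * muR r : ℝ) : ℂ) * Cn r (i : ℝ)‖ = 25 / 3 * -muR r * Lm r i := by
  have h := muR_neg hr
  rw [norm_mul, Cn_norm, Complex.norm_real, Real.norm_eq_abs, abs_of_neg (by linarith)]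
  ring

theorem Dsk_c (hr : 1 ≤ r) (i : ℕ) :
    ‖((25 / 3 * mR r : ℝ) : ℂ) * Cn r (i : ℝ)‖ = 25 / 3 * mR r * Lm r i := by
  have hrh : (0 : ℝ) < rh0 := by norm_num [rh0]
  have h := (mR_bd hr).1
  rw [norm_mul, Cn_norm, Complex.norm_real, Real.norm_eq_abs, abs_of_pos (by linarith)]

theorem Dsk_mubd (hr : 1 ≤ r) : -muR r ≤ 1001 / 1000 * rh0 / 2000 := by
  have hrh : (0 : ℝ) < rh0 := by norm_num [rh0]
  have hr' : (1 : ℝ) ≤ r := by exact_mod_cast hr
  refine (muR_bd hr).2.trans ?_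
  apply div_le_div_of_nonneg_left (by positivity) (by norm_num)
  linarith

/-- the points of the arc in the level disc -/
theorem Dsk_lev (hr : 1 ≤ r) (hγ : QArc r ε γ) {l : ℝ} {y : ℂ} {s : ℝ} (hl : |l| < 1 / 4)
    (hy : ‖y‖ ≤ 1) (hs : |s| ≤ 1) (h : MT (dsk r (y, s)) (γ l)) :
    ∃ n : ℕ, n < 2 * r ∧ Ssp r (4 * l) = 1 / 4 + s / 16 + n ∧ 4 * l = rad r (Ssp r (4 * l)) ∧
      3 / 25 * y = Cn r n * zq r ε (4 * l) ∧ 4 * l < 1 / 8 := by
  have hrh : (0 : ℝ) < rh0 := by norm_num [rh0]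
  have hr' : (1 : ℝ) ≤ r := by exact_mod_cast hr
  have hw0 := wd_pos hr
  have hw1 := wd_le hr
  rw [abs_lt] at hl
  rw [abs_le] at hs
  rcases le_or_gt (1 / 8) (4 * l) with hA | hA
  · exfalso
    have h1 := hγ.outer l hA hl.2
    obtain ⟨m, hm⟩ := h
    rw [hm] at h1
    simp only [Prod.fst_add, add_zero] at h1
    rw [dsk, Th_norm, Dsk_norm325] at h1
    have h2 := (Dsk_lm hr (x := 1 / 4 + s / 16) (by rw [abs_le]; constructor <;> linarith)).1
    have h3 : Lm r (1 / 4 + s / 16) * (3 / 25 * ‖y‖) ≤ 121 / 120 * (3 / 25 * 1) := by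
      apply mul_le_mul h2 (by linarith) (by positivity) (by norm_num)
    norm_num at h1 h3
    linarith
  rcases le_or_gt (4 * l) (-rad r (1 / 2)) with hB | hB
  · exfalso
    rw [hγ.pin l hl.1 hB] at h
    obtain ⟨m, hm⟩ := h
    have h1 := congrArg Prod.snd hm
    have h2 : (0 : ℝ) = 1 / 4 + s / 16 + m := h1
    have h3 : (-1 : ℝ) < m := by linarith
    have h4 : (m : ℝ) < 0 := by linarith
    have h5 : (-1 : ℤ) < m := by exact_mod_cast h3
    have h6 : m < 0 := by exact_mod_cast h4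
    omega
  rcases le_or_gt (4 * l) (rad r (wd r)) with hC | hC
  · exfalso
    obtain ⟨ζ', s', h1, h2, h3, -⟩ := hγ.inner l hB.le hC
    rw [h1, dsk, Th_mt] at h
    obtain ⟨n, hn1, -⟩ := h
    simp only at hn1
    have h3 : (-1 : ℝ) < n := by linarith
    have h4 : (n : ℝ) < 0 := by linarith
    have h5 : (-1 : ℤ) < n := by exact_mod_cast h3
    have h6 : n < 0 := by exact_mod_cast h4
    omega
  · have h1 : γ l = Th r (zq r ε (4 * l), Ssp r (4 * l)) := by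
      rw [hγ.spiral l hC.le hA.le, q_pt]
      rfl
    rw [h1, dsk, Th_mt] at h
    obtain ⟨n, hn1, hn2⟩ := h
    simp only at hn1 hn2
    have hS0 := S_nonneg hr (4 * l)
    have hS1 := S_le hr (4 * l)
    have h3 : (-1 : ℝ) < n := by linarith
    have h4 : (n : ℝ) < 2 * r := by linarith
    have h5 : (-1 : ℤ) < n := by exact_mod_cast h3
    have h6 : n < 2 * r := by exact_mod_cast h4
    obtain ⟨k, rfl⟩ : ∃ k : ℕ, n = k := ⟨n.toNat, by omega⟩
    have hk : k < 2 * r := by omega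
    have hk' : (k : ℝ) + 1 ≤ 2 * r := by exact_mod_cast hk
    push_cast at hn1 hn2
    have hk0 : (0 : ℝ) ≤ k := Nat.cast_nonneg k
    exact ⟨k, hk, hn1, S_inv hr (by linarith) (by linarith), hn2, hA⟩

theorem dsk_pieces (hr : 1 ≤ r) (hε : |ε| ≤ 1) (hγ : QArc r ε γ) :
    APieces γ (rbf r (1 / 8)) (dsk r) (fun u => rad r (tv r (1 / 8) u) / 4)
      (fun u => rad r (r + tv r (1 / 8) u) / 4)
      (fun i : Fin r => (25 / 3 * mR r : ℝ) * Cn r (i : ℕ)) (fun i => (25 / 3 * muR r : ℝ) * Cn r (i : ℕ))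
      (fun i => ((i : ℕ) + 1 / 4 - r / 2 : ℝ) / (r - 1 / 4)) (fun _ => 1)
      (fun i => 25 / 3 * -muR r * Lm r (i : ℕ)) (fun _ => 1 / (16 * (r - 1 / 4))) := by
  have hrh : (0 : ℝ) < rh0 := by norm_num [rh0]
  have hrh' : rh0 = 1 / 1000 := rfl
  have hr' : (1 : ℝ) ≤ r := by exact_mod_cast hr
  have hm := mR_bd hr
  have hmu := Dsk_mubd hr
  have hmn := muR_neg hr
  have hLi : ∀ i : Fin r, Lm r ((i : ℕ) : ℝ) ≤ 121 / 120 := by
    intro i
    have h1 : ((i : ℕ) : ℝ) < r := by exact_mod_cast i.2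
    exact (Dsk_lm hr (by rw [abs_of_nonneg (Nat.cast_nonneg _)]; linarith)).1
  have heta : ∀ i : Fin r, 0 < 25 / 3 * -muR r * Lm r ((i : ℕ) : ℝ) := by
    intro i
    exact mul_pos (by linarith) (Lm_pos _ _)
  have hir : ∀ i : Fin r, ((i : ℕ) : ℝ) + 1 ≤ r := by
    intro i
    exact_mod_cast i.2
  have hi0 : ∀ i : Fin r, (0 : ℝ) ≤ ((i : ℕ) : ℝ) := fun i => Nat.cast_nonneg _
  refine ⟨heta, ?_, ?_, ?_, ?_, ?_, ?_, ?_, ?_, ?_, ?_⟩
  · intro i
    exact Dsk_mu hr _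
  · intro i
    have : (0 : ℝ) < 16 * (r - 1 / 4) := by linarith
    positivity
  · intro i
    rw [Dsk_c hr]
    have h1 : 25 / 3 * mR r * Lm r ((i : ℕ) : ℝ) + 4 * (25 / 3 * -muR r * Lm r ((i : ℕ) : ℝ)) =
        (25 / 3 * mR r + 4 * (25 / 3 * -muR r)) * Lm r ((i : ℕ) : ℝ) := by ring
    rw [h1]
    have h2 : (25 / 3 * mR r + 4 * (25 / 3 * -muR r)) * Lm r ((i : ℕ) : ℝ) ≤
        (25 / 3 * (1001 / 1000 * rh0) + 4 * (25 / 3 * (1001 / 1000 * rh0 / 2000))) * (121 / 120) := by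
      apply mul_le_mul _ (hLi i) (Lm_pos _ _).le (by positivity)
      linarith [hm.2]
    refine h2.trans ?_
    rw [hrh']
    norm_num
  · intro i i' hii
    rw [← mul_sub, norm_mul, Complex.norm_real, Real.norm_eq_abs, abs_of_pos (by linarith)]
    have h1 := Cn_dist hr i.2 i'.2 (fun h => hii (Fin.ext h))
    have h2 : 25 / 3 * rh0 * (3 / r) ≤ 25 / 3 * mR r * ‖Cn r ((i : ℕ) : ℝ) - Cn r ((i' : ℕ) : ℝ)‖ := by
      apply mul_le_mul (by linarith [hm.1]) h1 (by positivity) (by linarith)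
    refine le_trans ?_ h2
    have h3 : -muR r ≤ 1001 / 1000 * rh0 / (2000 * r) := (muR_bd hr).2
    have h4 : 4 * (25 / 3 * -muR r * Lm r ((i : ℕ) : ℝ)) ≤
        4 * (25 / 3 * (1001 / 1000 * rh0 / (2000 * r)) * (121 / 120)) := by
      apply mul_le_mul_of_nonneg_left _ (by norm_num)
      apply mul_le_mul _ (hLi i) (Lm_pos _ _).le (by positivity)
      linarith
    have h5 : 4 * (25 / 3 * -muR r * Lm r ((i' : ℕ) : ℝ)) ≤
        4 * (25 / 3 * (1001 / 1000 * rh0 / (2000 * r)) * (121 / 120)) := by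
      apply mul_le_mul_of_nonneg_left _ (by norm_num)
      apply mul_le_mul _ (hLi i') (Lm_pos _ _).le (by positivity)
      linarith
    have h6 : 4 * (25 / 3 * (1001 / 1000 * rh0 / (2000 * r)) * (121 / 120)) =
        (4 * 25 / 3 * 1001 / 1000 / 2000 * 121 / 120 * rh0) / r := by
      field_simp
    have h7 : 25 / 3 * rh0 * (3 / r) = (25 * rh0) / r := by
      field_simp
    rw [h7]
    rw [h6] at h4 h5
    have h8 : (4 * 25 / 3 * 1001 / 1000 / 2000 * 121 / 120 * rh0) / r ≤ (rh0 : ℝ) / r := by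
      apply div_le_div_of_nonneg_right _ (by linarith)
      linarith
    have h9 : (25 * rh0) / r = rh0 / r + 24 * (rh0 / r) := by ring
    have h10 : (0 : ℝ) ≤ rh0 / r := by positivity
    rw [h9]
    linarith
  · intro i
    have h1 : (0 : ℝ) < r - 1 / 4 := by linarith
    have h2 := hir i
    have h3 := hi0 i
    rw [abs_div, abs_of_pos h1]
    have h4 : 1 / (16 * ((r : ℝ) - 1 / 4)) = (1 / 16) / (r - 1 / 4) := by
      rw [div_div]
    rw [h4, ← add_div, div_lt_iff₀ h1]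
    have h5 : |((i : ℕ) : ℝ) + 1 / 4 - r / 2| ≤ r / 2 - 1 / 4 := by
      rw [abs_le]
      constructor <;> linarith
    linarith
  · intro i
    exact Or.inl rfl
  · intro i y s hy hs
    rw [abs_lt] at hs
    have h1 : (0 : ℝ) < r - 1 / 4 := by linarith
    have h2 := hir i
    have h3 := hi0 i
    have hcj : ∀ v : ℂ, cj 1 v = v := by
      intro v
      apply Complex.ext <;> simp [cj]
    rw [hcj]
    obtain ⟨u, hu⟩ : ∃ u : ℝ, u = (((i : ℕ) : ℝ) + 1 / 4 - r / 2) / (r - 1 / 4) +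
      1 * (1 / (16 * (r - 1 / 4))) * s := ⟨_, rfl⟩
    have hu1 : (r - 1 / 4 : ℝ) * u = ((i : ℕ) : ℝ) + 1 / 4 - r / 2 + s / 16 := by
      obtain ⟨d, hd⟩ : ∃ d : ℝ, d = (r : ℝ) - 1 / 4 := ⟨_, rfl⟩
      rw [hu, ← hd]
      rw [← hd] at h1
      have hd0 : d ≠ 0 := h1.ne'
      field_simp
    have hu2 : |u| ≤ 1 / 2 := by
      have h4 : |(r - 1 / 4 : ℝ) * u| ≤ (r - 1 / 4) * (1 / 2) := by
        rw [hu1, abs_le]
        constructor <;> linarith
      rw [abs_mul, abs_of_pos h1] at h4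
      exact le_of_mul_le_mul_left h4 h1
    have htv : tv r (1 / 8) u = ((i : ℕ) : ℝ) + 1 / 4 + s / 16 := by
      rw [tv_mid r (1 / 8) hr (by norm_num) hu2]
      linarith
    rw [← hu, rbf, dsk, Th_mt]
    refine ⟨-((i : ℕ) : ℤ), ?_, ?_⟩
    · simp only
      rw [htv]
      push_cast
      ring
    · unfold Bf
      simp only
      have h4 := Dsk_cn_neg r ((i : ℕ) : ℝ)
      have h5 : (muR r : ℂ) ≠ 0 := by
        exact_mod_cast hmn.ne
      have h6 := Cn_ne r ((i : ℕ) : ℝ)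
      have h7 : Cn r (-((i : ℕ) : ℝ)) = (Cn r ((i : ℕ) : ℝ))⁻¹ := eq_inv_of_mul_eq_one_left h4
      push_cast
      rw [h7]
      field_simp
      ring
  · intro y s z s' hy hs hz hs' h
    obtain ⟨i, -, h2⟩ := Dsk_pt hr hs' hs.le h
    refine ⟨i, ?_⟩
    rw [h2, add_sub_cancel_left, norm_mul, Dsk_mu hr]
    have := heta i
    nlinarith
  · intro y s z s' hy hs hz hs' h
    obtain ⟨i, h1, h2⟩ := Dsk_pt hr hs' hs h
    have h3 := hir i
    have h4 := hi0 i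
    rw [abs_le] at hs
    refine ⟨tv_half hr (v := 1 / 8) (by norm_num) (by linarith) (by rw [h1]; linarith)
      (by rw [h1]; linarith), ?_⟩
    rw [h2]
    refine (norm_add_le _ _).trans ?_
    rw [norm_mul (_ * _) z, Dsk_mu hr, Dsk_c hr]
    have h5 : 25 / 3 * mR r * Lm r ((i : ℕ) : ℝ) ≤ 25 / 3 * (1001 / 1000 * rh0) * (121 / 120) := by
      apply mul_le_mul (by linarith [hm.2]) (hLi i) (Lm_pos _ _).le (by positivity)
    have h6 : 25 / 3 * -muR r * Lm r ((i : ℕ) : ℝ) * ‖z‖ ≤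
        25 / 3 * (1001 / 1000 * rh0 / 2000) * (121 / 120) * 5 := by
      apply mul_le_mul _ hz.le (norm_nonneg _) (by positivity)
      apply mul_le_mul (by linarith) (hLi i) (Lm_pos _ _).le (by positivity)
    refine (add_le_add h5 h6).trans ?_
    rw [hrh']
    norm_num
  · intro l hl hno y s hy hs h
    obtain ⟨n, hn, hS, hrad, -, -⟩ := Dsk_lev hr hγ hl hy hs h
    rw [abs_le] at hs
    have hn0 : (0 : ℝ) ≤ n := Nat.cast_nonneg n
    rcases lt_or_ge n r with h1 | h1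
    · have h2 : (n : ℝ) + 1 ≤ r := by exact_mod_cast h1
      obtain ⟨h3, h4⟩ := tv_inv hr (v := 1 / 8) (t := Ssp r (4 * l)) (by norm_num) (by linarith)
        (by rw [hS]; linarith) (by rw [hS]; linarith)
      refine (hno _ h3).1 ?_
      rw [h4, ← hrad]
      ring
    · have h2 : (n : ℝ) + 1 ≤ 2 * r := by exact_mod_cast hn
      have h2' : (r : ℝ) ≤ n := by exact_mod_cast h1
      obtain ⟨h3, h4⟩ := tv_inv hr (v := 1 / 8) (t := Ssp r (4 * l) - r) (by norm_num) (by linarith)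
        (by rw [hS]; linarith) (by rw [hS]; linarith)
      refine (hno _ h3).2 ?_
      rw [h4, add_sub_cancel, ← hrad]
      ring

theorem Dsk_zq_norm (r : ℕ) (ε : ℝ) {ρ : ℝ} (h : ρ = rad r (Ssp r ρ)) : ‖zq r ε ρ‖ = rh0 := by
  have h0 : 0 < ρ := by rw [h]; exact rad_pos _ _
  rw [zq_norm, abs_of_pos h0]
  nth_rewrite 1 [h]
  unfold rad
  rw [mul_assoc, ← Lm_add, add_neg_cancel, Lm_zero, mul_one]

theorem Dsk_small (hr : 1 ≤ r) {ρ : ℝ} (h : ρ = rad r (Ssp r ρ)) {n : ℕ} (hn : n < 2 * r) {y : ℂ}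
    (hy : 3 / 25 * y = Cn r n * zq r ε ρ) : ‖y‖ < 3 / 4 := by
  have h1 : 3 / 25 * ‖y‖ = Lm r n * rh0 := by
    rw [← Dsk_norm325, hy, norm_mul, Cn_norm, Dsk_zq_norm r ε h]
  have h2 : (n : ℝ) < 2 * r := by exact_mod_cast hn
  have h3 := (Dsk_lm hr (x := n) (by rw [abs_of_nonneg (Nat.cast_nonneg _)]; linarith)).1
  have h4 : rh0 = 1 / 1000 := rfl
  rw [h4] at h1
  linarith

theorem Dsk_arc' (hw' : ∀ ρ, w' ρ = w ρ + (o * GG r ρ, 0)) (l : ℝ) :
    PTH.arc w' l = (ex (o * GG r (4 * l)) * (PTH.arc w l).1, (PTH.arc w l).2) := by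
  unfold PTH.arc
  rw [hw']
  simp only [Prod.fst_add, Prod.snd_add, add_zero]
  rw [RSG.ex_add]
  ext1
  · simp only; ring
  · rfl

theorem Dsk_ex_int (ho : o = 1 ∨ o = -1) (n : ℕ) : ex (o * n) = 1 := by
  rcases ho with rfl | rfl
  · have := RSG.ex_int n
    push_cast at this
    rw [one_mul, this]
  · have := RSG.ex_int (-(n : ℤ))
    push_cast at this
    rw [neg_one_mul, this]

theorem Dsk_GG {n : ℕ} {s ρ : ℝ} (hn : n < 2 * r) (hs : |s| < 1 / 8) (hS : Ssp r ρ = 1 / 4 + s / 16 + n) :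
    GG r ρ = n + Pool.Agent.RBM.gs s := by
  unfold GG
  rw [abs_lt] at hs
  have h1 : ∀ k ∈ Finset.range (2 * r), Pool.Agent.RBM.gs (16 * (Ssp r ρ - k - 1 / 4)) =
      (if k < n then 1 else 0) + (if k = n then Pool.Agent.RBM.gs s else 0) := by
    intro k _
    rcases lt_trichotomy k n with h | h | h
    · rw [if_pos h, if_neg h.ne, add_zero]
      apply RBM.MsRM_gs_high
      have h2 : (k : ℝ) + 1 ≤ n := by exact_mod_cast h
      rw [hS]
      linarith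
    · subst h
      rw [if_neg (lt_irrefl _), if_pos rfl, zero_add, hS]
      congr 1
      ring
    · rw [if_neg (by omega), if_neg (by omega), add_zero]
      apply RBM.MsRM_gs_low
      have h2 : (n : ℝ) + 1 ≤ k := by exact_mod_cast h
      rw [hS]
      linarith
  rw [Finset.sum_congr rfl h1, Finset.sum_add_distrib]
  congr 1
  · rw [← Finset.sum_filter, Finset.sum_const, nsmul_eq_mul, mul_one]
    congr 1
    have : (Finset.range (2 * r)).filter (fun k => k < n) = Finset.range n := by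
      ext k
      simp only [Finset.mem_filter, Finset.mem_range]
      omega
    rw [this, Finset.card_range]
  · rw [Finset.sum_ite_eq' (Finset.range (2 * r)) n, if_pos (Finset.mem_range.2 hn)]

theorem rt_path (hr : 1 ≤ r) (hε : |ε| ≤ 1) (ho : o = 1 ∨ o = -1) (hw : ∀ ρ ≤ 1 / 8, w ρ = qsp r ε ρ)
    (hw' : ∀ ρ, w' ρ = w ρ + (o * GG r ρ, 0)) : IsRtArc (dsk r) o (PTH.arc w) (PTH.arc w') := by
  have hr' : (1 : ℝ) ≤ r := by exact_mod_cast hr
  have hw0 := wd_pos hr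
  have hw1 := wd_le hr
  have hγ := qarc_path hr ε hw
  refine ⟨?_, ?_⟩
  · intro l y s hl hy hs h
    obtain ⟨n, hn, hS, hrad, hz, -⟩ := Dsk_lev hr hγ hl hy.le (by linarith) h
    rw [RBM.Ro_low _ (Dsk_small hr hrad hn hz).le, Dsk_arc' hw', Dsk_GG hn hs hS, mul_add, RSG.ex_add,
      Dsk_ex_int ho, one_mul]
    obtain ⟨m, hm⟩ := h
    refine ⟨m, ?_⟩
    rw [hm]
    unfold dsk Th
    simp only [Prod.mk_add_mk, add_zero]
    ext1
    · simp only; ring
    · rfl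
  · intro l hl hno
    have key : ex (o * GG r (4 * l)) = 1 := by
      by_cases hall : ∀ k ∈ Finset.range (2 * r), Pool.Agent.RBM.gs (16 * (Ssp r (4 * l) - k - 1 / 4)) = 0 ∨
          Pool.Agent.RBM.gs (16 * (Ssp r (4 * l) - k - 1 / 4)) = 1
      · have h1 : ∃ n : ℕ, GG r (4 * l) = n := by
          unfold GG
          refine ⟨((Finset.range (2 * r)).filter
            (fun k : ℕ => Pool.Agent.RBM.gs (16 * (Ssp r (4 * l) - k - 1 / 4)) = 1)).card, ?_⟩
          have h2 : ∀ k ∈ Finset.range (2 * r), Pool.Agent.RBM.gs (16 * (Ssp r (4 * l) - k - 1 / 4)) =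
              if Pool.Agent.RBM.gs (16 * (Ssp r (4 * l) - k - 1 / 4)) = 1 then 1 else 0 := by
            intro k hk
            rcases hall k hk with h | h
            · rw [h, if_neg (by norm_num)]
            · rw [h, if_pos rfl]
          rw [Finset.sum_congr rfl h2, ← Finset.sum_filter, Finset.sum_const, nsmul_eq_mul, mul_one]
        obtain ⟨n, hn⟩ := h1
        rw [hn, Dsk_ex_int ho]
      · exfalso
        push Not at hall
        obtain ⟨k, hk, h0, h1⟩ := hall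
        rw [Finset.mem_range] at hk
        obtain ⟨s, hs⟩ : ∃ s, s = 16 * (Ssp r (4 * l) - k - 1 / 4) := ⟨_, rfl⟩
        rw [← hs] at h0 h1
        have hs1 : -(1 / 8) < s := by
          by_contra hc
          push Not at hc
          exact h0 (RBM.MsRM_gs_low hc)
        have hs2 : s < 1 / 16 := by
          by_contra hc
          push Not at hc
          exact h1 (RBM.MsRM_gs_high hc)
        have hS : Ssp r (4 * l) = 1 / 4 + s / 16 + k := by rw [hs]; ring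
        have hk' : (k : ℝ) + 1 ≤ 2 * r := by exact_mod_cast hk
        have hk0 : (0 : ℝ) ≤ k := Nat.cast_nonneg k
        have hrad := S_inv hr (ρ := 4 * l) (by rw [hS]; linarith) (by rw [hS]; linarith)
        obtain ⟨y, hy⟩ : ∃ y : ℂ, y = 25 / 3 * (Cn r k * zq r ε (4 * l)) := ⟨_, rfl⟩
        have hy' : 3 / 25 * y = Cn r k * zq r ε (4 * l) := by rw [hy]; ring
        have hy1 := Dsk_small hr hrad hk hy'
        refine hno y s (by linarith) (by rw [abs_lt]; constructor <;> linarith) ?_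
        have h4l : 4 * l ≤ 1 / 8 := by
          rw [hrad]
          have h2 := rad_bd hr (x := Ssp r (4 * l)) (by
            rw [abs_le]; constructor <;> rw [hS] <;> linarith)
          rw [abs_le] at h2
          have h3 : rh0 = 1 / 1000 := rfl
          rw [h3] at h2
          linarith
        have harc : PTH.arc w l = Th r (zq r ε (4 * l), Ssp r (4 * l)) := by
          rw [q_pt]
          unfold PTH.arc
          rw [hw _ h4l]
        rw [harc, dsk, Th_mt]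
        refine ⟨k, ?_, ?_⟩
        · simp only
          rw [hS]
          push_cast
          ring
        · simp only
          rw [hy']
          push_cast
          rfl
    rw [Dsk_arc' hw', key, one_mul]
    exact MT.refl _

end

end Pool.Agent.SPR
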