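import Pool.Agent.SPR.Sec

/-!
# SPR/FamJ: modified arcs: injectivity   (difficulty 3)

`G l = GA r w (I τ) (Z₀ τ) (Zr τ) l`, `MT (G l) (G l')`; to show `l = l'`.  `δ = rad r r - rh0`.  Write every point as `Th r (ζ, s)` modulo `(0, Z)`:
(P) `4 l ≤ -rad (1/2)`: `ζ = x = -4 l ≥ rad (1/2)` real, `s = 0`;  (I) inner: `‖ζ‖ ≤ rad (1/2)`, `0 ≤ s ≤ wd`;  (A) `wd < s = lam ≤ 1/2`, `‖ζ - rh0‖ ≤ 3 δ`;  (R) `s = lam - r`, `|s| ≤ 1/2`, `‖ζ - rh0‖ ≤ 3 δ`, `≤ 3/2 δ` for `s < 0`;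
(S) spiral, `4 l ≤ 1/8`, `s = Ssp r (4 l) ∈ [1/2, 2 r - wd/2]`, `ζ = zq` is real `≥ rh0` (`= rh0` if `s ≤ 2 r - wd`: `zq_mid`; `zq_end`), and not `r - 1/2 < s < r + 1/2`;  (O) `4 l > 1/8`: `‖(G l).1‖ = 4 l > 1/8`, all the others have `‖(G l).1‖ < 1/8` or (P): for (O)-(O): norms equal, `l = l'`; (O)-(P):
`arc w l` with `4 l > 1/8` and `(4 l', 0)` may have the same norm: here use `hav`: `w (4 l)` avoids the obstacles: `4 l ex X = 4 l' < 0`, `Y` an integer, gives `ex X = -1`, so `w (4 l) = (m + 1/2, n)`, contradiction.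
`Th_mt`: `MT (Th r (ζ, s)) (Th r (ζ', s'))` iff `s' = s + n`, `ζ = Cn n * ζ'`.  THIN: if both `ζ`, `ζ'` are within `3 δ` of `rh0` or real positive, then `ζ = Cn n ζ'` implies `r ∣ n` (as in Rib: arguments `≤ 1/(160 r)` turns), and then `Cn n = Lm n` is real.
Table (unordered pairs, `s' = s + n`):
* P-P: `n = 0`, `x = x'`.  P-I: `s' ∈ [0, wd]` is an integer, so `s' = 0`, `n = 0`, `ζ' = x ≥ rad (1/2) ≥ ‖ζ'‖`: `x = rad (1/2)`, `ζ' = rad (1/2)`, `s' = 0`: then the tilt level `s' - c re ζ' = -c rad (1/2)` is the level at the left end of the inner part, so `l'` is this end (`tilt`: strictly increasing) and `l` too.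
  P-A, P-S: P has an integer level; A no (`wd < s ≤ 1/2`).  P-S: `s' = n` integer in `[1/2, 2 r - wd/2]`, `x = Cn n ζ'`, THIN: `n = r` (`r ∣ n`, `1 ≤ n < 2 r`), excluded in (S).  P-R: `s' ∈ [-1/2, 1/2]` integer: `0`, `n = 0`, `Zr τ 0 = x ≥ rad (1/2)`: `disp`.
* I-I: `n = 0` (`wd < 1`), same tilt level: `l = l'`.  I-A: `s ≤ wd < s' ≤ 1/2`: `0 < s' - s < 1`: no.  I-R: `n = 0` or `s = 0..`: `s' - s ∈ (-1, 1)`, so `n = 0`: `disI`.  I-S: `s ∈ [0, wd]`, `s' = s + n`, `n ≥ 1` (as `s' ≥ 1/2`); `ζ = Cn n ζ'`: `‖ζ‖ = Lm n ‖ζ'‖ ≥ Lm 1 rh0 > rad (1/2)`: no.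
* A-A: `n = 0`, `lam = lam'`.  A-R: `n ∈ {0, -1}`: `n = 0`: `dis`; `n = -1`: `s = 1/2`, `s' = -1/2`, THIN: `r ∣ 1`, `r = 1`, and then `4 l = rad (1/2) = rad (r - 1/2) = 4 l'`.  A-S: `s' = s + n`, THIN: `r ∣ n`: `n = 0`: `s = s' = 1/2`, same `l` (both `4 l = rad (1/2)`); `n = r`: `s' = s + r ∈ (r, r + 1/2]`: only `s = 1/2`, `s' = r + 1/2`, `ζ = Z₀ τ (1/2) = rh0` (`ends`), `ζ' = rh0`, `rh0 = Lm r rh0`: no;
  `n ≥ 2 r`: `s' > 2 r`: no; `n < 0`: no.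
* R-R: `n ∈ {0, ±1}`; `n = 0`: `l = l'`; `n = ±1`: `s = ∓1/2`, `s' = ±1/2`, `ζ = ζ' = rad r r`, `‖Cn n‖ = 1`: no (`Lm n ≠ 1`).  R-S: THIN: `r ∣ n`.  `n = 0`: `s' = s = 1/2`, `ζ = Zr τ (1/2) = rad r r`, `ζ' = rh0` (also for `r = 1`): `rad r r = rh0`: no.
  `n = r`: `s' = s + r ∈ [r - 1/2, r + 1/2]`: `s' = r ∓ 1/2`, `s = ∓1/2`: the same `l` (`lam (4 l) = r ∓ 1/2` in both).  `n = 2 r`: `s' = s + 2 r ≤ 2 r - wd/2`, `s < 0`, `ζ = Lm (2 r) ζ' ≥ rad (2 r)`, `‖ζ - rh0‖ ≥ rad (2 r) - rh0 > 2 δ` (`rad_two`): contradiction to `regr`.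
* S-S: `s' = s + n`, `r ∣ n`, `|n| < 2 r`: `n = 0`: `Ssp r (4 l) = Ssp r (4 l')`: if `< 2 r - wd/2`: strictly increasing: `l = l'`; if `= 2 r - wd/2`: `ζ = 4 l Lm (-S)` and `ζ = ζ'` give `l = l'` (`zq_norm`).  `n = r` (or `-r`): `ζ = Lm r ζ'`, `s' = s + r`: `s ≤ r - wd/2`, so `s ≤ r - 1/2`, `ζ = rh0`, `ζ' ≥ rh0`: no.
-/

open scoped Manifold ContDiff Topology
open Set Filter
open Complex (I)
open Pool.Agent.RSG (E4 cj ex)

namespace Pool.Agent.SPR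

section
variable {r : ℕ} {ε : ℝ} {w : ℝ → ℝ × ℝ} {J : ℝ → ℝ → ℂ × ℝ} {Z₀ Zr : ℝ → ℝ → ℂ}

/-- the ray -/
structure FamJ_P (r : ℕ) (l : ℝ) (ζ : ℂ) (s : ℝ) : Prop where
  le : 4 * l ≤ -rad r (1 / 2)
  ze : ζ = ((-(4 * l) : ℝ) : ℂ)
  se : s = 0

/-- the inner part -/
structure FamJ_I (r : ℕ) (j : ℝ → ℂ × ℝ) (l : ℝ) (ζ : ℂ) (s : ℝ) : Prop where
  lo : -rad r (1 / 2) < 4 * l
  hi : 4 * l ≤ rad r (wd r)
  ze : ζ = (j l).1
  se : s = (j l).2

/-- the strand `0` -/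
structure FamJ_A (r : ℕ) (Z : ℝ → ℂ) (l : ℝ) (ζ : ℂ) (s : ℝ) : Prop where
  lo : wd r < s
  hi : s ≤ 1 / 2
  le : 4 * l = rad r s
  ze : ζ = Z s

/-- the strand `r` -/
structure FamJ_R (r : ℕ) (Z : ℝ → ℂ) (l : ℝ) (ζ : ℂ) (s : ℝ) : Prop where
  lo : -(1 / 2) ≤ s
  hi : s ≤ 1 / 2
  gt : rad r (1 / 2) < 4 * l
  le : 4 * l = rad r (r + s)
  ze : ζ = Z s

/-- the rest of the spiral -/
structure FamJ_S (r : ℕ) (l : ℝ) (ζ : ℂ) (s : ℝ) : Prop where
  pos : 0 < 4 * l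
  lo : 1 / 2 < s
  hi : s ≤ 2 * r - wd r / 2
  ex : s < r - 1 / 2 ∨ r + 1 / 2 < s
  ze : ζ = ((4 * l * Lm r (-s) : ℝ) : ℂ)
  big : rh0 ≤ 4 * l * Lm r (-s)
  inv : s < r - 1 / 2 → 4 * l = rad r s
  norm : ‖(Th r (ζ, s)).1‖ = 4 * l

theorem FamJ_int0 {n : ℤ} (h1 : (-1 : ℝ) < n) (h2 : (n : ℝ) < 1) : n = 0 := by
  have h3 : (-1 : ℤ) < n := by exact_mod_cast h1
  have h4 : n < 1 := by exact_mod_cast h2
  omega

theorem FamJ_radm (r : ℕ) (x : ℝ) : rad r x * Lm r (-x) = rh0 := by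
  unfold rad
  rw [mul_assoc, ← Lm_add, add_neg_cancel, Lm_zero, mul_one]

theorem FamJ_Lmpos (hr : 1 ≤ r) {x : ℝ} (h : 0 < x) : 1 < Lm r x := by
  rw [← Lm_zero r]
  exact Lm_lt hr h

theorem FamJ_rad_inj (hr : 1 ≤ r) {x y : ℝ} (h : rad r x = rad r y) : x = y := by
  have := congrArg (lam r) h
  rwa [lam_rad hr, lam_rad hr] at this

theorem FamJ_mk_S (hr : 1 ≤ r) {w : ℝ → ℝ × ℝ} (hq : ∀ ρ ≤ 1 / 8, w ρ = qsp r ε ρ) {l : ℝ}
    (h1 : rad r (1 / 2) < 4 * l) (h2 : 4 * l ≤ 1 / 8)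
    (h3 : ¬ (rad r (r - 1 / 2) ≤ 4 * l ∧ 4 * l ≤ rad r (r + 1 / 2))) :
    ∃ (ζ : ℂ) (s : ℝ), MT (Th r (ζ, s)) (PTH.arc w l) ∧ FamJ_S r l ζ s := by
  have hr' : (1 : ℝ) ≤ r := by exact_mod_cast hr
  have hw0 := wd_pos hr
  have hw1 := wd_le hr
  have hrh : (0 : ℝ) < rh0 := by norm_num [rh0]
  have hrad0 : rh0 < rad r (1 / 2) := by
    rw [← rad_zero r]
    exact rad_lt hr (by norm_num)
  have hpos : 0 < 4 * l := by linarith
  have harc : PTH.arc w l = Th r (zq r ε (4 * l), Ssp r (4 * l)) := by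
    rw [q_pt]
    unfold PTH.arc
    rw [hq _ h2]
  have hmid : ∀ x : ℝ, 9 / 10 * wd r ≤ x → x ≤ 2 * r - wd r → Ssp r (rad r x) = x := fun x => S_mid hr
  have hinv := fun h h' => S_inv hr (ρ := 4 * l) h h'
  have hlo : 1 / 2 < Ssp r (4 * l) := by
    have h4 : 1 / 2 ≤ Ssp r (4 * l) := by
      rw [← hmid (1 / 2) (by linarith) (by linarith)]
      exact S_mono hr h1.le
    rcases h4.lt_or_eq with h5 | h5
    · exact h5
    · exfalso
      have h6 := hinv (by linarith) (by linarith)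
      rw [← h5] at h6
      linarith
  have hexc : Ssp r (4 * l) < r - 1 / 2 ∨ r + 1 / 2 < Ssp r (4 * l) := by
    by_cases h4 : rad r (r - 1 / 2) ≤ 4 * l
    · right
      have h5 : rad r (r + 1 / 2) < 4 * l := by
        by_contra hc
        push Not at hc
        exact h3 ⟨h4, hc⟩
      have h6 : r + 1 / 2 ≤ Ssp r (4 * l) := by
        rw [← hmid (r + 1 / 2) (by linarith) (by linarith)]
        exact S_mono hr h5.le
      rcases h6.lt_or_eq with h7 | h7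
      · exact h7
      · exfalso
        have h8 := hinv (by linarith) (by linarith)
        rw [← h7] at h8
        linarith
    · left
      push Not at h4
      have h6 : Ssp r (4 * l) ≤ r - 1 / 2 := by
        rw [← hmid (r - 1 / 2) (by linarith) (by linarith)]
        exact S_mono hr h4.le
      rcases h6.lt_or_eq with h7 | h7
      · exact h7
      · exfalso
        have h8 := hinv (by linarith) (by linarith)
        rw [h7] at h8
        linarith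
  have hD : Dsp r ε (4 * l) = 0 := by
    apply D_zero hr ε (by linarith)
    rcases hexc with h | h
    · left; linarith
    · right; linarith
  have hlam := S_le_lam hr (ρ := 4 * l) (le_trans (rad_lt hr (by linarith)).le h1.le)
  refine ⟨zq r ε (4 * l), Ssp r (4 * l), ?_, ⟨hpos, hlo, S_le hr _, hexc, ?_, ?_, ?_, ?_⟩⟩
  · rw [harc]
    exact MT.refl _
  · unfold zq
    rw [hD, RSG.ex_zero, mul_one]
  · have h4 : rad r (Ssp r (4 * l)) ≤ 4 * l := by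
      rcases hlam.lt_or_eq with h | h
      · have h5 := (rad_lt hr h).le
        rwa [rad_lam hr hpos] at h5
      · rw [h, rad_lam hr hpos]
    calc rh0 = rad r (Ssp r (4 * l)) * Lm r (-Ssp r (4 * l)) := (FamJ_radm r _).symm
      _ ≤ _ := mul_le_mul_of_nonneg_right h4 (Lm_pos _ _).le
  · intro h
    exact hinv (by linarith) (by linarith)
  · rw [← harc]
    unfold PTH.arc
    rw [norm_mul, RSG.ex_norm, mul_one, Complex.norm_real, Real.norm_eq_abs, abs_of_pos hpos]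

theorem FamJ_mk (hr : 1 ≤ r) {w : ℝ → ℝ × ℝ} (hq : ∀ ρ ≤ 1 / 8, w ρ = qsp r ε ρ)
    (j : ℝ → ℂ × ℝ) (Y₀ Yr : ℝ → ℂ) {l : ℝ} (h2 : 4 * l ≤ 1 / 8) :
    ∃ (ζ : ℂ) (s : ℝ), MT (Th r (ζ, s)) (GA r w j Y₀ Yr l) ∧
      (FamJ_P r l ζ s ∨ FamJ_I r j l ζ s ∨ FamJ_A r Y₀ l ζ s ∨ FamJ_R r Yr l ζ s ∨ FamJ_S r l ζ s) := by
  have hrad0 := rad_pos r (1 / 2)
  unfold GA
  split_ifs with g1 g2 g3 g4
  · refine ⟨((-(4 * l) : ℝ) : ℂ), 0, ?_, Or.inl ⟨g1, rfl, rfl⟩⟩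
    have h1 : (((4 * l : ℝ) : ℂ), (0 : ℝ)) = Th r (((-(4 * l) : ℝ) : ℂ), 0) := by
      unfold Th
      simp only [Cn_zero]
      push_cast
      ring_nf
    rw [h1]
    exact MT.refl _
  · push Not at g1
    exact ⟨(j l).1, (j l).2, MT.refl _, Or.inr (Or.inl ⟨g1, g2, rfl, rfl⟩)⟩
  · push Not at g1 g2
    have h0 : 0 < 4 * l := lt_trans (rad_pos r (wd r)) g2
    have h1 := rad_lam hr h0
    refine ⟨_, _, MT.refl _, Or.inr (Or.inr (Or.inl ⟨?_, ?_, h1.symm, rfl⟩))⟩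
    · by_contra hc
      push Not at hc
      rcases hc.lt_or_eq with h | h
      · have := rad_lt hr h
        rw [h1] at this
        linarith
      · rw [h] at h1
        linarith
    · by_contra hc
      push Not at hc
      have := rad_lt hr hc
      rw [h1] at this
      linarith
  · push Not at g1 g2 g3
    have h0 : 0 < 4 * l := lt_trans (rad_pos r (wd r)) g2
    have h1 := rad_lam hr h0
    refine ⟨Yr (lam r (4 * l) - r), lam r (4 * l) - r, ⟨r, by push_cast; rfl⟩,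
      Or.inr (Or.inr (Or.inr (Or.inl ⟨?_, ?_, g3, ?_, rfl⟩)))⟩
    · by_contra hc
      push Not at hc
      have := rad_lt hr (show lam r (4 * l) < r - 1 / 2 by linarith)
      rw [h1] at this
      linarith [g4.1]
    · by_contra hc
      push Not at hc
      have := rad_lt hr (show r + 1 / 2 < lam r (4 * l) by linarith)
      rw [h1] at this
      linarith [g4.2]
    · rw [add_sub_cancel, h1]
  · push Not at g1 g2 g3
    obtain ⟨ζ, s, h3, h4⟩ := FamJ_mk_S hr hq g3 h2 g4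
    exact ⟨ζ, s, h3, Or.inr (Or.inr (Or.inr (Or.inr h4)))⟩

theorem FamJ_tilt (hF : Fam r J Z₀ Zr) (hr : 1 ≤ r) {τ : ℝ} (hτ : τ ∈ Icc (0 : ℝ) 1) {l l' : ℝ}
    (h1 : -rad r (1 / 2) ≤ 4 * l) (h2 : 4 * l ≤ rad r (wd r)) (h3 : -rad r (1 / 2) ≤ 4 * l')
    (h4 : 4 * l' ≤ rad r (wd r)) (h : J τ l = J τ l') : l = l' := by
  obtain ⟨c, hc, ht⟩ := hF.tilt
  have hsm : ContDiff ℝ ∞ fun x : ℝ => J τ x := by
    have h5 : ContDiff ℝ ∞ fun x : ℝ => ((τ, x) : ℝ × ℝ) := contDiff_const.prodMk contDiff_id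
    exact hF.smI.comp h5
  have hf : ContDiff ℝ ∞ fun x : ℝ => (J τ x).2 - c * (J τ x).1.re := by
    have h5 : ContDiff ℝ ∞ fun x : ℝ => (J τ x).1.re :=
      Complex.reCLM.contDiff.comp (contDiff_fst.comp hsm)
    exact (contDiff_snd.comp hsm).sub (contDiff_const.mul h5)
  have hmono : StrictMonoOn (fun x : ℝ => (J τ x).2 - c * (J τ x).1.re)
      (Icc (-rad r (1 / 2) / 4) (rad r (wd r) / 4)) := by
    apply strictMonoOn_of_deriv_pos (convex_Icc _ _) hf.continuous.continuousOn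
    intro x hx
    rw [interior_Icc] at hx
    exact ht τ hτ x (by linarith [hx.1]) (by linarith [hx.2])
  apply hmono.injOn
  · exact ⟨by linarith, by linarith⟩
  · exact ⟨by linarith, by linarith⟩
  · simp only
    rw [h]

theorem FamJ_thin (hr : 1 ≤ r) {ζ : ℂ} {l' s' : ℝ} {ζ' : ℂ} {n : ℤ} (hS : FamJ_S r l' ζ' s')
    {ρ : ℝ} (hρ : 0 < ρ) (hζ : ‖ζ - ρ‖ ≤ ρ / (90 * r)) (h : ζ = Cn r n * ζ') : ∃ j : ℤ, n = r * j := by
  refine thin hr hρ (x := Lm r n * (4 * l' * Lm r (-s'))) (D := 0) ?_ ?_ hζ ?_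
  · exact mul_pos (Lm_pos _ _) (mul_pos hS.pos (Lm_pos _ _))
  · rw [abs_zero]
    exact (hd_pos hr).le
  · rw [h, hS.ze]
    unfold Cn
    rw [zero_sub]
    push_cast
    ring

theorem FamJ_del (hr : 1 ≤ r) {ζ : ℂ} (h : ‖ζ - rh0‖ ≤ 3 * (rad r r - rh0)) :
    ‖ζ - (rh0 : ℝ)‖ ≤ rh0 / (90 * r) := by
  have hrh : (0 : ℝ) < rh0 := by norm_num [rh0]
  have hr' : (1 : ℝ) ≤ r := by exact_mod_cast hr
  refine h.trans ?_
  have h1 := (del_bd hr).2
  calc 3 * (rad r r - rh0) ≤ 3 * (1001 / 1000 * rh0 / (1000 * r)) := by linarith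
    _ = (3 * 1001 / 1000 * 90 / 1000 * rh0) / (90 * r) := by field_simp
    _ ≤ rh0 / (90 * r) := by
        apply div_le_div_of_nonneg_right _ (by positivity)
        linarith

theorem FamJ_jbd (hr : 1 ≤ r) {n j : ℤ} (h : n = r * j) {a b : ℤ} (h1 : (r : ℝ) * a < n) (h2 : (n : ℝ) < r * b) :
    a < j ∧ j < b := by
  have hr' : (0 : ℝ) < r := by exact_mod_cast hr
  have h3 : (n : ℝ) = r * j := by exact_mod_cast h
  rw [h3] at h1 h2
  have h4 := lt_of_mul_lt_mul_left h1 hr'.le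
  have h5 := lt_of_mul_lt_mul_left h2 hr'.le
  exact ⟨by exact_mod_cast h4, by exact_mod_cast h5⟩

section pairs
variable {τ l l' s s' : ℝ} {ζ ζ' : ℂ} {n : ℤ}

theorem FamJ_PP (h : FamJ_P r l ζ s) (h' : FamJ_P r l' ζ' s') (h1 : s' = s + n)
    (h2 : ζ = Cn r n * ζ') : l = l' := by
  have hn : (n : ℝ) = 0 := by linarith [h.se, h'.se]
  rw [hn, Cn_zero, one_mul, h.ze, h'.ze] at h2
  have h3 : (-(4 * l) : ℝ) = -(4 * l') := by exact_mod_cast h2
  linarith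

theorem FamJ_PI (hr : 1 ≤ r) (hF : Fam r J Z₀ Zr) (hτ : τ ∈ Icc (0 : ℝ) 1) (h : FamJ_P r l ζ s)
    (h' : FamJ_I r (J τ) l' ζ' s') (h1 : s' = s + n) (h2 : ζ = Cn r n * ζ') : l = l' := by
  have hw1 := wd_le hr
  have hreg := hF.regI τ hτ l' h'.lo.le h'.hi
  rw [← h'.ze, ← h'.se] at hreg
  have hs := h.se
  have hn : n = 0 := FamJ_int0 (by linarith) (by linarith)
  subst hn
  push_cast at h1 h2
  rw [Cn_zero, one_mul, h.ze] at h2
  have h3 : -(4 * l) = rad r (1 / 2) := by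
    have h4 : ‖ζ'‖ = -(4 * l) := by
      rw [← h2, Complex.norm_real, Real.norm_eq_abs, abs_of_nonneg]
      linarith [h.le, rad_pos r (1 / 2)]
    linarith [h.le, hreg.1]
  obtain ⟨e, he, he1, -⟩ := hF.ends
  have h5 : J τ l = J τ l' := by
    rw [he1 τ l (by rw [show 4 * l + rad r (1 / 2) = 0 by linarith, abs_zero]; exact he.le)]
    rw [h2, h'.ze]
    have h6 : (0 : ℝ) = (J τ l').2 := by rw [← h'.se]; linarith
    rw [h6]
  exact FamJ_tilt hF hr hτ (by linarith) (by linarith [rad_pos r (wd r), rad_pos r (1 / 2)]) h'.lo.le h'.hi h5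

theorem FamJ_PA (hr : 1 ≤ r) {Y : ℝ → ℂ} (h : FamJ_P r l ζ s) (h' : FamJ_A r Y l' ζ' s')
    (h1 : s' = s + n) : l = l' := by
  exfalso
  have hw0 := wd_pos hr
  have hs := h.se
  have h3 := h'.lo
  have h4 := h'.hi
  have hn : n = 0 := FamJ_int0 (by linarith) (by linarith)
  subst hn
  push_cast at h1
  linarith

theorem FamJ_PR (hF : Fam r J Z₀ Zr) (hτ : τ ∈ Icc (0 : ℝ) 1) (h : FamJ_P r l ζ s)
    (h' : FamJ_R r (Zr τ) l' ζ' s') (h1 : s' = s + n) (h2 : ζ = Cn r n * ζ') : l = l' := by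
  exfalso
  have hs := h.se
  have h3 := h'.lo
  have h4 := h'.hi
  have hn : n = 0 := FamJ_int0 (by linarith) (by linarith)
  subst hn
  push_cast at h1 h2
  rw [Cn_zero, one_mul, h.ze, h'.ze] at h2
  have h5 : s' = 0 := by linarith
  rw [h5] at h2
  exact hF.disp τ hτ (-(4 * l)) (by linarith [h.le]) h2.symm

theorem FamJ_PS (hr : 1 ≤ r) (h : FamJ_P r l ζ s)
    (h' : FamJ_S r l' ζ' s') (h1 : s' = s + n) (h2 : ζ = Cn r n * ζ') : l = l' := by
  exfalso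
  have hr' : (1 : ℝ) ≤ r := by exact_mod_cast hr
  have hw0 := wd_pos hr
  have hs := h.se
  have h3 := h'.lo
  have h4 := h'.hi
  have hp : 0 < -(4 * l) := by linarith [h.le, rad_pos r (1 / 2)]
  obtain ⟨j, hj⟩ := FamJ_thin hr h' hp (by
    rw [h.ze, sub_self, norm_zero]
    positivity) h2
  obtain ⟨h5, h6⟩ := FamJ_jbd hr hj (a := 0) (b := 2) (by push_cast; linarith) (by push_cast; linarith)
  have h7 : j = 1 := by omega
  subst h7
  have h8 : (n : ℝ) = r := by rw [hj]; push_cast; ring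
  rcases h'.ex with h9 | h9 <;> linarith

theorem FamJ_II (hr : 1 ≤ r) (hF : Fam r J Z₀ Zr) (hτ : τ ∈ Icc (0 : ℝ) 1) (h : FamJ_I r (J τ) l ζ s)
    (h' : FamJ_I r (J τ) l' ζ' s') (h1 : s' = s + n) (h2 : ζ = Cn r n * ζ') : l = l' := by
  have hw1 := wd_le hr
  have hreg := hF.regI τ hτ l' h'.lo.le h'.hi
  rw [← h'.ze, ← h'.se] at hreg
  have hreg' := hF.regI τ hτ l h.lo.le h.hi
  rw [← h.ze, ← h.se] at hreg'
  have hn : n = 0 := FamJ_int0 (by linarith) (by linarith)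
  subst hn
  push_cast at h1 h2
  rw [Cn_zero, one_mul, h.ze, h'.ze] at h2
  have h3 : (J τ l).2 = (J τ l').2 := by rw [← h.se, ← h'.se]; linarith
  exact FamJ_tilt hF hr hτ h.lo.le h.hi h'.lo.le h'.hi (Prod.ext h2 h3)

theorem FamJ_IA (hr : 1 ≤ r) {Y : ℝ → ℂ} (hF : Fam r J Z₀ Zr) (hτ : τ ∈ Icc (0 : ℝ) 1)
    (h : FamJ_I r (J τ) l ζ s) (h' : FamJ_A r Y l' ζ' s') (h1 : s' = s + n) : l = l' := by
  exfalso
  have hw1 := wd_le hr
  have hreg' := hF.regI τ hτ l h.lo.le h.hi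
  rw [← h.ze, ← h.se] at hreg'
  have h3 := h'.lo
  have h4 := h'.hi
  have hn : n = 0 := FamJ_int0 (by linarith) (by linarith)
  subst hn
  push_cast at h1
  linarith

theorem FamJ_IR (hr : 1 ≤ r) (hF : Fam r J Z₀ Zr) (hτ : τ ∈ Icc (0 : ℝ) 1)
    (h : FamJ_I r (J τ) l ζ s) (h' : FamJ_R r (Zr τ) l' ζ' s') (h1 : s' = s + n)
    (h2 : ζ = Cn r n * ζ') : l = l' := by
  exfalso
  have hw1 := wd_le hr
  have hreg' := hF.regI τ hτ l h.lo.le h.hi
  rw [← h.ze, ← h.se] at hreg'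
  have h3 := h'.lo
  have h4 := h'.hi
  have hn : n = 0 := FamJ_int0 (by linarith) (by linarith)
  subst hn
  push_cast at h1 h2
  rw [Cn_zero, one_mul, h.ze, h'.ze, h1, add_zero, h.se] at h2
  exact hF.disI τ hτ l h.lo.le h.hi h2.symm

theorem FamJ_IS (hr : 1 ≤ r) (hF : Fam r J Z₀ Zr) (hτ : τ ∈ Icc (0 : ℝ) 1)
    (h : FamJ_I r (J τ) l ζ s) (h' : FamJ_S r l' ζ' s') (h1 : s' = s + n)
    (h2 : ζ = Cn r n * ζ') : l = l' := by
  exfalso
  have hw1 := wd_le hr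
  have hreg' := hF.regI τ hτ l h.lo.le h.hi
  rw [← h.ze, ← h.se] at hreg'
  have h3 := h'.lo
  have hn : (1 : ℝ) ≤ n := by
    have h5 : (0 : ℝ) < n := by linarith
    have h6 : (0 : ℤ) < n := by exact_mod_cast h5
    exact_mod_cast h6
  have h4 : ‖ζ‖ = Lm r n * (4 * l' * Lm r (-s')) := by
    rw [h2, norm_mul, Cn_norm, h'.ze, Complex.norm_real, Real.norm_eq_abs,
      abs_of_pos (mul_pos h'.pos (Lm_pos _ _))]
  have h5 : Lm r (1 / 2) < Lm r n := Lm_lt hr (by linarith)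
  have hrh : (0 : ℝ) < rh0 := by norm_num [rh0]
  have h6 : rad r (1 / 2) < ‖ζ‖ := by
    rw [h4]
    calc rad r (1 / 2) = Lm r (1 / 2) * rh0 := by unfold rad; ring
      _ < Lm r n * rh0 := mul_lt_mul_of_pos_right h5 hrh
      _ ≤ Lm r n * (4 * l' * Lm r (-s')) := mul_le_mul_of_nonneg_left h'.big (Lm_pos _ _).le
  linarith [hreg'.1]

theorem FamJ_AA {Y : ℝ → ℂ} (hr : 1 ≤ r) (h : FamJ_A r Y l ζ s) (h' : FamJ_A r Y l' ζ' s')
    (h1 : s' = s + n) : l = l' := by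
  have hw0 := wd_pos hr
  have h3 := h'.lo
  have h4 := h'.hi
  have h5 := h.lo
  have h6 := h.hi
  have hn : n = 0 := FamJ_int0 (by linarith) (by linarith)
  subst hn
  push_cast at h1
  rw [add_zero] at h1
  have h7 := h.le
  have h8 := h'.le
  rw [h1] at h8
  linarith

theorem FamJ_AR (hr : 1 ≤ r) (hF : Fam r J Z₀ Zr) (hτ : τ ∈ Icc (0 : ℝ) 1)
    (h : FamJ_A r (Z₀ τ) l ζ s) (h' : FamJ_R r (Zr τ) l' ζ' s') (h1 : s' = s + n)
    (h2 : ζ = Cn r n * ζ') : l = l' := by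
  exfalso
  have hw0 := wd_pos hr
  have h3 := h'.lo
  have h4 := h'.hi
  have h5 := h.lo
  have h6 := h.hi
  have hn : n = 0 ∨ n = -1 := by
    have h7 : (-2 : ℝ) < n := by linarith
    have h8 : (n : ℝ) < 1 := by linarith
    have h9 : (-2 : ℤ) < n := by exact_mod_cast h7
    have h10 : n < 1 := by exact_mod_cast h8
    omega
  rcases hn with hn | hn
  · subst hn
    push_cast at h1 h2
    rw [Cn_zero, one_mul, h.ze, h'.ze, h1, add_zero] at h2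
    exact hF.dis τ hτ s h5.le h6 h2
  · subst hn
    push_cast at h1 h2
    have hs : s = 1 / 2 := by linarith
    have hs' : s' = -(1 / 2) := by linarith
    obtain ⟨e, he, -, -, he1, he2⟩ := hF.ends
    have e1 : ζ = rh0 := by rw [h.ze]; exact he1 τ s (Or.inr (by linarith))
    have e2 : ζ' = rad r r := by
      rw [h'.ze]
      exact he2 τ s' (by rw [hs', abs_neg, abs_of_pos (by norm_num)]; linarith)
    have hrh : (0 : ℝ) < rh0 := by norm_num [rh0]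
    have e3 : rh0 = Lm r (-1) * rad r r := by
      have e4 := congrArg norm h2
      rw [e1, e2, norm_mul, Cn_norm, Complex.norm_real, Complex.norm_real, Real.norm_eq_abs,
        Real.norm_eq_abs, abs_of_pos hrh, abs_of_pos (rad_pos _ _)] at e4
      exact e4
    have e4 : rad r 0 = rad r (-1 + r) := by
      rw [rad_zero]
      unfold rad
      rw [Lm_add]
      unfold rad at e3
      linarith
    have e5 := FamJ_rad_inj hr e4
    have e6 : (r : ℝ) = 1 := by linarith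
    have e7 := h'.le
    have e8 := h'.gt
    rw [e7, e6, hs'] at e8
    norm_num at e8

theorem FamJ_AS (hr : 1 ≤ r) (hF : Fam r J Z₀ Zr) (hτ : τ ∈ Icc (0 : ℝ) 1)
    (h : FamJ_A r (Z₀ τ) l ζ s) (h' : FamJ_S r l' ζ' s') (h1 : s' = s + n)
    (h2 : ζ = Cn r n * ζ') : l = l' := by
  exfalso
  have hr' : (1 : ℝ) ≤ r := by exact_mod_cast hr
  have hrh : (0 : ℝ) < rh0 := by norm_num [rh0]
  have hw0 := wd_pos hr
  have h3 := h'.lo
  have h4 := h'.hi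
  have h5 := h.lo
  have h6 := h.hi
  obtain ⟨j, hj⟩ := FamJ_thin hr h' hrh (FamJ_del hr (by rw [h.ze]; exact hF.reg₀ τ hτ s h5.le h6)) h2
  obtain ⟨h7, h8⟩ := FamJ_jbd hr hj (a := 0) (b := 2) (by push_cast; linarith) (by push_cast; linarith)
  have h9 : j = 1 := by omega
  subst h9
  have h10 : (n : ℝ) = r := by rw [hj]; push_cast; ring
  rcases h'.ex with h9 | h9 <;> linarith

theorem FamJ_RR (hr : 1 ≤ r) (hF : Fam r J Z₀ Zr)
    (h : FamJ_R r (Zr τ) l ζ s) (h' : FamJ_R r (Zr τ) l' ζ' s') (h1 : s' = s + n)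
    (h2 : ζ = Cn r n * ζ') : l = l' := by
  have h3 := h'.lo
  have h4 := h'.hi
  have h5 := h.lo
  have h6 := h.hi
  by_cases hn : n = 0
  · subst hn
    push_cast at h1
    rw [add_zero] at h1
    have h7 := h.le
    have h8 := h'.le
    rw [h1] at h8
    linarith
  · exfalso
    have habs : |s| = 1 / 2 ∧ |s'| = 1 / 2 := by
      have h7 : (-2 : ℝ) < n := by linarith
      have h8 : (n : ℝ) < 2 := by linarith
      have h9 : (-2 : ℤ) < n := by exact_mod_cast h7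
      have h10 : n < 2 := by exact_mod_cast h8
      have h11 : n = 1 ∨ n = -1 := by omega
      rcases h11 with h11 | h11
      · subst h11
        push_cast at h1
        have hs : s = -(1 / 2) := by linarith
        have hs' : s' = 1 / 2 := by linarith
        rw [hs, hs', abs_neg]
        norm_num
      · subst h11
        push_cast at h1
        have hs : s = 1 / 2 := by linarith
        have hs' : s' = -(1 / 2) := by linarith
        rw [hs, hs', abs_neg]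
        norm_num
    obtain ⟨e, he, -, -, he1, he2⟩ := hF.ends
    have e1 : ζ = rad r r := by
      rw [h.ze]
      exact he2 τ s (by rw [habs.1]; linarith)
    have e2 : ζ' = rad r r := by
      rw [h'.ze]
      exact he2 τ s' (by rw [habs.2]; linarith)
    have e3 : rad r r = Lm r n * rad r r := by
      have e4 := congrArg norm h2
      rw [e1, e2, norm_mul, Cn_norm, Complex.norm_real, Real.norm_eq_abs, abs_of_pos (rad_pos _ _)] at e4
      exact e4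
    have e4 : Lm r n = 1 := by
      have := rad_pos r (r : ℝ)
      have e5 : Lm r n * rad r r = 1 * rad r r := by rw [one_mul]; exact e3.symm
      exact mul_right_cancel₀ this.ne' e5
    have hn' : (n : ℝ) ≠ 0 := by exact_mod_cast hn
    rcases lt_or_gt_of_ne hn' with h7 | h7
    · have := Lm_lt hr h7
      rw [Lm_zero] at this
      linarith
    · have := Lm_lt hr h7
      rw [Lm_zero] at this
      linarith

theorem FamJ_RS (hr : 1 ≤ r) (hF : Fam r J Z₀ Zr) (hτ : τ ∈ Icc (0 : ℝ) 1)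
    (h : FamJ_R r (Zr τ) l ζ s) (h' : FamJ_S r l' ζ' s') (h1 : s' = s + n)
    (h2 : ζ = Cn r n * ζ') : l = l' := by
  exfalso
  have hr' : (1 : ℝ) ≤ r := by exact_mod_cast hr
  have hrh : (0 : ℝ) < rh0 := by norm_num [rh0]
  have hw0 := wd_pos hr
  have h3 := h'.lo
  have h4 := h'.hi
  have h5 := h.lo
  have h6 := h.hi
  have hreg := hF.regr τ hτ s (abs_le.2 ⟨h5, h6⟩)
  rw [← h.ze] at hreg
  obtain ⟨j, hj⟩ := FamJ_thin hr h' hrh (FamJ_del hr hreg.1) h2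
  obtain ⟨h7, h8⟩ := FamJ_jbd hr hj (a := 0) (b := 3) (by push_cast; linarith) (by push_cast; linarith)
  have h9 : j = 1 ∨ j = 2 := by omega
  rcases h9 with h9 | h9
  · subst h9
    have h10 : (n : ℝ) = r := by rw [hj]; push_cast; ring
    rcases h'.ex with h9 | h9 <;> linarith
  · subst h9
    have h10 : (n : ℝ) = 2 * r := by rw [hj]; push_cast; ring
    have hs : s < 0 := by linarith
    have h11 := hreg.2 hs
    have h12 : ‖ζ‖ = Lm r n * (4 * l' * Lm r (-s')) := by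
      rw [h2, norm_mul, Cn_norm, h'.ze, Complex.norm_real, Real.norm_eq_abs,
        abs_of_pos (mul_pos h'.pos (Lm_pos _ _))]
    have h13 : rad r (2 * r) ≤ ‖ζ‖ := by
      rw [h12, h10]
      calc rad r (2 * r) = Lm r (2 * r) * rh0 := by unfold rad; ring
        _ ≤ _ := mul_le_mul_of_nonneg_left h'.big (Lm_pos _ _).le
    have h14 : ‖ζ‖ - rh0 ≤ ‖ζ - rh0‖ := by
      have := norm_sub_norm_le ζ (rh0 : ℂ)
      rwa [Complex.norm_real, Real.norm_eq_abs, abs_of_pos hrh] at this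
    have h15 := rad_two hr
    have h16 := (del_bd hr).1
    have h17 : 0 < rh0 / (1000 * r) := by positivity
    linarith

theorem FamJ_SS1 (hr : 1 ≤ r) (h : FamJ_S r l ζ s) (h' : FamJ_S r l' ζ' s') (h1 : s' = s + r)
    (h2 : ζ = Cn r r * ζ') : False := by
  have hr' : (1 : ℝ) ≤ r := by exact_mod_cast hr
  have hrh : (0 : ℝ) < rh0 := by norm_num [rh0]
  have hw0 := wd_pos hr
  have h4 := h'.hi
  have h5 : s < r - 1 / 2 := by
    rcases h.ex with h6 | h6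
    · exact h6
    · exfalso; linarith
  have h6 := h.inv h5
  have h7 : ‖ζ‖ = rh0 := by
    rw [h.ze, Complex.norm_real, Real.norm_eq_abs, abs_of_pos (mul_pos h.pos (Lm_pos _ _)), h6,
      FamJ_radm]
  have h8 : ‖ζ‖ = Lm r r * (4 * l' * Lm r (-s')) := by
    rw [h2, norm_mul, Cn_norm, h'.ze, Complex.norm_real, Real.norm_eq_abs,
      abs_of_pos (mul_pos h'.pos (Lm_pos _ _))]
  have h9 := FamJ_Lmpos hr (x := r) (by linarith)
  have h10 : 1 * rh0 < Lm r r * rh0 := mul_lt_mul_of_pos_right h9 hrh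
  have h11 : Lm r r * rh0 ≤ Lm r r * (4 * l' * Lm r (-s')) :=
    mul_le_mul_of_nonneg_left h'.big (Lm_pos _ _).le
  linarith

theorem FamJ_SS (hr : 1 ≤ r) (h : FamJ_S r l ζ s) (h' : FamJ_S r l' ζ' s') (h1 : s' = s + n)
    (h2 : ζ = Cn r n * ζ') : l = l' := by
  have hr' : (1 : ℝ) ≤ r := by exact_mod_cast hr
  have hw0 := wd_pos hr
  have h3 := h'.lo
  have h4 := h'.hi
  have h5 := h.lo
  have h6 := h.hi
  obtain ⟨j, hj⟩ := FamJ_thin hr h' (mul_pos h.pos (Lm_pos r (-s))) (by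
    rw [h.ze, sub_self, norm_zero]
    have := mul_pos h.pos (Lm_pos r (-s))
    positivity) h2
  obtain ⟨h7, h8⟩ := FamJ_jbd hr hj (a := -2) (b := 2) (by push_cast; linarith) (by push_cast; linarith)
  have h9 : j = 0 ∨ j = 1 ∨ j = -1 := by omega
  rcases h9 with h9 | h9 | h9
  · subst h9
    have h10 : (n : ℝ) = 0 := by rw [hj]; push_cast; ring
    rw [h10] at h1 h2
    rw [Cn_zero, one_mul, h.ze, h'.ze, h1, add_zero] at h2
    have h11 : 4 * l * Lm r (-s) = 4 * l' * Lm r (-s) := by exact_mod_cast h2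
    have h12 := mul_right_cancel₀ (Lm_pos r (-s)).ne' h11
    linarith
  · subst h9
    have h10 : (n : ℝ) = r := by rw [hj]; push_cast; ring
    rw [h10] at h1 h2
    exact (FamJ_SS1 hr h h' h1 h2).elim
  · subst h9
    have h10 : (n : ℝ) = -r := by rw [hj]; push_cast; ring
    rw [h10] at h1 h2
    refine (FamJ_SS1 hr h' h (by linarith) ?_).elim
    rw [h2, ← mul_assoc, ← Cn_add, add_neg_cancel, Cn_zero, one_mul]

end pairs

theorem FamJ_small (hr : 1 ≤ r) (hF : Fam r J Z₀ Zr) {τ : ℝ} (hτ : τ ∈ Icc (0 : ℝ) 1) {l s : ℝ} {ζ : ℂ}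
    (h8 : 4 * l ≤ 1 / 8)
    (h : FamJ_I r (J τ) l ζ s ∨ FamJ_A r (Z₀ τ) l ζ s ∨ FamJ_R r (Zr τ) l ζ s ∨ FamJ_S r l ζ s) :
    ‖(Th r (ζ, s)).1‖ ≤ 1 / 8 := by
  have hr' : (1 : ℝ) ≤ r := by exact_mod_cast hr
  have hrh : (0 : ℝ) < rh0 := by norm_num [rh0]
  have hrh' : rh0 = 1 / 1000 := rfl
  have hw0 := wd_pos hr
  have hw1 := wd_le hr
  have hkey : |s| ≤ 1 / 2 → ‖ζ‖ ≤ 1 / 100 → ‖(Th r (ζ, s)).1‖ ≤ 1 / 8 := by
    intro h1 h2
    rw [Th_norm]
    have h3 := Lm_bd hr (x := s) (by linarith)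
    rw [abs_le] at h3
    calc Lm r s * ‖ζ‖ ≤ 2 * (1 / 100) := by
          apply mul_le_mul (by linarith) h2 (norm_nonneg _) (by norm_num)
      _ ≤ 1 / 8 := by norm_num
  have hdel := (del_bd hr).2
  have hdel' : 1001 / 1000 * rh0 / (1000 * r) ≤ 1001 / 1000 * rh0 / 1000 := by
    apply div_le_div_of_nonneg_left (by positivity) (by norm_num)
    linarith
  have hkey2 : ‖ζ - rh0‖ ≤ 3 * (rad r r - rh0) → ‖ζ‖ ≤ 1 / 100 := by
    intro h1
    have h2 : ‖ζ‖ ≤ ‖ζ - rh0‖ + rh0 := by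
      have h3 := norm_add_le (ζ - rh0) (rh0 : ℂ)
      rw [sub_add_cancel, Complex.norm_real, Real.norm_eq_abs, abs_of_pos hrh] at h3
      exact h3
    rw [hrh'] at hdel' hdel h2 h1
    linarith
  rcases h with h | h | h | h
  · have hreg := hF.regI τ hτ l h.lo.le h.hi
    rw [← h.ze, ← h.se] at hreg
    apply hkey
    · rw [abs_of_nonneg hreg.2.1]
      linarith
    · have h3 := rad_bd hr (x := 1 / 2) (by rw [abs_of_pos (by norm_num)]; linarith)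
      rw [abs_le, hrh'] at h3
      linarith [hreg.1]
  · apply hkey
    · rw [abs_of_pos (by linarith [h.lo])]
      exact h.hi
    · apply hkey2
      rw [h.ze]
      exact hF.reg₀ τ hτ s h.lo.le h.hi
  · apply hkey
    · exact abs_le.2 ⟨h.lo, h.hi⟩
    · apply hkey2
      rw [h.ze]
      exact (hF.regr τ hτ s (abs_le.2 ⟨h.lo, h.hi⟩)).1
  · rw [h.norm]
    exact h8

theorem FamJ_O (hr : 1 ≤ r) (j : ℝ → ℂ × ℝ) (Y₀ Yr : ℝ → ℂ) {w : ℝ → ℝ × ℝ} {l : ℝ} (h : 1 / 8 < 4 * l) :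
    GA r w j Y₀ Yr l = PTH.arc w l := by
  have hr' : (1 : ℝ) ≤ r := by exact_mod_cast hr
  have hrh' : rh0 = 1 / 1000 := rfl
  have hw0 := wd_pos hr
  have hw1 := wd_le hr
  have h1 : ∀ x : ℝ, |x| ≤ 4 * r → rad r x ≤ 1 / 100 := by
    intro x hx
    have h3 := rad_bd hr hx
    rw [abs_le, hrh'] at h3
    linarith
  have e1 := h1 (1 / 2) (by rw [abs_of_pos (by norm_num)]; linarith)
  have e2 := h1 (wd r) (by rw [abs_of_pos hw0]; linarith)
  have e3 := h1 (r + 1 / 2) (by rw [abs_of_pos (by linarith)]; linarith)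
  have e4 := rad_pos r (1 / 2)
  unfold GA
  rw [if_neg (by linarith), if_neg (by linarith), if_neg (by linarith), if_neg (by
    rintro ⟨-, h2⟩
    linarith)]

theorem FamJ_O_norm {w : ℝ → ℝ × ℝ} {l : ℝ} (h : 1 / 8 < 4 * l) : ‖(PTH.arc w l).1‖ = 4 * l := by
  unfold PTH.arc
  rw [norm_mul, RSG.ex_norm, mul_one, Complex.norm_real, Real.norm_eq_abs, abs_of_pos (by linarith)]

theorem FamJ_OX (hr : 1 ≤ r) {w : ℝ → ℝ × ℝ} (hav : ∀ ρ, ¬ PTH.Obs (w ρ))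
    (hq : ∀ ρ ≤ 1 / 8, w ρ = qsp r ε ρ) (hF : Fam r J Z₀ Zr) {τ : ℝ} (hτ : τ ∈ Icc (0 : ℝ) 1) {l l' : ℝ}
    (h1 : 1 / 8 < 4 * l) (h2 : 4 * l' ≤ 1 / 8)
    (h : MT (GA r w (J τ) (Z₀ τ) (Zr τ) l) (GA r w (J τ) (Z₀ τ) (Zr τ) l')) : False := by
  rw [FamJ_O hr _ _ _ h1] at h
  obtain ⟨ζ, s, h3, h4⟩ := FamJ_mk hr hq (J τ) (Z₀ τ) (Zr τ) h2
  have h5 := h.trans h3.symm
  obtain ⟨m, hm⟩ := h5
  have h6 : (Th r (ζ, s)).1 = (PTH.arc w l).1 := by
    rw [hm]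
    simp
  have h7 : (Th r (ζ, s)).2 = (PTH.arc w l).2 + m := by
    rw [hm]
    simp
  rcases h4 with h4 | h4
  · have h8 : (Th r (ζ, s)).1 = ((4 * l' : ℝ) : ℂ) := by
      unfold Th
      simp only
      rw [h4.se, h4.ze, Cn_zero]
      push_cast
      ring
    have h9 : (Th r (ζ, s)).2 = 0 := h4.se
    have h10 : 0 < -(4 * l') := by linarith [h4.le, rad_pos r (1 / 2)]
    have h11 : 4 * l = -(4 * l') := by
      rw [← FamJ_O_norm (w := w) h1, ← h6, h8, Complex.norm_real, Real.norm_eq_abs,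
        abs_of_neg (by linarith)]
    have h12 : ex (w (4 * l)).1 = ex (1 / 2) := by
      rw [RSG.ex_half]
      have h13 : ((4 * l : ℝ) : ℂ) * ex (w (4 * l)).1 = ((4 * l : ℝ) : ℂ) * (-1) := by
        rw [h6] at h8
        have h14 : ((4 * l : ℝ) : ℂ) * ex (w (4 * l)).1 = ((4 * l' : ℝ) : ℂ) := h8
        rw [h14]
        have h15 : 4 * l' = (4 * l) * (-1) := by linarith
        rw [h15]
        push_cast
        ring
      exact mul_left_cancel₀ (by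
        have : (4 * l : ℝ) ≠ 0 := by linarith
        exact_mod_cast this) h13
    obtain ⟨k, hk⟩ := RSG.ex_eq_iff.1 h12
    apply hav (4 * l)
    refine ⟨-k, -m, ?_⟩
    have h16 : (w (4 * l)).2 = -m := by
      rw [h9] at h7
      have : (PTH.arc w l).2 = (w (4 * l)).2 := rfl
      linarith
    ext1
    · simp only
      push_cast
      linarith
    · simp only
      push_cast
      exact h16
  · have h8 := FamJ_small hr hF hτ h2 h4
    rw [h6, FamJ_O_norm h1] at h8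
    linarith

theorem fam_inj (hr : 1 ≤ r) (hav : ∀ ρ, ¬ PTH.Obs (w ρ)) (hq : ∀ ρ ≤ 1 / 8, w ρ = qsp r ε ρ)
    (hF : Fam r J Z₀ Zr) {τ : ℝ} (hτ : τ ∈ Icc (0 : ℝ) 1) {l l' : ℝ} (hl : |l| < 1 / 4) (hl' : |l'| < 1 / 4)
    (h : MT (GA r w (J τ) (Z₀ τ) (Zr τ) l) (GA r w (J τ) (Z₀ τ) (Zr τ) l')) : l = l' := by
  rcases lt_or_ge (1 / 8) (4 * l) with g1 | g1
  · rcases lt_or_ge (1 / 8) (4 * l') with g2 | g2
    · rw [FamJ_O hr _ _ _ g1, FamJ_O hr _ _ _ g2] at h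
      obtain ⟨m, hm⟩ := h
      have h3 := FamJ_O_norm (w := w) g2
      rw [hm] at h3
      simp only [Prod.fst_add, add_zero] at h3
      rw [FamJ_O_norm g1] at h3
      linarith
    · exact (FamJ_OX hr hav hq hF hτ g1 g2 h).elim
  rcases lt_or_ge (1 / 8) (4 * l') with g2 | g2
  · exact (FamJ_OX hr hav hq hF hτ g2 g1 h.symm).elim
  obtain ⟨ζ, s, h3, h4⟩ := FamJ_mk hr hq (J τ) (Z₀ τ) (Zr τ) g1
  obtain ⟨ζ', s', h3', h4'⟩ := FamJ_mk hr hq (J τ) (Z₀ τ) (Zr τ) g2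
  have h5 := (h3.trans h).trans h3'.symm
  have h6 := h5.symm
  rw [Th_mt] at h5 h6
  obtain ⟨n, h1, h2⟩ := h5
  obtain ⟨n', h1', h2'⟩ := h6
  rcases h4 with h4 | h4 | h4 | h4 | h4
  · rcases h4' with h4' | h4' | h4' | h4' | h4'
    · exact FamJ_PP h4 h4' h1 h2
    · exact FamJ_PI hr hF hτ h4 h4' h1 h2
    · exact FamJ_PA hr h4 h4' h1
    · exact FamJ_PR hF hτ h4 h4' h1 h2
    · exact FamJ_PS hr h4 h4' h1 h2
  · rcases h4' with h4' | h4' | h4' | h4' | h4'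
    · exact (FamJ_PI hr hF hτ h4' h4 h1' h2').symm
    · exact FamJ_II hr hF hτ h4 h4' h1 h2
    · exact FamJ_IA hr hF hτ h4 h4' h1
    · exact FamJ_IR hr hF hτ h4 h4' h1 h2
    · exact FamJ_IS hr hF hτ h4 h4' h1 h2
  · rcases h4' with h4' | h4' | h4' | h4' | h4'
    · exact (FamJ_PA hr h4' h4 h1').symm
    · exact (FamJ_IA hr hF hτ h4' h4 h1').symm
    · exact FamJ_AA hr h4 h4' h1
    · exact FamJ_AR hr hF hτ h4 h4' h1 h2
    · exact FamJ_AS hr hF hτ h4 h4' h1 h2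
  · rcases h4' with h4' | h4' | h4' | h4' | h4'
    · exact (FamJ_PR hF hτ h4' h4 h1' h2').symm
    · exact (FamJ_IR hr hF hτ h4' h4 h1' h2').symm
    · exact (FamJ_AR hr hF hτ h4' h4 h1' h2').symm
    · exact FamJ_RR hr hF h4 h4' h1 h2
    · exact FamJ_RS hr hF hτ h4 h4' h1 h2
  · rcases h4' with h4' | h4' | h4' | h4' | h4'
    · exact (FamJ_PS hr h4' h4 h1' h2').symm
    · exact (FamJ_IS hr hF hτ h4' h4 h1' h2').symm
    · exact (FamJ_AS hr hF hτ h4' h4 h1' h2').symm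
    · exact (FamJ_RS hr hF hτ h4' h4 h1' h2').symm
    · exact FamJ_SS hr h4 h4' h1 h2

end

end Pool.Agent.SPR
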