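import Pool.Agent.SPR.FamS
import Pool.Agent.SPR.FamJ
import Pool.Agent.ISO.LiftB
import Pool.Agent.PTH.Repl

/-!
# SPR/FamC: modified arcs are equivalent   (difficulty 2)

`fam_eq`: `ISO.arcEq_of_isotopy` with `k τ l = GA r w (I τ) (Z₀ τ) (Zr τ) l`, `ε = 1/8`: `fam_smooth`, `fam_norm`, `fam_imm`, `fam_end`, `fam_inj` (`k s l = k s l' + (0, m)` is `MT (k s l') (k s l)`).
`arc_congr`: if `γ l = γ' l` for `|l| < 1/4`, then `VKnot C γ K` iff `VKnot C γ' K`; two knots with the same arc and the same tail are equal (periodicity), so the iff is trivial.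
`arc_trans`: `PTH.ArcEq.trans` (the middle arc is smooth, has norm `< 1` and equals the first one near the ends).
-/

open scoped Manifold ContDiff Topology
open Set Filter
open Complex (I)
open Pool.Agent.RSG (E4 cj ex)

namespace Pool.Agent.SPR

universe u

section
variable {r : ℕ} {ε : ℝ} {w : ℝ → ℝ × ℝ} {J : ℝ → ℝ → ℂ × ℝ} {Z₀ Zr : ℝ → ℝ → ℂ}

theorem fam_eq (hr : 1 ≤ r) (hw : ContDiff ℝ ∞ w) (hav : ∀ ρ, ¬ PTH.Obs (w ρ))
    (hq : ∀ ρ ≤ 1 / 8, w ρ = qsp r ε ρ) (hF : Fam r J Z₀ Zr) :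
    PTH.ArcEq.{u} (GA r w (J 0) (Z₀ 0) (Zr 0)) (GA r w (J 1) (Z₀ 1) (Zr 1)) := by
  refine ISO.arcEq_of_isotopy (fun τ l => GA r w (J τ) (Z₀ τ) (Zr τ) l) (ε := 1 / 8) (by norm_num)
    ?_ (fun l _ => rfl) (fun l _ => rfl) ?_ ?_ ?_ ?_
  · intro s _ l hl
    exact fam_smooth hr hw hq hF s hl
  · intro s _ l _ hl2
    have h8 : 1 / 8 ≤ |l| := by linarith
    show GA r w (J s) (Z₀ s) (Zr s) l = GA r w (J 0) (Z₀ 0) (Zr 0) l
    rw [fam_end hr hq _ _ _ h8, fam_end hr hq _ _ _ h8]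
  · intro s hs l hl
    exact fam_norm hr hF hs hl
  · intro s hs l hl
    exact fam_imm hr hw hq hF hs hl
  · intro s hs l l' hl hl' m hm
    exact (fam_inj hr hav hq hF hs hl' hl ⟨m, hm⟩).symm

theorem arc_congr {γ γ' : ℝ → ℂ × ℝ} (h : ∀ l, |l| < 1 / 4 → γ l = γ' l) : PTH.ArcEq.{u} γ γ' := by
  intro a C K K' n X _ _ _ hA hC hK hK' ht
  have hin : ∀ l, |l| < 1 / 4 → K' l = K l := by
    intro l hl
    rw [(hK'.inner l hl).2, (hK.inner l hl).2, h l hl]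
  have e : K' = K := by
    funext l
    obtain ⟨m, hm1, hm2⟩ : ∃ m : ℤ, -(1 / 4) ≤ l - m ∧ l - m < 3 / 4 := by
      refine ⟨⌊l + 1 / 4⌋, ?_, ?_⟩
      · have := Int.floor_le (l + 1 / 4)
        linarith
      · have := Int.lt_floor_add_one (l + 1 / 4)
        linarith
    have p1 := PTH.Repl_per hK.per (l - m) m
    have p2 := PTH.Repl_per hK'.per (l - m) m
    rw [sub_add_cancel] at p1 p2
    rw [p1, p2]
    rcases eq_or_lt_of_le hm1 with h1 | h1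
    · have q1 := hK.per (l - m)
      have q2 := hK'.per (l - m)
      rw [← q1, ← q2]
      exact ht _ (by linarith) (by linarith)
    · rcases lt_or_ge (l - m) (1 / 4) with h2 | h2
      · exact hin _ (by rw [abs_lt]; exact ⟨h1, h2⟩)
      · exact ht _ h2 hm2.le
  rw [e]

theorem arc_trans {γ γ' γ'' : ℝ → ℂ × ℝ} (h : PTH.ArcEq.{u} γ γ') (h' : PTH.ArcEq.{u} γ' γ'')
    (hs : ∀ l, |l| < 1 / 4 → ContDiffAt ℝ ∞ γ' l) (hn : ∀ l, |l| < 1 / 4 → ‖(γ' l).1‖ < 1)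
    (he : ∃ e : ℝ, 0 < e ∧ ∀ l, 1 / 4 - e < |l| → |l| < 1 / 4 → MT (γ l) (γ' l)) :
    PTH.ArcEq.{u} γ γ'' := by
  refine PTH.ArcEq.trans h h' ?_ hn ?_
  · intro l hl
    refine (hs l ?_).contDiffWithinAt
    rw [abs_lt]
    constructor
    · linarith [hl.1]
    · exact hl.2
  · obtain ⟨e, he1, he2⟩ := he
    refine ⟨e, he1, fun l h1 h2 => ?_⟩
    obtain ⟨m, hm⟩ := he2 l h1 h2
    rw [hm]
    exact ⟨by simp, m, by simp⟩

end

end Pool.Agent.SPR
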