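import Pool.Agent.SPR.TwL
import Pool.Agent.SPR.Dsk
import Pool.Agent.SPR.FamC

/-!
# SPR/B2: the inputs b2 (even and odd)   (difficulty 2)

* `b2e`: `arc_gt` for `γ = γ₁ = PTH.arc w` (`θ = 0`, `m = 0`, `Even (0 - r)`; `IsTwArc` for `θ = 0`: `ex 0 = 1`, `ATwo.strand₁/₂`), `β = rbf r (1/8)` (`rbf_hbox`, `rbf_two`, `qarc_path`), `δ = dsk r` (`dsk_hbox`, `dsk_pieces`), `γ₂ = PTH.arc w'` (`rt_path`).
* `b2o`: `w₂` is the path with the opposite detour.  `exists_tilt`: `c`.  Chain of `ArcEq` (`arc_trans`; all middle arcs are smooth (`fam_smooth`), of norm `< 1` (`fam_norm`), equal to `arc w` for `|l| ≥ 1/8` (`fam_end`); `arc w₂ l = arc w l` for `|l| ≥ 1/8`):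
  `arc w₂` = `GA r w (Ic 0) rh0 (Zd (-ε))` (`ga_path'`, `arc_congr`) ~ `GA r w (Ic 1) rh0 (Zd (-ε))` (`fam_eq`, `fam_ret`, `zc_un` for `-ε`) ~ `GA r w (Ic 1) Zt0 Ztr` (`fam_eq`, `fam_two`, `two_zero`, `two_one`) ~ `GA r w (Ic 0) Zt0 Ztr` (`fam_eq`, `fam_ret`, `zc_tw`) ~ `arc w'` (`arc_gt` with `θ u = th0 ε (tv r (1/8) u)`,
  `ga_tw`, `th_step`, `m = ±1`, `Even (m - r)` as `r` is odd; `rt_path`).
-/

open scoped Manifold ContDiff Topology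
open Set Filter
open Complex (I)
open Pool.Agent.RSG (E4 cj ex)

namespace Pool.Agent.SPR

universe u

theorem B2_abs {ε : ℝ} (hε : ε = 1 ∨ ε = -1) : |ε| ≤ 1 := by
  rcases hε with h | h <;> rw [h] <;> norm_num

theorem B2_v1 {r : ℕ} (hr : 1 ≤ r) : 5 / 4 * wd r < 1 / 8 := by
  have := wd_le hr
  linarith

theorem B2_v2 {r : ℕ} (hr : 1 ≤ r) : (1 / 8 : ℝ) < r / 2 := by
  have : (1 : ℝ) ≤ r := by exact_mod_cast hr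
  linarith

theorem B2_smooth {r : ℕ} {ε : ℝ} {w : ℝ → ℝ × ℝ} {J : ℝ → ℝ → ℂ × ℝ} {Z₀ Zr : ℝ → ℝ → ℂ} (hr : 1 ≤ r)
    (hw : ContDiff ℝ ∞ w) (hq : ∀ ρ ≤ 1 / 8, w ρ = qsp r ε ρ) (hF : Fam r J Z₀ Zr) (τ : ℝ) (l : ℝ)
    (hl : |l| < 1 / 4) : ContDiffAt ℝ ∞ (GA r w (J τ) (Z₀ τ) (Zr τ)) l := by
  have h1 := fam_smooth hr hw hq hF τ hl
  have h2 : ContDiffAt ℝ ∞ (fun l : ℝ => (τ, l)) l := contDiffAt_const.prodMk contDiffAt_id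
  exact ContDiffAt.comp l (g := fun q : ℝ × ℝ => GA r w (J q.1) (Z₀ q.1) (Zr q.1) q.2)
    (f := fun l : ℝ => (τ, l)) h1 h2

theorem B2_end {r : ℕ} {ε : ℝ} {w : ℝ → ℝ × ℝ} (hr : 1 ≤ r) (hq : ∀ ρ ≤ 1 / 8, w ρ = qsp r ε ρ)
    (I I' : ℝ → ℂ × ℝ) (Y₀ Y₁ Y₀' Y₁' : ℝ → ℂ) :
    ∃ e : ℝ, 0 < e ∧ ∀ l, 1 / 4 - e < |l| → |l| < 1 / 4 → MT (GA r w I Y₀ Y₁ l) (GA r w I' Y₀' Y₁' l) := by
  refine ⟨1 / 8, by norm_num, fun l h _ => ?_⟩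
  have h8 : 1 / 8 ≤ |l| := by linarith
  rw [fam_end hr hq _ _ _ h8, fam_end hr hq _ _ _ h8]
  exact MT.refl _

theorem B2_gt {r : ℕ} (hr : 1 ≤ r) {ε o : ℝ} (hε : ε = 1 ∨ ε = -1) (ho : o = 1 ∨ o = -1)
    {w w' : ℝ → ℝ × ℝ} (hq : ∀ ρ ≤ 1 / 8, w ρ = qsp r ε ρ) (hw' : ∀ ρ, w' ρ = w ρ + (o * GG r ρ, 0))
    {γ₁ : ℝ → ℂ × ℝ} {θ : ℝ → ℝ} {m : ℤ} (hθ : IsStep θ m) (he : Even (m - r))
    (h₁ : IsTwArc (rbf r (1 / 8)) (fun u => rad r (tv r (1 / 8) u) / 4) (fun u => rad r (r + tv r (1 / 8) u) / 4) 1 1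
      θ (PTH.arc w) γ₁) : PTH.ArcEq.{u} γ₁ (PTH.arc w') :=
  arc_gt (rbf_hbox hr (by norm_num) (B2_v2 hr))
    (rbf_two hr (B2_abs hε) (qarc_path hr ε hq) (B2_v1 hr) (B2_v2 hr)) (dsk_hbox hr) (by norm_num)
    (by norm_num) (dsk_pieces hr (B2_abs hε) (qarc_path hr ε hq)) ho hθ he h₁
    (rt_path hr (B2_abs hε) ho hq hw')

/-- **Input b2, `r` even.** -/
theorem b2e {r : ℕ} (hr : 1 ≤ r) (he : Even r) {ε o : ℝ} (hε : ε = 1 ∨ ε = -1) (ho : o = 1 ∨ o = -1)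
    {w w' : ℝ → ℝ × ℝ} (hq : ∀ ρ ≤ 1 / 8, w ρ = qsp r ε ρ) (hw' : ∀ ρ, w' ρ = w ρ + (o * GG r ρ, 0)) :
    PTH.PathEq.{u} w w' := by
  have htwo := rbf_two hr (B2_abs hε) (qarc_path hr ε hq) (B2_v1 hr) (B2_v2 hr)
  have hex : ex 0 = 1 := by simp [ex]
  refine B2_gt hr hε ho hq hw' (θ := fun _ => 0) (m := 0) ⟨contDiff_const, fun _ _ => rfl, fun _ _ => by simp⟩
    (by simpa using he) ⟨?_, ?_, ?_⟩
  · intro u hu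
    have h := htwo.strand₁ u hu
    rw [hex]
    exact h
  · intro u hu
    have h := htwo.strand₂ u hu
    rw [hex]
    exact h
  · intro l _ _
    exact MT.refl _

/-- **Input b2, `r` odd.**  `w` and `w₂` pass the obstacle `(-1/2, r)` on different sides. -/
theorem b2o {r : ℕ} (hr : 1 ≤ r) (hodd : Odd r) {ε o : ℝ} (hε : ε = 1 ∨ ε = -1) (ho : o = 1 ∨ o = -1)
    {w w₂ w' : ℝ → ℝ × ℝ} (hw : ContDiff ℝ ∞ w) (hav : ∀ ρ, ¬ PTH.Obs (w ρ))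
    (hq : ∀ ρ ≤ 1 / 8, w ρ = qsp r ε ρ) (hq₂ : ∀ ρ ≤ 1 / 8, w₂ ρ = qsp r (-ε) ρ)
    (h₂ : ∀ ρ, 1 / 8 ≤ ρ → w₂ ρ = w ρ) (hw' : ∀ ρ, w' ρ = w ρ + (o * GG r ρ, 0)) :
    PTH.PathEq.{u} w₂ w' := by
  obtain ⟨c, hc⟩ := exists_tilt hr ε
  have hε' : -ε = 1 ∨ -ε = -1 := by
    rcases hε with h | h
    · right; rw [h]
    · left; rw [h, neg_neg]
  obtain ⟨m, hm, hmodd⟩ : ∃ m : ℤ, ε = m ∧ Odd m := by
    rcases hε with h | h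
    · exact ⟨1, by rw [h]; norm_num, odd_one⟩
    · exact ⟨-1, by rw [h]; norm_num, odd_neg_one⟩
  have hev : Even (m - r) := hmodd.sub_odd (by exact_mod_cast hodd)
  have F1 : Fam r (Ic r ε c) (fun _ => fun _ => (rh0 : ℂ)) (fun _ => Zd r (-ε)) :=
    fam_ret hr hc (zc_un hr hε')
  have F2 : Fam r (fun _ => Ic r ε c 1) (Zh0 r ε) (Zhr r ε) := fam_two hr hε hc
  have F3 : Fam r (Ic r ε c) (fun _ => Zt0 r ε) (fun _ => Ztr r ε ε) := fam_ret hr hc (zc_tw hr hε)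
  have m0 : (0 : ℝ) ∈ Icc (0 : ℝ) 1 := ⟨le_rfl, zero_le_one⟩
  have m1 : (1 : ℝ) ∈ Icc (0 : ℝ) 1 := ⟨zero_le_one, le_rfl⟩
  have z0 : Zh0 r ε 0 = Zt0 r ε := funext fun s => (two_zero hr hε s).1
  have zr : Zhr r ε 0 = Ztr r ε ε := funext fun s => (two_zero hr hε s).2
  have o0 : Zh0 r ε 1 = fun _ => (rh0 : ℂ) := funext fun s => (two_one hr hε s).1
  have or' : Zhr r ε 1 = Zd r (-ε) := funext fun s => (two_one hr hε s).2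
  have ha : PTH.ArcEq.{u} (PTH.arc w₂) (GA r w (Ic r ε c 0) (fun _ => (rh0 : ℂ)) (Zd r (-ε))) :=
    arc_congr fun l hl => ga_path' hr hε c hq hq₂ h₂ hl
  have hb : PTH.ArcEq.{u} (GA r w (Ic r ε c 0) (fun _ => (rh0 : ℂ)) (Zd r (-ε)))
      (GA r w (Ic r ε c 1) (fun _ => (rh0 : ℂ)) (Zd r (-ε))) := by
    have h := fam_eq.{u} (J := Ic r ε c) (Z₀ := fun _ => fun _ => (rh0 : ℂ)) (Zr := fun _ => Zd r (-ε)) hr hw hav hq F1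
    exact h
  have hcc : PTH.ArcEq.{u} (GA r w (Ic r ε c 1) (fun _ => (rh0 : ℂ)) (Zd r (-ε)))
      (GA r w (Ic r ε c 1) (Zt0 r ε) (Ztr r ε ε)) := by
    have h := fam_eq.{u} (J := fun _ => Ic r ε c 1) (Z₀ := Zh0 r ε) (Zr := Zhr r ε) hr hw hav hq F2
    rw [z0, zr, o0, or'] at h
    exact PTH.ArcEq.symm h
  have hd : PTH.ArcEq.{u} (GA r w (Ic r ε c 1) (Zt0 r ε) (Ztr r ε ε))
      (GA r w (Ic r ε c 0) (Zt0 r ε) (Ztr r ε ε)) := by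
    have h := fam_eq.{u} (J := Ic r ε c) (Z₀ := fun _ => Zt0 r ε) (Zr := fun _ => Ztr r ε ε) hr hw hav hq F3
    exact PTH.ArcEq.symm h
  have hee : PTH.ArcEq.{u} (GA r w (Ic r ε c 0) (Zt0 r ε) (Ztr r ε ε)) (PTH.arc w') :=
    B2_gt hr hε ho hq hw' (th_step hr hm) hev (ga_tw hr hε c hq)
  have B3s := B2_smooth (J := Ic r ε c) (Z₀ := fun _ => Zt0 r ε) (Zr := fun _ => Ztr r ε ε) hr hw hq F3 0
  have B3n : ∀ l, |l| < 1 / 4 → ‖(GA r w (Ic r ε c 0) (Zt0 r ε) (Ztr r ε ε) l).1‖ < 1 := fun l hl =>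
    fam_norm (J := Ic r ε c) (Z₀ := fun _ => Zt0 r ε) (Zr := fun _ => Ztr r ε ε) (τ := 0) hr F3 m0 hl
  have B3s1 := B2_smooth (J := Ic r ε c) (Z₀ := fun _ => Zt0 r ε) (Zr := fun _ => Ztr r ε ε) hr hw hq F3 1
  have B3n1 : ∀ l, |l| < 1 / 4 → ‖(GA r w (Ic r ε c 1) (Zt0 r ε) (Ztr r ε ε) l).1‖ < 1 := fun l hl =>
    fam_norm (J := Ic r ε c) (Z₀ := fun _ => Zt0 r ε) (Zr := fun _ => Ztr r ε ε) (τ := 1) hr F3 m1 hl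
  have B1s := B2_smooth (J := Ic r ε c) (Z₀ := fun _ => fun _ => (rh0 : ℂ)) (Zr := fun _ => Zd r (-ε)) hr hw hq F1 0
  have B1n : ∀ l, |l| < 1 / 4 → ‖(GA r w (Ic r ε c 0) (fun _ => (rh0 : ℂ)) (Zd r (-ε)) l).1‖ < 1 := fun l hl =>
    fam_norm (J := Ic r ε c) (Z₀ := fun _ => fun _ => (rh0 : ℂ)) (Zr := fun _ => Zd r (-ε)) (τ := 0) hr F1 m0 hl
  have B1s1 := B2_smooth (J := Ic r ε c) (Z₀ := fun _ => fun _ => (rh0 : ℂ)) (Zr := fun _ => Zd r (-ε)) hr hw hq F1 1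
  have B1n1 : ∀ l, |l| < 1 / 4 → ‖(GA r w (Ic r ε c 1) (fun _ => (rh0 : ℂ)) (Zd r (-ε)) l).1‖ < 1 := fun l hl =>
    fam_norm (J := Ic r ε c) (Z₀ := fun _ => fun _ => (rh0 : ℂ)) (Zr := fun _ => Zd r (-ε)) (τ := 1) hr F1 m1 hl
  have s4 : PTH.ArcEq.{u} (GA r w (Ic r ε c 1) (Zt0 r ε) (Ztr r ε ε)) (PTH.arc w') :=
    arc_trans hd hee B3s B3n
      (B2_end hr hq _ _ _ _ _ _)
  have s3 : PTH.ArcEq.{u} (GA r w (Ic r ε c 1) (fun _ => (rh0 : ℂ)) (Zd r (-ε))) (PTH.arc w') :=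
    arc_trans hcc s4 B3s1 B3n1
      (B2_end hr hq _ _ _ _ _ _)
  have s2 : PTH.ArcEq.{u} (GA r w (Ic r ε c 0) (fun _ => (rh0 : ℂ)) (Zd r (-ε))) (PTH.arc w') :=
    arc_trans hb s3 B1s1 B1n1
      (B2_end hr hq _ _ _ _ _ _)
  exact arc_trans ha s2 B1s B1n
    ⟨1 / 8, by norm_num, fun l _ hl => by rw [ga_path' hr hε c hq hq₂ h₂ hl]; exact MT.refl _⟩

end Pool.Agent.SPR
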