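import Pool.Agent.SPR.B2
import Pool.Agent.PTH.Gap
import Pool.Agent.PTH.WEq

/-!
# SPR/CvP: the paths for the conversion of b2   (difficulty 2)

`q = qsp r (epsB b)` (constant `(-3/2 + wd/(2r), 2r - wd/2)` for `ρ ≥ rad r (2 r)`, which is `< 1/8`), then straight to the lattice point `(-1, 2r - 1)` (`1/5 ≤ ρ ≤ 2/5`), then the word `L` (`1/2 ≤ ρ ≤ 7/10`).  `wB' = wB + (GG, 0)`.
* `GG_smooth`; `GG_low`: `ρ ≤ rh0/8`: `Ssp = 0`, all arguments are `≤ -4`; `GG_high`: `Ssp = 2 r - wd/2`: all arguments are `≥ 16 (3/4 - wd/2) ≥ 1/16`: `GG = 2 r`; `GG_row`: `Ssp r ρ = i`, `i : ℕ`, `i ≤ 2 r`: the terms `k < i` are `1` (`16 (i - k - 1/4) ≥ 12`), the others `0` (`≤ -4`): `GG = i`.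
* `segB`: first part `uB τ = q τ + st (5 τ - 1) (1/2 - wd/(2r), -1 + wd/2)` is a segment of duration `2/5` with end `(-1, 2r-1)`: `avoid`: for `τ ≤ 1/8` `q_avoid`; for `τ ≥ 1/8` `|X + 1| < 1/2`.  `segB'` for `uB' = uB + (GG, 0)`: `avoid`: if `Y = n` is an integer and `τ ≤ 1/8` then `GG` is an integer (`GG_row`, `0 ≤ n ≤ 2r - 1`), so
  the point `uB τ` would be an obstacle; for `τ ≥ 1/8`: `|X - (2r - 1)| < 1/2`.
* `wB = cat uB (1/2) (fun τ => pos L (|L| st (5 τ)))` (`5 (ρ - 1/2) = 5 ρ - 5/2`), `isSeg_cat` (duration `1/2`: `isSeg_mono` or directly; second part: `pos_seg` reparametrised); `IsPath` from `IsSeg` and smoothness (`pos_smooth`, `q_smooth`): start for `ρ ≤ rh0/8`, stop for `ρ ≥ 7/10`.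
-/

open scoped Manifold ContDiff Topology
open Set Filter
open Complex (I)
open Pool.Agent.RSG (E4 cj ex)

namespace Pool.Agent.SPR

open Pool.Agent.PTH (IsSeg IsPath SH pos sumZ cat)

def epsB (b : Bool) : ℝ := if b then 1 else -1

theorem epsB_or (b : Bool) : epsB b = 1 ∨ epsB b = -1 := by cases b <;> simp [epsB]

noncomputable def uB (r : ℕ) (b : Bool) (τ : ℝ) : ℝ × ℝ :=
  qsp r (epsB b) τ + (Real.smoothTransition (5 * τ - 1) * (1 / 2 - wd r / (2 * r)),
    Real.smoothTransition (5 * τ - 1) * (-1 + wd r / 2))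

noncomputable def uB' (r : ℕ) (b : Bool) (τ : ℝ) : ℝ × ℝ := uB r b τ + (GG r τ, 0)

noncomputable def wB (r : ℕ) (b : Bool) (L : List (Bool × Bool)) (ρ : ℝ) : ℝ × ℝ :=
  uB r b ρ + pos L (L.length * Real.smoothTransition (5 * ρ - 5 / 2))

noncomputable def wB' (r : ℕ) (b : Bool) (L : List (Bool × Bool)) (ρ : ℝ) : ℝ × ℝ :=
  wB r b L ρ + (GG r ρ, 0)

section
variable {r : ℕ}

theorem CvP_rad (hr : 1 ≤ r) : rad r (2 * r) < 1 / 8 := by
  have hr1 := SpS_r hr
  have h := rad_bd (r := r) hr (x := 2 * r) (by rw [abs_of_nonneg (by linarith)]; linarith)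
  have h2 := (abs_le.1 h).2
  unfold rh0 at h2
  linarith

theorem CvP_gs0 {s : ℝ} (h : s ≤ -(1 / 8)) : Pool.Agent.RBM.gs s = 0 := CSG.stp_zero (by norm_num) h

theorem CvP_gs1 {s : ℝ} (h : 1 / 16 ≤ s) : Pool.Agent.RBM.gs s = 1 := CSG.stp_one (by norm_num) h

theorem CvP_q (hr : 1 ≤ r) (b : Bool) {τ : ℝ} (h : 1 / 8 ≤ τ) :
    qsp r (epsB b) τ = (-(3 / 2) + wd r / (2 * r), 2 * r - wd r / 2) := by
  have hr1 := SpS_r hr
  have h1 := CvP_rad hr
  rw [q_end hr (epsB b) (show rad r (2 * r) ≤ τ by linarith)]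
  refine Prod.ext ?_ rfl
  show 1 / 2 - (2 * (r : ℝ) - wd r / 2) / r = -(3 / 2) + wd r / (2 * r)
  have hne : (r : ℝ) ≠ 0 := by linarith
  field_simp
  ring

theorem CvP_st0 {τ : ℝ} (h : τ ≤ 1 / 5) : Real.smoothTransition (5 * τ - 1) = 0 :=
  Real.smoothTransition.zero_of_nonpos (by linarith)

theorem CvP_st1 {τ : ℝ} (h : 2 / 5 ≤ τ) : Real.smoothTransition (5 * τ - 1) = 1 :=
  Real.smoothTransition.one_of_one_le (by linarith)

theorem CvP_segL (L : List (Bool × Bool)) :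
    IsSeg (fun τ => pos L (L.length * Real.smoothTransition (5 * τ))) (1 / 5) (sumZ L) := by
  have h := PTH.pos_seg L
  refine ⟨by norm_num, ?_, ?_, ?_, fun τ => h.avoid _⟩
  · have hs : Continuous Real.smoothTransition := Real.smoothTransition.continuous
    exact h.cont.comp (continuous_const.mul (hs.comp (by fun_prop)))
  · intro τ hτ
    show pos L (L.length * Real.smoothTransition (5 * τ)) = _
    rw [Real.smoothTransition.zero_of_nonpos (show 5 * τ ≤ 0 by linarith), mul_zero]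
    exact h.start 0 le_rfl
  · intro τ hτ
    show pos L (L.length * Real.smoothTransition (5 * τ)) = _
    rw [Real.smoothTransition.one_of_one_le (show 1 ≤ 5 * τ by linarith), mul_one]
    exact h.stop _ le_rfl

theorem CvP_posS (L : List (Bool × Bool)) :
    ContDiff ℝ ∞ fun ρ : ℝ => pos L (L.length * Real.smoothTransition (5 * ρ - 5 / 2)) := by
  have hs : ContDiff ℝ ∞ Real.smoothTransition := Real.smoothTransition.contDiff
  have h1 : ContDiff ℝ ∞ fun ρ : ℝ => (L.length : ℝ) * Real.smoothTransition (5 * ρ - 5 / 2) :=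
    contDiff_const.mul (hs.comp ((contDiff_const.mul contDiff_id).sub contDiff_const))
  exact (PTH.pos_smooth L).comp h1

theorem CvP_uB_smooth (hr : 1 ≤ r) (b : Bool) : ContDiff ℝ ∞ (uB r b) := by
  have hs : ContDiff ℝ ∞ Real.smoothTransition := Real.smoothTransition.contDiff
  have h1 : ContDiff ℝ ∞ fun ρ : ℝ => Real.smoothTransition (5 * ρ - 1) :=
    hs.comp ((contDiff_const.mul contDiff_id).sub contDiff_const)
  unfold uB
  exact (q_smooth hr (epsB b)).add ((h1.mul contDiff_const).prodMk (h1.mul contDiff_const))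

theorem GG_smooth (hr : 1 ≤ r) : ContDiff ℝ ∞ (GG r) := by
  unfold GG
  refine ContDiff.sum fun k _ => ?_
  have hg : ContDiff ℝ ∞ Pool.Agent.RBM.gs := CSG.stp_smooth _ _
  exact hg.comp (contDiff_const.mul (((S_smooth hr).sub contDiff_const).sub contDiff_const))
theorem GG_low (hr : 1 ≤ r) {ρ : ℝ} (h : ρ ≤ rh0 / 8) : GG r ρ = 0 := by
  unfold GG
  refine Finset.sum_eq_zero fun k _ => ?_
  rw [S_low hr h]
  have hk : (0 : ℝ) ≤ k := Nat.cast_nonneg k
  exact CvP_gs0 (by linarith)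
theorem GG_high (hr : 1 ≤ r) {ρ : ℝ} (h : rad r (2 * r) ≤ ρ) : GG r ρ = 2 * r := by
  unfold GG
  have hw := wd_le hr
  have e : ∀ k ∈ Finset.range (2 * r), Pool.Agent.RBM.gs (16 * (Ssp r ρ - k - 1 / 4)) = 1 := by
    intro k hk
    rw [S_high hr h]
    have hk' : k + 1 ≤ 2 * r := Finset.mem_range.1 hk
    have hk2 : (k : ℝ) + 1 ≤ 2 * r := by exact_mod_cast hk'
    exact CvP_gs1 (by linarith)
  rw [Finset.sum_congr rfl e, Finset.sum_const, Finset.card_range, nsmul_eq_mul, mul_one]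
  push_cast
  ring
theorem GG_row (hr : 1 ≤ r) {ρ : ℝ} {i : ℕ} (hi : i ≤ 2 * r) (h : Ssp r ρ = i) : GG r ρ = i := by
  unfold GG
  rw [← Finset.sum_range_add_sum_Ico _ hi]
  have e1 : ∀ k ∈ Finset.range i, Pool.Agent.RBM.gs (16 * (Ssp r ρ - k - 1 / 4)) = 1 := by
    intro k hk
    rw [h]
    have hk' : k + 1 ≤ i := Finset.mem_range.1 hk
    have hk2 : (k : ℝ) + 1 ≤ i := by exact_mod_cast hk'
    exact CvP_gs1 (by linarith)
  have e2 : ∀ k ∈ Finset.Ico i (2 * r), Pool.Agent.RBM.gs (16 * (Ssp r ρ - k - 1 / 4)) = 0 := by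
    intro k hk
    rw [h]
    have hk' : i ≤ k := (Finset.mem_Ico.1 hk).1
    have hk2 : (i : ℝ) ≤ k := by exact_mod_cast hk'
    exact CvP_gs0 (by linarith)
  rw [Finset.sum_congr rfl e1, Finset.sum_eq_zero e2, Finset.sum_const, Finset.card_range, nsmul_eq_mul, mul_one,
    add_zero]

theorem uB_start (hr : 1 ≤ r) (b : Bool) {τ : ℝ} (h : τ ≤ rh0 / 8) : uB r b τ = (0, 0) := by
  have h0 : rh0 = 1 / 1000 := rfl
  unfold uB
  rw [q_start hr (epsB b) h, CvP_st0 (show τ ≤ 1 / 5 by linarith), zero_mul, zero_mul]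
  simp
theorem uB_low (b : Bool) {τ : ℝ} (h : τ ≤ 1 / 8) : uB r b τ = qsp r (epsB b) τ := by
  unfold uB
  rw [CvP_st0 (show τ ≤ 1 / 5 by linarith), zero_mul, zero_mul]
  exact add_zero _
/-- after `1/8` the path stays near `(-1, 2r - 1)` -/
theorem uB_high (hr : 1 ≤ r) (b : Bool) {τ : ℝ} (h : 1 / 8 ≤ τ) :
    |(uB r b τ).1 + 1| < 1 / 2 ∧ 2 * (r : ℝ) - 2 < (uB r b τ).2 ∧ (uB r b τ).2 < 2 * r := by
  have hr1 := SpS_r hr
  have hw := SpS_w hr
  have t0 := Real.smoothTransition.nonneg (5 * τ - 1)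
  have t1 := Real.smoothTransition.le_one (5 * τ - 1)
  have e1 : (uB r b τ).1 = -(3 / 2) + wd r / (2 * r) + Real.smoothTransition (5 * τ - 1) * (1 / 2 - wd r / (2 * r)) := by
    unfold uB
    rw [CvP_q hr b h]
    rfl
  have e2 : (uB r b τ).2 = 2 * r - wd r / 2 + Real.smoothTransition (5 * τ - 1) * (-1 + wd r / 2) := by
    unfold uB
    rw [CvP_q hr b h]
    rfl
  obtain ⟨t, ht⟩ : ∃ t, t = Real.smoothTransition (5 * τ - 1) := ⟨_, rfl⟩
  obtain ⟨z, hz⟩ : ∃ z, z = wd r / (2 * r) := ⟨_, rfl⟩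
  have z0 : 0 < z := by
    rw [hz]
    exact div_pos hw.1 (by linarith)
  have z1 : z ≤ 1 / 1000 := by
    rw [hz, div_le_iff₀ (by linarith)]
    linarith [hw.2]
  rw [← ht] at t0 t1 e1 e2
  rw [← hz] at e1
  have k1 : 0 ≤ t * (1 / 2 - z) := mul_nonneg t0 (by linarith)
  have k2 : t * (1 / 2 - z) ≤ 1 * (1 / 2 - z) := mul_le_mul_of_nonneg_right t1 (by linarith)
  have k3 : 0 ≤ t * (1 - wd r / 2) := mul_nonneg t0 (by linarith [hw.2])
  have k4 : t * (1 - wd r / 2) ≤ 1 * (1 - wd r / 2) := mul_le_mul_of_nonneg_right t1 (by linarith [hw.2])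
  rw [e1, e2]
  refine ⟨?_, ?_, ?_⟩
  · rw [abs_lt]
    constructor <;> linarith
  · linarith
  · linarith [hw.1]
theorem uB_stop (hr : 1 ≤ r) (b : Bool) {τ : ℝ} (h : 2 / 5 ≤ τ) :
    uB r b τ = ((-1 : ℝ), 2 * (r : ℝ) - 1) := by
  unfold uB
  rw [CvP_q hr b (show 1 / 8 ≤ τ by linarith), CvP_st1 h]
  refine Prod.ext ?_ ?_
  · show -(3 / 2) + wd r / (2 * r) + 1 * (1 / 2 - wd r / (2 * r)) = -1
    ring
  · show 2 * (r : ℝ) - wd r / 2 + 1 * (-1 + wd r / 2) = 2 * r - 1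
    ring
theorem uB_ind (hr : 1 ≤ r) (b b' : Bool) {τ : ℝ} (h : 1 / 8 ≤ τ) : uB r b τ = uB r b' τ := by
  unfold uB
  rw [CvP_q hr b h, CvP_q hr b' h]

theorem segB (hr : 1 ≤ r) (b : Bool) : IsSeg (uB r b) (2 / 5) (-1, 2 * (r : ℤ) - 1) := by
  have h0 : rh0 = 1 / 1000 := rfl
  refine ⟨by norm_num, (CvP_uB_smooth hr b).continuous, fun τ hτ => uB_start hr b (by linarith), ?_, ?_⟩
  · intro τ hτ
    rw [uB_stop hr b hτ]
    push_cast
    rfl
  · intro τ
    rcases le_total τ (1 / 8) with h | h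
    · rw [uB_low b h]
      exact q_avoid hr (epsB_or b) τ
    · refine PTH.not_obs_near (k := -1) ?_
      have h1 := (uB_high hr b h).1
      push_cast
      rwa [sub_neg_eq_add]
theorem segB' (hr : 1 ≤ r) (b : Bool) : IsSeg (uB' r b) (2 / 5) (2 * (r : ℤ) - 1, 2 * (r : ℤ) - 1) := by
  have h0 : rh0 = 1 / 1000 := rfl
  have hrad := CvP_rad hr
  have hs := segB hr b
  have hw := SpS_w hr
  refine ⟨by norm_num, ?_, ?_, ?_, ?_⟩
  · unfold uB'
    exact (CvP_uB_smooth hr b).continuous.add ((GG_smooth hr).continuous.prodMk continuous_const)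
  · intro τ hτ
    unfold uB'
    rw [uB_start hr b (by linarith), GG_low hr (by linarith)]
    simp
  · intro τ hτ
    unfold uB'
    rw [uB_stop hr b hτ, GG_high hr (by linarith)]
    refine Prod.ext ?_ ?_
    · show (-1 : ℝ) + 2 * r = ((2 * (r : ℤ) - 1 : ℤ) : ℝ)
      push_cast
      ring
    · show (2 * (r : ℝ) - 1) + 0 = ((2 * (r : ℤ) - 1 : ℤ) : ℝ)
      push_cast
      ring
  · intro τ
    rcases le_total τ (1 / 8) with h | h
    · rintro ⟨m, n, hmn⟩
      have e1 : (uB r b τ).1 + GG r τ = (m : ℝ) + 1 / 2 := congrArg Prod.fst hmn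
      have e2 : (uB r b τ).2 + 0 = (n : ℝ) := congrArg Prod.snd hmn
      have e3 : Ssp r τ = n := by
        rw [add_zero, uB_low b h] at e2
        exact e2
      have h1 := S_nonneg hr τ
      have h2 := S_le hr τ
      rw [e3] at h1 h2
      have h3 : 0 ≤ n := by exact_mod_cast h1
      obtain ⟨i, rfl⟩ := Int.eq_ofNat_of_zero_le h3
      have e4 : Ssp r τ = (i : ℝ) := by
        rw [e3]
        exact Int.cast_natCast i
      have h4 : (i : ℝ) < ((2 * r : ℕ) : ℝ) := by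
        rw [e4.symm, e3]
        push_cast
        push_cast at h2
        linarith [hw.1]
      have h5 : i < 2 * r := by exact_mod_cast h4
      have h6 := GG_row hr h5.le e4
      rw [h6] at e1
      refine hs.avoid τ ⟨m - i, (i : ℤ), ?_⟩
      refine Prod.ext ?_ ?_
      · show (uB r b τ).1 = ((m - i : ℤ) : ℝ) + 1 / 2
        push_cast
        linarith
      · show (uB r b τ).2 = ((i : ℤ) : ℝ)
        linarith
    · refine PTH.not_obs_near (k := 2 * (r : ℤ) - 1) ?_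
      have h1 := (uB_high hr b h).1
      show |(uB r b τ).1 + GG r τ - ((2 * (r : ℤ) - 1 : ℤ) : ℝ)| < 1 / 2
      rw [GG_high hr (show rad r (2 * r) ≤ τ by linarith)]
      push_cast
      rw [show (uB r b τ).1 + 2 * r - (2 * (r : ℝ) - 1) = (uB r b τ).1 + 1 by ring]
      exact h1

theorem wB_isPath (hr : 1 ≤ r) (b : Bool) (L : List (Bool × Bool)) :
    IsPath (wB r b L) ((-1, 2 * (r : ℤ) - 1) + sumZ L) := by
  have h0 : rh0 = 1 / 1000 := rfl
  have hL := PTH.pos_seg L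
  have hc : wB r b L = cat (uB r b) (1 / 2) (fun τ => pos L (L.length * Real.smoothTransition (5 * τ))) := by
    funext ρ
    show uB r b ρ + pos L (L.length * Real.smoothTransition (5 * ρ - 5 / 2)) =
      uB r b ρ + pos L (L.length * Real.smoothTransition (5 * (ρ - 1 / 2)))
    rw [show 5 * (ρ - 1 / 2) = 5 * ρ - 5 / 2 by ring]
  refine ⟨?_, ⟨rh0 / 8, by rw [h0]; norm_num, ?_⟩, ⟨3 / 10, by norm_num, ?_⟩, ?_⟩
  · unfold wB
    exact (CvP_uB_smooth hr b).add (CvP_posS L)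
  · intro ρ hρ
    unfold wB
    rw [uB_start hr b hρ, Real.smoothTransition.zero_of_nonpos (show 5 * ρ - 5 / 2 ≤ 0 by linarith), mul_zero,
      hL.start 0 le_rfl]
    simp
  · intro ρ hρ
    unfold wB
    rw [uB_stop hr b (by linarith), Real.smoothTransition.one_of_one_le (show 1 ≤ 5 * ρ - 5 / 2 by linarith), mul_one,
      hL.stop _ le_rfl]
    refine Prod.ext ?_ ?_
    · show (-1 : ℝ) + ((sumZ L).1 : ℝ) = ((-1 + (sumZ L).1 : ℤ) : ℝ)
      push_cast
      ring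
    · show (2 * (r : ℝ) - 1) + ((sumZ L).2 : ℝ) = ((2 * (r : ℤ) - 1 + (sumZ L).2 : ℤ) : ℝ)
      push_cast
      ring
  · intro ρ
    rw [hc]
    exact (PTH.isSeg_cat (PTH.isSeg_mono (segB hr b) (show (2 / 5 : ℝ) ≤ 1 / 2 by norm_num)) (CvP_segL L)).avoid ρ
theorem wB'_isPath (hr : 1 ≤ r) (b : Bool) (L : List (Bool × Bool)) :
    IsPath (wB' r b L) ((2 * (r : ℤ) - 1, 2 * (r : ℤ) - 1) + sumZ L) := by
  have h0 : rh0 = 1 / 1000 := rfl
  have hrad := CvP_rad hr
  have hL := PTH.pos_seg L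
  have hc : wB' r b L = cat (uB' r b) (1 / 2) (fun τ => pos L (L.length * Real.smoothTransition (5 * τ))) := by
    funext ρ
    show uB r b ρ + pos L (L.length * Real.smoothTransition (5 * ρ - 5 / 2)) + (GG r ρ, 0) =
      (uB r b ρ + (GG r ρ, 0)) + pos L (L.length * Real.smoothTransition (5 * (ρ - 1 / 2)))
    rw [show 5 * (ρ - 1 / 2) = 5 * ρ - 5 / 2 by ring]
    exact add_right_comm _ _ _
  have hw := wB_isPath hr b L
  refine ⟨?_, ⟨rh0 / 8, by rw [h0]; norm_num, ?_⟩, ⟨3 / 10, by norm_num, ?_⟩, ?_⟩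
  · unfold wB'
    exact hw.smooth.add ((GG_smooth hr).prodMk contDiff_const)
  · intro ρ hρ
    unfold wB' wB
    rw [uB_start hr b hρ, Real.smoothTransition.zero_of_nonpos (show 5 * ρ - 5 / 2 ≤ 0 by linarith), mul_zero,
      hL.start 0 le_rfl, GG_low hr hρ]
    simp
  · intro ρ hρ
    unfold wB' wB
    rw [uB_stop hr b (by linarith), Real.smoothTransition.one_of_one_le (show 1 ≤ 5 * ρ - 5 / 2 by linarith), mul_one,
      hL.stop _ le_rfl, GG_high hr (show rad r (2 * r) ≤ ρ by linarith)]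
    refine Prod.ext ?_ ?_
    · show (-1 : ℝ) + ((sumZ L).1 : ℝ) + 2 * r = ((2 * (r : ℤ) - 1 + (sumZ L).1 : ℤ) : ℝ)
      push_cast
      ring
    · show (2 * (r : ℝ) - 1) + ((sumZ L).2 : ℝ) + 0 = ((2 * (r : ℤ) - 1 + (sumZ L).2 : ℤ) : ℝ)
      push_cast
      ring
  · intro ρ
    rw [hc]
    exact (PTH.isSeg_cat (PTH.isSeg_mono (segB' hr b) (show (2 / 5 : ℝ) ≤ 1 / 2 by norm_num)) (CvP_segL L)).avoid ρ
theorem wB_cat (r : ℕ) (b : Bool) (L : List (Bool × Bool)) :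
    wB r b L = cat (uB r b) (1 / 2) (fun τ => pos L (L.length * Real.smoothTransition (5 * τ))) := by
  funext ρ
  show uB r b ρ + pos L (L.length * Real.smoothTransition (5 * ρ - 5 / 2)) =
    uB r b ρ + pos L (L.length * Real.smoothTransition (5 * (ρ - 1 / 2)))
  rw [show 5 * (ρ - 1 / 2) = 5 * ρ - 5 / 2 by ring]
theorem wB'_cat (r : ℕ) (b : Bool) (L : List (Bool × Bool)) :
    wB' r b L = cat (uB' r b) (1 / 2) (fun τ => pos L (L.length * Real.smoothTransition (5 * τ))) := by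
  funext ρ
  show uB r b ρ + pos L (L.length * Real.smoothTransition (5 * ρ - 5 / 2)) + (GG r ρ, 0) =
    (uB r b ρ + (GG r ρ, 0)) + pos L (L.length * Real.smoothTransition (5 * (ρ - 1 / 2)))
  rw [show 5 * (ρ - 1 / 2) = 5 * ρ - 5 / 2 by ring]
  exact add_right_comm _ _ _

end

end Pool.Agent.SPR
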