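import Pool.Agent.SPR.CvP

/-!
# SPR/CvS: the words of the paths of b2   (difficulty 3)

`gaB r b i`: the gap of the row `i`: `0` for `i < r` (and for `i = r` if `b = true`), `-1` otherwise.
* `rowB`: `τ ≤ 1/8`, `Ssp r τ = i` (`i : ℕ`): `|X - gaB r b i| < 1/2`, `X = 1/2 + D - i/r`.  `i = 0`: `Ssp = 0` only for `τ ≤ rh0/8` (`S_pos`): `X = 0`.  `1 ≤ i ≤ 2r - 1` (`S_le`): `S ≥ wd`, so `τ > rh0/2`; `i ≠ r`: `D = 0` (`D_zero`): `X = 1/2 - i/r ∈ (-1/2, 1/2)` for `i < r`, `∈ (-3/2, -1/2)` for `r < i < 2r`; `i = r`: `D = ε hd`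
  (`D_mid`, `bp_at`): `X = -1/2 + ε hd`.
* `shB`: `PTH.sh_gap` for `uB r b`, `M = 2/5`, `T = 1/8`, `m = -1`, `n = 2 r - 1`, `γ = gaB r b` (`rowB`; `(uB τ).2 = Ssp r τ ≥ 0` for `τ ≤ 1/8`; `(uB (1/8)).2 = 2 r - wd/2`; `uB_high`).  `shB'`: the same with `γ i = gaB r b i + i`, `m = 2 r - 1` (`GG_row`, `GG_high`).
* `wB_sh`: `wB_cat`, `sh_cat` (`segB` with duration `1/2`, `pos_seg` reparametrised: `sh_reparam`), `PTH.pos_append`; the durations may be enlarged (`isSeg_mono`): compare `sh_fwp2` in PTH/FourF.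
-/

open scoped Manifold ContDiff Topology
open Set Filter
open Complex (I)
open Pool.Agent.RSG (E4 cj ex)

namespace Pool.Agent.SPR

open Pool.Agent.PTH (IsSeg IsPath SH pos sumZ cat gw xs)

def gaB (r : ℕ) (b : Bool) (i : ℕ) : ℤ := if i < r ∨ (b = true ∧ i = r) then 0 else -1

/-- the word of `uB` -/
def GB (r : ℕ) (b : Bool) : List (Bool × Bool) := gw (gaB r b) (2 * r - 1) ++ xs (-1 - gaB r b (2 * r - 1))

/-- the word of `uB'` -/
def GB' (r : ℕ) (b : Bool) : List (Bool × Bool) :=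
  gw (fun i => gaB r b i + i) (2 * r - 1) ++ xs ((2 * (r : ℤ) - 1) - (gaB r b (2 * r - 1) + ((2 * r - 1 : ℕ) : ℤ)))

section
variable {r : ℕ}

theorem CvS_ga0 (hr : 1 ≤ r) (b : Bool) : gaB r b 0 = 0 := by
  unfold gaB
  rw [if_pos (Or.inl (by omega))]

theorem rowB (hr : 1 ≤ r) (b : Bool) {τ : ℝ} {i : ℕ} (h : τ ≤ 1 / 8) (hi : Ssp r τ = i) :
    |(qsp r (epsB b) τ).1 - gaB r b i| < 1 / 2 := by
  have hr0 : (0 : ℝ) < rh0 := by norm_num [rh0]
  have hr1 : (1 : ℝ) ≤ r := by exact_mod_cast hr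
  have hw1 := wd_pos hr
  have hw2 := wd_le hr
  have hrne : (r : ℝ) ≠ 0 := by linarith
  have hrpos : (0 : ℝ) < r := by linarith
  rcases Nat.eq_zero_or_pos i with h0 | h0
  · subst h0
    have h1 : τ ≤ rh0 / 8 := by
      by_contra hc
      push Not at hc
      have := S_pos hr hc
      rw [hi] at this
      simp at this
    rw [q_start hr _ h1, CvS_ga0 hr b]
    norm_num
  · have hi1 : (1 : ℝ) ≤ i := by exact_mod_cast h0
    have h5 := S_le hr τ
    rw [hi] at h5
    have hi2 : i ≤ 2 * r - 1 := by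
      have : (i : ℝ) < ((2 * r : ℕ) : ℝ) := by push_cast; linarith
      have : i < 2 * r := by exact_mod_cast this
      omega
    have hρ : rh0 / 2 ≤ τ := by
      by_contra hc
      push Not at hc
      have h6 := SpS_quarter hr (show τ ≤ rh0 by linarith)
      rw [hi] at h6
      linarith
    have hX : (qsp r (epsB b) τ).1 = 1 / 2 + Dsp r (epsB b) τ - i / r := by
      show 1 / 2 + Dsp r (epsB b) τ - Ssp r τ / r = _
      rw [hi]
    rw [hX]
    by_cases hir : i = r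
    · have hir' : (i : ℝ) = r := by exact_mod_cast hir
      rw [D_mid (epsB b) hρ, hi, hir', sub_self, zero_div, bp_at, mul_one, div_self hrne, hir]
      have hh := hd_pos hr
      have hh' := hd_le hr
      cases b
      · have e1 : gaB r false r = -1 := by
          unfold gaB
          rw [if_neg]
          simp
        rw [e1]
        have e2 : epsB false = -1 := by simp [epsB]
        rw [e2, abs_lt]
        push_cast
        constructor <;> linarith
      · have e1 : gaB r true r = 0 := by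
          unfold gaB
          rw [if_pos]
          simp
        rw [e1]
        have e2 : epsB true = 1 := by simp [epsB]
        rw [e2, abs_lt]
        push_cast
        constructor <;> linarith
    · have hor : Ssp r τ ≤ r - wd r ∨ r + wd r ≤ Ssp r τ := by
        rw [hi]
        rcases lt_or_gt_of_ne hir with h6 | h6
        · left
          have : (i : ℝ) + 1 ≤ r := by exact_mod_cast h6
          linarith
        · right
          have : (r : ℝ) + 1 ≤ i := by exact_mod_cast h6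
          linarith
      rw [D_zero hr (epsB b) hρ hor]
      rcases lt_or_gt_of_ne hir with h6 | h6
      · have e1 : gaB r b i = 0 := by
          unfold gaB
          rw [if_pos (Or.inl h6)]
        have e2 : (i : ℝ) / r < 1 := by
          rw [div_lt_one hrpos]
          exact_mod_cast h6
        have e3 : 0 < (i : ℝ) / r := by positivity
        rw [e1, abs_lt]
        push_cast
        constructor <;> linarith
      · have e1 : gaB r b i = -1 := by
          unfold gaB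
          rw [if_neg]
          rintro (h7 | ⟨-, h7⟩) <;> omega
        have e2 : 1 < (i : ℝ) / r := by
          rw [one_lt_div hrpos]
          exact_mod_cast h6
        have e3 : (i : ℝ) / r < 2 := by
          rw [div_lt_iff₀ hrpos]
          have : (i : ℝ) < ((2 * r : ℕ) : ℝ) := by push_cast; linarith
          push_cast at this
          linarith
        rw [e1, abs_lt]
        push_cast
        constructor <;> linarith

theorem CvS_cast (hr : 1 ≤ r) : ((2 * r - 1 : ℕ) : ℤ) = 2 * (r : ℤ) - 1 := by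
  have : 1 ≤ 2 * r := by omega
  push_cast [Nat.cast_sub this]
  ring

theorem CvS_castR (hr : 1 ≤ r) : ((2 * r - 1 : ℕ) : ℝ) = 2 * (r : ℝ) - 1 := by
  have : 1 ≤ 2 * r := by omega
  push_cast [Nat.cast_sub this]
  ring

theorem sumGB (hr : 1 ≤ r) (b : Bool) : sumZ (GB r b) = (-1, 2 * (r : ℤ) - 1) := by
  unfold GB
  rw [PTH.sumZ_append, PTH.sumZ_gw, PTH.sumZ_xs, CvS_ga0 hr b, CvS_cast hr]
  refine Prod.ext ?_ ?_
  · show gaB r b (2 * r - 1) - 0 + (-1 - gaB r b (2 * r - 1)) = -1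
    ring
  · show 2 * (r : ℤ) - 1 + 0 = 2 * (r : ℤ) - 1
    ring

theorem sumGB' (hr : 1 ≤ r) (b : Bool) : sumZ (GB' r b) = (2 * (r : ℤ) - 1, 2 * (r : ℤ) - 1) := by
  unfold GB'
  rw [PTH.sumZ_append, PTH.sumZ_gw, PTH.sumZ_xs, CvS_ga0 hr b, CvS_cast hr]
  refine Prod.ext ?_ ?_
  · show gaB r b (2 * r - 1) + (2 * (r : ℤ) - 1) - (0 + ((0 : ℕ) : ℤ)) +
      (2 * (r : ℤ) - 1 - (gaB r b (2 * r - 1) + (2 * (r : ℤ) - 1))) = 2 * (r : ℤ) - 1
    push_cast
    ring
  · show 2 * (r : ℤ) - 1 + 0 = 2 * (r : ℤ) - 1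
    ring

theorem CvS_rad (hr : 1 ≤ r) : rad r (2 * r) ≤ 1 / 8 := by
  have hr1 : (1 : ℝ) ≤ r := by exact_mod_cast hr
  have h := rad_bd hr (x := 2 * r) (by rw [abs_of_nonneg (by linarith)]; linarith)
  have hr0 : rh0 = 1 / 1000 := rfl
  rw [abs_le, hr0] at h
  linarith [h.2]

theorem CvS_Y0 (hr : 1 ≤ r) (b : Bool) {τ : ℝ} (h : τ ≤ 1 / 8) : (uB r b τ).2 = Ssp r τ := by
  rw [uB_low b h]
  rfl

theorem CvS_low (hr : 1 ≤ r) (b : Bool) (τ : ℝ) : -1 < (uB r b τ).2 := by
  have hr1 : (1 : ℝ) ≤ r := by exact_mod_cast hr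
  rcases le_total τ (1 / 8) with h | h
  · rw [CvS_Y0 hr b h]
    linarith [S_nonneg hr τ]
  · linarith [(uB_high hr b h).2.1]

theorem CvS_T (hr : 1 ≤ r) (b : Bool) : ((2 * r - 1 : ℕ) : ℝ) < (uB r b (1 / 8)).2 ∧
    (uB r b (1 / 8)).2 < ((2 * r - 1 : ℕ) : ℝ) + 1 := by
  have hw1 := wd_pos hr
  have hw2 := wd_le hr
  rw [CvS_castR hr, CvS_Y0 hr b le_rfl, S_high hr (CvS_rad hr)]
  constructor <;> linarith

theorem CvS_top (hr : 1 ≤ r) (b : Bool) {τ : ℝ} (h : τ ≤ 1 / 8) : (uB r b τ).2 < ((2 * r - 1 : ℕ) : ℝ) + 1 := by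
  have hw1 := wd_pos hr
  rw [CvS_castR hr, CvS_Y0 hr b h]
  linarith [S_le hr τ]

theorem shB (hr : 1 ≤ r) (b : Bool) : SH (uB r b) (pos (GB r b)) (-1, 2 * (r : ℤ) - 1) := by
  have hseg := segB hr b
  rw [← CvS_cast hr] at hseg ⊢
  have key := PTH.sh_gap (w := uB r b) (M := 2 / 5) (T := 1 / 8) (m := -1) (n := 2 * r - 1) hseg (gaB r b)
    (CvS_ga0 hr b) (CvS_low hr b) (by norm_num) (CvS_T hr b) ?_ (fun τ h => CvS_top hr b h) ?_
  · exact key
  · intro τ hτ i hi
    rw [CvS_Y0 hr b hτ] at hi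
    rw [uB_low b hτ]
    exact rowB hr b hτ hi
  · intro τ hτ
    obtain ⟨h1, h2, h3⟩ := uB_high hr b hτ
    rw [CvS_castR hr]
    refine ⟨?_, by linarith, by linarith⟩
    push_cast
    rw [sub_neg_eq_add]
    exact h1

theorem shB' (hr : 1 ≤ r) (b : Bool) :
    SH (uB' r b) (pos (GB' r b)) (2 * (r : ℤ) - 1, 2 * (r : ℤ) - 1) := by
  have hseg := segB' hr b
  have e2 : ∀ τ, (uB' r b τ).2 = (uB r b τ).2 := fun τ => by
    show (uB r b τ).2 + 0 = _
    rw [add_zero]
  have e1 : ∀ τ, (uB' r b τ).1 = (uB r b τ).1 + GG r τ := fun τ => rfl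
  have hseg' : IsSeg (uB' r b) (2 / 5) (2 * (r : ℤ) - 1, ((2 * r - 1 : ℕ) : ℤ)) := by
    rw [CvS_cast hr]
    exact hseg
  have key := PTH.sh_gap (w := uB' r b) (M := 2 / 5) (T := 1 / 8) (m := 2 * (r : ℤ) - 1) (n := 2 * r - 1) hseg'
    (fun i => gaB r b i + i) ?_ ?_ (by norm_num) ?_ ?_ ?_ ?_
  · rw [CvS_cast hr] at key
    unfold GB'
    rw [CvS_cast hr]
    exact key
  · show gaB r b 0 + ((0 : ℕ) : ℤ) = 0
    rw [CvS_ga0 hr b]
    rfl
  · intro τ
    rw [e2]
    exact CvS_low hr b τ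
  · rw [e2]
    exact CvS_T hr b
  · intro τ hτ i hi
    rw [e2, CvS_Y0 hr b hτ] at hi
    have hi2 : i ≤ 2 * r := by
      have hw1 := wd_pos hr
      have h5 := S_le hr τ
      rw [hi] at h5
      have : (i : ℝ) ≤ ((2 * r : ℕ) : ℝ) := by push_cast; linarith
      exact_mod_cast this
    rw [e1, GG_row hr hi2 hi, uB_low b hτ]
    have := rowB hr b hτ hi
    have e3 : (qsp r (epsB b) τ).1 + (i : ℝ) - ((gaB r b i + (i : ℤ) : ℤ) : ℝ) = (qsp r (epsB b) τ).1 - gaB r b i := by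
      push_cast
      ring
    rw [e3]
    exact this
  · intro τ hτ
    rw [e2]
    exact CvS_top hr b hτ
  · intro τ hτ
    obtain ⟨h1, h2, h3⟩ := uB_high hr b hτ
    rw [e1, e2, CvS_castR hr, GG_high hr ((CvS_rad hr).trans hτ)]
    refine ⟨?_, by linarith, by linarith⟩
    have e3 : (uB r b τ).1 + 2 * (r : ℝ) - ((2 * (r : ℤ) - 1 : ℤ) : ℝ) = (uB r b τ).1 + 1 := by
      push_cast
      ring
    rw [e3]
    exact h1

theorem CvS_seg (L : List (Bool × Bool)) :
    IsSeg (fun τ => pos L (L.length * Real.smoothTransition (5 * τ))) 1 (sumZ L) := by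
  have h := PTH.pos_seg L
  refine ⟨zero_le_one, ?_, ?_, ?_, fun τ => h.avoid _⟩
  · refine h.cont.comp ?_
    have := Real.smoothTransition.continuous
    fun_prop
  · intro τ hτ
    show pos L (L.length * Real.smoothTransition (5 * τ)) = _
    rw [Real.smoothTransition.zero_of_nonpos (by linarith), mul_zero]
    exact h.start 0 le_rfl
  · intro τ hτ
    show pos L (L.length * Real.smoothTransition (5 * τ)) = _
    rw [Real.smoothTransition.one_of_one_le (by linarith), mul_one]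
    exact h.stop _ le_rfl

theorem CvS_sh (L : List (Bool × Bool)) :
    SH (fun τ => pos L (L.length * Real.smoothTransition (5 * τ))) (pos L) (sumZ L) := by
  have h := PTH.pos_seg L
  refine PTH.sh_symm (PTH.sh_reparam (M := 1) h (fun τ => L.length * Real.smoothTransition (5 * τ)) ?_ ?_ ?_)
  · have := Real.smoothTransition.continuous
    fun_prop
  · intro τ hτ
    show (L.length : ℝ) * Real.smoothTransition (5 * τ) ≤ 0
    rw [Real.smoothTransition.zero_of_nonpos (by linarith), mul_zero]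
  · intro τ hτ
    show (L.length : ℝ) ≤ (L.length : ℝ) * Real.smoothTransition (5 * τ)
    rw [Real.smoothTransition.one_of_one_le (by linarith), mul_one]

theorem wB_sh (hr : 1 ≤ r) (b : Bool) (L : List (Bool × Bool)) :
    SH (wB r b L) (pos (GB r b ++ L)) (sumZ (GB r b ++ L)) := by
  rw [wB_cat, PTH.pos_append, PTH.sumZ_append]
  have h1 := PTH.isSeg_mono (segB hr b) (show (2 / 5 : ℝ) ≤ 1 / 2 by norm_num)
  have h2 := PTH.pos_seg (GB r b)
  have h3 := shB hr b
  rw [← sumGB hr b] at h1 h3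
  exact PTH.sh_cat h1 h2 (CvS_seg L) (PTH.pos_seg L) h3 (CvS_sh L)

theorem wB'_sh (hr : 1 ≤ r) (b : Bool) (L : List (Bool × Bool)) :
    SH (wB' r b L) (pos (GB' r b ++ L)) (sumZ (GB' r b ++ L)) := by
  rw [wB'_cat, PTH.pos_append, PTH.sumZ_append]
  have h1 := PTH.isSeg_mono (segB' hr b) (show (2 / 5 : ℝ) ≤ 1 / 2 by norm_num)
  have h2 := PTH.pos_seg (GB' r b)
  have h3 := shB' hr b
  rw [← sumGB' hr b] at h1 h3
  exact PTH.sh_cat h1 h2 (CvS_seg L) (PTH.pos_seg L) h3 (CvS_sh L)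

end

end Pool.Agent.SPR
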