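import Pool.Agent.COR.Rmc
import Pool.Agent.RBM.Cjm
import Pool.Agent.PTH.Car

/-!
# SPR/Defs: twists of a ribbon box and of a level disc; boxes and arcs in the solid torus

* `Tw b θ`: the box `b` (radius `5`) is twisted: the level `s` is rotated by `θ s` turns (on `‖z‖ ≤ 2`).
* `Rt d o`: the full twist of the disc box `d` (at `|s| < 1/8`).
* `HBox β r h`: a box in the solid torus `{(z, Y) : ‖z‖ < 1, Y mod 1}`; `lft C β`: the corresponding box of `P`.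
* `ATwo`, `APieces`: the hypotheses of the twist theorem for an arc `γ` in the solid torus.
-/

open scoped Manifold ContDiff Topology
open Complex (I)
open Pool.Agent.RSG (E4 cj ex)

namespace Pool.Agent.SPR

open Pool.Agent.RBM (Box gs Ro)
open Pool.Agent.COR (BBox EquiB TwoStrands CPieces)

/-- `1` for `‖z‖ ≤ 2`, `0` for `‖z‖ ≥ 3` -/
noncomputable def cz (z : ℂ) : ℝ := 1 - CSG.stp 4 9 (‖z‖ ^ 2)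

/-- a smooth function with the value `0` for `s ≤ -3/4` and the value `m` for `s ≥ 3/4` -/
def IsStep (θ : ℝ → ℝ) (m : ℤ) : Prop :=
  ContDiff ℝ ∞ θ ∧ (∀ s, s ≤ -(3 / 4) → θ s = 0) ∧ ∀ s, 3 / 4 ≤ s → θ s = m

section
variable {P : Type*}

open Classical in
/-- twist of the box `b` by `θ s` turns -/
noncomputable def Tw (b : ℂ × ℝ × ℝ → P) (θ : ℝ → ℝ) (p : P) : P :=
  if h : ∃ q : ℂ × ℝ × ℝ, ‖q.1‖ < 5 ∧ |q.2.1| < 1 ∧ b q = p then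
    b (ex (θ h.choose.2.1 * cz h.choose.1) * h.choose.1, h.choose.2.1, h.choose.2.2)
  else p

open Classical in
/-- full twist of the box `d` -/
noncomputable def Rt (d : ℂ × ℝ × ℝ → P) (o : ℝ) (p : P) : P :=
  if h : ∃ q : ℂ × ℝ × ℝ, ‖q.1‖ < 1 ∧ |q.2.1| < 1 / 8 ∧ d q = p then
    d (Ro (o * gs h.choose.2.1) h.choose.1, h.choose.2.1, h.choose.2.2)
  else p

/-- the box `b`, rotated by `θ s` turns -/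
noncomputable def rotb (b : ℂ × ℝ × ℝ → P) (θ : ℝ → ℝ) (q : ℂ × ℝ × ℝ) : P :=
  b (ex (θ q.2.1) * q.1, q.2.1, q.2.2)

/-- The box `b` meets the disc box `d` only in the middle parts of both. -/
def InB (b d : ℂ × ℝ × ℝ → P) : Prop :=
  ∀ (y : ℂ) (s t : ℝ) (z : ℂ) (s' t' : ℝ), ‖y‖ ≤ 1 → |s| ≤ 1 → ‖z‖ < 5 → |s'| < 1 →
    d (y, s, t) = b (z, s', t') → |s'| < 1 / 2 ∧ ‖y‖ ≤ 1 / 2

/-- the box of `P` which corresponds to the box `β` of the solid torus -/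
def lft (C : ℂ × ℝ × ℝ → P) (β : ℂ × ℝ → ℂ × ℝ) (q : ℂ × ℝ × ℝ) : P :=
  C ((β (q.1, q.2.1)).1, (β (q.1, q.2.1)).2, q.2.2)

end

/-- equal modulo the translations `(0, m)`, `m` an integer -/
def MT (x y : ℂ × ℝ) : Prop := ∃ m : ℤ, y = x + (0, (m : ℝ))

/-- a box `‖z‖ < r`, `|s| < h` in the solid torus -/
structure HBox (β : ℂ × ℝ → ℂ × ℝ) (r h : ℝ) : Prop where
  loc : ∀ (z : ℂ) (s : ℝ), ‖z‖ < r → |s| < h → IsLocalDiffeomorphAt 𝓘(ℝ, ℂ × ℝ) 𝓘(ℝ, ℂ × ℝ) ∞ β (z, s)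
  inj : ∀ (z : ℂ) (s : ℝ) (z' : ℂ) (s' : ℝ), ‖z‖ < r → |s| < h → ‖z'‖ < r → |s'| < h →
    MT (β (z, s)) (β (z', s')) → z = z' ∧ s = s'
  inn : ∀ (z : ℂ) (s : ℝ), ‖z‖ < r → |s| < h → ‖(β (z, s)).1‖ < 1

/-- In the box `β` (radius `5`, `|s| < 1`) the arc `γ` consists of two straight strands. -/
structure ATwo (β : ℂ × ℝ → ℂ × ℝ) (γ : ℝ → ℂ × ℝ) (f₁ f₂ : ℝ → ℝ) (ε₁ ε₂ : ℝ) : Prop where
  smooth₁ : ContDiff ℝ ∞ f₁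
  smooth₂ : ContDiff ℝ ∞ f₂
  deriv₁ : ∀ u, 0 < deriv f₁ u
  deriv₂ : ∀ u, 0 < deriv f₂ u
  sign₁ : ε₁ = 1 ∨ ε₁ = -1
  sign₂ : ε₂ = 1 ∨ ε₂ = -1
  ord₁ : -(1 / 4) < f₁ (-1)
  ord₂ : f₁ 1 < f₂ (-1)
  ord₃ : f₂ 1 < 1 / 4
  strand₁ : ∀ u, |u| < 1 → MT (β (1, ε₁ * u)) (γ (f₁ u))
  strand₂ : ∀ u, |u| < 1 → MT (β (-1, ε₂ * u)) (γ (f₂ u))
  off : ∀ l, |l| < 1 / 4 → (∀ u, |u| < 1 → l ≠ f₁ u ∧ l ≠ f₂ u) →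
    ∀ (z : ℂ) (s : ℝ), ‖z‖ < 5 → |s| < 1 → ¬ MT (β (z, s)) (γ l)

/-- In the disc box `δ` (radius `1`) the arc `γ` is contained in `k` pieces of the strands of `β`. -/
structure APieces (γ : ℝ → ℂ × ℝ) (β δ : ℂ × ℝ → ℂ × ℝ) (f₁ f₂ : ℝ → ℝ) {k : ℕ} (c μ : Fin k → ℂ)
    (bi ς η ρ : Fin k → ℝ) : Prop where
  eta : ∀ i, 0 < η i
  mu : ∀ i, ‖μ i‖ = η i
  rho : ∀ i, 0 < ρ i
  small : ∀ i, ‖c i‖ + 4 * η i ≤ 1 / 100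
  dist : ∀ i i', i ≠ i' → 4 * η i + 4 * η i' ≤ ‖c i - c i'‖
  range : ∀ i, |bi i| + ρ i < 1 / 2
  sign : ∀ i, ς i = 1 ∨ ς i = -1
  piece : ∀ (i : Fin k) (y : ℂ) (s : ℝ), ‖y - c i‖ < 4 * η i → |s| < 1 →
    MT (β (cj (ς i) ((y - c i) / μ i), bi i + ς i * ρ i * s)) (δ (y, s))
  inter : ∀ (y : ℂ) (s : ℝ) (z : ℂ) (s' : ℝ), ‖y‖ < 1 → |s| < 1 → ‖z‖ < 4 → |s'| < 1 →
    MT (β (z, s')) (δ (y, s)) → ∃ i, ‖y - c i‖ < 4 * η i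
  inb : ∀ (y : ℂ) (s : ℝ) (z : ℂ) (s' : ℝ), ‖y‖ ≤ 1 → |s| ≤ 1 → ‖z‖ < 5 → |s'| < 1 →
    MT (β (z, s')) (δ (y, s)) → |s'| < 1 / 2 ∧ ‖y‖ ≤ 1 / 2
  off : ∀ l, |l| < 1 / 4 → (∀ u, |u| < 1 / 2 → l ≠ f₁ u ∧ l ≠ f₂ u) →
    ∀ (y : ℂ) (s : ℝ), ‖y‖ ≤ 1 → |s| ≤ 1 → ¬ MT (δ (y, s)) (γ l)

/-- `γ'` is the arc `γ`, twisted in the box `β` by `θ`. -/
def IsTwArc (β : ℂ × ℝ → ℂ × ℝ) (f₁ f₂ : ℝ → ℝ) (ε₁ ε₂ : ℝ) (θ : ℝ → ℝ) (γ γ' : ℝ → ℂ × ℝ) : Prop :=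
  (∀ u, |u| < 1 → MT (β (ex (θ (ε₁ * u)), ε₁ * u)) (γ' (f₁ u))) ∧
  (∀ u, |u| < 1 → MT (β (-ex (θ (ε₂ * u)), ε₂ * u)) (γ' (f₂ u))) ∧
  ∀ l, |l| < 1 / 4 → (∀ u, |u| < 1 → l ≠ f₁ u ∧ l ≠ f₂ u) → MT (γ l) (γ' l)

/-- `γ'` is the arc `γ` after a full twist of the disc box `δ`. -/
def IsRtArc (δ : ℂ × ℝ → ℂ × ℝ) (o : ℝ) (γ γ' : ℝ → ℂ × ℝ) : Prop :=
  (∀ (l : ℝ) (y : ℂ) (s : ℝ), |l| < 1 / 4 → ‖y‖ < 1 → |s| < 1 / 8 → MT (δ (y, s)) (γ l) →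
    MT (δ (Ro (o * gs s) y, s)) (γ' l)) ∧
  ∀ l, |l| < 1 / 4 → (∀ (y : ℂ) (s : ℝ), ‖y‖ < 1 → |s| < 1 / 8 → ¬ MT (δ (y, s)) (γ l)) → MT (γ l) (γ' l)

/-- `K` is a closed curve with the arc `γ` in the solid torus (no smoothness) -/
structure AKnot {EP : Type*} [NormedAddCommGroup EP] [NormedSpace ℝ EP] {HP : Type*} [TopologicalSpace HP]
    (IP : ModelWithCorners ℝ EP HP) {P : Type*} [TopologicalSpace P] [ChartedSpace HP P]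
    (C : ℂ × ℝ × ℝ → P) (γ : ℝ → ℂ × ℝ) (K : ℝ → P) : Prop where
  per : ∀ l, K (l + 1) = K l
  inner : ∀ l, |l| < 1 / 4 → ‖(γ l).1‖ < 1 ∧ K l = C ((γ l).1, (γ l).2, 0)
  outer : ∀ l, 1 / 4 ≤ l → l ≤ 3 / 4 → ∀ z Y t, ‖z‖ < 1 → K l ≠ C (z, Y, t)

end Pool.Agent.SPR
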