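import Pool.Agent.SPR.Sec

/-!
# SPR/FamS: modified arcs: smoothness, immersion   (difficulty 3)

`G τ l = GA r w (I τ) (Z₀ τ) (Zr τ) l`, `ρ = 4 l`, `w` smooth, `w = qsp r ε` on `ρ ≤ 1/8`.
The five formulas agree near the four (five) boundaries: `e` as in `Fam.ends` (may be made smaller),
* `ρ` near `-rad (1/2)`: `Th r (-ρ, 0) = (ρ, 0)`;
* near `rad wd`: `Th r (I τ l) = Th r (rh0, lam ρ) = Th r (Z₀ τ (lam ρ), lam ρ)` (`Z₀ = rh0` for `x ≤ wd + e`);
* near `rad (1/2)`: `Th r (rh0, lam ρ)` equals `Th r (zq r ε ρ, Ssp r ρ) = arc w l` (`q_pt`, `zq_mid`, `S_mid`, `ρ = rad (lam ρ)`) if `lam ρ ≤ r - wd`, and `Th r (Zr τ (lam ρ - r), lam ρ - r) + (0, r)` with `Zr = rad r r` (for `lam ρ - r ≤ -1/2 + e`) equals `Th r (rh0, lam ρ)` too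
  (`Th_shift` with `n = r`, `Cn_r`); (for `r = 1` the third and the fourth interval touch at `1/2`, for `r ≥ 2` the fifth formula is used between them);
* near `rad (r - 1/2)`, `rad (r + 1/2)`: the same computation.
So near every point `(τ, l)`, `|l| < 1/4`, `G` is given by one of the smooth formulas (`lam r` is smooth for `ρ > 0`; `Th_smooth`).
`fam_norm`: `‖Th r (ζ, s)‖ = Lm s ‖ζ‖` and the bounds of `Fam` (`regI`, `reg₀`, `regr`); `‖arc w l‖ = |4 l| < 1`.
`fam_imm`: `p`: derivative of the first component is `4`.  Inner part: if `deriv (G τ) l = 0` then the derivative of `l ↦ I τ l` is `0` (`Th r` is a local diffeomorphism: injective derivative), so the derivative of `(I τ l).2 - c re (I τ l).1` is `0`: contradiction to `tilt`.  Strands: the second component has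
the derivative `4 / (vt r ρ) ≠ 0`.  `arc w`: the norm of the first component is `|4 l|`, so the derivative is not `0`.
-/

open scoped Manifold ContDiff Topology
open Set Filter
open Complex (I)
open Pool.Agent.RSG (E4 cj ex)

namespace Pool.Agent.SPR

section
variable {r : ℕ} {ε : ℝ} {w : ℝ → ℝ × ℝ} {J : ℝ → ℝ → ℂ × ℝ} {Z₀ Zr : ℝ → ℝ → ℂ}

theorem FamS_strictMono (hr : 1 ≤ r) : StrictMono (rad r) := fun _ _ h => rad_lt hr h

theorem FamS_le (hr : 1 ≤ r) {ρ : ℝ} (hρ : 0 < ρ) (y : ℝ) : ρ ≤ rad r y ↔ lam r ρ ≤ y := by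
  conv_lhs => rw [← rad_lam hr hρ]
  exact (FamS_strictMono hr).le_iff_le

theorem FamS_ge (hr : 1 ≤ r) {ρ : ℝ} (hρ : 0 < ρ) (y : ℝ) : rad r y ≤ ρ ↔ y ≤ lam r ρ := by
  conv_lhs => rw [← rad_lam hr hρ]
  exact (FamS_strictMono hr).le_iff_le

theorem FamS_real (hr : 1 ≤ r) : (1 : ℝ) ≤ r := by exact_mod_cast hr

theorem FamS_lam_smooth {ρ : ℝ} (hρ : 0 < ρ) : ContDiffAt ℝ ∞ (lam r) ρ := by
  have h0 : ρ / rh0 ≠ 0 := (div_pos hρ (by norm_num [rh0])).ne'
  exact (((contDiffAt_id.div_const _).log h0)).div_const _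

theorem FamS_lam4 {l : ℝ} (hl : 0 < l) : ContDiffAt ℝ ∞ (fun l : ℝ => lam r (4 * l)) l := by
  have h1 : ContDiffAt ℝ ∞ (lam r) (4 * l) := FamS_lam_smooth (by linarith)
  exact h1.comp l (contDiffAt_const.mul contDiffAt_id)

theorem FamS_lam_deriv (hr : 1 ≤ r) {l : ℝ} (hl : 0 < l) :
    ∃ d : ℝ, d ≠ 0 ∧ HasDerivAt (fun l : ℝ => lam r (4 * l)) d l := by
  have hrh : rh0 ≠ 0 := by norm_num [rh0]
  have h0 : 4 * l / rh0 ≠ 0 := (div_pos (by linarith) (by norm_num [rh0])).ne'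
  have h1 : HasDerivAt (fun l : ℝ => 4 * l / rh0) (4 * 1 / rh0) l :=
    ((hasDerivAt_id l).const_mul 4).div_const _
  have h2 := (h1.log h0).div_const (vt r)
  refine ⟨_, ?_, h2⟩
  have h3 := (vt_pos hr).ne'
  have h4 : (4 * 1 / rh0 : ℝ) ≠ 0 := by positivity
  exact div_ne_zero (div_ne_zero h4 h0) h3

theorem FamS_snd {f : ℝ → ℂ × ℝ} {l d : ℝ} (hf : DifferentiableAt ℝ f l) (hd : d ≠ 0)
    (h : HasDerivAt (fun x => (f x).2) d l) : deriv f l ≠ 0 := by
  intro h0
  have h1 := (ContinuousLinearMap.snd ℝ ℂ ℝ).hasFDerivAt.comp_hasDerivAt l hf.hasDerivAt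
  rw [h0] at h1
  have h2 := h.unique h1
  rw [map_zero] at h2
  exact hd h2

/-- in the four transition regions the arc is `Th r (rh0, lam)` -/
theorem FamS_F0 (hr : 1 ≤ r) (hq : ∀ ρ ≤ 1 / 8, w ρ = qsp r ε ρ) {e : ℝ} (he : 0 < e) (he8 : e ≤ 1 / 8)
    (hI : ∀ τ l, |4 * l - rad r (wd r)| ≤ e → J τ l = ((rh0 : ℂ), lam r (4 * l)))
    (h0 : ∀ τ x, x ≤ wd r + e ∨ 1 / 2 - e ≤ x → Z₀ τ x = rh0)
    (h1 : ∀ τ s, 1 / 2 - e ≤ |s| → Zr τ s = rad r r) {l : ℝ} (hl : 0 < l)
    (hx : (|4 * l - rad r (wd r)| ≤ e ∧ |lam r (4 * l) - wd r| ≤ e) ∨ |lam r (4 * l) - 1 / 2| ≤ e ∨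
      |lam r (4 * l) - (r - 1 / 2)| ≤ e ∨ |lam r (4 * l) - (r + 1 / 2)| ≤ e) (τ : ℝ) :
    GA r w (J τ) (Z₀ τ) (Zr τ) l = Th r ((rh0 : ℂ), lam r (4 * l)) := by
  have hr' := FamS_real hr
  have hwd := wd_le hr
  have hwd0 := wd_pos hr
  have h4l : 0 < 4 * l := by linarith
  obtain ⟨x, hxe⟩ : ∃ x, x = lam r (4 * l) := ⟨_, rfl⟩
  have hradx : rad r x = 4 * l := by rw [hxe]; exact rad_lam hr h4l
  have c1 : ¬ 4 * l ≤ -rad r (1 / 2) := by
    have := rad_pos r (1 / 2)
    linarith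
  have k1 := FamS_le hr h4l (wd r)
  have k2 := FamS_le hr h4l (1 / 2)
  have k3 := FamS_ge hr h4l (r - 1 / 2)
  have k4 := FamS_le hr h4l (r + 1 / 2)
  unfold GA
  rw [if_neg c1, ← hxe]
  rw [← hxe] at hx k1 k2 k3 k4
  by_cases c2 : x ≤ wd r
  · rw [if_pos (k1.2 c2)]
    have h2 : |4 * l - rad r (wd r)| ≤ e := by
      rcases hx with h | h | h | h
      · exact h.1
      · have := (abs_le.1 h).1; linarith
      · have := (abs_le.1 h).1; linarith
      · have := (abs_le.1 h).1; linarith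
    rw [hI τ l h2, ← hxe]
  · rw [if_neg (fun hc => c2 (k1.1 hc))]
    by_cases c3 : x ≤ 1 / 2
    · rw [if_pos (k2.2 c3)]
      have h2 : x ≤ wd r + e ∨ 1 / 2 - e ≤ x := by
        rcases hx with h | h | h | h
        · left; have := (abs_le.1 h.2).2; linarith
        · right; have := (abs_le.1 h).1; linarith
        · right; have := (abs_le.1 h).1; linarith
        · have := (abs_le.1 h).1; linarith
      rw [h0 τ x h2]
    · rw [if_neg (fun hc => c3 (k2.1 hc))]
      rw [not_le] at c3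
      by_cases c4 : r - 1 / 2 ≤ x ∧ x ≤ r + 1 / 2
      · rw [if_pos ⟨k3.2 c4.1, k4.2 c4.2⟩]
        have h2 : 1 / 2 - e ≤ |x - r| := by
          rcases hx with h | h | h | h
          · have := (abs_le.1 h.2).2; linarith
          · have := (abs_le.1 h).2
            rw [abs_sub_comm]
            exact le_trans (by linarith) (le_abs_self _)
          · have := (abs_le.1 h).2
            rw [abs_sub_comm]
            exact le_trans (by linarith) (le_abs_self _)
          · have := (abs_le.1 h).1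
            exact le_trans (by linarith) (le_abs_self _)
        rw [h1 τ _ h2]
        have h3 := Th_shift r (rh0 : ℂ) (x - r) (r : ℤ)
        have h4 : x - (r : ℝ) + ((r : ℤ) : ℝ) = x := by push_cast; ring
        have h5 : Cn r ((r : ℤ) : ℝ) = Lm r r := by
          have : ((r : ℤ) : ℝ) = (r : ℝ) := by push_cast; rfl
          rw [this]
          exact Cn_r hr
        rw [h4, h5] at h3
        rw [h3]
        have h6 : ((rad r r : ℝ) : ℂ) = (Lm r r : ℂ) * (rh0 : ℂ) := by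
          rw [rad]
          push_cast
          ring
        rw [h6]
        push_cast
        rfl
      · rw [if_neg (fun hc => c4 ⟨k3.1 hc.1, k4.1 hc.2⟩)]
        have h2 : x ≤ r + 5 / 8 := by
          rcases hx with h | h | h | h
          · have := (abs_le.1 h.2).2; linarith
          · have := (abs_le.1 h).2; linarith
          · have := (abs_le.1 h).2; linarith
          · have := (abs_le.1 h).2; linarith
        have h3 : x < r - 1 / 2 ∨ r + 1 / 2 < x := by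
          by_contra hc
          rw [not_or, not_lt, not_lt] at hc
          exact c4 hc
        have h4 : 4 * l ≤ 1 / 8 := by
          have h5 := rad_bd hr (x := x) (by
            rw [abs_of_pos (by linarith)]
            linarith)
          rw [hradx] at h5
          have h6 := (abs_le.1 h5).2
          have h7 : rh0 = 1 / 1000 := rfl
          rw [h7] at h6
          linarith
        have h5 : zq r ε (rad r x) = rh0 := zq_mid hr ε (by linarith) (by linarith) (by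
          rcases h3 with h | h
          · left; linarith
          · right; linarith)
        have h6 : Ssp r (rad r x) = x := S_mid hr (by linarith) (by linarith)
        have h7 := q_pt r ε (rad r x)
        rw [h5, h6, hradx] at h7
        rw [h7, PTH.arc, hq _ h4]

/-- at every point the modified arc is given by a smooth formula near this point -/
theorem FamS_key (hr : 1 ≤ r) (hw : ContDiff ℝ ∞ w) (hq : ∀ ρ ≤ 1 / 8, w ρ = qsp r ε ρ)
    (hF : Fam r J Z₀ Zr) (τ l : ℝ) : ∃ F : ℝ × ℝ → ℂ × ℝ, ContDiffAt ℝ ∞ F (τ, l) ∧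
      (∀ᶠ l' in 𝓝 l, ∀ τ', GA r w (J τ') (Z₀ τ') (Zr τ') l' = F (τ', l')) ∧
      (τ ∈ Icc (0 : ℝ) 1 → deriv (fun l' => F (τ, l')) l ≠ 0) := by
  have hne : (∞ : WithTop ℕ∞) ≠ 0 := by simp
  have hr' := FamS_real hr
  have hwd := wd_le hr
  have hwd0 := wd_pos hr
  obtain ⟨e₁, he₁, hA, hB, h0, h1⟩ := hF.ends
  obtain ⟨e, he, he8, hee⟩ : ∃ e : ℝ, 0 < e ∧ e ≤ 1 / 8 ∧ e ≤ e₁ :=
    ⟨min (1 / 8) e₁, lt_min (by norm_num) he₁, min_le_left _ _, min_le_right _ _⟩
  have hA' : ∀ τ l, |4 * l + rad r (1 / 2)| ≤ e → J τ l = (((-(4 * l) : ℝ) : ℂ), 0) :=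
    fun τ l h => hA τ l (h.trans hee)
  have hB' : ∀ τ l, |4 * l - rad r (wd r)| ≤ e → J τ l = ((rh0 : ℂ), lam r (4 * l)) :=
    fun τ l h => hB τ l (h.trans hee)
  have h0' : ∀ τ x, x ≤ wd r + e ∨ 1 / 2 - e ≤ x → Z₀ τ x = rh0 := fun τ x h => h0 τ x (by
    rcases h with h | h
    · left; linarith
    · right; linarith)
  have h1' : ∀ τ s, 1 / 2 - e ≤ |s| → Zr τ s = rad r r := fun τ s h => h1 τ s (by linarith)
  have hb1 := rad_pos r (1 / 2)
  have hb2 := rad_pos r (wd r)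
  have hb23 : rad r (wd r) < rad r (1 / 2) := rad_lt hr (by linarith)
  have hb34 : rad r (1 / 2) ≤ rad r (r - 1 / 2) := (FamS_strictMono hr).monotone (by linarith)
  have hb45 : rad r (r - 1 / 2) < rad r (r + 1 / 2) := rad_lt hr (by linarith)
  have hc4 : Continuous fun l : ℝ => 4 * l := continuous_const.mul continuous_id
  have hcτ : ContDiffAt ℝ ∞ (fun l' : ℝ => ((τ, l') : ℝ × ℝ)) l :=
    contDiffAt_const.prodMk contDiffAt_id
  have hlt : ∀ b : ℝ, 4 * l < b → ∀ᶠ l' in 𝓝 l, 4 * l' < b := fun b hb =>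
    hc4.continuousAt.eventually (gt_mem_nhds hb)
  have hgt : ∀ b : ℝ, b < 4 * l → ∀ᶠ l' in 𝓝 l, b < 4 * l' := fun b hb =>
    hc4.continuousAt.eventually (lt_mem_nhds hb)
  -- the straight line
  have L1 : ContDiffAt ℝ ∞ (fun q : ℝ × ℝ => ((((4 * q.2 : ℝ) : ℂ), 0) : ℂ × ℝ)) (τ, l) ∧
      deriv (fun l' : ℝ => ((((4 * l' : ℝ) : ℂ), 0) : ℂ × ℝ)) l ≠ 0 := by
    constructor
    · have h2 : ContDiff ℝ ∞ (fun q : ℝ × ℝ => (((4 * q.2 : ℝ) : ℂ))) :=
        Complex.ofRealCLM.contDiff.comp (contDiff_const.mul contDiff_snd)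
      exact (h2.prodMk contDiff_const).contDiffAt
    · have h2 : HasDerivAt (fun l' : ℝ => (4 * l' : ℝ)) (4 * 1) l := (hasDerivAt_id l).const_mul 4
      have h3 : HasDerivAt (fun l' : ℝ => ((((4 * l' : ℝ) : ℂ), 0) : ℂ × ℝ))
          ((((4 * 1 : ℝ) : ℂ), 0) : ℂ × ℝ) l := h2.ofReal_comp.prodMk (hasDerivAt_const l (0 : ℝ))
      rw [h3.deriv]
      intro h4
      have h5 := congrArg Prod.fst h4
      norm_num at h5
  -- the transition formula
  have L0 : 0 < l → ((|4 * l - rad r (wd r)| < e ∧ |lam r (4 * l) - wd r| < e) ∨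
      |lam r (4 * l) - 1 / 2| < e ∨ |lam r (4 * l) - (r - 1 / 2)| < e ∨
      |lam r (4 * l) - (r + 1 / 2)| < e) →
      ∃ F : ℝ × ℝ → ℂ × ℝ, ContDiffAt ℝ ∞ F (τ, l) ∧
      (∀ᶠ l' in 𝓝 l, ∀ τ', GA r w (J τ') (Z₀ τ') (Zr τ') l' = F (τ', l')) ∧
      (τ ∈ Icc (0 : ℝ) 1 → deriv (fun l' => F (τ, l')) l ≠ 0) := by
    intro hl hx
    have hs : ContDiffAt ℝ ∞ (fun q : ℝ × ℝ => lam r (4 * q.2)) (τ, l) :=
      ContDiffAt.comp (τ, l) (g := fun l : ℝ => lam r (4 * l)) (FamS_lam4 hl) contDiffAt_snd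
    have hsm : ContDiffAt ℝ ∞ (fun q : ℝ × ℝ => Th r ((rh0 : ℂ), lam r (4 * q.2))) (τ, l) :=
      (Th_smooth r).contDiffAt.comp (τ, l) (contDiffAt_const.prodMk hs)
    refine ⟨fun q => Th r ((rh0 : ℂ), lam r (4 * q.2)), hsm, ?_, ?_⟩
    · have hcl : ContinuousAt (fun l : ℝ => lam r (4 * l)) l := (FamS_lam4 hl).continuousAt
      have hpos : ∀ᶠ l' in 𝓝 l, 0 < l' := lt_mem_nhds hl
      have hev : ∀ c : ℝ, |lam r (4 * l) - c| < e → ∀ᶠ l' in 𝓝 l, |lam r (4 * l') - c| < e :=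
        fun c hc => (hcl.sub continuousAt_const).abs.eventually (gt_mem_nhds hc)
      have hfin : ∀ᶠ l' in 𝓝 l, ((|4 * l' - rad r (wd r)| ≤ e ∧ |lam r (4 * l') - wd r| ≤ e) ∨
          |lam r (4 * l') - 1 / 2| ≤ e ∨ |lam r (4 * l') - (r - 1 / 2)| ≤ e ∨
          |lam r (4 * l') - (r + 1 / 2)| ≤ e) := by
        rcases hx with h | h | h | h
        · have h2 : ∀ᶠ l' in 𝓝 l, |4 * l' - rad r (wd r)| < e :=
            (hc4.continuousAt.sub continuousAt_const).abs.eventually (gt_mem_nhds h.1)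
          filter_upwards [h2, hev _ h.2] with l' h3 h4
          exact Or.inl ⟨h3.le, h4.le⟩
        · filter_upwards [hev _ h] with l' h3
          exact Or.inr (Or.inl h3.le)
        · filter_upwards [hev _ h] with l' h3
          exact Or.inr (Or.inr (Or.inl h3.le))
        · filter_upwards [hev _ h] with l' h3
          exact Or.inr (Or.inr (Or.inr h3.le))
      filter_upwards [hpos, hfin] with l' hl' h3 τ'
      exact FamS_F0 hr hq he he8 hB' h0' h1' hl' h3 τ'
    · intro _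
      obtain ⟨d, hd, hd'⟩ := FamS_lam_deriv hr hl
      exact FamS_snd ((hsm.comp l hcτ).differentiableAt hne) hd hd'
  have hpos4 : 0 < 4 * l → 0 < l := fun h => by linarith
  have hlamrad : ∀ x : ℝ, 4 * l = rad r x → lam r (4 * l) = x := fun x h => by
    rw [h, lam_rad hr]
  -- the spiral
  have L5 : 0 < l → (∀ᶠ l' in 𝓝 l, ∀ τ', GA r w (J τ') (Z₀ τ') (Zr τ') l' = PTH.arc w l') →
      ∃ F : ℝ × ℝ → ℂ × ℝ, ContDiffAt ℝ ∞ F (τ, l) ∧
      (∀ᶠ l' in 𝓝 l, ∀ τ', GA r w (J τ') (Z₀ τ') (Zr τ') l' = F (τ', l')) ∧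
      (τ ∈ Icc (0 : ℝ) 1 → deriv (fun l' => F (τ, l')) l ≠ 0) := by
    intro hl hev
    have hs : ContDiff ℝ ∞ (PTH.arc w) := by
      have h1 : ContDiff ℝ ∞ fun l : ℝ => w (4 * l) := hw.comp (contDiff_const.mul contDiff_id)
      have h2 : ContDiff ℝ ∞ fun l : ℝ => ((4 * l : ℝ) : ℂ) :=
        Complex.ofRealCLM.contDiff.comp (contDiff_const.mul contDiff_id)
      exact (h2.mul (RSG.ex_smooth.comp h1.fst)).prodMk h1.snd
    refine ⟨fun q => PTH.arc w q.2, (hs.comp contDiff_snd).contDiffAt, hev, fun _ hd => ?_⟩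
    have h2 : HasDerivAt (PTH.arc w) 0 l := by
      have := (hs.differentiable hne l).hasDerivAt
      have h3 : deriv (PTH.arc w) l = 0 := hd
      rw [h3] at this
      exact this
    have h3 : HasDerivAt (fun l' => (PTH.arc w l').1) (0 : ℂ) l := by
      have := (ContinuousLinearMap.fst ℝ ℂ ℝ).hasFDerivAt.comp_hasDerivAt l h2
      rw [map_zero] at this
      exact this
    have h4 := h3.norm_sq
    have h5 : (fun l' : ℝ => ‖(PTH.arc w l').1‖ ^ 2) = fun l' => (4 * l') ^ 2 := by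
      funext l'
      show ‖((4 * l' : ℝ) : ℂ) * ex (w (4 * l')).1‖ ^ 2 = _
      rw [norm_mul, RSG.ex_norm, mul_one, Complex.norm_real, Real.norm_eq_abs, sq_abs]
    rw [h5, inner_zero_right, mul_zero] at h4
    have h6 : HasDerivAt (fun l' : ℝ => (4 * l') ^ 2) (2 * (4 * l) * (4 * 1)) l := by
      have h7 : HasDerivAt (fun l' : ℝ => 4 * l') (4 * 1) l := (hasDerivAt_id l).const_mul 4
      have h8 := h7.pow 2
      refine h8.congr_deriv ?_
      ring
    have h7 := h4.unique h6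
    linarith
  rcases lt_trichotomy (4 * l) (-rad r (1 / 2)) with c1 | c1 | c1
  · refine ⟨fun q => (((4 * q.2 : ℝ) : ℂ), 0), L1.1, ?_, fun _ => L1.2⟩
    filter_upwards [hlt _ c1] with l' hl' τ'
    unfold GA
    rw [if_pos hl'.le]
  · refine ⟨fun q => (((4 * q.2 : ℝ) : ℂ), 0), L1.1, ?_, fun _ => L1.2⟩
    have h2 : ∀ᶠ l' in 𝓝 l, |4 * l' + rad r (1 / 2)| < e := by
      have h3 : |4 * l + rad r (1 / 2)| < e := by rw [c1]; simpa using he
      exact (hc4.continuousAt.add continuousAt_const).abs.eventually (gt_mem_nhds h3)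
    filter_upwards [h2, hlt (rad r (wd r)) (by linarith)] with l' hl' hl'' τ'
    unfold GA
    by_cases c : 4 * l' ≤ -rad r (1 / 2)
    · rw [if_pos c]
    · rw [if_neg c, if_pos hl''.le, hA' τ' l' hl'.le, Th]
      simp [Cn_zero]
  · rcases lt_trichotomy (4 * l) (rad r (wd r)) with c2 | c2 | c2
    · -- the inner part
      refine ⟨fun q => Th r (J q.1 q.2), ((Th_smooth r).comp hF.smI).contDiffAt, ?_, ?_⟩
      · filter_upwards [hgt _ c1, hlt _ c2] with l' hl' hl'' τ'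
        unfold GA
        rw [if_neg (not_le.2 hl'), if_pos hl''.le]
      · intro hτ hd
        obtain ⟨c, hc, htilt⟩ := hF.tilt
        have h2 := htilt τ hτ l c1.le c2.le
        have hJs : ContDiff ℝ ∞ (J τ) := hF.smI.comp (contDiff_const.prodMk contDiff_id)
        have hTJ : ContDiff ℝ ∞ (fun l' => Th r (J τ l')) := (Th_smooth r).comp hJs
        have h3 : HasDerivAt (fun l' => Th r (J τ l')) 0 l := by
          have := (hTJ.differentiable hne l).hasDerivAt
          have h4 : deriv (fun l' => Th r (J τ l')) l = 0 := hd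
          rw [h4] at this
          exact this
        -- the inverse of `Th`
        have hinv : ContDiff ℝ ∞ (fun q : ℂ × ℝ => ((-(Cn r (-q.2) * q.1), q.2) : ℂ × ℝ)) := by
          have h5 : ContDiff ℝ ∞ (fun q : ℂ × ℝ => Cn r (-q.2)) :=
            (Cn_smooth r).comp contDiff_snd.neg
          exact (h5.mul contDiff_fst).neg.prodMk contDiff_snd
        have hcomp : ∀ q : ℂ × ℝ, ((-(Cn r (-(Th r q).2) * (Th r q).1), (Th r q).2) : ℂ × ℝ) = q := by
          rintro ⟨ζ, s⟩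
          show ((-(Cn r (-s) * -(Cn r s * ζ)), s) : ℂ × ℝ) = (ζ, s)
          have h5 : Cn r (-s) * Cn r s = 1 := by
            rw [← Cn_add, neg_add_cancel, Cn_zero]
          have h6 : -(Cn r (-s) * -(Cn r s * ζ)) = (Cn r (-s) * Cn r s) * ζ := by ring
          rw [h6, h5, one_mul]
        have h4 : HasDerivAt (J τ) 0 l := by
          have h5 := ((hinv.differentiable hne (Th r (J τ l))).hasFDerivAt).comp_hasDerivAt l h3
          rw [map_zero] at h5
          have h6 : ((fun q : ℂ × ℝ => ((-(Cn r (-q.2) * q.1), q.2) : ℂ × ℝ)) ∘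
              fun l' => Th r (J τ l')) = J τ := by
            funext l'
            exact hcomp (J τ l')
          rw [h6] at h5
          exact h5
        have h5 : HasDerivAt (fun l' => (J τ l').2) 0 l := by
          have := (ContinuousLinearMap.snd ℝ ℂ ℝ).hasFDerivAt.comp_hasDerivAt l h4
          rw [map_zero] at this
          exact this
        have h6 : HasDerivAt (fun l' => (J τ l').1.re) 0 l := by
          have h7 := (ContinuousLinearMap.fst ℝ ℂ ℝ).hasFDerivAt.comp_hasDerivAt l h4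
          have h8 := Complex.reCLM.hasFDerivAt.comp_hasDerivAt l h7
          rw [map_zero, map_zero] at h8
          exact h8
        have h7 := h5.sub (h6.const_mul c)
        have h8 : deriv (fun l => (J τ l).2 - c * (J τ l).1.re) l = 0 - c * 0 := h7.deriv
        rw [h8] at h2
        linarith
    · refine L0 (hpos4 (by linarith)) (Or.inl ⟨?_, ?_⟩)
      · rw [c2, sub_self, abs_zero]; exact he
      · rw [hlamrad _ c2, sub_self, abs_zero]; exact he
    · have hl0 : 0 < l := hpos4 (by linarith)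
      rcases lt_trichotomy (4 * l) (rad r (1 / 2)) with c3 | c3 | c3
      · -- strand 0
        have hs : ContDiffAt ℝ ∞ (fun q : ℝ × ℝ => lam r (4 * q.2)) (τ, l) :=
          ContDiffAt.comp (τ, l) (g := fun l : ℝ => lam r (4 * l)) (FamS_lam4 hl0) contDiffAt_snd
        have hz : ContDiffAt ℝ ∞ (fun q : ℝ × ℝ => Z₀ q.1 (lam r (4 * q.2))) (τ, l) :=
          ContDiffAt.comp (τ, l) (g := fun q : ℝ × ℝ => Z₀ q.1 q.2) hF.sm₀.contDiffAt
            (contDiffAt_fst.prodMk hs)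
        have hsm : ContDiffAt ℝ ∞ (fun q : ℝ × ℝ =>
            Th r (Z₀ q.1 (lam r (4 * q.2)), lam r (4 * q.2))) (τ, l) :=
          (Th_smooth r).contDiffAt.comp (τ, l) (hz.prodMk hs)
        refine ⟨fun q => Th r (Z₀ q.1 (lam r (4 * q.2)), lam r (4 * q.2)), hsm, ?_, ?_⟩
        · filter_upwards [hgt _ c2, hlt _ c3] with l' hl' hl'' τ'
          unfold GA
          rw [if_neg (by linarith), if_neg (not_le.2 hl'), if_pos hl''.le]
        · intro _
          obtain ⟨d, hd, hd'⟩ := FamS_lam_deriv hr hl0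
          exact FamS_snd ((hsm.comp l hcτ).differentiableAt hne) hd hd'
      · refine L0 hl0 (Or.inr (Or.inl ?_))
        rw [hlamrad _ c3, sub_self, abs_zero]; exact he
      · rcases lt_trichotomy (4 * l) (rad r (r - 1 / 2)) with c4 | c4 | c4
        · refine L5 hl0 ?_
          filter_upwards [hgt _ c3, hlt _ c4] with l' hl' hl'' τ'
          unfold GA
          rw [if_neg (by linarith), if_neg (by linarith), if_neg (not_le.2 hl'),
            if_neg (fun hc => absurd hc.1 (not_le.2 hl''))]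
        · refine L0 hl0 (Or.inr (Or.inr (Or.inl ?_)))
          rw [hlamrad _ c4, sub_self, abs_zero]; exact he
        · rcases lt_trichotomy (4 * l) (rad r (r + 1 / 2)) with c5 | c5 | c5
          · -- strand r
            have hs : ContDiffAt ℝ ∞ (fun q : ℝ × ℝ => lam r (4 * q.2) - r) (τ, l) :=
              (ContDiffAt.comp (τ, l) (g := fun l : ℝ => lam r (4 * l)) (FamS_lam4 hl0)
                contDiffAt_snd).sub contDiffAt_const
            have hz : ContDiffAt ℝ ∞ (fun q : ℝ × ℝ => Zr q.1 (lam r (4 * q.2) - r)) (τ, l) :=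
              ContDiffAt.comp (τ, l) (g := fun q : ℝ × ℝ => Zr q.1 q.2) hF.smr.contDiffAt
                (contDiffAt_fst.prodMk hs)
            have hsm : ContDiffAt ℝ ∞ (fun q : ℝ × ℝ =>
                Th r (Zr q.1 (lam r (4 * q.2) - r), lam r (4 * q.2) - r) + (0, (r : ℝ))) (τ, l) :=
              ((Th_smooth r).contDiffAt.comp (τ, l) (hz.prodMk hs)).add contDiffAt_const
            refine ⟨fun q => Th r (Zr q.1 (lam r (4 * q.2) - r), lam r (4 * q.2) - r) +
              (0, (r : ℝ)), hsm, ?_, ?_⟩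
            · filter_upwards [hgt _ c4, hlt _ c5, hgt _ c3] with l' hl' hl'' hl3 τ'
              unfold GA
              rw [if_neg (by linarith), if_neg (by linarith), if_neg (not_le.2 hl3),
                if_pos ⟨hl'.le, hl''.le⟩]
            · intro _
              obtain ⟨d, hd, hd'⟩ := FamS_lam_deriv hr hl0
              refine FamS_snd ((hsm.comp l hcτ).differentiableAt hne) hd ?_
              have h2 := (hd'.sub_const (r : ℝ)).add_const (r : ℝ)
              exact h2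
          · refine L0 hl0 (Or.inr (Or.inr (Or.inr ?_)))
            rw [hlamrad _ c5, sub_self, abs_zero]; exact he
          · refine L5 hl0 ?_
            filter_upwards [hgt _ c5] with l' hl' τ'
            unfold GA
            rw [if_neg (by linarith), if_neg (by linarith), if_neg (by linarith),
              if_neg (fun hc => absurd hc.2 (not_le.2 hl'))]

theorem fam_smooth (hr : 1 ≤ r) (hw : ContDiff ℝ ∞ w) (hq : ∀ ρ ≤ 1 / 8, w ρ = qsp r ε ρ)
    (hF : Fam r J Z₀ Zr) (τ : ℝ) {l : ℝ} (hl : |l| < 1 / 4) :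
    ContDiffAt ℝ ∞ (fun q : ℝ × ℝ => GA r w (J q.1) (Z₀ q.1) (Zr q.1) q.2) (τ, l) := by
  obtain ⟨F, h1, h2, -⟩ := FamS_key hr hw hq hF τ l
  refine h1.congr_of_eventuallyEq ?_
  have h3 : ∀ᶠ q : ℝ × ℝ in 𝓝 (τ, l), ∀ τ', GA r w (J τ') (Z₀ τ') (Zr τ') q.2 = F (τ', q.2) :=
    (continuous_snd.continuousAt (x := (τ, l))).eventually h2
  filter_upwards [h3] with q hq'
  exact hq' q.1

theorem fam_norm (hr : 1 ≤ r) (hF : Fam r J Z₀ Zr) {τ : ℝ} (hτ : τ ∈ Icc (0 : ℝ) 1) {l : ℝ}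
    (hl : |l| < 1 / 4) : ‖(GA r w (J τ) (Z₀ τ) (Zr τ) l).1‖ < 1 := by
  have hr' := FamS_real hr
  have hwd := wd_le hr
  have hwd0 := wd_pos hr
  have hrh : rh0 = 1 / 1000 := rfl
  have hll := abs_lt.1 hl
  have h4l : |4 * l| < 1 := by rw [abs_mul, abs_of_pos (by norm_num : (0 : ℝ) < 4)]; linarith
  have hrad : ∀ x : ℝ, |x| ≤ 4 * r → rad r x ≤ 1 / 500 := fun x hx => by
    have h1 := (abs_le.1 (rad_bd hr hx)).2
    rw [hrh] at h1
    linarith
  have hLm : ∀ x : ℝ, |x| ≤ 4 * r → Lm r x ≤ 2 := fun x hx => by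
    have h1 := (abs_le.1 (Lm_bd hr hx)).2
    linarith
  have hdel : rad r r - rh0 ≤ 1 / 500 := by
    have := hrad r (by rw [abs_of_nonneg (by linarith)]; linarith)
    rw [hrh]
    linarith
  have hTh : ∀ (ζ : ℂ) (s : ℝ), |s| ≤ 4 * r → ‖ζ‖ ≤ 1 / 10 → ‖(Th r (ζ, s)).1‖ < 1 := by
    intro ζ s hs hζ
    rw [Th_norm]
    have h1 := hLm s hs
    have h2 := Lm_pos r s
    have h3 := norm_nonneg ζ
    nlinarith
  have hz : ∀ ζ : ℂ, ‖ζ - rh0‖ ≤ 3 * (rad r r - rh0) → ‖ζ‖ ≤ 1 / 10 := by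
    intro ζ h1
    have h2 : ‖ζ‖ ≤ ‖ζ - rh0‖ + ‖(rh0 : ℂ)‖ := by
      have := norm_add_le (ζ - rh0) (rh0 : ℂ)
      rwa [sub_add_cancel] at this
    have h3 : ‖(rh0 : ℂ)‖ = 1 / 1000 := by
      rw [Complex.norm_real, hrh, Real.norm_eq_abs]
      norm_num
    rw [h3] at h2
    linarith
  unfold GA
  split_ifs with c1 c2 c3 c4
  · show ‖((4 * l : ℝ) : ℂ)‖ < 1
    rw [Complex.norm_real, Real.norm_eq_abs]
    exact h4l
  · obtain ⟨h1, h2, h3⟩ := hF.regI τ hτ l (le_of_not_ge c1) c2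
    have h4 := hTh (J τ l).1 (J τ l).2 (by rw [abs_of_nonneg h2]; linarith)
      (h1.trans ((hrad (1 / 2) (by rw [abs_of_pos (by norm_num)]; linarith)).trans (by norm_num)))
    exact h4
  · rw [not_le] at c1 c2
    have h4 : 0 < 4 * l := (rad_pos r _).trans c2
    have h5 : wd r ≤ lam r (4 * l) := (FamS_ge hr h4 _).1 c2.le
    have h6 : lam r (4 * l) ≤ 1 / 2 := (FamS_le hr h4 _).1 c3
    exact hTh _ _ (by rw [abs_of_pos (by linarith)]; linarith) (hz _ (hF.reg₀ τ hτ _ h5 h6))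
  · rw [not_le] at c1 c2 c3
    have h4 : 0 < 4 * l := (rad_pos r _).trans c2
    have h5 : r - 1 / 2 ≤ lam r (4 * l) := (FamS_ge hr h4 _).1 c4.1
    have h6 : lam r (4 * l) ≤ r + 1 / 2 := (FamS_le hr h4 _).1 c4.2
    have h7 : |lam r (4 * l) - r| ≤ 1 / 2 := abs_le.2 ⟨by linarith, by linarith⟩
    have h8 := hTh _ _ (by linarith : |lam r (4 * l) - r| ≤ 4 * r)
      (hz _ (hF.regr τ hτ _ h7).1)
    show ‖(Th r (Zr τ (lam r (4 * l) - r), lam r (4 * l) - r)).1 + 0‖ < 1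
    rw [add_zero]
    exact h8
  · show ‖((4 * l : ℝ) : ℂ) * ex (w (4 * l)).1‖ < 1
    rw [norm_mul, RSG.ex_norm, mul_one, Complex.norm_real, Real.norm_eq_abs]
    exact h4l

theorem fam_end (hr : 1 ≤ r) (hq : ∀ ρ ≤ 1 / 8, w ρ = qsp r ε ρ) (I₀ : ℝ → ℂ × ℝ) (Y₀ Y₁ : ℝ → ℂ) {l : ℝ}
    (hl : 1 / 8 ≤ |l|) : GA r w I₀ Y₀ Y₁ l = PTH.arc w l := by
  have hr' := FamS_real hr
  have hwd := wd_le hr
  have hwd0 := wd_pos hr
  have hrh : rh0 = 1 / 1000 := rfl
  have hrad : ∀ x : ℝ, |x| ≤ 4 * r → rad r x ≤ 1 / 500 := fun x hx => by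
    have h1 := (abs_le.1 (rad_bd hr hx)).2
    rw [hrh] at h1
    linarith
  unfold GA
  rcases le_or_gt 0 l with h0 | h0
  · rw [abs_of_nonneg h0] at hl
    have h1 := rad_pos r (1 / 2)
    have h2 := hrad (1 / 2) (by rw [abs_of_pos (by norm_num)]; linarith)
    have h3 := hrad (wd r) (by rw [abs_of_pos hwd0]; linarith)
    have h4 := hrad (r + 1 / 2) (by rw [abs_of_pos (by linarith)]; linarith)
    rw [if_neg (by linarith), if_neg (by linarith), if_neg (by linarith),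
      if_neg (fun hc => by linarith [hc.2])]
  · rw [abs_of_neg h0] at hl
    have h2 := hrad (1 / 2) (by rw [abs_of_pos (by norm_num)]; linarith)
    rw [if_pos (by linarith), PTH.arc, hq _ (by linarith), q_start hr ε (by rw [hrh]; linarith)]
    simp [RSG.ex_zero]

theorem fam_imm (hr : 1 ≤ r) (hw : ContDiff ℝ ∞ w) (hq : ∀ ρ ≤ 1 / 8, w ρ = qsp r ε ρ)
    (hF : Fam r J Z₀ Zr) {τ : ℝ} (hτ : τ ∈ Icc (0 : ℝ) 1) {l : ℝ} (hl : |l| < 1 / 4) :
    deriv (GA r w (J τ) (Z₀ τ) (Zr τ)) l ≠ 0 := by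
  obtain ⟨F, -, h2, h3⟩ := FamS_key hr hw hq hF τ l
  have h4 : GA r w (J τ) (Z₀ τ) (Zr τ) =ᶠ[𝓝 l] fun l' => F (τ, l') := by
    filter_upwards [h2] with l' h5
    exact h5 τ
  rw [h4.deriv_eq]
  exact h3 hτ

end

end Pool.Agent.SPR
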