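import Pool.Agent.SPR.Defs

/-!
# SPR/RtA: the full twist of a disc box, basic facts   (difficulty 2)

* `rt_box` (as `tw_box`; `‖Ro θ y‖ = ‖y‖`: `RBM.Ro_norm`), `rt_fix`: if `d (y, s, t) = d q` with `‖q.1‖ < 1`, `|q.2.1| < 1/8` then `q = (y, s, ..)` by `BBox.inj`, contradiction.  `rt_inv`: `RBM.Ro_inv` (and `Ro 0`..).
* `rt_equi`: as `tw_equi`.
* `rt_boxb`: `per`: by `Box.per`; `inj`: `Rt` is injective.  `loc` at `q = (z, s', t')`, `‖z‖ < 5`, `|s'| < 1`, `p = b q`.  (A) `p = d (y, s, t)` with `‖y‖ ≤ 1/2`, `|s| ≤ 1/8`: near `p` every point is `d (y₁, s₁, t₁)` with `‖y₁‖ < 3/4`, `|s₁| < 1` and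
  there `Rt d o (d (y₁, s₁, t₁)) = d (ex (o * gs s₁) * y₁, s₁, t₁)` (`RBM.Ro_low`; for `|s₁| ≥ 1/8`: `gs s₁ = 0` or `1`, `ex (±1) = 1`, `rt_fix`), so `Rt d o ∘ d = d ∘ (rotation)` near `(y, s, t)`, `CSG.ld_of_comp_right`, and compose with `b`.
  (B) otherwise: the set `S = d ({‖y‖ ≤ 1/2, |s| ≤ 1/8})` is closed (compact modulo `t`), `p ∉ S`; near `q` the points `b q'` are not in `S`, and (by `InB`) not in `d ({‖y‖ < 1, |s| < 1/8})`; so `Rt d o ∘ b = b` near `q`.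
* `ring_perm`: `hs s = gs s - gs (4 (s - 1/2))` is smooth, `0` for `s ≤ -1/8` and for `s ≥ 33/64`; `F (d (y, s, t)) = d (Ro (o * hs s) y, s, t)` for `‖y‖ < 1`, `|s| < 1`, identity elsewhere (define it as a permutation with the inverse for `-o`); smooth:
  as `tw_perm` in TwA (`Ro θ y = y` for `‖y‖ ≥ 7/8`, `hs s = 0` for `|s| ≥ 33/64`).
-/

open scoped Manifold ContDiff Topology
open Set Filter
open Complex (I)
open Pool.Agent.RSG (E4 cj ex)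

namespace Pool.Agent.SPR

open Pool.Agent.RBM (Box gs Ro)
open Pool.Agent.COR (BBox EquiB TwoStrands CPieces)

section
variable {EP : Type*} [NormedAddCommGroup EP] [NormedSpace ℝ EP] {HP : Type*} [TopologicalSpace HP]
  {IP : ModelWithCorners ℝ EP HP} {P : Type*} [TopologicalSpace P] [ChartedSpace HP P]
  {b d : ℂ × ℝ × ℝ → P} {a : ℝ → P → P} {K : ℝ → P} {R S o : ℝ}

open Classical in
/-- the general form of `Rt` -/
noncomputable def RtA_G (d : ℂ × ℝ × ℝ → P) (ε : ℝ) (φ : ℝ → ℝ) (p : P) : P :=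
  if h : ∃ q : ℂ × ℝ × ℝ, ‖q.1‖ < 1 ∧ |q.2.1| < ε ∧ d q = p then
    d (Ro (φ h.choose.2.1) h.choose.1, h.choose.2.1, h.choose.2.2)
  else p

omit [TopologicalSpace P] [ChartedSpace HP P] in
theorem RtA_eq (d : ℂ × ℝ × ℝ → P) (o : ℝ) : Rt d o = RtA_G d (1 / 8) (fun s => o * gs s) := rfl

variable {ε : ℝ} {φ : ℝ → ℝ}

omit [TopologicalSpace P] [ChartedSpace HP P] in
theorem RtA_per0 (hd : ∀ (z : ℂ) (s t : ℝ), d (z, s, t + 1) = d (z, s, t)) (y : ℂ) (s t : ℝ) (m : ℤ) :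
    d (y, s, t + m) = d (y, s, t) := by
  have h : Function.Periodic (fun t => d (y, s, t)) 1 := fun t => hd y s t
  have := h.int_mul m t
  simpa using this

theorem RtA_box (hd : BBox IP d R S) (hR : 1 < R) (hε : ε ≤ S) {y : ℂ} {s : ℝ} (hy : ‖y‖ < 1)
    (hs : |s| < ε) (t : ℝ) : RtA_G d ε φ (d (y, s, t)) = d (Ro (φ s) y, s, t) := by
  have hex : ∃ q : ℂ × ℝ × ℝ, ‖q.1‖ < 1 ∧ |q.2.1| < ε ∧ d q = d (y, s, t) := ⟨(y, s, t), hy, hs, rfl⟩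
  unfold RtA_G
  rw [dif_pos hex]
  obtain ⟨c1, c2, c3⟩ := hex.choose_spec
  generalize hex.choose = q at c1 c2 c3 ⊢
  obtain ⟨e1, e2, m, e3⟩ := hd.inj q.1 q.2.1 q.2.2 y s t (c1.trans hR) (c2.trans_le hε) (hy.trans hR)
    (hs.trans_le hε) c3
  rw [e1, e2, e3, RtA_per0 hd.per]

theorem RtA_fix (hd : BBox IP d R S) (hR : 1 < R) (hε : ε ≤ S) {y : ℂ} {s : ℝ} (hy : ‖y‖ < R)
    (hs : |s| < S) (h : 1 ≤ ‖y‖ ∨ ε ≤ |s|) (t : ℝ) : RtA_G d ε φ (d (y, s, t)) = d (y, s, t) := by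
  have hex : ¬ ∃ q : ℂ × ℝ × ℝ, ‖q.1‖ < 1 ∧ |q.2.1| < ε ∧ d q = d (y, s, t) := by
    rintro ⟨q, c1, c2, c3⟩
    obtain ⟨e1, e2, m, e3⟩ := hd.inj q.1 q.2.1 q.2.2 y s t (c1.trans hR) (c2.trans_le hε) hy hs c3
    rw [e1] at c1
    rw [e2] at c2
    rcases h with h | h <;> linarith
  unfold RtA_G
  rw [dif_neg hex]

omit [TopologicalSpace P] [ChartedSpace HP P] in
theorem RtA_out {p : P} (h : ∀ (y : ℂ) (s t : ℝ), ‖y‖ < 1 → |s| < ε → d (y, s, t) ≠ p) : RtA_G d ε φ p = p := by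
  have hex : ¬ ∃ q : ℂ × ℝ × ℝ, ‖q.1‖ < 1 ∧ |q.2.1| < ε ∧ d q = p := by
    rintro ⟨q, c1, c2, c3⟩
    exact h q.1 q.2.1 q.2.2 c1 c2 c3
  unfold RtA_G
  rw [dif_neg hex]

theorem RtA_inv (hd : BBox IP d R S) (hR : 1 < R) (hε : ε ≤ S) {ψ : ℝ → ℝ} (hψ : ∀ s, ψ s = -φ s) (p : P) :
    RtA_G d ε ψ (RtA_G d ε φ p) = p := by
  by_cases h : ∀ (y : ℂ) (s t : ℝ), ‖y‖ < 1 → |s| < ε → d (y, s, t) ≠ p
  · rw [RtA_out h, RtA_out h]
  · push Not at h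
    obtain ⟨y, s, t, hy, hs, rfl⟩ := h
    rw [RtA_box hd hR hε hy hs, RtA_box hd hR hε (by rw [RBM.Ro_norm]; exact hy) hs, hψ, RBM.Ro_inv]

theorem RtA_equi (ha : PTH.Act IP a) (hd : BBox IP d R S) (hR : 1 < R) (hε : ε ≤ S) (heq : EquiB a d) (u : ℝ)
    (p : P) : RtA_G d ε φ (a u p) = a u (RtA_G d ε φ p) := by
  have hmove : ∀ (u : ℝ) (y : ℂ) (s t : ℝ), a u (d (y, s, t)) = d (y, s, u + t) := by
    intro u y s t
    rw [heq y s t, heq y s (u + t), ha.add]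
  by_cases h : ∀ (y : ℂ) (s t : ℝ), ‖y‖ < 1 → |s| < ε → d (y, s, t) ≠ p
  · have h' : ∀ (y : ℂ) (s t : ℝ), ‖y‖ < 1 → |s| < ε → d (y, s, t) ≠ a u p := by
      intro y s t hy hs he
      refine h y s (-u + t) hy hs ?_
      rw [← hmove, he, ← ha.add, neg_add_cancel, ha.zero]
    rw [RtA_out h, RtA_out h']
  · push Not at h
    obtain ⟨y, s, t, hy, hs, rfl⟩ := h
    rw [hmove, RtA_box hd hR hε hy hs, RtA_box hd hR hε hy hs, hmove]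

/-- the model map -/
noncomputable def RtA_Psi (φ : ℝ → ℝ) (q : ℂ × ℝ × ℝ) : ℂ × ℝ × ℝ := (Ro (φ q.2.1) q.1, q.2.1, q.2.2)

theorem RtA_Psi_smooth (hφ : ContDiff ℝ ∞ φ) : ContDiff ℝ ∞ (RtA_Psi φ) := by
  have h1 : ContDiff ℝ ∞ fun q : ℂ × ℝ × ℝ => φ q.2.1 := hφ.comp (contDiff_fst.comp contDiff_snd)
  exact (RBM.Ro_smooth.comp (h1.prodMk contDiff_fst)).prodMk contDiff_snd

theorem RtA_Psi_inv {ψ : ℝ → ℝ} (hψ : ∀ s, ψ s = -φ s) (q : ℂ × ℝ × ℝ) : RtA_Psi ψ (RtA_Psi φ q) = q := by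
  unfold RtA_Psi
  simp only
  rw [hψ, RBM.Ro_inv]

theorem RtA_Psi_ld (hφ : ContDiff ℝ ∞ φ) (q : ℂ × ℝ × ℝ) :
    IsLocalDiffeomorphAt 𝓘(ℝ, ℂ × ℝ × ℝ) 𝓘(ℝ, ℂ × ℝ × ℝ) ∞ (RtA_Psi φ) q := by
  have h := CSG.ld_of_perm (f := (⟨RtA_Psi φ, RtA_Psi (fun s => -φ s), RtA_Psi_inv (fun _ => rfl),
    RtA_Psi_inv (fun _ => (neg_neg _).symm)⟩ : (ℂ × ℝ × ℝ) ≃ (ℂ × ℝ × ℝ))) (RtA_Psi_smooth hφ)
    (RtA_Psi_smooth hφ.neg) q
  exact h

theorem RtA_ld (hd : BBox IP d R S) (hφ : ContDiff ℝ ∞ φ) {T : P → P} {y : ℂ} {s t : ℝ} (hy : ‖y‖ < R)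
    (hs : |s| < S) (h : ∀ᶠ q in 𝓝 (y, s, t), T (d q) = d (RtA_Psi φ q)) :
    IsLocalDiffeomorphAt IP IP ∞ T (d (y, s, t)) := by
  have h0 : IsLocalDiffeomorphAt 𝓘(ℝ, ℂ × ℝ × ℝ) IP ∞ d (RtA_Psi φ (y, s, t)) :=
    hd.loc _ _ _ (by rw [RBM.Ro_norm]; exact hy) hs
  have h1 : IsLocalDiffeomorphAt 𝓘(ℝ, ℂ × ℝ × ℝ) IP ∞ (d ∘ RtA_Psi φ) (y, s, t) :=
    IsLocalDiffeomorphAt.comp (hf := RtA_Psi_ld hφ _) (hg := h0) ..
  have h2 : IsLocalDiffeomorphAt 𝓘(ℝ, ℂ × ℝ × ℝ) IP ∞ (T ∘ d) (y, s, t) := CSG.ld_congr h1 h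
  exact CSG.ld_of_comp_left h2 (hd.loc y s t hy hs)

theorem RtA_closed [T2Space P] (hd : BBox IP d R S) {r h : ℝ} (hr : r < R) (hh : h < S) :
    IsClosed {p : P | ∃ (y : ℂ) (s t : ℝ), ‖y‖ ≤ r ∧ |s| ≤ h ∧ d (y, s, t) = p} := by
  have hK : IsCompact (Metric.closedBall (0 : ℂ) r ×ˢ (Icc (-h) h ×ˢ Icc (0 : ℝ) 1)) :=
    (isCompact_closedBall _ _).prod (isCompact_Icc.prod isCompact_Icc)
  have hc : ContinuousOn d (Metric.closedBall (0 : ℂ) r ×ˢ (Icc (-h) h ×ˢ Icc (0 : ℝ) 1)) := by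
    rintro ⟨y, s, t⟩ ⟨h1, h2, h3⟩
    have h1' : ‖y‖ ≤ r := by simpa using h1
    have h2' : |s| ≤ h := abs_le.mpr h2
    exact (CSG.ld_continuousAt (hd.loc y s t (h1'.trans_lt hr) (h2'.trans_lt hh))).continuousWithinAt
  have e : {p : P | ∃ (y : ℂ) (s t : ℝ), ‖y‖ ≤ r ∧ |s| ≤ h ∧ d (y, s, t) = p} =
      d '' (Metric.closedBall (0 : ℂ) r ×ˢ (Icc (-h) h ×ˢ Icc (0 : ℝ) 1)) := by
    ext p
    constructor
    · rintro ⟨y, s, t, h1, h2, rfl⟩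
      refine ⟨(y, s, Int.fract t), ⟨by simpa using h1, abs_le.mp h2, Int.fract_nonneg t, (Int.fract_lt_one t).le⟩, ?_⟩
      rw [← RtA_per0 hd.per y s (Int.fract t) ⌊t⌋, Int.fract_add_floor]
    · rintro ⟨⟨y, s, t⟩, ⟨h1, h2, h3⟩, rfl⟩
      exact ⟨y, s, t, by simpa using h1, abs_le.mpr h2, rfl⟩
  rw [e]
  exact (hK.image_of_continuousOn hc).isClosed

theorem rt_box (hd : BBox IP d R S) (hR : 1 < R) (hS : 1 < S) {y : ℂ} {s : ℝ} (hy : ‖y‖ < 1)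
    (hs : |s| < 1 / 8) (t : ℝ) : Rt d o (d (y, s, t)) = d (Ro (o * gs s) y, s, t) := by
  rw [RtA_eq]
  exact RtA_box hd hR (by linarith) hy hs t

theorem rt_fix (hd : BBox IP d R S) (hR : 1 < R) (hS : 1 < S) {y : ℂ} {s : ℝ} (hy : ‖y‖ < R)
    (hs : |s| < S) (h : 1 ≤ ‖y‖ ∨ 1 / 8 ≤ |s|) (t : ℝ) : Rt d o (d (y, s, t)) = d (y, s, t) := by
  rw [RtA_eq]
  exact RtA_fix hd hR (by linarith) hy hs h t

theorem rt_out {p : P} (h : ∀ (y : ℂ) (s t : ℝ), ‖y‖ < 1 → |s| < 1 / 8 → d (y, s, t) ≠ p) : Rt d o p = p := by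
  rw [RtA_eq]
  exact RtA_out h

theorem rt_inv (hd : BBox IP d R S) (hR : 1 < R) (hS : 1 < S) (p : P) : Rt d (-o) (Rt d o p) = p := by
  rw [RtA_eq, RtA_eq]
  exact RtA_inv hd hR (by linarith) (fun s => neg_mul _ _) p

theorem rt_inj (hd : BBox IP d R S) (hR : 1 < R) (hS : 1 < S) : Function.Injective (Rt d o) :=
  Function.LeftInverse.injective (g := Rt d (-o)) (rt_inv hd hR hS)

theorem rt_equi (ha : PTH.Act IP a) (hd : BBox IP d R S) (hR : 1 < R) (hS : 1 < S) (heq : EquiB a d) (u : ℝ)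
    (p : P) : Rt d o (a u p) = a u (Rt d o p) := by
  rw [RtA_eq]
  exact RtA_equi ha hd hR (by linarith) heq u p

theorem RtA_gs_smooth : ContDiff ℝ ∞ gs := CSG.stp_smooth _ _

theorem RtA_gs0 {s : ℝ} (h : s ≤ -(1 / 8)) : gs s = 0 := CSG.stp_zero (by norm_num) h

theorem RtA_gs1 {s : ℝ} (h : 1 / 16 ≤ s) : gs s = 1 := CSG.stp_one (by norm_num) h

theorem RtA_ex_o {o : ℝ} (ho : o = 1 ∨ o = -1) : ex o = 1 := by
  rcases ho with rfl | rfl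
  · have := Pool.Agent.RSG.ex_int 1
    simpa using this
  · have := Pool.Agent.RSG.ex_int (-1)
    simpa using this

theorem RtA_mid (hd : BBox IP d R S) (hR : 1 < R) (hS : 1 < S) (ho : o = 1 ∨ o = -1) {y : ℂ} {s : ℝ}
    (hy : ‖y‖ < 3 / 4) (hs : |s| < 1) (t : ℝ) : Rt d o (d (y, s, t)) = d (Ro (o * gs s) y, s, t) := by
  by_cases h : |s| < 1 / 8
  · exact rt_box hd hR hS (by linarith) h t
  · push Not at h
    rw [rt_fix hd hR hS (by linarith) (by linarith) (Or.inr h) t, RBM.Ro_low _ hy.le]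
    have e : ex (o * gs s) = 1 := by
      rcases le_abs'.mp h with h1 | h1
      · rw [RtA_gs0 h1, mul_zero, Pool.Agent.RSG.ex_zero]
      · rw [RtA_gs1 (by linarith), mul_one, RtA_ex_o ho]
    rw [e, one_mul]

theorem RtA_nhds {r h : ℝ} {y : ℂ} {s t : ℝ} (hy : ‖y‖ < r) (hs : |s| < h) :
    ∀ᶠ q : ℂ × ℝ × ℝ in 𝓝 (y, s, t), ‖q.1‖ < r ∧ |q.2.1| < h := by
  have h1 : ContinuousAt (fun q : ℂ × ℝ × ℝ => ‖q.1‖) (y, s, t) := by fun_prop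
  have h2 : ContinuousAt (fun q : ℂ × ℝ × ℝ => |q.2.1|) (y, s, t) := by fun_prop
  exact (h1.eventually (gt_mem_nhds hy)).and (h2.eventually (gt_mem_nhds hs))

theorem rt_boxb [T2Space P] (hb : Box IP b 5) (hd : BBox IP d R S) (hR : 1 < R) (hS : 1 < S) (hin : InB b d)
    (ho : o = 1 ∨ o = -1) : Box IP (fun q => Rt d o (b q)) 5 := by
  refine ⟨?_, ?_, ?_⟩
  · intro z s t
    change Rt d o (b (z, s, t + 1)) = Rt d o (b (z, s, t))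
    rw [hb.per]
  · intro z s' t' hz hs'
    have hbl := hb.loc z s' t' hz hs'
    by_cases hS' : b (z, s', t') ∈ {p : P | ∃ (y : ℂ) (s t : ℝ), ‖y‖ ≤ 1 / 2 ∧ |s| ≤ 1 / 8 ∧ d (y, s, t) = p}
    · obtain ⟨y, s, t, h1, h2, h3⟩ := hS'
      have hφ : ContDiff ℝ ∞ fun s => o * gs s := contDiff_const.mul RtA_gs_smooth
      have h4 : IsLocalDiffeomorphAt IP IP ∞ (Rt d o) (d (y, s, t)) := by
        refine RtA_ld hd hφ (by linarith) (by linarith) ?_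
        filter_upwards [RtA_nhds (t := t) (show ‖y‖ < 3 / 4 by linarith) (show |s| < 1 by linarith)] with q hq
        exact RtA_mid hd hR hS ho hq.1 hq.2 q.2.2
      rw [h3] at h4
      exact IsLocalDiffeomorphAt.comp (hf := hbl) (hg := h4) ..
    · have hcl := RtA_closed hd (r := 1 / 2) (h := 1 / 8) (by linarith) (by linarith)
      have hev := (CSG.ld_continuousAt hbl).eventually (hcl.isOpen_compl.mem_nhds hS')
      refine CSG.ld_congr hbl ?_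
      filter_upwards [hev, RtA_nhds (t := t') hz hs'] with q hq1 hq2
      change Rt d o (b q) = b q
      apply rt_out
      intro y s t hy hs he
      have h5 := hin y s t q.1 q.2.1 q.2.2 hy.le (by linarith) hq2.1 hq2.2 he
      exact hq1 ⟨y, s, t, h5.2, hs.le, he⟩
  · intro z s t z' s' t' hz hs hz' hs' he
    exact hb.inj z s t z' s' t' hz hs hz' hs' (rt_inj hd hR hS he)

theorem ring_perm [T2Space P] (ha : PTH.Act IP a) (hd : BBox IP d R S) (hR : 1 < R) (hS : 1 < S)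
    (heq : EquiB a d) (o : ℝ) :
    ∃ F : Equiv.Perm P, (∀ p, IsLocalDiffeomorphAt IP IP ∞ F p) ∧ (∀ t p, F (a t p) = a t (F p)) ∧
      (∀ (y : ℂ) (s t : ℝ), ‖y‖ ≤ 3 / 4 → |s| < 1 → F (d (y, s, t)) = d (ex (o * (gs s - gs (4 * (s - 1 / 2)))) * y, s, t)) ∧
      ∀ p, (∀ (y : ℂ) (s t : ℝ), ‖y‖ < 1 → |s| < 1 → d (y, s, t) ≠ p) → F p = p := by
  have hφ : ContDiff ℝ ∞ fun s => o * (gs s - gs (4 * (s - 1 / 2))) :=
    contDiff_const.mul (RtA_gs_smooth.sub (RtA_gs_smooth.comp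
      (contDiff_const.mul (contDiff_id.sub contDiff_const))))
  have hφ0 : ∀ s : ℝ, 33 / 64 < |s| → o * (gs s - gs (4 * (s - 1 / 2))) = 0 := by
    intro s hs
    rcases le_abs'.mp hs.le with h1 | h1
    · rw [RtA_gs0 (by linarith), RtA_gs0 (by linarith)]; ring
    · rw [RtA_gs1 (by linarith), RtA_gs1 (by linarith)]; ring
  refine ⟨⟨RtA_G d 1 (fun s => o * (gs s - gs (4 * (s - 1 / 2)))),
    RtA_G d 1 (fun s => -(o * (gs s - gs (4 * (s - 1 / 2))))), RtA_inv hd hR hS.le (fun _ => rfl),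
    RtA_inv hd hR hS.le (fun _ => (neg_neg _).symm)⟩, ?_, ?_, ?_, ?_⟩
  · intro p
    change IsLocalDiffeomorphAt IP IP ∞ (RtA_G d 1 (fun s => o * (gs s - gs (4 * (s - 1 / 2))))) p
    by_cases hp : p ∈ {p : P | ∃ (y : ℂ) (s t : ℝ), ‖y‖ ≤ 7 / 8 ∧ |s| ≤ 33 / 64 ∧ d (y, s, t) = p}
    · obtain ⟨y, s, t, h1, h2, rfl⟩ := hp
      refine RtA_ld hd hφ (by linarith) (by linarith) ?_
      filter_upwards [RtA_nhds (t := t) (show ‖y‖ < 1 by linarith) (show |s| < 1 by linarith)] with q hq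
      exact RtA_box hd hR hS.le hq.1 hq.2 q.2.2
    · have hcl := RtA_closed hd (r := 7 / 8) (h := 33 / 64) (by linarith) (by linarith)
      refine CSG.ld_congr (CSG.ld_id p) ?_
      filter_upwards [hcl.isOpen_compl.mem_nhds hp] with p' hp'
      change RtA_G d 1 (fun s => o * (gs s - gs (4 * (s - 1 / 2)))) p' = p'
      by_cases h : ∀ (y : ℂ) (s t : ℝ), ‖y‖ < 1 → |s| < 1 → d (y, s, t) ≠ p'
      · exact RtA_out h
      · push Not at h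
        obtain ⟨y, s, t, hy, hs, rfl⟩ := h
        rw [RtA_box hd hR hS.le hy hs]
        by_cases h3 : ‖y‖ ≤ 7 / 8
        · have h4 : 33 / 64 < |s| := by
            by_contra h5
            push Not at h5
            exact hp' ⟨y, s, t, h3, h5, rfl⟩
          rw [hφ0 s h4, RBM.Ro_zero]
        · push Not at h3
          rw [RBM.Ro_out _ h3.le]
  · intro t p
    exact RtA_equi (φ := fun s => o * (gs s - gs (4 * (s - 1 / 2)))) ha hd hR hS.le heq t p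
  · intro y s t hy hs
    change RtA_G d 1 (fun s => o * (gs s - gs (4 * (s - 1 / 2)))) (d (y, s, t)) = _
    rw [RtA_box hd hR hS.le (by linarith) hs, RBM.Ro_low _ hy]
  · intro p h
    exact RtA_out (φ := fun s => o * (gs s - gs (4 * (s - 1 / 2)))) h

end

end Pool.Agent.SPR
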