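import Pool.Agent.SPR.Par
import Pool.Agent.SPR.RtA

/-!
# SPR/GtA: the full twist of a disc which meets a ribbon in `k` pieces   (difficulty 3)

`gt_le`.
(1) By `tw_par` we may assume `θ = fun s => m * stp (9/16) (11/16) s` (a step function with total `m`; `CSG.stp`).  `K₁ l = Tw b θ (K l)`, `b₁ = rotb b θ` (TwA: `rotb_box`, `rotb_equi`, `rotb_two`).  `CPieces K₁ b₁ d f₁ f₂ c μ β ς η ρ`: `piece`:
  `|β i + ς i ρ i s| < 1/2`, there `θ = 0`, so `b₁ = b`; `inter`: `‖ex x * z‖ = ‖z‖`; `off`: let `K₁ l = d (y, s, t)`.  If `K l` is not in the image of `b` (`‖z‖ < 5`), then `K₁ l = K l` (`tw_out`): `hp.off`.  Otherwise `K l = b (z, s', t')`,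
  `K₁ l = b (ex (..) z, s', t')`, `hin`: `|s'| < 1/2`, so `θ s' = 0`, `K₁ l = K l`: `hp.off` again.
(2) `COR.rm_core` for `K₁, b₁, d, o`: `M` with `IsM 1 d (MsR c η o) M`, `Carries (M ∘ K₁)`.
(3) Claim: `M (K₁ l) = Rt d o (Tw b θ'' (K l))` for all `l`, `θ'' = θ + ∑ i, τ i`, `τ i s' = -o * gs ((s' - β i) / ρ i)` if `ς i = 1`, `τ i s' = o * gs ((β i - s') / ρ i) - o` if `ς i = -1` (`gs s = 0` for `s ≤ -1/8`, `1` for `s ≥ 1/16`; in both cases `τ i = 0`
  for `s' ≤ β i - ρ i / 8`, `-o` for `s' ≥ β i + ρ i / 8`, smooth; so `θ''` is a step function with total `m - o k` (`o = ±1` as an integer); `|β i| + ρ i < 1/2`).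
  `K` is periodic (see Par), the cases for `l` as in Par.  Let `K l = b (e, s', 0)`, `e = ±1`.  The intervals `|s' - β i| < ρ i` are pairwise disjoint (`hp.piece` at `y = c i`: `b (0, s', 0) = d (c i, s, 0)`, `BBox.inj`, `c i ≠ c i'`).
  (3a) `|s' - β i| < ρ i / 8` for one `i`: `s = ς i (s' - β i) / ρ i`, `θ s' = 0`, `K₁ l = K l = d (y, s, 0)` with `(y - c i) / μ i = cj (ς i) e = e` (`piece`), `y = c i + μ i e`.  `M (d (y, s, 0)) = d (MsR c η o (y, s), s, 0)`,
  `MsR = Ro (o gs s) (Un c η (o gs s) y)`, `Un_low`: `Un c η θ (c i + x) = c i + ex (-θ) x` for `‖x‖ ≤ 17/5 η i`.  On the other side: `τ i s' = -ς i o gs s` modulo integers, the other `τ i'` are integers, so `Tw b θ'' (K l) = b (ex (-ς i o gs s) e, s', 0) =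
  d (c i + μ i ex (-o gs s) e, s, 0)` (`cj (-1) (ex x) = ex (-x)`), and `Rt d o` gives `Ro (o gs s)` of it (`rt_box`).
  (3b) otherwise all `τ i s'` are integers, so `Tw b θ'' (K l) = b (ex (θ s') e, s', 0) = K₁ l`; this point is not in `d ({‖y‖ < 1, |s| < 1/8})`: else (`inter`) it is in a piece `i`, `s' = β i + ς i ρ i s` with `|s| < 1/8`; so `M` and `Rt d o` fix it.
  (3c) `K l` not in the box `b`: `Tw` fixes it, `hp.off` (the windows `|u| < 1/2` are contained in the windows `|u| < 1`): not in `d`; so `M`, `Rt d o` fix it.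
(4) From `θ''` to `θ'`: `K̃ l = Rt d o (K l)`, `b̃ q = Rt d o (b q)` (`rt_boxb`; equivariant: `rt_equi`; `TwoStrands b̃ K̃`: `Rt d o` is injective).  `Tw b̃ θ (K̃ l) = Rt d o (Tw b θ (K l))` for every `θ` (on the strands, by `tw_strand`; off the box both are `K̃ l`; periodicity).
  `tw_par` for `b̃`, `K̃`: `Even (m - o k - m')`.
-/

open scoped Manifold ContDiff Topology
open Set Filter
open Complex (I)
open Pool.Agent.RSG (E4 cj ex)

namespace Pool.Agent.SPR

open Pool.Agent.RBM (Box gs Ro MsR IsM)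
open Pool.Agent.COR (BBox EquiB TwoStrands CPieces)

theorem GtA_ivt {f : ℝ → ℝ} (hc : Continuous f) {r x : ℝ} (hr : 0 < r) (h1 : f (-r) < x)
    (h2 : x < f r) : ∃ u, |u| < r ∧ x = f u := by
  obtain ⟨u, ⟨hu1, hu2⟩, hu⟩ := intermediate_value_Ioo (by linarith : -r ≤ r) hc.continuousOn ⟨h1, h2⟩
  exact ⟨u, abs_lt.2 ⟨hu1, hu2⟩, hu.symm⟩

theorem GtA_win {f₁ f₂ : ℝ → ℝ} (c1 : Continuous f₁) (c2 : Continuous f₂) {r : ℝ} (hr : 0 < r) (l : ℝ) :
    ∃ m : ℤ, (∃ u, |u| < r ∧ l + m = f₁ u) ∨ (∃ u, |u| < r ∧ l + m = f₂ u) ∨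
      ((f₁ r ≤ l + m ∧ l + m ≤ f₂ (-r)) ∨ (f₂ r ≤ l + m ∧ l + m ≤ f₁ (-r) + 1)) := by
  refine ⟨⌊f₁ (-r) - l⌋ + 1, ?_⟩
  have h1 := Int.lt_floor_add_one (f₁ (-r) - l)
  have h2 := Int.floor_le (f₁ (-r) - l)
  push_cast
  by_cases h3 : l + ((⌊f₁ (-r) - l⌋ : ℝ) + 1) < f₁ r
  · left
    exact GtA_ivt c1 hr (by linarith) h3
  · right
    by_cases h4 : l + ((⌊f₁ (-r) - l⌋ : ℝ) + 1) ≤ f₂ (-r)
    · right
      left
      exact ⟨not_lt.1 h3, h4⟩
    · by_cases h5 : l + ((⌊f₁ (-r) - l⌋ : ℝ) + 1) < f₂ r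
      · left
        exact GtA_ivt c2 hr (not_le.1 h4) h5
      · right
        right
        exact ⟨not_lt.1 h5, by linarith⟩

theorem GtA_per {K : ℝ → PTH.SP} (hper : ∀ l, K (l + 1) = K l) (l : ℝ) (m : ℤ) : K (l + m) = K l := by
  have h1 : Function.Periodic K 1 := hper
  have h2 := h1.int_mul m l
  simpa using h2

theorem GtA_abs {ε u : ℝ} (h : ε = 1 ∨ ε = -1) : |ε * u| = |u| := by
  rcases h with h | h <;> rw [h] <;> simp

/-- every point of the curve is on a strand or off the box -/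
theorem GtA_cases {K : ℝ → PTH.SP} (hper : ∀ l, K (l + 1) = K l) {b : ℂ × ℝ × ℝ → PTH.SP}
    {f₁ f₂ : ℝ → ℝ} {ε₁ ε₂ : ℝ} (hs : TwoStrands b K f₁ f₂ ε₁ ε₂) (l : ℝ) :
    (∃ (e : ℂ) (s : ℝ), (e = 1 ∨ e = -1) ∧ |s| < 1 ∧ K l = b (e, s, 0)) ∨
      ∀ (z : ℂ) (s t : ℝ), ‖z‖ < 5 → |s| < 1 → K l ≠ b (z, s, t) := by
  obtain ⟨m, h | h | h⟩ := GtA_win hs.smooth₁.continuous hs.smooth₂.continuous one_pos l
  · obtain ⟨u, hu, he⟩ := h
    refine Or.inl ⟨1, ε₁ * u, Or.inl rfl, by rwa [GtA_abs hs.sign₁], ?_⟩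
    rw [← hs.strand₁ u hu, ← he, GtA_per hper]
  · obtain ⟨u, hu, he⟩ := h
    refine Or.inl ⟨-1, ε₂ * u, Or.inr rfl, by rwa [GtA_abs hs.sign₂], ?_⟩
    rw [← hs.strand₂ u hu, ← he, GtA_per hper]
  · right
    have h1 := hs.off _ h
    rw [GtA_per hper] at h1
    exact h1

theorem GtA_half {K : ℝ → PTH.SP} (hper : ∀ l, K (l + 1) = K l) {b d : ℂ × ℝ × ℝ → PTH.SP}
    {f₁ f₂ : ℝ → ℝ} {ε₁ ε₂ : ℝ} (hs : TwoStrands b K f₁ f₂ ε₁ ε₂) {k : ℕ} {c μ : Fin k → ℂ}
    {β ς η ρ : Fin k → ℝ} (hp : CPieces K b d f₁ f₂ c μ β ς η ρ) {l : ℝ}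
    (h : ∀ (z : ℂ) (s t : ℝ), ‖z‖ < 5 → |s| < 1 → K l ≠ b (z, s, t)) (y : ℂ) (s t : ℝ) (hy : ‖y‖ ≤ 1)
    (hs' : |s| ≤ 1) : K l ≠ d (y, s, t) := by
  obtain ⟨m, h1 | h1 | h1⟩ := GtA_win hs.smooth₁.continuous hs.smooth₂.continuous
    (by norm_num : (0 : ℝ) < 1 / 2) l
  · obtain ⟨u, hu, he⟩ := h1
    have hu1 : |u| < 1 := by linarith
    have h2 := hs.strand₁ u hu1
    rw [← he, GtA_per hper] at h2
    exact absurd h2 (h _ _ _ (by norm_num) (by rwa [GtA_abs hs.sign₁]))
  · obtain ⟨u, hu, he⟩ := h1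
    have hu1 : |u| < 1 := by linarith
    have h2 := hs.strand₂ u hu1
    rw [← he, GtA_per hper] at h2
    exact absurd h2 (h _ _ _ (by norm_num) (by rwa [GtA_abs hs.sign₂]))
  · have h2 := hp.off _ h1 y s t hy hs'
    rwa [GtA_per hper] at h2

/-- `Rt` and `Tw` commute on the curve. -/
theorem rt_tw {a : ℝ → PTH.SP → PTH.SP} {K : ℝ → PTH.SP} (hper : ∀ l, K (l + 1) = K l)
    {b d : ℂ × ℝ × ℝ → PTH.SP} (hb : Box PTH.ISP b 5) {f₁ f₂ : ℝ → ℝ} {ε₁ ε₂ : ℝ}
    (hs : TwoStrands b K f₁ f₂ ε₁ ε₂) {R₁ S₁ : ℝ} (hR : 1 < R₁) (hS : 1 < S₁) (hd : BBox PTH.ISP d R₁ S₁)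
    (hin : InB b d) {o : ℝ} (ho : o = 1 ∨ o = -1) (θ : ℝ → ℝ) (l : ℝ) :
    Tw (fun q => Rt d o (b q)) θ (Rt d o (K l)) = Rt d o (Tw b θ (K l)) := by
  have hb' := rt_boxb hb hd hR hS hin ho
  rcases GtA_cases hper hs l with ⟨e, s, he, hs1, hk⟩ | hk
  · rw [hk, tw_strand hb θ he hs1]
    exact tw_strand hb' θ he hs1 0
  · rw [tw_out (b := b) θ (fun z s t hz hs1 h => hk z s t hz hs1 h.symm)]
    exact tw_out θ (fun z s t hz hs1 h => hk z s t hz hs1 (rt_inj hd hR hS h).symm)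

theorem rt_two {K : ℝ → PTH.SP} {b d : ℂ × ℝ × ℝ → PTH.SP} {f₁ f₂ : ℝ → ℝ} {ε₁ ε₂ : ℝ}
    (hs : TwoStrands b K f₁ f₂ ε₁ ε₂) {R₁ S₁ : ℝ} (hR : 1 < R₁) (hS : 1 < S₁) (hd : BBox PTH.ISP d R₁ S₁)
    (o : ℝ) : TwoStrands (fun q => Rt d o (b q)) (fun l => Rt d o (K l)) f₁ f₂ ε₁ ε₂ := by
  refine ⟨hs.smooth₁, hs.smooth₂, hs.deriv₁, hs.deriv₂, hs.sign₁, hs.sign₂, hs.ord₁, hs.ord₂, ?_, ?_, ?_⟩
  · intro u hu
    show Rt d o (K (f₁ u)) = Rt d o (b (1, ε₁ * u, 0))
    rw [hs.strand₁ u hu]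
  · intro u hu
    show Rt d o (K (f₂ u)) = Rt d o (b (-1, ε₂ * u, 0))
    rw [hs.strand₂ u hu]
  · intro l hl z s t hz hs1 h
    exact hs.off l hl z s t hz hs1 (rt_inj hd hR hS h)

/-! ### the function `τ` -/

noncomputable def GtA_t (β ς ρ o s : ℝ) : ℝ := -ς * o * gs (ς * (s - β) / ρ) + (ς - 1) / 2 * o

theorem GtA_t_smooth (β ς ρ o : ℝ) : ContDiff ℝ ∞ (GtA_t β ς ρ o) := by
  have h1 : ContDiff ℝ ∞ fun s : ℝ => ς * (s - β) / ρ :=
    (contDiff_const.mul (contDiff_id.sub contDiff_const)).div_const _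
  have h2 : ContDiff ℝ ∞ fun s : ℝ => gs (ς * (s - β) / ρ) := (CSG.stp_smooth _ _).comp h1
  exact (contDiff_const.mul h2).add contDiff_const

theorem GtA_gs0 {s : ℝ} (h : s ≤ -(1 / 8)) : gs s = 0 := CSG.stp_zero (by norm_num) h

theorem GtA_gs1 {s : ℝ} (h : 1 / 16 ≤ s) : gs s = 1 := CSG.stp_one (by norm_num) h

theorem GtA_t_low {β ς ρ o s : ℝ} (hς : ς = 1 ∨ ς = -1) (hρ : 0 < ρ) (h : s - β ≤ -(ρ / 8)) :
    GtA_t β ς ρ o s = 0 := by
  unfold GtA_t
  rcases hς with rfl | rfl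
  · rw [GtA_gs0]
    · ring
    · rw [div_le_iff₀ hρ]
      linarith
  · rw [GtA_gs1]
    · ring
    · rw [le_div_iff₀ hρ]
      linarith

theorem GtA_t_high {β ς ρ o s : ℝ} (hς : ς = 1 ∨ ς = -1) (hρ : 0 < ρ) (h : ρ / 8 ≤ s - β) :
    GtA_t β ς ρ o s = -o := by
  unfold GtA_t
  rcases hς with rfl | rfl
  · rw [GtA_gs1]
    · ring
    · rw [le_div_iff₀ hρ]
      linarith
  · rw [GtA_gs0]
    · ring
    · rw [div_le_iff₀ hρ]
      linarith

theorem GtA_t_int {β ς ρ o s : ℝ} (hς : ς = 1 ∨ ς = -1) (ho : o = 1 ∨ o = -1) (hρ : 0 < ρ)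
    (h : ρ / 8 ≤ |s - β|) : ∃ j : ℤ, GtA_t β ς ρ o s = j := by
  rcases le_abs'.1 h with h1 | h1
  · exact ⟨0, by rw [GtA_t_low hς hρ h1, Int.cast_zero]⟩
  · rcases ho with rfl | rfl
    · exact ⟨-1, by rw [GtA_t_high hς hρ h1]; push_cast; ring⟩
    · exact ⟨1, by rw [GtA_t_high hς hρ h1]; push_cast; ring⟩

theorem GtA_sum_int {ι : Type*} (S : Finset ι) (g : ι → ℝ) (h : ∀ i ∈ S, ∃ j : ℤ, g i = j) :
    ∃ j : ℤ, ∑ i ∈ S, g i = j := by
  classical
  induction S using Finset.induction_on with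
  | empty => exact ⟨0, by simp⟩
  | insert a S ha ih =>
    obtain ⟨j, hj⟩ := ih fun i hi => h i (Finset.mem_insert_of_mem hi)
    obtain ⟨j', hj'⟩ := h a (Finset.mem_insert_self a S)
    exact ⟨j' + j, by rw [Finset.sum_insert ha, hj, hj']; push_cast; ring⟩

theorem GtA_cj {ς : ℝ} (hς : ς = 1 ∨ ς = -1) (x : ℝ) {e : ℂ} (he : e = 1 ∨ e = -1) :
    cj ς (ex x * e) = ex (ς * x) * e := by
  rcases hς with rfl | rfl
  · rw [one_mul]
    unfold cj
    apply Complex.ext <;> simp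
  · rw [neg_one_mul, RSG.ex_neg]
    unfold cj
    rcases he with rfl | rfl
    · apply Complex.ext <;> simp
    · apply Complex.ext <;> simp

/-- the function `θ''` -/
noncomputable def GtA_th {k : ℕ} (β ς ρ : Fin k → ℝ) (o : ℝ) (m : ℤ) (s : ℝ) : ℝ :=
  m * CSG.stp (9 / 16) (11 / 16) s + ∑ i, GtA_t (β i) (ς i) (ρ i) o s

theorem GtA_st (m : ℤ) : IsStep (fun s => (m : ℝ) * CSG.stp (9 / 16) (11 / 16) s) m := by
  refine ⟨contDiff_const.mul (CSG.stp_smooth _ _), ?_, ?_⟩
  · intro s hs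
    show (m : ℝ) * CSG.stp (9 / 16) (11 / 16) s = 0
    rw [CSG.stp_zero (by norm_num) (by linarith), mul_zero]
  · intro s hs
    show (m : ℝ) * CSG.stp (9 / 16) (11 / 16) s = m
    rw [CSG.stp_one (by norm_num) (by linarith), mul_one]

theorem GtA_st0 (m : ℤ) {s : ℝ} (h : |s| < 1 / 2) : (m : ℝ) * CSG.stp (9 / 16) (11 / 16) s = 0 := by
  rw [CSG.stp_zero (by norm_num) (by have := (abs_lt.1 h).2; linarith), mul_zero]

theorem GtA_th_step {k : ℕ} {β ς ρ : Fin k → ℝ} (hr : ∀ i, |β i| + ρ i < 1 / 2)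
    (hς : ∀ i, ς i = 1 ∨ ς i = -1) (hρ : ∀ i, 0 < ρ i) {o : ℝ} {oz : ℤ} (ho : o = oz) (m : ℤ) :
    IsStep (GtA_th β ς ρ o m) (m - k * oz) := by
  obtain ⟨g1, g2, g3⟩ := GtA_st m
  refine ⟨?_, ?_, ?_⟩
  · exact g1.add (ContDiff.sum fun i _ => GtA_t_smooth _ _ _ _)
  · intro s hs
    unfold GtA_th
    have e1 : (m : ℝ) * CSG.stp (9 / 16) (11 / 16) s = 0 := g2 s hs
    rw [e1, Finset.sum_eq_zero, add_zero]
    intro i _
    refine GtA_t_low (hς i) (hρ i) ?_
    have h1 := hr i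
    have h2 := neg_abs_le (β i)
    have h3 := hρ i
    linarith
  · intro s hs
    unfold GtA_th
    have e1 : (m : ℝ) * CSG.stp (9 / 16) (11 / 16) s = m := g3 s hs
    have e2 : ∀ i : Fin k, GtA_t (β i) (ς i) (ρ i) o s = -o := by
      intro i
      refine GtA_t_high (hς i) (hρ i) ?_
      have h1 := hr i
      have h2 := le_abs_self (β i)
      have h3 := hρ i
      linarith
    rw [e1, Finset.sum_congr rfl fun i _ => e2 i, Finset.sum_const, Finset.card_univ, Fintype.card_fin,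
      nsmul_eq_mul, ho]
    push_cast
    ring

/-- **Full twist of a disc**, one direction. -/
theorem gt_le {a : ℝ → PTH.SP → PTH.SP} (ha : PTH.Act PTH.ISP a) {K : ℝ → PTH.SP}
    {b d : ℂ × ℝ × ℝ → PTH.SP} (hb : Box PTH.ISP b 5) (heqb : EquiB a b) {f₁ f₂ : ℝ → ℝ} {ε₁ ε₂ : ℝ}
    (hs : TwoStrands b K f₁ f₂ ε₁ ε₂) {R₁ S₁ : ℝ} (hR : 1 < R₁) (hS : 1 < S₁)
    (hd : BBox PTH.ISP d R₁ S₁) (heqd : EquiB a d) {k : ℕ} {c μ : Fin k → ℂ} {β ς η ρ : Fin k → ℝ}
    (hp : CPieces K b d f₁ f₂ c μ β ς η ρ) (hin : InB b d) {o : ℝ} (ho : o = 1 ∨ o = -1)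
    {θ θ' : ℝ → ℝ} {m m' : ℤ} (hθ : IsStep θ m) (hθ' : IsStep θ' m') (he : Even (m - m' - k))
    {n : ℤ} {X : Type*} [TopologicalSpace X] [ChartedSpace E4 X] [T2Space X]
    (h : PTH.Carries PTH.ISP a n (fun l => Tw b θ (K l)) X) :
    PTH.Carries PTH.ISP a n (fun l => Rt d o (Tw b θ' (K l))) X := by
  -- periodicity
  have hper : ∀ l, K (l + 1) = K l := by
    obtain ⟨κ, j, hκ, -, hκ0, -⟩ := h
    intro l
    apply tw_inj hb θ
    have e1 : κ (l + 1, 0, 0) = Tw b θ (K (l + 1)) := hκ0 (l + 1)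
    have e2 : κ (l, 0, 0) = Tw b θ (K l) := hκ0 l
    rw [← e1, ← e2, hκ.perl]
  obtain ⟨θ₀, hθ₀⟩ : ∃ g : ℝ → ℝ, g = fun s => (m : ℝ) * CSG.stp (9 / 16) (11 / 16) s := ⟨_, rfl⟩
  have hst : IsStep θ₀ m := by
    rw [hθ₀]
    exact GtA_st m
  have hz0 : ∀ s, |s| < 1 / 2 → θ₀ s = 0 := by
    intro s hs1
    rw [hθ₀]
    exact GtA_st0 m hs1
  have h₀ := tw_par ha hb heqb hs hθ hst (by simp) h
  have hb₁ := rotb_box hb hst.1
  have he₁ := rotb_equi heqb θ₀
  have hs₁ := rotb_two hb hs θ₀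
  have hp₁ : CPieces (fun l => Tw b θ₀ (K l)) (rotb b θ₀) d f₁ f₂ c μ β ς η ρ := by
    refine ⟨hp.eta, hp.mu, hp.rho, hp.small, hp.dist, hp.range, hp.sign, ?_, ?_, ?_⟩
    · intro i y s t hy hs1
      rw [hp.piece i y s t hy hs1]
      have e1 : |β i + ς i * ρ i * s| < 1 / 2 := by
        have h1 := hp.range i
        have h2 := hp.rho i
        have h3 : |ς i * ρ i * s| ≤ ρ i := by
          rw [mul_assoc, GtA_abs (hp.sign i), abs_mul, abs_of_pos h2]
          nlinarith [abs_nonneg s]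
        have h4 := abs_add_le (β i) (ς i * ρ i * s)
        linarith
      unfold rotb
      simp only
      rw [hz0 _ e1, RSG.ex_zero, one_mul]
    · intro y s t z s' t' hy hs1 hz hs2 hE
      refine hp.inter y s t (ex (θ₀ s') * z) s' t' hy hs1 ?_ hs2 hE
      rw [norm_mul, RSG.ex_norm, one_mul]
      exact hz
    · intro l hl y s t hy hs1 hE
      by_cases hk : ∃ (z : ℂ) (s' t' : ℝ), ‖z‖ < 5 ∧ |s'| < 1 ∧ b (z, s', t') = K l
      · obtain ⟨z, s', t', hz, hs2, hk⟩ := hk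
        have e1 : Tw b θ₀ (K l) = b (ex (θ₀ s' * cz z) * z, s', t') := by
          rw [← hk]
          exact tw_box hb θ₀ hz hs2 t'
        have hn : ‖ex (θ₀ s' * cz z) * z‖ < 5 := by
          rw [norm_mul, RSG.ex_norm, one_mul]
          exact hz
        have e2 : d (y, s, t) = b (ex (θ₀ s' * cz z) * z, s', t') := by
          rw [← e1]
          exact hE.symm
        have e3 := (hin y s t _ s' t' hy hs1 hn hs2 e2).1
        refine hp.off l hl y s t hy hs1 ?_
        rw [e2, hz0 _ e3, zero_mul, RSG.ex_zero, one_mul, hk]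
      · have e1 : Tw b θ₀ (K l) = K l := by
          refine tw_out θ₀ fun z s' t' hz hs2 hk' => hk ⟨z, s', t', hz, hs2, hk'⟩
        refine hp.off l hl y s t hy hs1 ?_
        rw [← hE]
        exact e1.symm
  obtain ⟨M, hM, hMC⟩ := COR.rm_core ha hb₁ he₁ hs₁ hR hS hd heqd hp₁ ho
  have h₁ := hMC n X h₀
  -- the claim
  have claim : ∀ l, M (Tw b θ₀ (K l)) = Rt d o (Tw b (GtA_th β ς ρ o m) (K l)) := by
    intro l
    rcases GtA_cases hper hs l with ⟨e, s', he, hs1, hk⟩ | hk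
    · have hen : ‖e‖ = 1 := by rcases he with rfl | rfl <;> simp
      have e0 : Tw b θ₀ (K l) = b (ex (θ₀ s') * e, s', 0) := by
        rw [hk]
        exact tw_strand hb θ₀ he hs1 0
      have e0' : Tw b (GtA_th β ς ρ o m) (K l) = b (ex (GtA_th β ς ρ o m s') * e, s', 0) := by
        rw [hk]
        exact tw_strand hb _ he hs1 0
      have eth : GtA_th β ς ρ o m s' = θ₀ s' + ∑ i, GtA_t (β i) (ς i) (ρ i) o s' := by
        rw [hθ₀]
        rfl
      by_cases hi : ∃ i, |s' - β i| < ρ i / 8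
      · -- (3a)
        obtain ⟨i, hi⟩ := hi
        have hρ := hp.rho i
        have hς := hp.sign i
        have hςς : ς i * ς i = 1 := by rcases hς with h1 | h1 <;> rw [h1] <;> norm_num
        obtain ⟨s, hsd⟩ : ∃ s : ℝ, s = ς i * (s' - β i) / ρ i := ⟨_, rfl⟩
        have hs8 : |s| < 1 / 8 := by
          rw [hsd, abs_div, GtA_abs hς, abs_of_pos hρ, div_lt_iff₀ hρ]
          linarith
        have hs'e : β i + ς i * ρ i * s = s' := by
          rw [hsd]
          have : ς i * ρ i * (ς i * (s' - β i) / ρ i) = (ς i * ς i) * (s' - β i) := by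
            field_simp
          rw [this, hςς]
          ring
        have hs2 : |s'| < 1 / 2 := by
          have h1 := hp.range i
          have h2 := abs_sub_abs_le_abs_sub s' (β i)
          linarith
        have hsm := hp.small i
        have hη := hp.eta i
        have hμ := hp.mu i
        have hμ0 : μ i ≠ 0 := by
          intro h0
          rw [h0, norm_zero] at hμ
          linarith
        -- the point of the piece in the direction `x`
        have key : ∀ x : ℝ, ‖c i + ex x * (μ i * e)‖ < 1 ∧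
            d (c i + ex x * (μ i * e), s, 0) = b (ex (ς i * x) * e, s', 0) := by
          intro x
          have n1 : ‖ex x * (μ i * e)‖ = η i := by
            rw [norm_mul, RSG.ex_norm, one_mul, norm_mul, hen, mul_one, hμ]
          constructor
          · have := norm_add_le (c i) (ex x * (μ i * e))
            linarith
          · have n2 : ‖c i + ex x * (μ i * e) - c i‖ < 4 * η i := by
              rw [add_sub_cancel_left, n1]
              linarith
            rw [hp.piece i _ s 0 n2 (by linarith), hs'e]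
            have e1 : (c i + ex x * (μ i * e) - c i) / μ i = ex x * e := by
              rw [add_sub_cancel_left]
              field_simp
            rw [e1, GtA_cj hς x he]
        obtain ⟨k1, k2⟩ := key 0
        obtain ⟨k3, k4⟩ := key (-(o * gs s))
        rw [RSG.ex_zero, one_mul] at k1 k2
        rw [mul_zero, RSG.ex_zero, one_mul] at k2
        have e1 : M (Tw b θ₀ (K l)) = d (Ro (o * gs s) (c i + ex (-(o * gs s)) * (μ i * e)), s, 0) := by
          rw [e0, hz0 _ hs2, RSG.ex_zero, one_mul, ← k2, hM.ball _ s 0 k1 hs8]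
          have e2 : RBM.MsR c η o (c i + μ i * e, s) = Ro (o * gs s) (c i + ex (-(o * gs s)) * (μ i * e)) := by
            show Ro (o * gs s) (RBM.Un c η (o * gs s) (c i + μ i * e)) = _
            rw [RBM.Un_low hp.eta hp.dist (o * gs s) (i := i), add_sub_cancel_left]
            rw [add_sub_cancel_left, norm_mul, hen, mul_one, hμ]
            linarith
          rw [e2]
        have e3 : ex (GtA_th β ς ρ o m s') = ex (ς i * (-(o * gs s))) := by
          have e4 : ∀ j ∈ Finset.univ.erase i, ∃ z : ℤ, GtA_t (β j) (ς j) (ρ j) o s' = z := by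
            intro j hj
            have hji : j ≠ i := Finset.ne_of_mem_erase hj
            refine GtA_t_int (hp.sign j) ho (hp.rho j) ?_
            by_contra hlt
            push Not at hlt
            have hρj := hp.rho j
            have hςj := hp.sign j
            have hςςj : ς j * ς j = 1 := by rcases hςj with h1 | h1 <;> rw [h1] <;> norm_num
            have hsj : |ς j * (s' - β j) / ρ j| < 1 / 8 := by
              rw [abs_div, GtA_abs hςj, abs_of_pos hρj, div_lt_iff₀ hρj]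
              linarith
            have hpj := hp.piece j (c j) (ς j * (s' - β j) / ρ j) 0
              (by rw [sub_self, norm_zero]; have := hp.eta j; linarith) (by linarith)
            have hpi := hp.piece i (c i) s 0
              (by rw [sub_self, norm_zero]; linarith) (by linarith)
            have e5 : β j + ς j * ρ j * (ς j * (s' - β j) / ρ j) = s' := by
              have : ς j * ρ j * (ς j * (s' - β j) / ρ j) = (ς j * ς j) * (s' - β j) := by
                field_simp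
              rw [this, hςςj]
              ring
            have e6 : ∀ w : ℝ, cj w ((0 : ℂ)) = 0 := by
              intro w
              unfold cj
              apply Complex.ext <;> simp
            rw [sub_self, zero_div, e6, e5] at hpj
            rw [sub_self, zero_div, e6, hs'e, ← hpj] at hpi
            have hcn : ∀ j, ‖c j‖ < R₁ := by
              intro j
              have h1 := hp.small j
              have h2 := hp.eta j
              linarith
            have e7 := (hd.inj _ _ _ _ _ _ (hcn i) (by linarith) (hcn j) (by linarith) hpi).1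
            have e8 := hp.dist i j (Ne.symm hji)
            rw [e7, sub_self, norm_zero] at e8
            have h2 := hp.eta j
            linarith
          obtain ⟨z, hz⟩ := GtA_sum_int _ _ e4
          have e5 : (ς i - 1) / 2 * o = 0 ∨ ∃ w : ℤ, (ς i - 1) / 2 * o = w := by
            rcases hς with h1 | h1
            · left
              rw [h1]
              ring
            · right
              rcases ho with rfl | rfl
              · exact ⟨-1, by rw [h1]; push_cast; ring⟩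
              · exact ⟨1, by rw [h1]; push_cast; ring⟩
          have e6 : ∃ w : ℤ, (ς i - 1) / 2 * o = w := by
            rcases e5 with e5 | e5
            · exact ⟨0, by rw [e5, Int.cast_zero]⟩
            · exact e5
          obtain ⟨w, hw⟩ := e6
          rw [RSG.ex_eq_iff]
          refine ⟨-(z + w), ?_⟩
          rw [eth, hz0 _ hs2, zero_add, ← Finset.add_sum_erase _ _ (Finset.mem_univ i), hz]
          have e7 : GtA_t (β i) (ς i) (ρ i) o s' = ς i * (-(o * gs s)) + w := by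
            unfold GtA_t
            rw [← hsd, hw]
            ring
          rw [e7]
          push_cast
          ring
        rw [e1, e0', e3, ← k4, rt_box hd hR hS k3 hs8]
      · -- (3b)
        push Not at hi
        have e1 : ex (GtA_th β ς ρ o m s') = ex (θ₀ s') := by
          obtain ⟨z, hz⟩ := GtA_sum_int Finset.univ (fun i => GtA_t (β i) (ς i) (ρ i) o s')
            (fun i _ => GtA_t_int (hp.sign i) ho (hp.rho i) (hi i))
          rw [eth, hz, RSG.ex_add_int]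
        have e2 : ∀ (y : ℂ) (s t : ℝ), ‖y‖ < 1 → |s| < 1 / 8 → d (y, s, t) ≠ b (ex (θ₀ s') * e, s', 0) := by
          intro y s t hy hs8 hE
          have hn : ‖ex (θ₀ s') * e‖ = 1 := by rw [norm_mul, RSG.ex_norm, one_mul, hen]
          obtain ⟨i, hyi⟩ := hp.inter y s t _ s' 0 hy (by linarith) (by rw [hn]; norm_num) hs1 hE
          have hρ := hp.rho i
          have hη := hp.eta i
          rw [hp.piece i y s t hyi (by linarith)] at hE
          have e3 : ‖cj (ς i) ((y - c i) / μ i)‖ < 5 := by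
            rw [RSG.cj_norm (hp.sign i), norm_div, hp.mu i, div_lt_iff₀ hη]
            linarith
          have e4 : |β i + ς i * ρ i * s| < 1 := by
            have h1 := hp.range i
            have h3 : |ς i * ρ i * s| ≤ ρ i := by
              rw [mul_assoc, GtA_abs (hp.sign i), abs_mul, abs_of_pos hρ]
              nlinarith [abs_nonneg s]
            have h4 := abs_add_le (β i) (ς i * ρ i * s)
            linarith
          have e5 := (hb.inj _ _ _ _ _ _ e3 e4 (by rw [hn]; norm_num) hs1 hE).2.1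
          have e6 := hi i
          rw [← e5, add_sub_cancel_left, mul_assoc, GtA_abs (hp.sign i), abs_mul, abs_of_pos hρ] at e6
          nlinarith
        rw [e0, e0', e1, hM.out _ (fun y s t hy hs8 hE => e2 y s t hy hs8 hE.symm)]
        exact (rt_out e2).symm
    · -- (3c)
      have e1 : Tw b θ₀ (K l) = K l := tw_out θ₀ fun z s t hz hs1 hE => hk z s t hz hs1 hE.symm
      have e2 : Tw b (GtA_th β ς ρ o m) (K l) = K l :=
        tw_out _ fun z s t hz hs1 hE => hk z s t hz hs1 hE.symm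
      have e3 := GtA_half hper hs hp hk
      rw [e1, e2, hM.out _ (fun y s t hy hs8 => e3 y s t hy.le (by linarith))]
      exact (rt_out fun y s t hy hs8 hE => e3 y s t hy.le (by linarith) hE.symm).symm
  -- from `θ''` to `θ'`
  have hb' := rt_boxb hb hd hR hS hin ho
  have heq' : EquiB a (fun q => Rt d o (b q)) := by
    intro z s t
    show Rt d o (b (z, s, t)) = a t (Rt d o (b (z, s, 0)))
    rw [heqb z s t, rt_equi ha hd hR hS heqd]
  have hs' := rt_two hs hR hS hd o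
  obtain ⟨oz, hoz, hoe⟩ : ∃ oz : ℤ, o = oz ∧ Even (1 - oz) := by
    rcases ho with rfl | rfl
    · exact ⟨1, by simp, by simp⟩
    · exact ⟨-1, by simp, ⟨1, by norm_num⟩⟩
  have hst' := GtA_th_step hp.range hp.sign hp.rho hoz m
  have h₂ : PTH.Carries PTH.ISP a n
      (fun l => Tw (fun q => Rt d o (b q)) (GtA_th β ς ρ o m) (Rt d o (K l))) X := by
    have e1 : (fun l => Tw (fun q => Rt d o (b q)) (GtA_th β ς ρ o m) (Rt d o (K l))) =
        fun l => M (Tw b θ₀ (K l)) := by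
      funext l
      rw [rt_tw (a := a) hper hb hs hR hS hd hin ho, claim l]
    rw [e1]
    exact h₁
  have hev : Even (m - k * oz - m') := by
    have e1 : m - k * oz - m' = (m - m' - k) + k * (1 - oz) := by ring
    rw [e1]
    exact he.add (hoe.mul_left _)
  have h₃ := tw_par ha hb' heq' hs' hst' hθ' hev h₂
  have e2 : (fun l => Rt d o (Tw b θ' (K l))) =
      fun l => Tw (fun q => Rt d o (b q)) θ' (Rt d o (K l)) := by
    funext l
    rw [rt_tw (a := a) hper hb hs hR hS hd hin ho]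
  rw [e2]
  exact h₃

end Pool.Agent.SPR
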