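import Pool.Agent.SPR.SpS

/-!
# SPR/InA: retraction of the finger   (difficulty 3)

`w = wd r`, `σ = sg r = rad r (1/4) - rh0 > 0` (`σ ≤ rh0 / 2`, `σ ≤ w`), `z₁ l = z1 r l = rh0 + σ PS ((-4 l - rh0)/σ + 1/2)`: `z₁ = -4 l` for `-4 l ≥ rh0 + σ/2` (`PS_one`), `z₁ = rh0` for `-4 l ≤ rh0 - σ/2` (`PS_zero`), `z₁ ≥ -4 l` (`PS_ge_lin`), `z₁ ≥ rh0`, `z₁` is antitone in `l`.
`Ic r ε c τ l = ((1 - τ) zq + τ z₁, Ssp + τ c (z₁ - re zq))` at `ρ = 4 l`; its tilt level `(..).2 - c re (..).1 = Ssp - c re zq =: f l` does not depend on `τ`.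
* `exists_tilt`.  On `ρ ≤ rh0/4`: `D = -1/2`, `re zq = -ρ Λ^(-S)`, `f' = 4 [S' (1 - c ρ vt Λ^(-S)) + c Λ^(-S)] > 0` for `0 < c ≤ 1` (`S' ≥ 0`; `|ρ vt Λ^(-S)| < 1` on the range `|ρ| ≤ rad (1/2)`).  On the compact set `ρ ∈ [rh0/4, rad w]`: `S' ≥ s₀ > 0` (`S_deriv`, continuity), `|d/dρ re zq| ≤ M`: `c ≤ min 1 (s₀ / (2 M + 2))`.
* `fam_ret`: `ends`: near `ρ = -rad (1/2)`: `zq = -ρ` (`zq_low`), `S = 0`, `z₁ = -ρ` (as `rad (1/2) > rh0 + σ`); near `ρ = rad w`: `zq = rh0` (`zq_mid`, `ρ = rad (lam ρ)`), `S = lam ρ` (`S_mid`), `z₁ = rh0`; choose `e` smaller than the `e` of `ZC`.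
  `regI`: `‖zq‖ = |ρ| Λ^(-S) ≤ rad (1/2)` (`zq_norm`; for `ρ ≥ 0` `≤ ρ ≤ rad w`), `0 < z₁ ≤ rad (1/2)` (`z₁` antitone, `= rad (1/2)` at the left end), convex combination.  Second component `S + τ c (z₁ - re zq)`: `S ∈ [0, w]`; at `τ = 1` it is `f + c z₁`:
  for `l ≤ 0`: `S = 0`, `re zq = -4 l`, so it is `c (z₁ + 4 l) ≥ 0` (`z1_ge`); for `-4 l ≥ rh0 - σ/2`: `z₁ + 4 l = σ (PS y - (y - 1/2)) ≤ σ/2` (`y = (-4 l - rh0)/σ + 1/2 ≥ 0`, `PS y ≤ y`), for `0 ≤ -4 l ≤ rh0 - σ/2`: `z₁ + 4 l ≤ rh0`;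
  so it is `≤ c ≤ w` (and `< w` in the first case, which contains all `l` with `z₁ > rh0`).  For `l > 0`: `z₁ = rh0`, `f + c rh0` is strictly increasing on the range, `≥ f 0 + c rh0 = c rh0 > 0`, and `≤` its value at the right end `= w`.  Convexity in `τ`.
  `disI`: `‖Zr s‖ > rad (1/2) ≥ ‖(Ic ..).1‖` for `s ∈ [0, w]` (`ZC.low`).
-/

open scoped Manifold ContDiff Topology
open Set Filter
open Complex (I)
open Pool.Agent.RSG (E4 cj ex)

namespace Pool.Agent.SPR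

noncomputable def sg (r : ℕ) : ℝ := rad r (1 / 4) - rh0

noncomputable def z1 (r : ℕ) (l : ℝ) : ℝ := rh0 + sg r * PS ((-(4 * l) - rh0) / sg r + 1 / 2)

/-- the inner part: `τ = 0` for the path, `τ = 1` for the slot form -/
noncomputable def Ic (r : ℕ) (ε c τ l : ℝ) : ℂ × ℝ :=
  ((1 - τ : ℝ) * zq r ε (4 * l) + (τ * z1 r l : ℝ),
    Ssp r (4 * l) + τ * c * (z1 r l - (zq r ε (4 * l)).re))

structure TiltC (r : ℕ) (ε c : ℝ) : Prop where
  pos : 0 < c
  le : c ≤ wd r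
  der : ∀ l, -rad r (1 / 2) ≤ 4 * l → 4 * l ≤ rad r (wd r) →
    0 < deriv (fun l => Ssp r (4 * l) - c * (zq r ε (4 * l)).re) l

/-- admissible modification of the strands `0` and `r` (constant in time) -/
structure ZC (r : ℕ) (Z₀ Zr : ℝ → ℂ) : Prop where
  sm₀ : ContDiff ℝ ∞ Z₀
  smr : ContDiff ℝ ∞ Zr
  ends : ∃ e : ℝ, 0 < e ∧ (∀ x, x ≤ wd r + e ∨ 1 / 2 - e ≤ x → Z₀ x = rh0) ∧
    ∀ s, 1 / 2 - e ≤ |s| → Zr s = rad r r
  reg₀ : ∀ x, wd r ≤ x → x ≤ 1 / 2 → ‖Z₀ x - rh0‖ ≤ 3 * (rad r r - rh0)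
  regr : ∀ s, |s| ≤ 1 / 2 → ‖Zr s - rh0‖ ≤ 3 * (rad r r - rh0) ∧
    (s < 0 → ‖Zr s - rh0‖ ≤ 3 / 2 * (rad r r - rh0))
  dis : ∀ x, wd r ≤ x → x ≤ 1 / 2 → Z₀ x ≠ Zr x
  disp : ∀ x : ℝ, rad r (1 / 2) ≤ x → Zr 0 ≠ x
  low : ∀ s, 0 ≤ s → s ≤ wd r → rad r (1 / 2) < ‖Zr s‖

section
variable {r : ℕ} {ε : ℝ}

theorem InA_r (hr : 1 ≤ r) : (1 : ℝ) ≤ r := by exact_mod_cast hr

theorem sg_pos (hr : 1 ≤ r) : 0 < sg r := by
  have := rad_lt hr (show (0 : ℝ) < 1 / 4 by norm_num)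
  rw [rad_zero] at this
  unfold sg
  linarith

theorem InA_sg (hr : 1 ≤ r) : sg r ≤ rh0 / 2 := by
  have h1 := InA_r hr
  have := (abs_le.1 (rad_bd hr (x := 1 / 4) (by rw [abs_of_nonneg (by norm_num)]; linarith))).2
  have b6 : 0 < rh0 := by norm_num [rh0]
  unfold sg
  linarith

theorem z1_smooth (r : ℕ) : ContDiff ℝ ∞ (z1 r) := by
  unfold z1
  refine contDiff_const.add (contDiff_const.mul (PS_smooth.comp ?_))
  fun_prop

theorem z1_left (hr : 1 ≤ r) {l : ℝ} (h : rad r (1 / 4) ≤ -(4 * l)) : z1 r l = -(4 * l) := by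
  have hs := sg_pos hr
  have h1 : 1 ≤ (-(4 * l) - rh0) / sg r + 1 / 2 := by
    have : 1 ≤ (-(4 * l) - rh0) / sg r := by
      rw [le_div_iff₀ hs]
      unfold sg
      linarith
    linarith
  unfold z1
  rw [PS_one h1]
  field_simp
  ring

theorem z1_right (hr : 1 ≤ r) {l : ℝ} (h : -(4 * l) ≤ rh0 - sg r / 2) : z1 r l = rh0 := by
  have hs := sg_pos hr
  have h1 : (-(4 * l) - rh0) / sg r + 1 / 2 ≤ 0 := by
    have : (-(4 * l) - rh0) / sg r ≤ -(1 / 2) := by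
      rw [div_le_iff₀ hs]
      linarith
    linarith
  unfold z1
  rw [PS_zero h1]
  ring

theorem z1_ge (hr : 1 ≤ r) (l : ℝ) : -(4 * l) ≤ z1 r l := by
  have hs := sg_pos hr
  have h1 := PS_ge_lin ((-(4 * l) - rh0) / sg r + 1 / 2)
  have h2 := mul_le_mul_of_nonneg_left h1 hs.le
  have h3 : sg r * ((-(4 * l) - rh0) / sg r + 1 / 2 - 1 / 2) = -(4 * l) - rh0 := by
    field_simp
    ring
  unfold z1
  linarith

theorem z1_ge' (hr : 1 ≤ r) (l : ℝ) : rh0 ≤ z1 r l := by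
  have hs := sg_pos hr
  have h1 := mul_nonneg hs.le (PS_nonneg ((-(4 * l) - rh0) / sg r + 1 / 2))
  unfold z1
  linarith

theorem z1_anti (hr : 1 ≤ r) : Antitone (z1 r) := by
  intro l l' h
  have hs := sg_pos hr
  unfold z1
  have h1 : (-(4 * l') - rh0) / sg r + 1 / 2 ≤ (-(4 * l) - rh0) / sg r + 1 / 2 := by
    have : (-(4 * l') - rh0) / sg r ≤ (-(4 * l) - rh0) / sg r :=
      div_le_div_of_nonneg_right (by linarith) hs.le
    linarith
  have h2 := mul_le_mul_of_nonneg_left (PS_mono h1) hs.le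
  linarith

theorem Ic_tilt (r : ℕ) (ε c τ l : ℝ) :
    (Ic r ε c τ l).2 - c * (Ic r ε c τ l).1.re = Ssp r (4 * l) - c * (zq r ε (4 * l)).re := by
  unfold Ic
  simp only [Complex.add_re, Complex.re_ofReal_mul, Complex.ofReal_re]
  ring

theorem InA_comb {K : Set ℝ} (hK : IsCompact K) {a b : ℝ → ℝ} (ha : Continuous a) (hb : Continuous b)
    (hpos : ∀ x ∈ K, 0 < a x) : ∃ c₀ : ℝ, 0 < c₀ ∧ ∀ c, 0 < c → c ≤ c₀ → ∀ x ∈ K, 0 < a x - c * b x := by
  rcases K.eq_empty_or_nonempty with rfl | hne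
  · exact ⟨1, one_pos, fun c _ _ x hx => absurd hx (Set.notMem_empty x)⟩
  obtain ⟨x₀, hx₀, hmin⟩ := hK.exists_isMinOn hne ha.continuousOn
  obtain ⟨x₁, hx₁, hmax⟩ := hK.exists_isMaxOn hne (continuous_abs.comp hb).continuousOn
  have h0 := hpos x₀ hx₀
  set M : ℝ := |b x₁| with hM
  have hM0 : 0 ≤ M := abs_nonneg _
  refine ⟨a x₀ / (2 * M + 2), by positivity, ?_⟩
  intro c hc hc' x hx
  have h1 : a x₀ ≤ a x := hmin hx
  have h2 : |b x| ≤ M := hmax hx
  have h3 : c * b x ≤ c * M := mul_le_mul_of_nonneg_left ((le_abs_self _).trans h2) hc.le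
  have h4 : c * M ≤ a x₀ / (2 * M + 2) * M := mul_le_mul_of_nonneg_right hc' hM0
  have h5 : a x₀ / (2 * M + 2) * M < a x₀ := by
    rw [div_mul_eq_mul_div, div_lt_iff₀ (by positivity)]
    nlinarith
  linarith

theorem InA_ex : ex (-1 / 2) = -1 := by
  have h := RSG.ex_add_int (-1 / 2) 1
  rw [← h]
  have h2 : (-1 / 2 : ℝ) + ((1 : ℤ) : ℝ) = 1 / 2 := by norm_num
  rw [h2, RSG.ex_half]

theorem InA_re (hr : 1 ≤ r) (ε : ℝ) {ρ : ℝ} (h : ρ ≤ rh0 / 4) :
    (zq r ε ρ).re = -(ρ * Lm r (-Ssp r ρ)) := by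
  unfold zq
  rw [D_low hr ε h, InA_ex]
  simp

theorem InA_Lm (hr : 1 ≤ r) (ρ : ℝ) : Lm r (-Ssp r ρ) ≤ 1 := by
  have h1 := S_nonneg hr ρ
  have h2 := vt_pos hr
  unfold Lm
  rw [Real.exp_le_one_iff]
  nlinarith

theorem InA_der (hr : 1 ≤ r) (ε : ℝ) {ρ c : ℝ} (h : ρ < rh0 / 4) (hlow : -rad r (1 / 2) ≤ ρ) (hc : 0 < c)
    (hc1 : c ≤ 1) : 0 < deriv (Ssp r) ρ - c * deriv (fun ρ => (zq r ε ρ).re) ρ := by
  have hr1 := InA_r hr
  have hv := vt_pos hr
  have hL := Lm_pos r (-Ssp r ρ)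
  have hL1 := InA_Lm hr ρ
  have dS : HasDerivAt (Ssp r) (deriv (Ssp r) ρ) ρ :=
    ((S_smooth hr).differentiable (by simp)).differentiableAt.hasDerivAt
  have dS0 : 0 ≤ deriv (Ssp r) ρ := (S_mono hr).deriv_nonneg
  have dZ : HasDerivAt (fun ρ => (zq r ε ρ).re)
      (-(1 * Real.exp (vt r * -Ssp r ρ) + ρ * (Real.exp (vt r * -Ssp r ρ) * (vt r * -deriv (Ssp r) ρ)))) ρ := by
    have h1 := ((hasDerivAt_id ρ).mul ((dS.neg.const_mul (vt r)).exp)).neg
    refine h1.congr_of_eventuallyEq ?_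
    filter_upwards [Iio_mem_nhds h] with x hx
    exact InA_re hr ε (le_of_lt hx)
  rw [dZ.deriv]
  have e1 : Real.exp (vt r * -Ssp r ρ) = Lm r (-Ssp r ρ) := rfl
  rw [e1]
  set L := Lm r (-Ssp r ρ) with hLd
  set s := deriv (Ssp r) ρ with hs
  have hvt1 : vt r ≤ 1 := by
    unfold vt
    rw [div_le_one (by positivity)]
    nlinarith
  have hrad : rad r (1 / 2) ≤ 1 / 2 := by
    have := (abs_le.1 (rad_bd hr (x := 1 / 2) (by rw [abs_of_nonneg (by norm_num)]; linarith))).2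
    have b6 : rh0 = 1 / 1000 := rfl
    rw [b6] at this
    linarith
  have hρ1 : |ρ| ≤ 1 / 2 := by
    rw [abs_le]
    have b6 : rh0 = 1 / 1000 := rfl
    rw [b6] at h
    constructor <;> linarith
  have h3 : |c * ρ * vt r * L| ≤ 1 / 2 := by
    rw [abs_mul, abs_mul, abs_mul, abs_of_pos hc, abs_of_pos hv, abs_of_pos hL]
    calc c * |ρ| * vt r * L ≤ 1 * (1 / 2) * 1 * 1 := by gcongr
      _ = 1 / 2 := by norm_num
  have h4 := (abs_le.1 h3).2
  have h5 : 0 ≤ s * (1 - c * ρ * vt r * L) := mul_nonneg dS0 (by linarith)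
  have h6 : 0 < c * L := mul_pos hc hL
  have h7 : s - c * -(1 * L + ρ * (L * (vt r * -s))) = s * (1 - c * ρ * vt r * L) + c * L := by ring
  rw [h7]
  linarith

theorem InA_zs (hr : 1 ≤ r) (ε : ℝ) : ContDiff ℝ ∞ (fun ρ => (zq r ε ρ).re) :=
  Complex.reCLM.contDiff.comp (zq_smooth hr ε)

theorem exists_tilt (hr : 1 ≤ r) (ε : ℝ) : ∃ c, TiltC r ε c := by
  have hr1 := InA_r hr
  have hw := wd_pos hr
  have hw1 := wd_le hr
  have cS : Continuous (deriv (Ssp r)) := (S_smooth hr).continuous_deriv (by simp)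
  have cZ : Continuous (deriv (fun ρ => (zq r ε ρ).re)) := (InA_zs hr ε).continuous_deriv (by simp)
  have hrw : rad r (wd r) < rad r (2 * r) := rad_lt hr (by linarith)
  have hrh : 0 < rh0 := by norm_num [rh0]
  obtain ⟨c₀, hc₀, H⟩ := InA_comb (isCompact_Icc (a := 3 / 16 * rh0) (b := rad r (wd r))) cS cZ (by
    intro x hx
    exact S_deriv hr (by linarith [hx.1]) (lt_of_le_of_lt hx.2 hrw))
  refine ⟨min c₀ (wd r), lt_min hc₀ hw, min_le_right _ _, ?_⟩
  intro l h1 h2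
  set c := min c₀ (wd r) with hc
  have hc0 : 0 < c := lt_min hc₀ hw
  have hcc : c ≤ c₀ := min_le_left _ _
  have hc1 : c ≤ 1 := (min_le_right _ _).trans (by linarith)
  have key : 0 < deriv (Ssp r) (4 * l) - c * deriv (fun ρ => (zq r ε ρ).re) (4 * l) := by
    by_cases h : 4 * l < rh0 / 4
    · exact InA_der hr ε h h1 hc0 hc1
    · push Not at h
      exact H c hc0 hcc (4 * l) ⟨by linarith, h2⟩
  have d4 : HasDerivAt (fun l : ℝ => 4 * l) 4 l := by
    simpa using (hasDerivAt_id l).const_mul (4 : ℝ)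
  have dS : HasDerivAt (Ssp r) (deriv (Ssp r) (4 * l)) (4 * l) :=
    ((S_smooth hr).differentiable (by simp)).differentiableAt.hasDerivAt
  have dZ : HasDerivAt (fun ρ => (zq r ε ρ).re) (deriv (fun ρ => (zq r ε ρ).re) (4 * l)) (4 * l) :=
    ((InA_zs hr ε).differentiable (by simp)).differentiableAt.hasDerivAt
  have dS' : HasDerivAt (fun l => Ssp r (4 * l)) (deriv (Ssp r) (4 * l) * 4) l :=
    HasDerivAt.comp (h := fun l : ℝ => 4 * l) (h₂ := Ssp r) l dS d4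
  have dZ' : HasDerivAt (fun l => (zq r ε (4 * l)).re) (deriv (fun ρ => (zq r ε ρ).re) (4 * l) * 4) l :=
    HasDerivAt.comp (h := fun l : ℝ => 4 * l) (h₂ := fun ρ => (zq r ε ρ).re) l dZ d4
  have dd : HasDerivAt (fun l => Ssp r (4 * l) - c * (zq r ε (4 * l)).re)
      (deriv (Ssp r) (4 * l) * 4 - c * (deriv (fun ρ => (zq r ε ρ).re) (4 * l) * 4)) l :=
    dS'.sub (dZ'.const_mul c)
  rw [dd.deriv]
  linarith

theorem InA_mono (hr : 1 ≤ r) {c : ℝ} (hc : TiltC r ε c) {l l' : ℝ} (h : -rad r (1 / 2) ≤ 4 * l) (hl : l ≤ l')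
    (h' : 4 * l' ≤ rad r (wd r)) : Ssp r (4 * l) - c * (zq r ε (4 * l)).re ≤
      Ssp r (4 * l') - c * (zq r ε (4 * l')).re := by
  have hm : StrictMonoOn (fun l => Ssp r (4 * l) - c * (zq r ε (4 * l)).re)
      (Icc (-rad r (1 / 2) / 4) (rad r (wd r) / 4)) := by
    apply strictMonoOn_of_deriv_pos (convex_Icc _ _)
    · have c1 : Continuous (fun l : ℝ => Ssp r (4 * l)) := (S_smooth hr).continuous.comp (by fun_prop)
      have c2 : Continuous (fun l : ℝ => (zq r ε (4 * l)).re) := (InA_zs hr ε).continuous.comp (by fun_prop)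
      exact (c1.sub (continuous_const.mul c2)).continuousOn
    · intro x hx
      rw [interior_Icc] at hx
      exact hc.der x (by linarith [hx.1]) (by linarith [hx.2])
  exact hm.monotoneOn ⟨by linarith, by linarith⟩ ⟨by linarith, by linarith⟩ hl

/-- the second component of the slot form: `0 ≤ .. ≤ wd`; it is `< wd` where `z1 > rh0` -/
theorem Ic_slot (hr : 1 ≤ r) {c : ℝ} (hc : TiltC r ε c) {l : ℝ} (h : -rad r (1 / 2) ≤ 4 * l)
    (h' : 4 * l ≤ rad r (wd r)) :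
    (Ic r ε c 1 l).1 = z1 r l ∧ 0 ≤ (Ic r ε c 1 l).2 ∧ (Ic r ε c 1 l).2 ≤ wd r ∧
      (rh0 < z1 r l → (Ic r ε c 1 l).2 < wd r) := by
  have hr1 := InA_r hr
  have hrh : 0 < rh0 := by norm_num [rh0]
  have hrh1 : rh0 = 1 / 1000 := rfl
  have hs := sg_pos hr
  have hs2 := InA_sg hr
  have hc0 := hc.pos
  have hcw := hc.le
  have hw := wd_pos hr
  have hw1 := wd_le hr
  refine ⟨by simp [Ic], ?_⟩
  have e2 : (Ic r ε c 1 l).2 = Ssp r (4 * l) + c * (z1 r l - (zq r ε (4 * l)).re) := by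
    simp [Ic]
  rw [e2]
  by_cases hl : l ≤ 0
  · have hρ : 4 * l ≤ rh0 / 8 := by linarith
    rw [S_low hr hρ, zq_low hr ε hρ, Complex.ofReal_re, zero_add, sub_neg_eq_add]
    have h1 := z1_ge hr l
    have h2 : z1 r l + 4 * l ≤ rh0 := by
      by_cases hy : -(4 * l) ≤ rh0 - sg r / 2
      · rw [z1_right hr hy]
        linarith
      · push Not at hy
        have hy0 : 0 ≤ (-(4 * l) - rh0) / sg r + 1 / 2 := by
          have : -(1 / 2) ≤ (-(4 * l) - rh0) / sg r := by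
            rw [le_div_iff₀ hs]
            linarith
          linarith
        have h3 := mul_le_mul_of_nonneg_left (PS_le hy0) hs.le
        have h4 : sg r * ((-(4 * l) - rh0) / sg r + 1 / 2) = -(4 * l) - rh0 + sg r / 2 := by
          field_simp
        unfold z1
        linarith
    have h3 : 0 ≤ c * (z1 r l + 4 * l) := mul_nonneg hc0.le (by linarith)
    have h4 : c * (z1 r l + 4 * l) ≤ c * rh0 := mul_le_mul_of_nonneg_left h2 hc0.le
    have h5 : c * rh0 < c := by nlinarith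
    exact ⟨h3, by linarith, fun _ => by linarith⟩
  · push Not at hl
    have hz : z1 r l = rh0 := z1_right hr (by linarith)
    rw [hz]
    have hlo := InA_mono hr hc (l := 0) (l' := l) (by have := rad_pos r (1 / 2); linarith) hl.le h'
    have hhi := InA_mono hr hc (l := l) (l' := rad r (wd r) / 4) h (by linarith) (by linarith)
    have e3 : 4 * (rad r (wd r) / 4) = rad r (wd r) := by ring
    rw [e3, S_mid hr (by linarith) (by linarith), zq_mid hr ε (by linarith) (by linarith)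
      (Or.inl (by linarith)), Complex.ofReal_re] at hhi
    rw [mul_zero, S_low hr (by linarith), zq_low hr ε (by linarith), Complex.ofReal_re, neg_zero, mul_zero,
      sub_zero] at hlo
    have h6 : 0 < c * rh0 := mul_pos hc0 hrh
    refine ⟨by linarith, by linarith, fun h7 => absurd h7 (lt_irrefl _)⟩

theorem fam_ret (hr : 1 ≤ r) {c : ℝ} (hc : TiltC r ε c) {Z₀ Zr : ℝ → ℂ} (hZ : ZC r Z₀ Zr) :
    Fam r (Ic r ε c) (fun _ => Z₀) (fun _ => Zr) := by
  have hr1 := InA_r hr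
  have hrh : 0 < rh0 := by norm_num [rh0]
  have hrh1 : rh0 = 1 / 1000 := rfl
  have hs := sg_pos hr
  have hs2 := InA_sg hr
  have hc0 := hc.pos
  have hcw := hc.le
  have hw := wd_pos hr
  have hw1 := wd_le hr
  have hreg : ∀ τ ∈ Icc (0 : ℝ) 1, ∀ l, -rad r (1 / 2) ≤ 4 * l → 4 * l ≤ rad r (wd r) →
      ‖(Ic r ε c τ l).1‖ ≤ rad r (1 / 2) ∧ 0 ≤ (Ic r ε c τ l).2 ∧ (Ic r ε c τ l).2 ≤ wd r := by
    intro τ hτ l h1 h2
    have hww : rad r (wd r) < rad r (1 / 2) := rad_lt hr (by linarith)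
    have hz : ‖zq r ε (4 * l)‖ ≤ rad r (1 / 2) := by
      rw [zq_norm]
      have h3 : |4 * l| ≤ rad r (1 / 2) := abs_le.2 ⟨h1, by linarith⟩
      have h4 := InA_Lm hr (4 * l)
      have h5 := Lm_pos r (-Ssp r (4 * l))
      calc |4 * l| * Lm r (-Ssp r (4 * l)) ≤ |4 * l| * 1 := mul_le_mul_of_nonneg_left h4 (abs_nonneg _)
        _ ≤ rad r (1 / 2) := by rw [mul_one]; exact h3
    have hz1 : z1 r l ≤ rad r (1 / 2) := by
      have h3 : z1 r (-rad r (1 / 2) / 4) = rad r (1 / 2) := by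
        have h4 : rad r (1 / 4) ≤ -(4 * (-rad r (1 / 2) / 4)) := by
          have := rad_lt hr (show (1 / 4 : ℝ) < 1 / 2 by norm_num)
          linarith
        rw [z1_left hr h4]
        ring
      rw [← h3]
      exact z1_anti hr (by linarith)
    have hz2 := z1_ge' hr l
    constructor
    · have h5 : ‖(Ic r ε c τ l).1‖ ≤ (1 - τ) * ‖zq r ε (4 * l)‖ + τ * z1 r l := by
        unfold Ic
        simp only
        refine (norm_add_le _ _).trans ?_
        rw [norm_mul, Complex.norm_real, Complex.norm_real, Real.norm_eq_abs, Real.norm_eq_abs,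
          abs_of_nonneg (by linarith [hτ.2] : 0 ≤ 1 - τ), abs_of_nonneg (mul_nonneg hτ.1 (by linarith))]
      have h6 : (1 - τ) * ‖zq r ε (4 * l)‖ ≤ (1 - τ) * rad r (1 / 2) :=
        mul_le_mul_of_nonneg_left hz (by linarith [hτ.2])
      have h7 : τ * z1 r l ≤ τ * rad r (1 / 2) := mul_le_mul_of_nonneg_left hz1 hτ.1
      linarith
    · obtain ⟨-, s1, s2, -⟩ := Ic_slot hr hc h1 h2
      have e1 : (Ic r ε c 1 l).2 = Ssp r (4 * l) + c * (z1 r l - (zq r ε (4 * l)).re) := by simp [Ic]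
      have e2 : (Ic r ε c τ l).2 = (1 - τ) * Ssp r (4 * l) + τ * (Ic r ε c 1 l).2 := by
        rw [e1]
        unfold Ic
        simp only
        ring
      have hS0 := S_nonneg hr (4 * l)
      have hS1 : Ssp r (4 * l) ≤ wd r := by
        have := S_mono hr h2
        rwa [S_mid hr (by linarith) (by linarith)] at this
      rw [e2]
      have h3 : 0 ≤ 1 - τ := by linarith [hτ.2]
      constructor
      · exact add_nonneg (mul_nonneg h3 hS0) (mul_nonneg hτ.1 s1)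
      · have h4 := mul_le_mul_of_nonneg_left hS1 h3
        have h5 := mul_le_mul_of_nonneg_left s2 hτ.1
        linarith
  refine ⟨?_, hZ.sm₀.comp contDiff_snd, hZ.smr.comp contDiff_snd, ?_, hreg, ⟨c, hc0, ?_⟩, fun _ _ => hZ.reg₀,
    fun _ _ => hZ.regr, fun _ _ => hZ.dis, fun _ _ => hZ.disp, ?_⟩
  · have g0 : ContDiff ℝ ∞ (fun q : ℝ × ℝ => 4 * q.2) := by fun_prop
    have g1 : ContDiff ℝ ∞ (fun q : ℝ × ℝ => zq r ε (4 * q.2)) := (zq_smooth hr ε).comp g0
    have g2 : ContDiff ℝ ∞ (fun q : ℝ × ℝ => Ssp r (4 * q.2)) := (S_smooth hr).comp g0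
    have g3 : ContDiff ℝ ∞ (fun q : ℝ × ℝ => z1 r q.2) := (z1_smooth r).comp contDiff_snd
    have g4 : ContDiff ℝ ∞ (fun q : ℝ × ℝ => (zq r ε (4 * q.2)).re) := (InA_zs hr ε).comp g0
    have g5' : ContDiff ℝ ∞ (fun q : ℝ × ℝ => 1 - q.1) := by fun_prop
    have g5 : ContDiff ℝ ∞ (fun q : ℝ × ℝ => ((1 - q.1 : ℝ) : ℂ)) := Complex.ofRealCLM.contDiff.comp g5'
    have g6 : ContDiff ℝ ∞ (fun q : ℝ × ℝ => ((q.1 * z1 r q.2 : ℝ) : ℂ)) :=
      Complex.ofRealCLM.contDiff.comp (contDiff_fst.mul g3)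
    unfold Ic
    exact ((g5.mul g1).add g6).prodMk (g2.add ((contDiff_fst.mul contDiff_const).mul (g3.sub g4)))
  · obtain ⟨e₀, he₀, hE1, hE2⟩ := hZ.ends
    have p1 : 0 < rad r (1 / 2) - rad r (1 / 4) := by
      have := rad_lt hr (show (1 / 4 : ℝ) < 1 / 2 by norm_num)
      linarith
    have p2 : 0 < rad r (wd r) - rad r (9 / 10 * wd r) := by
      have := rad_lt hr (show 9 / 10 * wd r < wd r by linarith)
      linarith
    have p3 : 0 < rad r (r - wd r) - rad r (wd r) := by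
      have := rad_lt hr (show wd r < r - wd r by linarith)
      linarith
    set e : ℝ := min e₀ (min (rad r (1 / 2) - rad r (1 / 4))
      (min (rad r (wd r) - rad r (9 / 10 * wd r)) (rad r (r - wd r) - rad r (wd r)))) with he
    have q0 : e ≤ e₀ := min_le_left _ _
    have q1 : e ≤ rad r (1 / 2) - rad r (1 / 4) := (min_le_right _ _).trans (min_le_left _ _)
    have q2 : e ≤ rad r (wd r) - rad r (9 / 10 * wd r) :=
      (min_le_right _ _).trans ((min_le_right _ _).trans (min_le_left _ _))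
    have q3 : e ≤ rad r (r - wd r) - rad r (wd r) :=
      (min_le_right _ _).trans ((min_le_right _ _).trans (min_le_right _ _))
    have hinv : ∀ {x ρ : ℝ}, 0 < ρ → rad r x ≤ ρ → x ≤ lam r ρ := by
      intro x ρ hρ h
      by_contra hn
      push Not at hn
      have := rad_lt hr hn
      rw [rad_lam hr hρ] at this
      linarith
    have hinv' : ∀ {x ρ : ℝ}, 0 < ρ → ρ ≤ rad r x → lam r ρ ≤ x := by
      intro x ρ hρ h
      by_contra hn
      push Not at hn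
      have := rad_lt hr hn
      rw [rad_lam hr hρ] at this
      linarith
    refine ⟨e, by positivity, ?_, ?_, ?_, ?_⟩
    · intro τ l hl
      have h1 := abs_le.1 hl
      have h2 : rad r (1 / 4) ≤ -(4 * l) := by linarith
      have h3 : 4 * l ≤ rh0 / 8 := by
        have := rad_pos r (1 / 4)
        linarith
      unfold Ic
      rw [z1_left hr h2, S_low hr h3, zq_low hr ε h3, Complex.ofReal_re]
      refine Prod.ext ?_ ?_
      · simp only
        push_cast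
        ring
      · simp only
        ring
    · intro τ l hl
      have h1 := abs_le.1 hl
      have h2 : 0 < 4 * l := by
        have := rad_pos r (9 / 10 * wd r)
        linarith
      have h3 : 9 / 10 * wd r ≤ lam r (4 * l) := hinv h2 (by linarith)
      have h4 : lam r (4 * l) ≤ r - wd r := hinv' h2 (by linarith)
      have h5 : z1 r l = rh0 := z1_right hr (by linarith)
      have h6 := S_mid hr h3 (by linarith)
      have h7 := zq_mid hr ε h3 (by linarith) (Or.inl h4)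
      rw [rad_lam hr h2] at h6 h7
      unfold Ic
      rw [h5, h6, h7, Complex.ofReal_re]
      refine Prod.ext ?_ ?_
      · simp only
        push_cast
        ring
      · simp only
        ring
    · intro τ x hx
      apply hE1
      rcases hx with hx | hx
      · left; linarith
      · right; linarith
    · intro τ s hs
      apply hE2
      linarith
  · intro τ _ l h1 h2
    have : (fun l => (Ic r ε c τ l).2 - c * (Ic r ε c τ l).1.re) =
        fun l => Ssp r (4 * l) - c * (zq r ε (4 * l)).re := by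
      funext l
      exact Ic_tilt r ε c τ l
    rw [this]
    exact hc.der l h1 h2
  · intro τ hτ l h1 h2 heq
    obtain ⟨a1, a2, a3⟩ := hreg τ hτ l h1 h2
    have := hZ.low _ a2 a3
    rw [heq] at this
    linarith

end

end Pool.Agent.SPR
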