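import Pool.Agent.SPR.Defs

/-!
# SPR/LiA: from the solid torus to `P`   (difficulty 2)

Let `C` be a `PTH.VChart` (`C (z, Y, t)`, `‖z‖ < 1`).
* `chart_mt`: `C (x.1, x.2, t) = C (y.1, y.2, t)` if `MT x y` (period `1` in `Y`, induction on the integer).
* `lft_eq`: `lft C β (z, s, t) = lft C β' (z', s', t')` with both first components in the unit disc: `VChart.inj` gives `(β (z,s)).1 = (β' (z',s')).1`, `Y' = Y + m`, `t' = t + m'`, i.e. `MT`.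
* `lft_bbox`: `per`: `C (z, Y, t + 1) = a (t + 1) (C (z, Y, 0)) = a t (..)` (`Act.add`, `Act.per`).  `loc`: composition of `(z, s, t) ↦ ((β (z, s)).1, (β (z, s)).2, t)` (a local diffeomorphism: product of `β` with the identity, up to the
  rearrangement `((z, s), t) ↔ (z, s, t)`) with `C`.  `lft_box`: `Box` is `BBox` with `h = 1`.  `lft_equi`: `VChart.equiv` (twice).
* `atwo_lift`: for `K` with arc `γ`.  `strand`: `K (f₁ u) = C (γ (f₁ u), 0) = C (β (1, ε₁ u), 0)` (`chart_mt`).  `ord₂`: `f₂ 1 < 1/4 ≤ 3/4 < f₁ (-1) + 1`.  `off`: let `l` be in one of the intervals and `K l = lft C β (z, s, t)`, `‖z‖ < 5`, `|s| < 1`.  If `|l| < 1/4`: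
  (`l ≠ f₁ u, f₂ u` for `|u| < 1`, as `f₁`, `f₂` are strictly increasing and `f₁ 1 ≤ l ≤ f₂ (-1)` or `f₂ 1 ≤ l`) `K l = C (γ l, 0)`, so `MT`, contradiction to `off`.  If `1/4 ≤ l ≤ 3/4`: `outer`.  If `l > 3/4`: `l - 1` (`per`), `-1/4 < l - 1 ≤ f₁ (-1)`.
* `apieces_lift`: `piece`: `chart_mt`; `inter`: `lft_eq`; `off`: as before, with the windows `|u| < 1/2` (if `l` is in one of the intervals and `|l| < 1/4` then `l ≠ f₁ u, f₂ u` for `|u| < 1/2`); `hR`, `hS`: `‖y‖ ≤ 1` is inside the box `δ`.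
-/

open scoped Manifold ContDiff Topology
open Set Filter
open Complex (I)
open Pool.Agent.RSG (E4 cj ex)

namespace Pool.Agent.SPR

open Pool.Agent.RBM (Box gs Ro)
open Pool.Agent.COR (BBox EquiB TwoStrands CPieces)

theorem MT.refl (x : ℂ × ℝ) : MT x x := ⟨0, by simp⟩

theorem MT.symm {x y : ℂ × ℝ} (h : MT x y) : MT y x := by
  obtain ⟨m, rfl⟩ := h
  exact ⟨-m, by ext <;> simp⟩

theorem MT.trans {x y z : ℂ × ℝ} (h : MT x y) (h' : MT y z) : MT x z := by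
  obtain ⟨m, rfl⟩ := h
  obtain ⟨m', rfl⟩ := h'
  exact ⟨m + m', by ext <;> simp [add_assoc]⟩

section
variable {EP : Type*} [NormedAddCommGroup EP] [NormedSpace ℝ EP] {HP : Type*} [TopologicalSpace HP]
  {IP : ModelWithCorners ℝ EP HP} {P : Type*} [TopologicalSpace P] [ChartedSpace HP P]
  {a : ℝ → P → P} {C : ℂ × ℝ × ℝ → P} {K : ℝ → P} {β δ β' : ℂ × ℝ → ℂ × ℝ} {γ : ℝ → ℂ × ℝ}
  {f₁ f₂ : ℝ → ℝ} {ε₁ ε₂ r h : ℝ}

theorem chart_mt (hC : PTH.VChart IP a C) {x y : ℂ × ℝ} (hxy : MT x y) (t : ℝ) :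
    C (x.1, x.2, t) = C (y.1, y.2, t) := by
  obtain ⟨m, rfl⟩ := hxy
  have key : ∀ (z : ℂ) (Y : ℝ) (m : ℤ), C (z, Y + m, t) = C (z, Y, t) := by
    intro z Y m
    induction m using Int.induction_on with
    | zero => simp
    | succ i ih =>
      have h : Y + (((i : ℤ) + 1 : ℤ) : ℝ) = (Y + ((i : ℤ) : ℝ)) + 1 := by push_cast; ring
      rw [h, hC.perY, ih]
    | pred i ih =>
      have h : Y + ((-(i : ℤ) : ℤ) : ℝ) = (Y + ((-(i : ℤ) - 1 : ℤ) : ℝ)) + 1 := by push_cast; ring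
      rw [h, hC.perY] at ih
      exact ih
  have e1 : (x + (0, (m : ℝ))).1 = x.1 := by simp
  have e2 : (x + (0, (m : ℝ))).2 = x.2 + m := by simp
  rw [e1, e2, key]

theorem chart_eq (hC : PTH.VChart IP a C) {x y : ℂ × ℝ} {t t' : ℝ} (hx : ‖x.1‖ < 1) (hy : ‖y.1‖ < 1)
    (heq : C (x.1, x.2, t) = C (y.1, y.2, t')) : MT x y ∧ ∃ m : ℤ, t' = t + m := by
  obtain ⟨h1, ⟨m, h2⟩, h3⟩ := hC.inj _ _ _ _ _ _ hx hy heq
  refine ⟨⟨m, ?_⟩, h3⟩
  refine Prod.ext ?_ ?_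
  · simp [h1]
  · simp [h2]

theorem lft_bbox (ha : PTH.Act IP a) (hC : PTH.VChart IP a C) (hβ : HBox β r h) : BBox IP (lft C β) r h := by
  refine ⟨?_, ?_, ?_⟩
  · intro z s t
    unfold lft
    simp only
    rw [hC.equiv _ _ (t + 1), ha.add, ha.per, ← hC.equiv]
  · intro z s t hz hs
    have h1 : IsLocalDiffeomorphAt (𝓘(ℝ, ℂ × ℝ).prod 𝓘(ℝ, ℝ)) (𝓘(ℝ, ℂ × ℝ).prod 𝓘(ℝ, ℝ)) ∞
        (Prod.map β (id : ℝ → ℝ)) ((z, s), t) := RSG.ld_prodMap (hβ.loc z s hz hs) (CSG.ld_id t)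
    have h2 : IsLocalDiffeomorphAt 𝓘(ℝ, ℂ × ℝ × ℝ) (𝓘(ℝ, ℂ × ℝ).prod 𝓘(ℝ, ℝ)) ∞
        (fun q : ℂ × ℝ × ℝ => ((q.1, q.2.1), q.2.2)) (z, s, t) := by
      rw [← modelWithCornersSelf_prod, chartedSpaceSelf_prod]
      refine CSG.ld_of_perm (f := (Equiv.prodAssoc ℂ ℝ ℝ).symm) ?_ ?_ (z, s, t)
      · exact (contDiff_fst.prodMk contDiff_snd.fst).prodMk contDiff_snd.snd
      · exact contDiff_fst.fst.prodMk (contDiff_fst.snd.prodMk contDiff_snd)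
    have h3 : IsLocalDiffeomorphAt (𝓘(ℝ, ℂ × ℝ).prod 𝓘(ℝ, ℝ)) 𝓘(ℝ, ℂ × ℝ × ℝ) ∞
        (fun q : (ℂ × ℝ) × ℝ => (q.1.1, q.1.2, q.2)) (β (z, s), t) := by
      rw [← modelWithCornersSelf_prod, chartedSpaceSelf_prod]
      refine CSG.ld_of_perm (f := Equiv.prodAssoc ℂ ℝ ℝ) ?_ ?_ (β (z, s), t)
      · exact contDiff_fst.fst.prodMk (contDiff_fst.snd.prodMk contDiff_snd)
      · exact (contDiff_fst.prodMk contDiff_snd.fst).prodMk contDiff_snd.snd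
    have h4 : IsLocalDiffeomorphAt 𝓘(ℝ, ℂ × ℝ × ℝ) (𝓘(ℝ, ℂ × ℝ).prod 𝓘(ℝ, ℝ)) ∞
        (Prod.map β (id : ℝ → ℝ) ∘ fun q : ℂ × ℝ × ℝ => ((q.1, q.2.1), q.2.2)) (z, s, t) :=
      IsLocalDiffeomorphAt.comp (hf := h2) (hg := h1)
    have h5 : IsLocalDiffeomorphAt 𝓘(ℝ, ℂ × ℝ × ℝ) 𝓘(ℝ, ℂ × ℝ × ℝ) ∞
        ((fun q : (ℂ × ℝ) × ℝ => (q.1.1, q.1.2, q.2)) ∘
          (Prod.map β (id : ℝ → ℝ) ∘ fun q : ℂ × ℝ × ℝ => ((q.1, q.2.1), q.2.2))) (z, s, t) :=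
      IsLocalDiffeomorphAt.comp (hf := h4) (hg := h3)
    have h6 := hC.loc (β (z, s)).1 (β (z, s)).2 t (hβ.inn z s hz hs)
    exact IsLocalDiffeomorphAt.comp (hf := h5) (hg := h6) ..
  · intro z s t z' s' t' hz hs hz' hs' he
    obtain ⟨h1, h2⟩ := chart_eq hC (hβ.inn z s hz hs) (hβ.inn z' s' hz' hs') he
    obtain ⟨h3, h4⟩ := hβ.inj z s z' s' hz hs hz' hs' h1
    exact ⟨h3, h4, h2⟩

theorem lft_box (ha : PTH.Act IP a) (hC : PTH.VChart IP a C) (hβ : HBox β 5 1) : Box IP (lft C β) 5 := by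
  have h := lft_bbox ha hC hβ
  exact ⟨h.per, h.loc, h.inj⟩

theorem lft_equi (hC : PTH.VChart IP a C) : EquiB a (lft C β) := by
  intro z s t
  exact hC.equiv _ _ _

theorem AKnot.of_vknot (hK : PTH.VKnot IP C γ K) : AKnot IP C γ K := ⟨hK.per, hK.inner, hK.outer⟩

theorem LiA_mono {f : ℝ → ℝ} (h : ∀ u, 0 < deriv f u) : StrictMono f := strictMono_of_deriv_pos h

theorem LiA_off (hK : AKnot IP C γ K) (hC : PTH.VChart IP a C) {w : ℝ} (hw : 0 < w) (m1 : StrictMono f₁)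
    (m2 : StrictMono f₂) (h1 : -(1 / 4) < f₁ (-w)) (h2 : f₁ w < f₂ (-w)) (h3 : f₂ w < 1 / 4) {p : ℂ × ℝ}
    (hp : ‖p.1‖ < 1)
    (hoff : ∀ l, |l| < 1 / 4 → (∀ u, |u| < w → l ≠ f₁ u ∧ l ≠ f₂ u) → ¬ MT p (γ l)) (l : ℝ)
    (hl : (f₁ w ≤ l ∧ l ≤ f₂ (-w)) ∨ (f₂ w ≤ l ∧ l ≤ f₁ (-w) + 1)) (t : ℝ) : K l ≠ C (p.1, p.2, t) := by
  have a1 : f₁ (-w) < f₁ w := m1 (by linarith)
  have a2 : f₂ (-w) < f₂ w := m2 (by linarith)
  have main : ∀ l, |l| < 1 / 4 → (∀ u, |u| < w → l ≠ f₁ u ∧ l ≠ f₂ u) → K l ≠ C (p.1, p.2, t) := by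
    intro l hl hu he
    obtain ⟨i1, i2⟩ := hK.inner l hl
    rw [i2] at he
    exact hoff l hl hu (chart_eq hC i1 hp he).1.symm
  rcases hl with ⟨b1, b2⟩ | ⟨b1, b2⟩
  · refine main l (by rw [abs_lt]; constructor <;> linarith) (fun u hu => ?_)
    rw [abs_lt] at hu
    have c1 := m1 hu.2
    have c2 := m2 hu.1
    exact ⟨(by linarith : f₁ u < l).ne', (by linarith : l < f₂ u).ne⟩
  · rcases lt_or_ge l (1 / 4) with hl1 | hl1
    · refine main l (by rw [abs_lt]; constructor <;> linarith) (fun u hu => ?_)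
      rw [abs_lt] at hu
      have c1 := m1 hu.2
      have c2 := m2 hu.2
      exact ⟨(by linarith : f₁ u < l).ne', (by linarith : f₂ u < l).ne'⟩
    · rcases le_or_gt l (3 / 4) with hl2 | hl2
      · exact hK.outer l hl1 hl2 _ _ _ hp
      · have e : K l = K (l - 1) := by
          rw [← hK.per (l - 1), sub_add_cancel]
        rw [e]
        refine main (l - 1) (by rw [abs_lt]; constructor <;> linarith) (fun u hu => ?_)
        rw [abs_lt] at hu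
        have c1 := m1 hu.1
        have c2 := m2 hu.1
        exact ⟨(by linarith : l - 1 < f₁ u).ne, (by linarith : l - 1 < f₂ u).ne⟩

theorem atwo_lift (hC : PTH.VChart IP a C) (hK : AKnot IP C γ K) (hβ : HBox β 5 1)
    (hs : ATwo β γ f₁ f₂ ε₁ ε₂) : TwoStrands (lft C β) K f₁ f₂ ε₁ ε₂ := by
  have m1 := LiA_mono hs.deriv₁
  have m2 := LiA_mono hs.deriv₂
  have o1 := hs.ord₁
  have o2 := hs.ord₂
  have o3 := hs.ord₃
  have a1 : f₁ (-1) < f₁ 1 := m1 (by norm_num)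
  have a2 : f₂ (-1) < f₂ 1 := m2 (by norm_num)
  refine ⟨hs.smooth₁, hs.smooth₂, hs.deriv₁, hs.deriv₂, hs.sign₁, hs.sign₂, hs.ord₂, by linarith, ?_, ?_, ?_⟩
  · intro u hu
    have hu' := abs_lt.1 hu
    have c1 := m1 hu'.1
    have c2 := m1 hu'.2
    rw [(hK.inner (f₁ u) (by rw [abs_lt]; constructor <;> linarith)).2]
    exact (chart_mt hC (hs.strand₁ u hu) 0).symm
  · intro u hu
    have hu' := abs_lt.1 hu
    have c1 := m2 hu'.1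
    have c2 := m2 hu'.2
    rw [(hK.inner (f₂ u) (by rw [abs_lt]; constructor <;> linarith)).2]
    exact (chart_mt hC (hs.strand₂ u hu) 0).symm
  · intro l hl z s t hz hs'
    exact LiA_off hK hC (w := 1) one_pos m1 m2 o1 o2 o3 (hβ.inn z s hz hs')
      (fun l hl hu => hs.off l hl hu z s hz hs') l hl t

end

theorem apieces_lift {a : ℝ → PTH.SP → PTH.SP} {C : ℂ × ℝ × ℝ → PTH.SP} {K : ℝ → PTH.SP}
    {β δ : ℂ × ℝ → ℂ × ℝ} {γ : ℝ → ℂ × ℝ} {f₁ f₂ : ℝ → ℝ} {ε₁ ε₂ R S : ℝ} (hC : PTH.VChart PTH.ISP a C)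
    (hK : AKnot PTH.ISP C γ K) (hβ : HBox β 5 1)
    (hs : ATwo β γ f₁ f₂ ε₁ ε₂) (hδ : HBox δ R S) (hR : 1 < R) (hS : 1 < S) {k : ℕ} {c μ : Fin k → ℂ}
    {bi ς η ρ : Fin k → ℝ} (hp : APieces γ β δ f₁ f₂ c μ bi ς η ρ) :
    CPieces K (lft C β) (lft C δ) f₁ f₂ c μ bi ς η ρ ∧ InB (lft C β) (lft C δ) := by
  have m1 := LiA_mono hs.deriv₁
  have m2 := LiA_mono hs.deriv₂
  have o1 := hs.ord₁
  have o2 := hs.ord₂
  have o3 := hs.ord₃
  have a1 : f₁ (-1) < f₁ (-(1 / 2)) := m1 (by norm_num)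
  have a2 : f₂ (-1) < f₂ (-(1 / 2)) := m2 (by norm_num)
  have a3 : f₁ (1 / 2) < f₁ 1 := m1 (by norm_num)
  have a4 : f₂ (1 / 2) < f₂ 1 := m2 (by norm_num)
  refine ⟨⟨hp.eta, hp.mu, hp.rho, hp.small, hp.dist, hp.range, hp.sign, ?_, ?_, ?_⟩, ?_⟩
  · intro i y s t hy hs'
    exact (chart_mt hC (hp.piece i y s hy hs') t).symm
  · intro y s t z s' t' hy hs1 hz hs2 he
    have h1 := (chart_eq hC (hδ.inn y s (by linarith) (by linarith))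
      (hβ.inn z s' (by linarith) hs2) he).1
    exact hp.inter y s z s' hy hs1 hz hs2 h1.symm
  · intro l hl y s t hy hs'
    exact LiA_off hK hC (w := 1 / 2) (by norm_num) m1 m2 (by linarith) (by linarith) (by linarith)
      (hδ.inn y s (by linarith) (by linarith)) (fun l hl hu => hp.off l hl hu y s hy hs') l hl t
  · intro y s t z s' t' hy hs1 hz hs2 he
    have h1 := (chart_eq hC (hδ.inn y s (by linarith) (by linarith)) (hβ.inn z s' hz hs2) he).1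
    exact hp.inb y s z s' hy hs1 hz hs2 h1.symm

end Pool.Agent.SPR
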