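import Pool.Agent.SPR.TwA

/-!
# SPR/Par: sliding full twists along a ribbon; two full twists are free   (difficulty 2)

* `tw_slide`: `F` = the diffeomorphism `Tw b (θ' - θ)` (`tw_perm`: `θ' - θ = 0` for `|s| ≥ 3/4`, as both are `0` resp. both are `m` there), `F (Tw b θ p) = Tw b θ' p` (`tw_add`), equivariant (`tw_equi`): `PTH.Carries.map`.
* `tw_four`: `K₁ l = Tw b θ (K l)`, `b₁ = rotb b θ`: `rotb_box`, `rotb_equi`, `rotb_two`; `COR.four_core` gives `M` with `IsM 4 (half 1 b₁) (MsDo o) M` and `Carries (fun l => M (K₁ l))`.  Claim: `M (K₁ l) = Tw b (θ + 2 o gs (2 ·)) (K l)` for all `l`.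
  `K₁` is periodic (`ThickT.perl` for the torus in the hypothesis `Carries`), so `K` is periodic (`tw_inj`).  So it is enough to take `f₁ (-1) ≤ l ≤ f₁ (-1) + 1` (integer translates): `l = f₁ u` or `f₂ u`, `|u| < 1`, or `l` is in the set of `TwoStrands.off`
  (intermediate value theorem).  `l = f₁ u`: `s = ε₁ u`, `K₁ l = b₁ (1, s, 0)`; `half 1 b₁ (z, s', t) = b₁ (z, s' / 2, t)` (`cj 1 = id`), so for `|2 s| < 1/8` `M (b₁ (1, s, 0)) = b₁ (MsDo o (1, 2 s), s, 0)`, `MsDo_low`: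
  `= b₁ (ex (2 o gs (2 s)), s, 0) = b (ex (θ s) ex (2 o gs (2 s)), s, 0)`; for `|2 s| ≥ 1/8` `M` is the identity at this point (`IsM.out`, `Box.inj`) and `2 o gs (2 s) ∈ {0, 2 o}`, `ex = 1`.  Off the box both sides are `K l` (`off` for the box
  of radius `5` contains the box of radius `4`).
* `tw_par`: by induction on `j`, `m' = m + 2 o j`, `o = ±1`: `tw_four` (the new function is again a step function, total `m + 2 o`: `gs (2 s) = 0` for `s ≤ -1/16`, `= 1` for `s ≥ 1/32`) and `tw_slide`.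
-/

open scoped Manifold ContDiff Topology
open Set Filter
open Complex (I)
open Pool.Agent.RSG (E4 cj ex)

namespace Pool.Agent.SPR

open Pool.Agent.RBM (Box gs Ro MsDo)
open Pool.Agent.COR (BBox EquiB TwoStrands CPieces)

theorem tw_slide {a : ℝ → PTH.SP → PTH.SP} (ha : PTH.Act PTH.ISP a) {K : ℝ → PTH.SP}
    {b : ℂ × ℝ × ℝ → PTH.SP} (hb : Box PTH.ISP b 5) (heq : EquiB a b) {θ θ' : ℝ → ℝ} {m : ℤ}
    (hθ : IsStep θ m) (hθ' : IsStep θ' m) {n : ℤ} {X : Type*} [TopologicalSpace X] [ChartedSpace E4 X]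
    (h : PTH.Carries PTH.ISP a n (fun l => Tw b θ (K l)) X) :
    PTH.Carries PTH.ISP a n (fun l => Tw b θ' (K l)) X := by
  have h0 : ∀ s : ℝ, 3 / 4 ≤ |s| → θ' s - θ s = 0 := by
    intro s hs
    rcases le_abs'.mp hs with h1 | h1
    · rw [hθ.2.1 s h1, hθ'.2.1 s h1, sub_zero]
    · rw [hθ.2.2 s h1, hθ'.2.2 s h1, sub_self]
  obtain ⟨F, hF, hFl⟩ := tw_perm hb (hθ'.1.sub hθ.1) h0
  have h1 := PTH.Carries.map F hFl (fun t p => by
    rw [hF, hF]; exact tw_equi ha hb heq _ t p) h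
  have e : (fun l => F (Tw b θ (K l))) = fun l => Tw b θ' (K l) := by
    funext l
    rw [hF, tw_add hb]
    congr 1
    funext s
    simp
  rw [e] at h1
  exact h1

theorem Par_gs0 {s : ℝ} (h : s ≤ -(1 / 8)) : gs s = 0 := CSG.stp_zero (by norm_num) h

theorem Par_gs1 {s : ℝ} (h : 1 / 16 ≤ s) : gs s = 1 := CSG.stp_one (by norm_num) h

theorem Par_ex {o : ℝ} (ho : o = 1 ∨ o = -1) {s : ℝ} (h : 1 / 8 ≤ |s|) : ex (2 * o * gs s) = 1 := by
  rcases le_abs'.mp h with h1 | h1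
  · rw [Par_gs0 h1, mul_zero, Pool.Agent.RSG.ex_zero]
  · rw [Par_gs1 (by linarith), mul_one]
    rcases ho with rfl | rfl
    · have := Pool.Agent.RSG.ex_int 2
      push_cast at this
      rw [mul_one]
      exact this
    · have := Pool.Agent.RSG.ex_int (-2)
      push_cast at this
      rw [mul_neg, mul_one]
      exact this

theorem Par_cj (z : ℂ) : cj 1 z = z := by
  unfold cj
  apply Complex.ext <;> simp

theorem Par_ivt {f : ℝ → ℝ} (hf : ContDiff ℝ ∞ f) {l : ℝ} (h0 : f (-1) < l)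
    (h1 : l < f 1) : ∃ u, |u| < 1 ∧ f u = l := by
  have hc : ContinuousOn f (Icc (-1) 1) := hf.continuous.continuousOn
  obtain ⟨u, hu, he⟩ := intermediate_value_Ioo (by norm_num) hc ⟨h0, h1⟩
  exact ⟨u, abs_lt.mpr hu, he⟩

/-- the strands -/
theorem Par_strand {b : ℂ × ℝ × ℝ → PTH.SP} (hb : Box PTH.ISP b 5) {θ : ℝ → ℝ} {m : ℤ} (hθ : IsStep θ m)
    {o : ℝ} (ho : o = 1 ∨ o = -1) {M : Equiv.Perm PTH.SP}
    (hM : RBM.IsM 4 (COR.half 1 (rotb b θ)) (MsDo o) M) {e : ℂ} (he : e = 1 ∨ e = -1) {s : ℝ} (hs : |s| < 1) :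
    M (Tw b θ (b (e, s, 0))) = Tw b (fun s => θ s + 2 * o * gs (2 * s)) (b (e, s, 0)) := by
  have hb₁ := rotb_box hb hθ.1
  have hn : ‖e‖ = 1 := by rcases he with rfl | rfl <;> simp
  rw [tw_strand hb _ he hs, tw_strand hb _ he hs]
  have e1 : b (ex (θ s) * e, s, 0) = COR.half 1 (rotb b θ) (e, 2 * s, 0) := by
    unfold COR.half rotb
    simp only [Par_cj]
    rw [show 2 * s / 2 = s by ring]
  by_cases h : |2 * s| < 1 / 8
  · rw [e1, hM.ball e (2 * s) 0 (by rw [hn]; norm_num) h, RBM.MsDo_low (by rw [hn]; norm_num)]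
    unfold COR.half rotb
    simp only [Par_cj]
    rw [show 2 * s / 2 = s by ring, Pool.Agent.RSG.ex_add, mul_assoc (ex (θ s))]
  · push Not at h
    rw [Pool.Agent.RSG.ex_add, Par_ex ho h, mul_one]
    apply hM.out
    intro y s' t hy hs' he'
    have h1 : rotb b θ (e, s, 0) = rotb b θ (cj 1 y, s' / 2, t) := he'
    rw [Par_cj] at h1
    have h2 := hb₁.inj e s 0 y (s' / 2) t (by rw [hn]; norm_num) hs (by linarith)
      (by rw [abs_div]; norm_num; linarith) h1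
    have h3 : 2 * s = s' := by rw [h2.2.1]; ring
    rw [h3] at h
    linarith

theorem Par_off {b : ℂ × ℝ × ℝ → PTH.SP} {θ : ℝ → ℝ}
    {o : ℝ} {M : Equiv.Perm PTH.SP}
    (hM : RBM.IsM 4 (COR.half 1 (rotb b θ)) (MsDo o) M) {p : PTH.SP}
    (hp : ∀ (z : ℂ) (s t : ℝ), ‖z‖ < 5 → |s| < 1 → p ≠ b (z, s, t)) :
    M (Tw b θ p) = Tw b (fun s => θ s + 2 * o * gs (2 * s)) p := by
  rw [tw_out θ (fun z s t hz hs he => hp z s t hz hs he.symm),
    tw_out _ (fun z s t hz hs he => hp z s t hz hs he.symm)]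
  apply hM.out
  intro y s' t hy hs' he
  refine hp (ex (θ (s' / 2)) * cj 1 y) (s' / 2) t ?_ ?_ he
  · rw [Par_cj, norm_mul, Pool.Agent.RSG.ex_norm, one_mul]
    linarith
  · rw [abs_div]; norm_num; linarith

theorem tw_four {a : ℝ → PTH.SP → PTH.SP} (ha : PTH.Act PTH.ISP a) {K : ℝ → PTH.SP}
    {b : ℂ × ℝ × ℝ → PTH.SP} (hb : Box PTH.ISP b 5) (heq : EquiB a b) {f₁ f₂ : ℝ → ℝ} {ε₁ ε₂ : ℝ}
    (hs : TwoStrands b K f₁ f₂ ε₁ ε₂) {θ : ℝ → ℝ} {m : ℤ} (hθ : IsStep θ m) {o : ℝ} (ho : o = 1 ∨ o = -1)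
    {n : ℤ} {X : Type*} [TopologicalSpace X] [ChartedSpace E4 X] [T2Space X]
    (h : PTH.Carries PTH.ISP a n (fun l => Tw b θ (K l)) X) :
    PTH.Carries PTH.ISP a n (fun l => Tw b (fun s => θ s + 2 * o * gs (2 * s)) (K l)) X := by
  obtain ⟨M, hM, hC⟩ := COR.four_core ha (rotb_box hb hθ.1) (rotb_equi heq θ) (rotb_two hb hs θ) ho
  have h1 := hC n X h
  have hper : ∀ l, K (l + 1) = K l := by
    obtain ⟨κ, j, hT, hκ, hK, -⟩ := h
    intro l
    apply tw_inj hb θ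
    have e1 := hK (l + 1)
    have e2 := hK l
    simp only at e1 e2
    rw [← e1, ← e2]
    exact hT.perl l 0 0
  have hperi : ∀ (l : ℝ) (k : ℤ), K (l + k) = K l := by
    intro l k
    have h2 : Function.Periodic K 1 := hper
    have := h2.int_mul k l
    simpa using this
  have key : ∀ l, f₁ (-1) < l → l ≤ f₁ (-1) + 1 →
      M (Tw b θ (K l)) = Tw b (fun s => θ s + 2 * o * gs (2 * s)) (K l) := by
    intro l hl0 hl1
    have habs : ∀ {ε u : ℝ}, ε = 1 ∨ ε = -1 → |u| < 1 → |ε * u| < 1 := by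
      intro ε u hε hu
      rw [abs_mul]
      rcases hε with rfl | rfl <;> simpa using hu
    rcases lt_or_ge l (f₁ 1) with h2 | h2
    · obtain ⟨u, hu, rfl⟩ := Par_ivt hs.smooth₁ hl0 h2
      rw [hs.strand₁ u hu]
      exact Par_strand hb hθ ho hM (Or.inl rfl) (habs hs.sign₁ hu)
    · rcases le_or_gt l (f₂ (-1)) with h3 | h3
      · exact Par_off hM (hs.off l (Or.inl ⟨h2, h3⟩))
      · rcases lt_or_ge l (f₂ 1) with h4 | h4
        · obtain ⟨u, hu, rfl⟩ := Par_ivt hs.smooth₂ h3 h4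
          rw [hs.strand₂ u hu]
          exact Par_strand hb hθ ho hM (Or.inr rfl) (habs hs.sign₂ hu)
        · exact Par_off hM (hs.off l (Or.inr ⟨h4, hl1⟩))
  have e : (fun l => M (Tw b θ (K l))) = fun l => Tw b (fun s => θ s + 2 * o * gs (2 * s)) (K l) := by
    funext l
    have hk : K l = K (l - ((⌈l - f₁ (-1)⌉ - 1 : ℤ) : ℝ)) := by
      rw [← hperi (l - ((⌈l - f₁ (-1)⌉ - 1 : ℤ) : ℝ)) (⌈l - f₁ (-1)⌉ - 1), sub_add_cancel]
    rw [hk]
    have c1 := Int.le_ceil (l - f₁ (-1))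
    have c2 := Int.ceil_lt_add_one (l - f₁ (-1))
    apply key
    · push_cast
      linarith
    · push_cast
      linarith
  rw [e] at h1
  exact h1

theorem Par_step {θ : ℝ → ℝ} {m : ℤ} (hθ : IsStep θ m) (oi : ℤ) :
    IsStep (fun s => θ s + 2 * (oi : ℝ) * gs (2 * s)) (m + 2 * oi) := by
  refine ⟨?_, ?_, ?_⟩
  · exact hθ.1.add (contDiff_const.mul ((CSG.stp_smooth _ _).comp (contDiff_const.mul contDiff_id)))
  · intro s hs
    simp only
    rw [hθ.2.1 s hs, Par_gs0 (by linarith)]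
    ring
  · intro s hs
    simp only
    rw [hθ.2.2 s hs, Par_gs1 (by linarith)]
    push_cast
    ring

theorem Par_ind {a : ℝ → PTH.SP → PTH.SP} (ha : PTH.Act PTH.ISP a) {K : ℝ → PTH.SP}
    {b : ℂ × ℝ × ℝ → PTH.SP} (hb : Box PTH.ISP b 5) (heq : EquiB a b) {f₁ f₂ : ℝ → ℝ} {ε₁ ε₂ : ℝ}
    (hs : TwoStrands b K f₁ f₂ ε₁ ε₂) {oi : ℤ} (hoi : oi = 1 ∨ oi = -1)
    {n : ℤ} {X : Type*} [TopologicalSpace X] [ChartedSpace E4 X] [T2Space X] (j : ℕ) :
    ∀ {θ θ' : ℝ → ℝ} {m m' : ℤ}, IsStep θ m → IsStep θ' m' → m' = m + 2 * oi * j →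
    PTH.Carries PTH.ISP a n (fun l => Tw b θ (K l)) X →
    PTH.Carries PTH.ISP a n (fun l => Tw b θ' (K l)) X := by
  induction j with
  | zero =>
    intro θ θ' m m' hθ hθ' he h
    have : m' = m := by rw [he]; simp
    subst this
    exact tw_slide ha hb heq hθ hθ' h
  | succ j ih =>
    intro θ θ' m m' hθ hθ' he h
    have ho : (oi : ℝ) = 1 ∨ (oi : ℝ) = -1 := by
      rcases hoi with rfl | rfl <;> simp
    have h1 := tw_four ha hb heq hs hθ ho h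
    refine ih (Par_step hθ oi) hθ' ?_ h1
    rw [he]
    push_cast
    ring

theorem tw_par {a : ℝ → PTH.SP → PTH.SP} (ha : PTH.Act PTH.ISP a) {K : ℝ → PTH.SP}
    {b : ℂ × ℝ × ℝ → PTH.SP} (hb : Box PTH.ISP b 5) (heq : EquiB a b) {f₁ f₂ : ℝ → ℝ} {ε₁ ε₂ : ℝ}
    (hs : TwoStrands b K f₁ f₂ ε₁ ε₂) {θ θ' : ℝ → ℝ} {m m' : ℤ} (hθ : IsStep θ m) (hθ' : IsStep θ' m')
    (he : Even (m - m')) {n : ℤ} {X : Type*} [TopologicalSpace X] [ChartedSpace E4 X] [T2Space X]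
    (h : PTH.Carries PTH.ISP a n (fun l => Tw b θ (K l)) X) :
    PTH.Carries PTH.ISP a n (fun l => Tw b θ' (K l)) X := by
  obtain ⟨r, hr⟩ := he
  rcases le_or_gt 0 r with h0 | h0
  · refine Par_ind ha hb heq hs (oi := -1) (Or.inr rfl) r.natAbs hθ hθ' ?_ h
    have : ((r.natAbs : ℕ) : ℤ) = r := by omega
    rw [this]
    linarith
  · refine Par_ind ha hb heq hs (oi := 1) (Or.inl rfl) r.natAbs hθ hθ' ?_ h
    have : ((r.natAbs : ℕ) : ℤ) = -r := by omega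
    rw [this]
    linarith

end Pool.Agent.SPR
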