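import Pool.Agent.SPR.SpA

/-!
# SPR/Thk: the level function of the ribbon   (difficulty 2)

`thk κ` (`0 < κ ≤ 1/10`): derivative `1 - (1 - κ) (st ((u - 1/2)/κ) + st ((-u - 1/2)/κ))` (`st = Real.smoothTransition`), at most one of the two terms is nonzero, each is `≤ 1`: derivative `≥ κ > 0`.  `|u| ≤ 1/2`: both `PS` are `0`.  `u = 1`: `(u - 1/2)/κ ≥ 5 ≥ 1`,
`thk = 1 - (1 - κ) (1/2 - κ/2) = 1/2 + κ - κ²/2 ≤ 1/2 + κ`; odd function.
`tv r v u = r/2 + (r - 2 v) thk (v/(10 r)) u` for `0 < v < r/2` (then `κ = v/(10 r) ≤ 1/20`): `|u| ≤ 1`: `|thk| ≤ 1/2 + κ`, `(r - 2 v)(1/2 + κ) ≤ r/2 - v + v/10`.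
-/

open scoped Manifold ContDiff Topology
open Set Filter
open Complex (I)
open Pool.Agent.RSG (E4 cj ex)

namespace Pool.Agent.SPR

theorem thk_hasDeriv {κ : ℝ} (hκ : 0 < κ) (u : ℝ) : HasDerivAt (thk κ)
    (1 - (1 - κ) * (Real.smoothTransition ((u - 1 / 2) / κ) + Real.smoothTransition ((-u - 1 / 2) / κ))) u := by
  have h1 : HasDerivAt (fun u : ℝ => (u - 1 / 2) / κ) (1 / κ) u :=
    ((hasDerivAt_id u).sub_const _).div_const _
  have h2 : HasDerivAt (fun u : ℝ => (-u - 1 / 2) / κ) (-1 / κ) u :=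
    (((hasDerivAt_id u).neg).sub_const _).div_const _
  have h3 := ((PS_deriv ((u - 1 / 2) / κ)).comp u h1).const_mul κ
  have h4 := ((PS_deriv ((-u - 1 / 2) / κ)).comp u h2).const_mul κ
  have h5 := (hasDerivAt_id u).sub ((h3.sub h4).const_mul (1 - κ))
  have h6 : (1 : ℝ) - (1 - κ) * (κ * (Real.smoothTransition ((u - 1 / 2) / κ) * (1 / κ)) -
      κ * (Real.smoothTransition ((-u - 1 / 2) / κ) * (-1 / κ))) =
      1 - (1 - κ) * (Real.smoothTransition ((u - 1 / 2) / κ) +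
        Real.smoothTransition ((-u - 1 / 2) / κ)) := by
    field_simp
    ring
  rw [h6] at h5
  exact h5

theorem thk_smooth (κ : ℝ) : ContDiff ℝ ∞ (thk κ) := by
  unfold thk
  have h1 : ContDiff ℝ ∞ fun u : ℝ => PS ((u - 1 / 2) / κ) :=
    PS_smooth.comp ((contDiff_id.sub contDiff_const).div_const κ)
  have h2 : ContDiff ℝ ∞ fun u : ℝ => PS ((-u - 1 / 2) / κ) :=
    PS_smooth.comp ((contDiff_id.neg.sub contDiff_const).div_const κ)
  exact contDiff_id.sub (contDiff_const.mul ((contDiff_const.mul h1).sub (contDiff_const.mul h2)))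

theorem thk_pos {κ : ℝ} (hκ : 0 < κ) (hκ' : κ < 1) (u : ℝ) :
    0 < 1 - (1 - κ) * (Real.smoothTransition ((u - 1 / 2) / κ) +
      Real.smoothTransition ((-u - 1 / 2) / κ)) := by
  have h : Real.smoothTransition ((u - 1 / 2) / κ) + Real.smoothTransition ((-u - 1 / 2) / κ) ≤ 1 := by
    rcases le_total u 0 with h0 | h0
    · have h1 : (u - 1 / 2) / κ ≤ 0 := div_nonpos_of_nonpos_of_nonneg (by linarith) hκ.le
      rw [Real.smoothTransition.zero_of_nonpos h1, zero_add]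
      exact Real.smoothTransition.le_one _
    · have h1 : (-u - 1 / 2) / κ ≤ 0 := div_nonpos_of_nonpos_of_nonneg (by linarith) hκ.le
      rw [Real.smoothTransition.zero_of_nonpos h1, add_zero]
      exact Real.smoothTransition.le_one _
  nlinarith

theorem thk_strictMono {κ : ℝ} (hκ : 0 < κ) (hκ' : κ < 1) : StrictMono (thk κ) := by
  apply strictMono_of_deriv_pos
  intro u
  rw [(thk_hasDeriv hκ u).deriv]
  exact thk_pos hκ hκ' u

theorem thk_neg (κ u : ℝ) : thk κ (-u) = -thk κ u := by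
  unfold thk
  rw [neg_neg]
  ring

theorem thk_one {κ : ℝ} (hκ : 0 < κ) (hκ' : κ ≤ 1 / 20) : thk κ 1 ≤ 1 / 2 + κ := by
  unfold thk
  have h1 : (-1 - 1 / 2) / κ ≤ 0 := div_nonpos_of_nonpos_of_nonneg (by norm_num) hκ.le
  have h2 : 1 ≤ ((1 : ℝ) - 1 / 2) / κ := by
    rw [le_div_iff₀ hκ]
    linarith
  rw [PS_zero h1, PS_one h2]
  have h3 : κ * (((1 : ℝ) - 1 / 2) / κ - 1 / 2) = 1 / 2 - κ / 2 := by
    field_simp
    ring
  rw [h3]
  nlinarith

theorem thk_mid {κ u : ℝ} (hκ : 0 < κ) (hu : |u| ≤ 1 / 2) : thk κ u = u := by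
  obtain ⟨h1, h2⟩ := abs_le.1 hu
  unfold thk
  rw [PS_zero (div_nonpos_of_nonpos_of_nonneg (by linarith) hκ.le),
    PS_zero (div_nonpos_of_nonpos_of_nonneg (by linarith) hκ.le)]
  ring

section
variable {r : ℕ} {v : ℝ}

theorem Thk_kap (hr : 1 ≤ r) (hv : 0 < v) : 0 < v / (10 * r) := by
  have : (1 : ℝ) ≤ r := by exact_mod_cast hr
  positivity

theorem Thk_kap' (hr : 1 ≤ r) (hv' : v < r / 2) : v / (10 * r) ≤ 1 / 20 := by
  have : (1 : ℝ) ≤ r := by exact_mod_cast hr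
  rw [div_le_iff₀ (by positivity)]
  linarith

theorem tv_smooth (r : ℕ) (v : ℝ) : ContDiff ℝ ∞ (tv r v) :=
  contDiff_const.add (contDiff_const.mul (thk_smooth _))

theorem Thk_hasDeriv (hr : 1 ≤ r) (hv : 0 < v) (u : ℝ) : HasDerivAt (tv r v)
    ((r - 2 * v) * (1 - (1 - v / (10 * r)) * (Real.smoothTransition ((u - 1 / 2) / (v / (10 * r))) +
      Real.smoothTransition ((-u - 1 / 2) / (v / (10 * r)))))) u :=
  ((thk_hasDeriv (Thk_kap hr hv) u).const_mul (r - 2 * v)).const_add (r / 2 : ℝ)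

theorem tv_deriv (hr : 1 ≤ r) (hv : 0 < v) (hv' : v < r / 2) (u : ℝ) : 0 < deriv (tv r v) u := by
  rw [(Thk_hasDeriv hr hv u).deriv]
  have h1 := Thk_kap' hr hv'
  exact mul_pos (by linarith) (thk_pos (Thk_kap hr hv) (by linarith) u)

theorem tv_strictMono (hr : 1 ≤ r) (hv : 0 < v) (hv' : v < r / 2) : StrictMono (tv r v) :=
  strictMono_of_deriv_pos (tv_deriv hr hv hv')

theorem tv_mid (r : ℕ) (v : ℝ) {u : ℝ} (hr : 1 ≤ r) (hv : 0 < v) (hu : |u| ≤ 1 / 2) :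
    tv r v u = r / 2 + (r - 2 * v) * u := by
  unfold tv
  rw [thk_mid (Thk_kap hr hv) hu]

theorem tv_bd (hr : 1 ≤ r) (hv : 0 < v) (hv' : v < r / 2) {u : ℝ} (hu : |u| ≤ 1) :
    9 / 10 * v ≤ tv r v u ∧ tv r v u ≤ r - 9 / 10 * v := by
  obtain ⟨h1, h2⟩ := abs_le.1 hu
  have hr' : (1 : ℝ) ≤ r := by exact_mod_cast hr
  have hκ := Thk_kap hr hv
  have hκ' := Thk_kap' hr hv'
  have hm := thk_strictMono hκ (by linarith)
  have e1 : thk (v / (10 * r)) u ≤ 1 / 2 + v / (10 * r) :=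
    le_trans (hm.monotone h2) (thk_one hκ hκ')
  have e2 : -thk (v / (10 * r)) u ≤ 1 / 2 + v / (10 * r) := by
    rw [← thk_neg]
    exact le_trans (hm.monotone (by linarith)) (thk_one hκ hκ')
  have e3 : (r : ℝ) * (v / (10 * r)) = v / 10 := by
    field_simp
  have e4 : (0 : ℝ) < r - 2 * v := by linarith
  unfold tv
  have e5 : (r - 2 * v) * (1 / 2 + v / (10 * r)) ≤ r / 2 - 9 / 10 * v := by
    have : (0 : ℝ) < v * (v / (10 * r)) := mul_pos hv hκ
    nlinarith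
  constructor
  · have := mul_le_mul_of_nonneg_left e2 e4.le
    linarith
  · have := mul_le_mul_of_nonneg_left e1 e4.le
    linarith

/-- the levels strictly between `v` and `r - v` are attained for `|u| < 1/2` -/
theorem tv_inv (hr : 1 ≤ r) (hv : 0 < v) (hv' : v < r / 2) {t : ℝ} (h : v < t) (h' : t < r - v) :
    |(t - r / 2) / (r - 2 * v)| < 1 / 2 ∧ tv r v ((t - r / 2) / (r - 2 * v)) = t := by
  have e4 : (0 : ℝ) < r - 2 * v := by linarith
  have e : |(t - r / 2) / (r - 2 * v)| < 1 / 2 := by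
    rw [abs_div, abs_of_pos e4, div_lt_iff₀ e4, abs_lt]
    constructor <;> linarith
  refine ⟨e, ?_⟩
  rw [tv_mid r v hr hv e.le, mul_div_cancel₀ _ e4.ne']
  ring

theorem tv_half (hr : 1 ≤ r) (hv : 0 < v) (hv' : v < r / 2) {u : ℝ} (h : v < tv r v u) (h' : tv r v u < r - v) :
    |u| < 1 / 2 := by
  have hm := (tv_strictMono hr hv hv').monotone
  rw [abs_lt]
  constructor
  · by_contra hc
    push Not at hc
    have h1 := hm hc
    rw [tv_mid r v (u := -(1 / 2)) hr hv (by rw [abs_neg, abs_of_pos] <;> norm_num)] at h1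
    linarith
  · by_contra hc
    push Not at hc
    have h1 := hm hc
    rw [tv_mid r v (u := 1 / 2) hr hv (by rw [abs_of_pos] <;> norm_num)] at h1
    linarith

end

end Pool.Agent.SPR
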