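import Pool.Agent.SPR.Sec
import Pool.Agent.SPR.Thk

/-!
# SPR/Rib: ribbons   (difficulty 2)

`rib_hbox`: `β q = Th r (B q, tv r v q.2)`, with `0.9 v ≤ tv ≤ r - 0.9 v`.  `loc`: `β = Th r ∘ (ζ, u ↦ (ζ, tv u)) ∘ (q ↦ (B q, q.2))`, composition of local diffeomorphisms (`Th_ld`; `(ζ, u) ↦ (ζ, tv u)`: derivative bijective, `CSG.ld_of_fderiv`).
`inj`: `Th_mt`: `tv u' = tv u + n`, `B (z, u) = Cn n * B (z', u')`.  `|n| < r`.  `B (z', u') = ‖B (z', u')‖ ex a` with `|a| ≤ hd`..: simplest: both `B` are within `20 |muR|` of `mR`; let `φ` be the argument of `B (z', u')` in turns, `|φ| ≤ 1/(160 r)` as in the proof of `thin`;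
`B (z, u) = x ex (φ - n / r)` is thin too, so `|φ - n/r - j| ≤ 1/(160 r)` for an integer `j`, so `|n + r j| ≤ 1/80`, `n = -r j`, and `|n| < r` gives `n = 0`.  Then `tv u' = tv u`, `u = u'` (`tv_strictMono`), `B (z, u) = B (z', u)`, `hi`.
`inn`: `‖(Th r (ζ, t)).1‖ = Lm t ‖ζ‖ < 1/100`.
`rib_two`: `f₁ u = rad r (tv r v u) / 4`, `f₂ u = rad r (r + tv r v u) / 4`, `ε₁ = ε₂ = 1`.  `strand₁`: `t = tv r v u ∈ (wd, r - wd)`, `γ (f₁ u) = Th r (zq r ε (rad r t), t) = Th r (rh0, t)` (`QArc.spiral`, `q_pt`, `zq_mid`, `S_mid`) `= β (1, u)`.  `strand₂`: `γ (f₂ u) = Th r (rh0, r + t) =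
Th r (Cn r * rh0, t) + (0, r)` (`Th_shift`) `= Th r (rad r r, t) + (0, r)`.  `off`: `sec_arc`: `l = f₁ u` or `f₂ u`.  `ord₂`: `tv 1 < r < r + tv (-1)`.  `ord₃`: `rad r (2 r) / 4 < 1/4`.
-/

open scoped Manifold ContDiff Topology
open Set Filter
open Complex (I)
open Pool.Agent.RSG (E4 cj ex)

namespace Pool.Agent.SPR

section
variable {r : ℕ} {ε v : ℝ} {γ : ℝ → ℂ × ℝ} {B : ℂ × ℝ → ℂ}

theorem Rib_small (hr : 1 ≤ r) {ζ : ℂ} (h : ‖ζ - mR r‖ ≤ 20 * -muR r) :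
    98 / 100 * rh0 ≤ ‖ζ‖ ∧ ‖ζ‖ ≤ 102 / 100 * rh0 := by
  have h1 := (muR_bd hr).2
  have h2 := mR_bd hr
  have hr' : (1 : ℝ) ≤ r := by exact_mod_cast hr
  have hrh : 0 < rh0 := by norm_num [rh0]
  have h3 : 1001 / 1000 * rh0 / (2000 * r) ≤ 1001 / 1000 * rh0 / 2000 := by
    apply div_le_div_of_nonneg_left (by positivity) (by norm_num)
    linarith
  have h4 : ‖ζ - mR r‖ ≤ 1 / 90 * rh0 := by linarith
  have h5 : ‖(mR r : ℂ)‖ = mR r := by
    rw [Complex.norm_real, Real.norm_eq_abs, abs_of_pos (by linarith)]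
  have h6 : ‖ζ‖ ≤ ‖ζ - mR r‖ + ‖(mR r : ℂ)‖ := by
    have := norm_add_le (ζ - mR r) (mR r : ℂ)
    rwa [sub_add_cancel] at this
  have h7 : ‖(mR r : ℂ)‖ - ‖ζ - mR r‖ ≤ ‖ζ‖ := by
    have := norm_sub_norm_le (mR r : ℂ) (mR r - ζ)
    rw [sub_sub_cancel, norm_sub_rev (mR r : ℂ) ζ] at this
    exact this
  rw [h5] at h6 h7
  constructor <;> linarith

theorem Rib_cn (hr : 1 ≤ r) {ζ ζ' : ℂ} (h : ‖ζ - mR r‖ ≤ 20 * -muR r) (h' : ‖ζ' - mR r‖ ≤ 20 * -muR r)
    {k : ℕ} (hk : k < r) (hk0 : k ≠ 0) (he : ζ = Cn r k * ζ') : False := by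
  have hr' : (1 : ℝ) ≤ r := by exact_mod_cast hr
  have hrh : 0 < rh0 := by norm_num [rh0]
  have h1 := Cn_dist hr hk (show 0 < r by omega) hk0
  rw [Nat.cast_zero, Cn_zero] at h1
  have h2 : ζ - ζ' = (Cn r k - 1) * ζ' := by rw [he]; ring
  have h3 : ‖ζ - ζ'‖ ≤ 40 * -muR r := by
    calc ‖ζ - ζ'‖ = ‖(ζ - mR r) - (ζ' - mR r)‖ := by ring_nf
      _ ≤ ‖ζ - mR r‖ + ‖ζ' - mR r‖ := norm_sub_le _ _
      _ ≤ 40 * -muR r := by linarith
  have h4 := (muR_bd hr).2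
  have h5 := (Rib_small hr h').1
  rw [h2, norm_mul] at h3
  have h6 : 3 / r * (98 / 100 * rh0) ≤ ‖Cn r k - 1‖ * ‖ζ'‖ :=
    mul_le_mul h1 h5 (by positivity) (norm_nonneg _)
  have h7 : 3 / r * (98 / 100 * rh0) ≤ 40 * (1001 / 1000 * rh0 / (2000 * r)) := by linarith
  have h8 : 3 / r * (98 / 100 * rh0) = 294 / 100 * (rh0 / r) := by ring
  have h9 : 40 * (1001 / 1000 * rh0 / (2000 * r)) = 40 * 1001 / 1000 / 2000 * (rh0 / r) := by
    field_simp
  rw [h8, h9] at h7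
  have h10 : 0 < rh0 / r := by positivity
  nlinarith

theorem Rib_zero (hr : 1 ≤ r) {ζ ζ' : ℂ} (h : ‖ζ - mR r‖ ≤ 20 * -muR r) (h' : ‖ζ' - mR r‖ ≤ 20 * -muR r)
    {n : ℤ} (hn : |(n : ℝ)| < r) (he : ζ = Cn r n * ζ') : n = 0 := by
  by_contra hne
  rcases lt_or_gt_of_ne hne with hlt | hgt
  · obtain ⟨k, hk⟩ := Int.eq_ofNat_of_zero_le (show 0 ≤ -n by omega)
    have hk' : (n : ℝ) = -(k : ℝ) := by
      have : n = -(k : ℤ) := by omega
      rw [this]
      push_cast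
      ring
    have hkr : k < r := by
      rw [hk', abs_neg, abs_of_nonneg (Nat.cast_nonneg k)] at hn
      exact_mod_cast hn
    refine Rib_cn hr h' h hkr (by omega) ?_
    rw [he, hk', ← mul_assoc, ← Cn_add, add_neg_cancel, Cn_zero, one_mul]
  · obtain ⟨k, hk⟩ := Int.eq_ofNat_of_zero_le (show 0 ≤ n by omega)
    have hk' : (n : ℝ) = (k : ℝ) := by rw [hk]; rfl
    have hkr : k < r := by
      rw [hk', abs_of_nonneg (Nat.cast_nonneg k)] at hn
      exact_mod_cast hn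
    refine Rib_cn hr h h' hkr (by omega) ?_
    rw [he, hk']

theorem rib_hbox (hr : 1 ≤ r) (hv : 0 < v) (hv' : v < r / 2)
    (hs : ∀ z u, ‖z‖ < 5 → |u| < 1 →
      IsLocalDiffeomorphAt 𝓘(ℝ, ℂ × ℝ) 𝓘(ℝ, ℂ × ℝ) ∞ (fun q : ℂ × ℝ => (B q, q.2)) (z, u))
    (hi : ∀ z z' u, ‖z‖ < 5 → ‖z'‖ < 5 → |u| < 1 → B (z, u) = B (z', u) → z = z')
    (hB : ∀ z u, ‖z‖ < 5 → |u| < 1 → ‖B (z, u) - mR r‖ ≤ 20 * -muR r) :
    HBox (fun q => Th r (B q, tv r v q.2)) 5 1 := by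
  have hrh : 0 < rh0 := by norm_num [rh0]
  refine ⟨?_, ?_, ?_⟩
  · intro z u hz hu
    have hT : ∀ q : ℂ × ℝ, IsLocalDiffeomorphAt 𝓘(ℝ, ℂ × ℝ) 𝓘(ℝ, ℂ × ℝ) ∞
        (fun q : ℂ × ℝ => (q.1, tv r v q.2)) q := by
      intro q
      refine CSG.ld_of_fderiv ?_ rfl ?_
      · exact Eventually.of_forall fun y =>
          (contDiff_fst.prodMk ((tv_smooth r v).comp contDiff_snd)).contDiffAt
      · intro w hw
        have d1 : HasDerivAt (tv r v) (deriv (tv r v) q.2) q.2 :=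
          ((tv_smooth r v).differentiable (by simp)).differentiableAt.hasDerivAt
        have d2 : HasFDerivAt (fun q : ℂ × ℝ => tv r v q.2)
            (deriv (tv r v) q.2 • ContinuousLinearMap.snd ℝ ℂ ℝ) q :=
          d1.comp_hasFDerivAt q hasFDerivAt_snd
        have d3 := (hasFDerivAt_fst (𝕜 := ℝ) (E := ℂ) (F := ℝ) (p := q)).prodMk d2
        have d4 : fderiv ℝ (fun q : ℂ × ℝ => (q.1, tv r v q.2)) q = _ := d3.fderiv
        rw [d4] at hw
        simp only [ContinuousLinearMap.prod_apply, smul_apply, ContinuousLinearMap.coe_fst',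
          ContinuousLinearMap.coe_snd', Prod.mk_eq_zero, smul_eq_mul, mul_eq_zero] at hw
        exact Prod.ext hw.1 (hw.2.resolve_left (tv_deriv hr hv hv' q.2).ne')
    have h1 : IsLocalDiffeomorphAt 𝓘(ℝ, ℂ × ℝ) 𝓘(ℝ, ℂ × ℝ) ∞
        ((fun q : ℂ × ℝ => (q.1, tv r v q.2)) ∘ (fun q : ℂ × ℝ => (B q, q.2))) (z, u) :=
      IsLocalDiffeomorphAt.comp (hf := hs z u hz hu) (hg := hT _) ..
    have h2 : IsLocalDiffeomorphAt 𝓘(ℝ, ℂ × ℝ) 𝓘(ℝ, ℂ × ℝ) ∞
        (Th r ∘ ((fun q : ℂ × ℝ => (q.1, tv r v q.2)) ∘ (fun q : ℂ × ℝ => (B q, q.2)))) (z, u) :=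
      IsLocalDiffeomorphAt.comp (hf := h1) (hg := Th_ld r _) ..
    exact h2
  · intro z u z' u' hz hu hz' hu' h
    obtain ⟨n, hn, he⟩ := (Th_mt r _ _ _ _).1 h
    have b1 := tv_bd hr hv hv' hu.le
    have b2 := tv_bd hr hv hv' hu'.le
    have hn' : |(n : ℝ)| < r := by
      rw [abs_lt]
      simp only at hn
      constructor <;> linarith
    have hn0 := Rib_zero hr (hB z u hz hu) (hB z' u' hz' hu') hn' he
    subst hn0
    simp only [Int.cast_zero, add_zero] at hn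
    have hu2 : u = u' := (tv_strictMono hr hv hv').injective hn.symm
    subst hu2
    rw [Int.cast_zero, Cn_zero, one_mul] at he
    exact ⟨hi z z' u hz hz' hu he, rfl⟩
  · intro z u hz hu
    show ‖(Th r (B (z, u), tv r v u)).1‖ < 1
    rw [Th_norm]
    have b1 := tv_bd hr hv hv' hu.le
    have hr' : (1 : ℝ) ≤ r := by exact_mod_cast hr
    have b2 := Lm_bd hr (x := tv r v u) (by rw [abs_of_nonneg (by linarith)]; linarith)
    have b3 := (Rib_small hr (hB z u hz hu)).2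
    have b4 : Lm r (tv r v u) ≤ 121 / 120 := by
      have := (abs_le.1 b2).2
      linarith
    have b5 : Lm r (tv r v u) * ‖B (z, u)‖ ≤ 121 / 120 * (102 / 100 * rh0) :=
      mul_le_mul b4 b3 (norm_nonneg _) (by norm_num)
    have b6 : rh0 = 1 / 1000 := rfl
    rw [b6] at b5
    linarith

theorem Rib_rad_deriv (hr : 1 ≤ r) (c : ℝ) {u : ℝ} (h : 0 < deriv (tv r v) u) :
    0 < deriv (fun u => rad r (c + tv r v u) / 4) u := by
  have d1 : HasDerivAt (tv r v) (deriv (tv r v) u) u :=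
    ((tv_smooth r v).differentiable (by simp)).differentiableAt.hasDerivAt
  have d2 : HasDerivAt (fun u => rad r (c + tv r v u) / 4)
      (rh0 * (Real.exp (vt r * (c + tv r v u)) * (vt r * deriv (tv r v) u)) / 4) u := by
    have d3 := (((d1.const_add c).const_mul (vt r)).exp.const_mul rh0).div_const 4
    exact d3
  rw [d2.deriv]
  have h1 := vt_pos hr
  have h2 := Real.exp_pos (vt r * (c + tv r v u))
  have h3 : 0 < rh0 := by norm_num [rh0]
  positivity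

theorem Rib_rad_smooth (r : ℕ) (v c : ℝ) : ContDiff ℝ ∞ (fun u => rad r (c + tv r v u) / 4) := by
  unfold rad
  exact (contDiff_const.mul ((Lm_smooth r).comp (contDiff_const.add (tv_smooth r v)))).div_const 4

theorem Rib_pt (hr : 1 ≤ r) (hγ : QArc r ε γ) {x : ℝ} (h1 : wd r ≤ x) (h2 : x ≤ 2 * r - wd r)
    (h3 : x ≤ r - wd r ∨ r + wd r ≤ x) : γ (rad r x / 4) = Th r (rh0, x) := by
  have hr' : (1 : ℝ) ≤ r := by exact_mod_cast hr
  have hw := wd_pos hr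
  have e4 : 4 * (rad r x / 4) = rad r x := by ring
  have a1 : rad r (wd r) ≤ 4 * (rad r x / 4) := by
    rw [e4]
    rcases h1.eq_or_lt with h | h
    · rw [← h]
    · exact (rad_lt hr h).le
  have a2 : 4 * (rad r x / 4) ≤ 1 / 8 := by
    rw [e4]
    have := (abs_le.1 (rad_bd hr (x := x) (by rw [abs_of_nonneg (by linarith)]; linarith))).2
    have b6 : rh0 = 1 / 1000 := rfl
    rw [b6] at this
    linarith
  rw [hγ.spiral _ a1 a2]
  unfold PTH.arc
  rw [e4]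
  have := q_pt r ε (rad r x)
  rw [← this, S_mid hr (by linarith) h2, zq_mid hr ε (by linarith) h2 h3]

theorem rib_two (hr : 1 ≤ r) (hε : |ε| ≤ 1) (hγ : QArc r ε γ) (hv : 5 / 4 * wd r < v) (hv' : v < r / 2)
    (hB : ∀ z u, ‖z‖ < 5 → |u| < 1 → ‖B (z, u) - mR r‖ ≤ 20 * -muR r)
    (hB₁ : ∀ u, |u| < 1 → B (1, u) = rh0) (hB₂ : ∀ u, |u| < 1 → B (-1, u) = rad r r) :
    ATwo (fun q => Th r (B q, tv r v q.2)) γ (fun u => rad r (tv r v u) / 4)
      (fun u => rad r (r + tv r v u) / 4) 1 1 := by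
  have hw := wd_pos hr
  have hv0 : 0 < v := by linarith
  have hr' : (1 : ℝ) ≤ r := by exact_mod_cast hr
  have hf1 : (fun u => rad r (tv r v u) / 4) = fun u => rad r (0 + tv r v u) / 4 := by
    funext u
    rw [zero_add]
  have htv : ∀ u, |u| < 1 → wd r < tv r v u ∧ tv r v u < r - wd r := by
    intro u hu
    have := tv_bd hr hv0 hv' hu.le
    constructor <;> linarith
  have t1 := tv_bd hr hv0 hv' (u := 1) (by norm_num)
  have t2 := tv_bd hr hv0 hv' (u := -1) (by norm_num)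
  refine ⟨?_, ?_, ?_, ?_, Or.inl rfl, Or.inl rfl, ?_, ?_, ?_, ?_, ?_, ?_⟩
  · rw [hf1]
    exact Rib_rad_smooth r v 0
  · exact Rib_rad_smooth r v r
  · intro u
    rw [hf1]
    exact Rib_rad_deriv hr 0 (tv_deriv hr hv0 hv' u)
  · intro u
    exact Rib_rad_deriv hr r (tv_deriv hr hv0 hv' u)
  · have := rad_pos r (tv r v (-1))
    show -(1 / 4) < rad r (tv r v (-1)) / 4
    linarith
  · have := rad_lt hr (show tv r v 1 < r + tv r v (-1) by linarith)
    show rad r (tv r v 1) / 4 < rad r (r + tv r v (-1)) / 4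
    linarith
  · show rad r (r + tv r v 1) / 4 < 1 / 4
    have := (abs_le.1 (rad_bd hr (x := r + tv r v 1) (by rw [abs_of_nonneg (by linarith)]; linarith))).2
    have b6 : rh0 = 1 / 1000 := rfl
    rw [b6] at this
    linarith
  · intro u hu
    obtain ⟨h1, h2⟩ := htv u hu
    refine ⟨0, ?_⟩
    show γ (rad r (tv r v u) / 4) = Th r (B (1, 1 * u), tv r v (1 * u)) + (0, ((0 : ℤ) : ℝ))
    rw [one_mul, hB₁ u hu, Rib_pt hr hγ h1.le (by linarith) (Or.inl h2.le)]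
    simp
  · intro u hu
    obtain ⟨h1, h2⟩ := htv u hu
    refine ⟨r, ?_⟩
    show γ (rad r (r + tv r v u) / 4) = Th r (B (-1, 1 * u), tv r v (1 * u)) + (0, (((r : ℕ) : ℤ) : ℝ))
    rw [one_mul, hB₂ u hu, Rib_pt hr hγ (x := r + tv r v u) (by linarith) (by linarith) (Or.inr (by linarith))]
    have h3 := Th_shift r (rh0 : ℂ) (tv r v u) (r : ℤ)
    have h4 : (((r : ℕ) : ℤ) : ℝ) = (r : ℝ) := by push_cast; rfl
    rw [h4] at h3 ⊢
    rw [add_comm (r : ℝ) (tv r v u), h3, Cn_r hr]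
    congr 3
    unfold rad
    push_cast
    ring
  · intro l hl hne z s hz hs hMT
    obtain ⟨h1, h2⟩ := htv s hs
    rcases sec_arc hr hε hγ h1 h2 (hB z s hz hs) hl hMT with ⟨h3, -⟩ | ⟨h3, -⟩
    · apply (hne s hs).1
      show l = rad r (tv r v s) / 4
      linarith
    · apply (hne s hs).2
      show l = rad r (r + tv r v s) / 4
      linarith

/-- the affine ribbon -/
noncomputable def Bf (r : ℕ) (q : ℂ × ℝ) : ℂ := mR r + muR r * q.1

/-- the affine ribbon in the solid torus -/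
noncomputable def rbf (r : ℕ) (v : ℝ) (q : ℂ × ℝ) : ℂ × ℝ := Th r (Bf r q, tv r v q.2)

theorem Rib_Bf (hr : 1 ≤ r) (z : ℂ) (u : ℝ) (hz : ‖z‖ < 5) : ‖Bf r (z, u) - mR r‖ ≤ 20 * -muR r := by
  have h1 : Bf r (z, u) - mR r = muR r * z := by
    unfold Bf
    ring
  have h2 := muR_neg hr
  rw [h1, norm_mul, Complex.norm_real, Real.norm_eq_abs, abs_of_neg h2]
  nlinarith [norm_nonneg z]

theorem rbf_hbox (hr : 1 ≤ r) (hv : 0 < v) (hv' : v < r / 2) : HBox (rbf r v) 5 1 := by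
  have h2 := muR_neg hr
  have h3 : (muR r : ℂ) ≠ 0 := by exact_mod_cast h2.ne
  refine rib_hbox hr hv hv' (B := Bf r) ?_ ?_ ?_
  · intro z u _ _
    let T : (ℂ × ℝ) ≃ (ℂ × ℝ) :=
      { toFun := fun q => (Bf r q, q.2)
        invFun := fun q => ((q.1 - mR r) / muR r, q.2)
        left_inv := by
          intro q
          refine Prod.ext ?_ rfl
          show (mR r + muR r * q.1 - mR r) / (muR r : ℂ) = q.1
          field_simp
          ring
        right_inv := by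
          intro q
          refine Prod.ext ?_ rfl
          show (mR r : ℂ) + muR r * ((q.1 - mR r) / muR r) = q.1
          field_simp
          ring }
    have hT : ContDiff ℝ ∞ T := by
      have : ContDiff ℝ ∞ (fun q : ℂ × ℝ => ((mR r : ℂ) + muR r * q.1, q.2)) := by fun_prop
      exact this
    have hT' : ContDiff ℝ ∞ T.symm := by
      have : ContDiff ℝ ∞ (fun q : ℂ × ℝ => ((q.1 - mR r) / (muR r : ℂ), q.2)) := by fun_prop
      exact this
    exact CSG.ld_of_perm hT hT' (z, u)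
  · intro z z' u _ _ _ h
    unfold Bf at h
    have h4 := add_left_cancel h
    exact mul_left_cancel₀ h3 h4
  · intro z u hz _
    exact Rib_Bf hr z u hz

theorem rbf_two (hr : 1 ≤ r) (hε : |ε| ≤ 1) (hγ : QArc r ε γ) (hv : 5 / 4 * wd r < v) (hv' : v < r / 2) :
    ATwo (rbf r v) γ (fun u => rad r (tv r v u) / 4) (fun u => rad r (r + tv r v u) / 4) 1 1 := by
  refine rib_two hr hε hγ hv hv' (B := Bf r) (fun z u hz _ => Rib_Bf hr z u hz) ?_ ?_
  · intro u _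
    unfold Bf
    rw [mul_one, ← Complex.ofReal_add, mR_add]
  · intro u _
    unfold Bf
    rw [← mR_sub r]
    push_cast
    ring

end

end Pool.Agent.SPR
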