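import Pool.Agent.SPR.SpS

/-!
# SPR/Sec: the points of the arc near the ray of the strands `0` and `r`   (difficulty 3)

`sec_arc`.  Let `MT (Th r (ζ, t)) (γ l)`, `wd < t < r - wd`, `‖ζ - mR‖ ≤ 20 |muR|` (so `0.98 rh0 ≤ ‖ζ‖ ≤ 1.02 rh0`; `‖(Th r (ζ, t)).1‖ = Lm t ‖ζ‖ < 1/100`).
* `4 l ≥ 1/8`: `outer`, the first components have the same norm: contradiction.
* `4 l ≤ -rad (1/2)`: `γ l = (4 l, 0) = Th r (-4 l, 0)` (`Cn 0 = 1`), `Th_mt`: `0 = t + n`, `ζ = Cn n * x`, `x = -4 l > 0`: `ζ = x Lm n * ex (-n/r)`; `thin`: `r ∣ n`; but `n = -t ∈ (-r, 0)`: contradiction.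
* inner: `γ l = Th r (ζ', s)`, `0 ≤ s ≤ wd`: `s = t + n` so `n < 0`, `n > -r` (`n = s - t > - r`), `ζ = Cn n * ζ'`.  If `‖ζ'‖ ≤ 3/4 rh0`: `‖ζ‖ = Lm n ‖ζ'‖ ≤ 3/4 rh0`: contradiction.  If `ζ' = x > 0`: `thin`: `r ∣ n`: contradiction.
* spiral: `γ l = Th r (zq r ε ρ, S)`, `ρ = 4 l ≥ rad wd ≥ rh0`, `S = Ssp r ρ` (`q_pt`, `PTH.arc`): `S = t + n`, `ζ = Cn n * zq = (Lm n ρ Lm (-S)) * ex (D - n/r)`, `|D| ≤ hd` (`D_bd`): `thin`: `n = r j`; `0 ≤ S ≤ 2 r - wd/2` gives `-r < n < 2 r`, so `n = 0` or `n = r`.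
  `n = 0`: `S = t ∈ [wd, r - wd]`, `ρ = rad r t` (`S_inv`), `ζ = zq r ε (rad r t) = rh0` (`zq_mid`).  `n = r`: `S = t + r ∈ [r + wd, 2 r - wd]`, `ρ = rad r (r + t)`, `ζ = Cn r * rh0 = Lm r rh0 = rad r r` (`Cn_r`).
`qarc_path`: `w = qsp r ε` on `ρ ≤ 1/8`.  `pin`: `w (4 l) = (0, 0)` (`q_start`), `ex 0 = 1`.  `inner`: `γ l = Th r (zq r ε (4 l), Ssp r (4 l))`, `Ssp ≤ wd` (`S_mono`, `S_mid`).  `4 l ≤ rh0/2`: `‖zq‖ ≤ |4 l| Lm (-S)`: for `4 l < 0` `zq = -4 l` is real positive `≤ rad (1/2)` (`zq_low`);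
for `0 ≤ 4 l ≤ rh0/2` the norm is `≤ 4 l ≤ 3/4 rh0`.  `4 l ≥ rh0/2`: `D = 0`, `zq` is real positive, `≤ 4 l ≤ rad wd ≤ rad (1/2)`.  `outer`: `‖(PTH.arc w l).1‖ = |4 l|`.
-/

open scoped Manifold ContDiff Topology
open Set Filter
open Complex (I)
open Pool.Agent.RSG (E4 cj ex)

namespace Pool.Agent.SPR

section
variable {r : ℕ} {ε : ℝ} {γ : ℝ → ℂ × ℝ}

theorem Sec_cn (r : ℕ) (n : ℤ) (x D : ℝ) :
    Cn r n * ((x : ℂ) * ex D) = ((Lm r n * x : ℝ) : ℂ) * ex (D - n / r) := by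
  unfold Cn
  rw [sub_eq_add_neg, RSG.ex_add]
  push_cast
  ring

theorem Sec_thin (hr : 1 ≤ r) {ζ : ℂ} (hζ : ‖ζ - mR r‖ ≤ 20 * -muR r) {n : ℤ} {x D : ℝ} (hx : 0 < x)
    (hD : |D| ≤ hd r) (h : ζ = Cn r n * ((x : ℂ) * ex D)) : ∃ j : ℤ, n = r * j := by
  have hm := mR_bd hr
  have hrh : (0 : ℝ) < rh0 := by norm_num [rh0]
  have hmp : 0 < mR r := lt_of_lt_of_le hrh hm.1
  refine thin hr hmp (mul_pos (Lm_pos r n) hx) hD (ζ := ζ) ?_ ?_
  · refine hζ.trans ?_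
    have h1 := (muR_bd hr).2
    have hr' : (0 : ℝ) < r := by exact_mod_cast hr
    calc 20 * -muR r ≤ 20 * (1001 / 1000 * rh0 / (2000 * r)) := by linarith
      _ = (20 * 1001 / 1000 * 90 / 2000 * rh0) / (90 * r) := by field_simp
      _ ≤ mR r / (90 * r) := by
          apply div_le_div_of_nonneg_right _ (by positivity)
          linarith
  · rw [h, Sec_cn]

theorem Sec_norm (hr : 1 ≤ r) {ζ : ℂ} (hζ : ‖ζ - mR r‖ ≤ 20 * -muR r) :
    98 / 100 * rh0 ≤ ‖ζ‖ ∧ ‖ζ‖ ≤ 102 / 100 * rh0 := by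
  have hm := mR_bd hr
  have h1 := (muR_bd hr).2
  have hrh : (0 : ℝ) < rh0 := by norm_num [rh0]
  have hr' : (1 : ℝ) ≤ r := by exact_mod_cast hr
  have h2 : 1001 / 1000 * rh0 / (2000 * r) ≤ 1001 / 1000 * rh0 / 2000 := by
    apply div_le_div_of_nonneg_left (by positivity) (by norm_num)
    linarith
  have hn : ‖(mR r : ℂ)‖ = mR r := by
    rw [Complex.norm_real, Real.norm_eq_abs, abs_of_pos (lt_of_lt_of_le hrh hm.1)]
  have h3 : ‖(mR r : ℂ)‖ - ‖ζ - mR r‖ ≤ ‖ζ‖ := by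
    have := norm_sub_norm_le (mR r : ℂ) ((mR r : ℂ) - ζ)
    rw [norm_sub_rev ζ]
    simpa using this
  have h4 : ‖ζ‖ ≤ ‖(mR r : ℂ)‖ + ‖ζ - mR r‖ := by
    have := norm_add_le (mR r : ℂ) (ζ - mR r)
    simpa using this
  constructor <;> linarith

theorem Sec_noint (hr : 1 ≤ r) {n j : ℤ} (h : n = r * j) (h1 : -(r : ℝ) < n) (h2 : (n : ℝ) < 0) : False := by
  have hr' : (0 : ℤ) < r := by exact_mod_cast hr
  have h3 : -(r : ℤ) < n := by exact_mod_cast h1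
  have h4 : n < 0 := by exact_mod_cast h2
  rw [h] at h3 h4
  have h5 : j < 0 := by
    by_contra hj
    push Not at hj
    have := mul_nonneg hr'.le hj
    omega
  have h6 : -1 < j := by
    by_contra hj
    push Not at hj
    have : (r : ℤ) * j ≤ r * (-1) := mul_le_mul_of_nonneg_left hj hr'.le
    omega
  omega

theorem Sec_arc_pt (r : ℕ) (ε l : ℝ) : PTH.arc (qsp r ε) l = Th r (zq r ε (4 * l), Ssp r (4 * l)) := by
  rw [q_pt]
  rfl

theorem Sec_radwd (hr : 1 ≤ r) : rh0 < rad r (wd r) := by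
  rw [← rad_zero r]
  exact rad_lt hr (wd_pos hr)

theorem sec_arc (hr : 1 ≤ r) (hε : |ε| ≤ 1) (hγ : QArc r ε γ) {t : ℝ} {ζ : ℂ} {l : ℝ} (ht : wd r < t)
    (ht' : t < r - wd r) (hζ : ‖ζ - mR r‖ ≤ 20 * -muR r) (hl : |l| < 1 / 4) (h : MT (Th r (ζ, t)) (γ l)) :
    (4 * l = rad r t ∧ ζ = rh0) ∨ (4 * l = rad r (r + t) ∧ ζ = rad r r) := by
  have hrh : (0 : ℝ) < rh0 := by norm_num [rh0]
  have hr' : (1 : ℝ) ≤ r := by exact_mod_cast hr
  have hw0 := wd_pos hr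
  obtain ⟨hz1, hz2⟩ := Sec_norm hr hζ
  rcases le_or_gt (1 / 8) (4 * l) with hA | hA
  · exfalso
    have h1 := hγ.outer l hA (abs_lt.1 hl).2
    obtain ⟨m, hm⟩ := h
    rw [hm] at h1
    simp only [Prod.fst_add, add_zero] at h1
    rw [Th_norm] at h1
    have h2 := Lm_bd hr (x := t) (by rw [abs_of_pos (by linarith)]; linarith)
    rw [abs_le] at h2
    have h3 : Lm r t * ‖ζ‖ ≤ (1 + 1 / 120) * (102 / 100 * rh0) := by
      apply mul_le_mul (by linarith) hz2 (norm_nonneg _) (by norm_num)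
    norm_num [rh0] at h3
    linarith
  rcases le_or_gt (4 * l) (-rad r (1 / 2)) with hB | hB
  · exfalso
    rw [hγ.pin l (by linarith [(abs_lt.1 hl).1]) hB] at h
    have h1 : (((4 * l : ℝ) : ℂ), (0 : ℝ)) = Th r (((-(4 * l) : ℝ) : ℂ), 0) := by
      unfold Th
      simp only [Cn_zero]
      push_cast
      ring_nf
    rw [h1, Th_mt] at h
    obtain ⟨n, hn1, hn2⟩ := h
    have h4 : 0 < -(4 * l) := by linarith [rad_pos r (1 / 2)]
    obtain ⟨j, hj⟩ := Sec_thin hr hζ (n := n) (x := -(4 * l)) (D := 0) h4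
      (by rw [abs_zero]; exact (hd_pos hr).le) (by rw [hn2, RSG.ex_zero, mul_one])
    exact Sec_noint hr hj (by linarith) (by linarith)
  rcases le_or_gt (4 * l) (rad r (wd r)) with hC | hC
  · exfalso
    obtain ⟨ζ', s, h1, h2, h3, h4⟩ := hγ.inner l hB.le hC
    rw [h1, Th_mt] at h
    obtain ⟨n, hn1, hn2⟩ := h
    have hneg : (n : ℝ) < 0 := by linarith
    have hgt : -(r : ℝ) < n := by linarith
    rcases h4 with h4 | ⟨x, hx1, hx2, rfl⟩
    · have h5 : ‖ζ‖ ≤ 3 / 4 * rh0 := by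
        rw [hn2, norm_mul, Cn_norm]
        have h6 : Lm r n < 1 := by
          rw [← Lm_zero r]
          exact Lm_lt hr hneg
        calc Lm r n * ‖ζ'‖ ≤ 1 * ‖ζ'‖ := mul_le_mul_of_nonneg_right h6.le (norm_nonneg _)
          _ ≤ 3 / 4 * rh0 := by rw [one_mul]; exact h4
      linarith
    · obtain ⟨j, hj⟩ := Sec_thin hr hζ (n := n) (x := x) (D := 0) hx1
        (by rw [abs_zero]; exact (hd_pos hr).le) (by rw [hn2, RSG.ex_zero, mul_one])
      exact Sec_noint hr hj hgt hneg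
  · rw [hγ.spiral l hC.le hA.le, Sec_arc_pt, Th_mt] at h
    obtain ⟨n, hn1, hn2⟩ := h
    have hρ : rh0 < 4 * l := lt_trans (Sec_radwd hr) hC
    have hρ0 : 0 < 4 * l := lt_trans hrh hρ
    obtain ⟨j, hj⟩ := Sec_thin hr hζ (n := n) (x := 4 * l * Lm r (-Ssp r (4 * l)))
      (D := Dsp r ε (4 * l)) (mul_pos hρ0 (Lm_pos _ _)) (D_bd hr hε (by linarith)) hn2
    have hS0 := S_nonneg hr (4 * l)
    have hS1 := S_le hr (4 * l)
    have hnr : (n : ℝ) = r * j := by exact_mod_cast hj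
    have hj1 : -1 < j := by
      have h1 : -(r : ℝ) < r * j := by linarith
      have h2 : (-1 : ℝ) < j := by
        by_contra hcon
        push Not at hcon
        have := mul_le_mul_of_nonneg_left hcon (by linarith : (0 : ℝ) ≤ r)
        linarith
      exact_mod_cast h2
    have hj2 : j < 2 := by
      have h1 : (r : ℝ) * j < r * 2 := by linarith
      have h2 : (j : ℝ) < 2 := lt_of_mul_lt_mul_left h1 (by linarith)
      exact_mod_cast h2
    have hj3 : j = 0 ∨ j = 1 := by omega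
    rcases hj3 with rfl | rfl
    · left
      have hn0 : n = 0 := by rw [hj, mul_zero]
      subst hn0
      have hSt : Ssp r (4 * l) = t := by rw [hn1]; push_cast; ring
      have h1 := S_inv hr (ρ := 4 * l) (by rw [hSt]; exact ht.le) (by rw [hSt]; linarith)
      rw [hSt] at h1
      refine ⟨h1, ?_⟩
      rw [hn2, h1, zq_mid hr ε (by linarith) (by linarith) (Or.inl ht'.le)]
      push_cast
      rw [Cn_zero, one_mul]
    · right
      have hn0 : n = r := by rw [hj, mul_one]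
      subst hn0
      have hSt : Ssp r (4 * l) = r + t := by rw [hn1]; push_cast; ring
      have h1 := S_inv hr (ρ := 4 * l) (by rw [hSt]; linarith) (by rw [hSt]; linarith)
      rw [hSt] at h1
      refine ⟨h1, ?_⟩
      rw [hn2, h1, zq_mid hr ε (by linarith) (by linarith) (Or.inr (by linarith))]
      push_cast
      rw [Cn_r hr]
      unfold rad
      push_cast
      ring

theorem qarc_path (hr : 1 ≤ r) (ε : ℝ) {w : ℝ → ℝ × ℝ} (hw : ∀ ρ ≤ 1 / 8, w ρ = qsp r ε ρ) :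
    QArc r ε (PTH.arc w) := by
  have hrh : (0 : ℝ) < rh0 := by norm_num [rh0]
  have hr' : (1 : ℝ) ≤ r := by exact_mod_cast hr
  have hw0 := wd_pos hr
  have hw1 := wd_le hr
  have hrad1 : rad r (wd r) ≤ 1 / 8 := by
    have h1 := rad_bd hr (x := wd r) (by rw [abs_of_pos hw0]; linarith)
    rw [abs_le] at h1
    norm_num [rh0] at h1
    linarith
  have hrad2 : rad r (wd r) ≤ rad r (1 / 2) := (rad_lt hr (by linarith)).le
  refine ⟨?_, ?_, ?_, ?_⟩
  · intro l hl1 hl2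
    have h1 : w (4 * l) = (0, 0) := by
      have := rad_pos r (1 / 2)
      rw [hw _ (by linarith), q_start hr ε (by linarith)]
    unfold PTH.arc
    rw [h1]
    simp only [RSG.ex_zero, mul_one]
  · intro l hl1 hl2
    have h1 : PTH.arc w l = Th r (zq r ε (4 * l), Ssp r (4 * l)) := by
      rw [← Sec_arc_pt]
      unfold PTH.arc
      rw [hw _ (by linarith)]
    have hS0 := S_nonneg hr (4 * l)
    have hS1 : Ssp r (4 * l) ≤ wd r := by
      calc Ssp r (4 * l) ≤ Ssp r (rad r (wd r)) := S_mono hr hl2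
        _ = wd r := S_mid hr (by linarith) (by linarith)
    refine ⟨_, _, h1, hS0, hS1, ?_⟩
    rcases lt_or_ge (4 * l) 0 with h2 | h2
    · right
      exact ⟨-(4 * l), by linarith, by linarith, zq_low hr ε (by linarith)⟩
    rcases le_or_gt (4 * l) (rh0 / 2) with h3 | h3
    · left
      rw [zq_norm, abs_of_nonneg h2]
      have h4 : Lm r (-Ssp r (4 * l)) ≤ 1 := by
        rcases hS0.eq_or_lt with h5 | h5
        · rw [← h5, neg_zero, Lm_zero]
        · rw [← Lm_zero r]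
          exact (Lm_lt hr (by linarith)).le
      calc 4 * l * Lm r (-Ssp r (4 * l)) ≤ 4 * l * 1 := mul_le_mul_of_nonneg_left h4 h2
        _ ≤ 3 / 4 * rh0 := by linarith
    · right
      have h5 : Dsp r ε (4 * l) = 0 := D_zero hr ε h3.le (Or.inl (by linarith))
      have h4 : Lm r (-Ssp r (4 * l)) ≤ 1 := by
        rcases hS0.eq_or_lt with h5 | h5
        · rw [← h5, neg_zero, Lm_zero]
        · rw [← Lm_zero r]
          exact (Lm_lt hr (by linarith)).le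
      refine ⟨4 * l * Lm r (-Ssp r (4 * l)), mul_pos (by linarith) (Lm_pos _ _), ?_, ?_⟩
      · calc 4 * l * Lm r (-Ssp r (4 * l)) ≤ 4 * l * 1 := mul_le_mul_of_nonneg_left h4 h2
          _ ≤ rad r (1 / 2) := by linarith
      · unfold zq
        rw [h5, RSG.ex_zero, mul_one]
  · intro l hl1 hl2
    unfold PTH.arc
    rw [hw _ hl2]
  · intro l hl1 hl2
    unfold PTH.arc
    rw [norm_mul, RSG.ex_norm, mul_one, Complex.norm_real, Real.norm_eq_abs]
    exact hl1.trans (le_abs_self _)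

end

end Pool.Agent.SPR
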