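import Pool.Agent.SPR.SpF

/-!
# SPR/SpA: elementary facts on `PS`, `Λ^x`, `C^x` and the box coordinates   (difficulty 2)

* `PS`: `intervalIntegral.integral_hasDerivAt_right`; `PS x = 0` for `x ≤ 0` (`Real.smoothTransition.zero_of_nonpos`); `PS 1 = 1/2` because `smoothTransition (1 - x) = 1 - smoothTransition x` (definition: quotient of `expNegInvGlue`; compare
  `CSG.FunBasic_symm`, `CSG.lam_half`); for `x ≥ 1` the derivative of `PS x - x` is `0`.  `PS_le`: the derivative is in `[0, 1]`.  `PS_ge_lin`: `x ↦ PS x - (x - 1/2)` is antitone and `0` for `x ≥ 1`.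
* `Lm`: exponential laws.  `Lm_bd`: `|vt r * x| ≤ 4 / (1000 r) ≤ 1/250` for `|x| ≤ 4 r`, `|exp y - 1| ≤ 2 |y|` for `|y| ≤ 1` (`Real.abs_exp_sub_one_le`).
* `del_bd`: `rad r r - rh0 = rh0 (exp (1 / (1000 r)) - 1)` and `y ≤ exp y - 1 ≤ y + y²`.
* `Th_mt`: `MT (Th r (ζ, s)) (Th r (ζ', s'))` iff `∃ n, -(C^s' ζ') = -(C^s ζ) ∧ s' = s + n`; `C^(s + n) = C^s C^n`.
* `Th_ld`: `Th r` is smooth and bijective `ℂ × ℝ → ℂ × ℝ` with the smooth inverse `(z, s) ↦ (-(C^(-s) z), s)`: `CSG.ld_of_perm`.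
* `thin`: let `‖ζ - ρ‖ ≤ ρ / (90 r)` with `ρ > 0` real and `‖C^n e(D) x - ζ‖ = 0`, i.e. `ζ = x * ex (D - n / r)` with `x > 0`, `|D| ≤ hd r`: then `r ∣ n`.  Proof: `|Im ζ| / Re ζ ≤ 1 / (80 r)`, so with `φ = D - n/r`: `|tan (2 π φ)| ≤ 1 / (80 r)` and `cos (2 π φ) > 0`; so the
  distance of `φ` from the next integer `j` is `≤ 1 / (160 r)` (`|x| ≤ |tan x|` for `|x| < π/2`).  Multiply by `r`: `|r D - n - r j| ≤ 1 / 160`, `|r D| ≤ 1 / 100000`, so the integer `n + r j` is `0`.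
-/

open scoped Manifold ContDiff Topology
open Set Filter
open Complex (I)
open Pool.Agent.RSG (E4 cj ex)

namespace Pool.Agent.SPR

theorem PS_deriv (x : ℝ) : HasDerivAt PS (Real.smoothTransition x) x :=
  (Real.smoothTransition.continuous.integral_hasStrictDerivAt 0 x).hasDerivAt
theorem PS_smooth : ContDiff ℝ ∞ PS := by
  rw [contDiff_infty_iff_deriv]
  refine ⟨fun x => (PS_deriv x).differentiableAt, ?_⟩
  have e : deriv PS = Real.smoothTransition := funext fun x => (PS_deriv x).deriv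
  rw [e]
  exact Real.smoothTransition.contDiff
theorem PS_zero {x : ℝ} (h : x ≤ 0) : PS x = 0 := by
  unfold PS
  have h1 : ∫ t in (0 : ℝ)..x, Real.smoothTransition t = ∫ t in (0 : ℝ)..x, (0 : ℝ) := by
    apply intervalIntegral.integral_congr
    intro t ht
    rw [uIcc_of_ge h] at ht
    exact Real.smoothTransition.zero_of_nonpos ht.2
  rw [h1]
  simp
theorem SpA_st (x : ℝ) : Real.smoothTransition x + Real.smoothTransition (1 - x) = 1 := by
  have h := CSG.FunBasic_symm (a := 0) (b := 1) one_pos x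
  unfold CSG.stp at h
  simp only [sub_zero, div_one, zero_add] at h
  linarith
theorem SpA_sym (x : ℝ) : PS x - PS (1 - x) = x - 1 / 2 := by
  have hd : ∀ x : ℝ, HasDerivAt (fun x => PS x - PS (1 - x) - x) 0 x := by
    intro x
    have h1 := PS_deriv x
    have h2 : HasDerivAt (fun x => PS (1 - x)) (-Real.smoothTransition (1 - x)) x :=
      (PS_deriv (1 - x)).comp_const_sub 1 x
    have h3 := (h1.sub h2).sub (hasDerivAt_id x)
    have e : Real.smoothTransition x - -Real.smoothTransition (1 - x) - 1 = 0 := by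
      have := SpA_st x
      linarith
    rw [e] at h3
    exact h3
  have hc : ∀ x y : ℝ, PS x - PS (1 - x) - x = PS y - PS (1 - y) - y :=
    is_const_of_deriv_eq_zero (fun x => (hd x).differentiableAt) (fun x => (hd x).deriv)
  have h0 := hc x 0
  have h1 := hc 1 0
  simp only [sub_zero, sub_self, PS_zero (le_refl (0 : ℝ))] at h0 h1
  linarith
theorem PS_one {x : ℝ} (h : 1 ≤ x) : PS x = x - 1 / 2 := by
  have h1 := SpA_sym x
  rw [PS_zero (x := 1 - x) (by linarith), sub_zero] at h1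
  exact h1
theorem PS_mono : Monotone PS :=
  monotone_of_deriv_nonneg (fun x => (PS_deriv x).differentiableAt) fun x => by
    rw [(PS_deriv x).deriv]
    exact Real.smoothTransition.nonneg x
theorem PS_nonneg (x : ℝ) : 0 ≤ PS x := by
  rcases le_total x 0 with h | h
  · rw [PS_zero h]
  · have := PS_mono h
    rw [PS_zero le_rfl] at this
    exact this
theorem PS_le {x : ℝ} (h : 0 ≤ x) : PS x ≤ x := by
  have hm : Monotone fun x => x - PS x :=
    monotone_of_deriv_nonneg (fun x => (((hasDerivAt_id x).sub (PS_deriv x))).differentiableAt) fun x => by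
      have e : deriv (fun x => x - PS x) x = 1 - Real.smoothTransition x :=
        ((hasDerivAt_id x).sub (PS_deriv x)).deriv
      rw [e]
      linarith [Real.smoothTransition.le_one x]
  have h1 := hm h
  simp only [PS_zero le_rfl, sub_zero] at h1
  linarith
theorem PS_ge_lin (x : ℝ) : x - 1 / 2 ≤ PS x := by
  have h1 := SpA_sym x
  have h2 := PS_nonneg (1 - x)
  linarith

theorem bp_smooth : ContDiff ℝ ∞ bp := by
  unfold bp
  exact (Real.smoothTransition.contDiff.comp (contDiff_const.add contDiff_id)).mul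
    (Real.smoothTransition.contDiff.comp (contDiff_const.sub contDiff_id))
theorem bp_zero {x : ℝ} (h : 1 ≤ |x|) : bp x = 0 := by
  unfold bp
  rcases le_abs'.1 h with h1 | h1
  · rw [Real.smoothTransition.zero_of_nonpos (by linarith), zero_mul]
  · rw [Real.smoothTransition.zero_of_nonpos (x := 1 - x) (by linarith), mul_zero]
theorem bp_pos {x : ℝ} (h : |x| < 1) : 0 < bp x := by
  obtain ⟨h1, h2⟩ := abs_lt.1 h
  exact mul_pos (Real.smoothTransition.pos_of_pos (by linarith)) (Real.smoothTransition.pos_of_pos (by linarith))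
theorem bp_nonneg (x : ℝ) : 0 ≤ bp x :=
  mul_nonneg (Real.smoothTransition.nonneg _) (Real.smoothTransition.nonneg _)
theorem bp_le (x : ℝ) : bp x ≤ 1 :=
  mul_le_one₀ (Real.smoothTransition.le_one _) (Real.smoothTransition.nonneg _) (Real.smoothTransition.le_one _)
theorem bp_at : bp 0 = 1 := by
  unfold bp
  rw [add_zero, sub_zero, Real.smoothTransition.one, mul_one]

section
variable {r : ℕ} (hr : 1 ≤ r)

theorem SpA_r (hr : 1 ≤ r) : (1 : ℝ) ≤ r := by exact_mod_cast hr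
theorem vt_pos (hr : 1 ≤ r) : 0 < vt r := by
  have h := SpA_r hr
  unfold vt
  positivity
theorem wd_pos (hr : 1 ≤ r) : 0 < wd r := by
  have h := SpA_r hr
  unfold wd
  positivity
theorem wd_le (hr : 1 ≤ r) : wd r ≤ 1 / 1000 := by
  have h := SpA_r hr
  unfold wd
  rw [div_le_div_iff₀ (by positivity) (by norm_num)]
  linarith
theorem hd_pos (hr : 1 ≤ r) : 0 < hd r := by
  have h := SpA_r hr
  unfold hd
  positivity
theorem hd_le (hr : 1 ≤ r) : hd r ≤ 1 / 100000 := by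
  have h := SpA_r hr
  unfold hd
  rw [div_le_div_iff₀ (by positivity) (by norm_num)]
  linarith
theorem Lm_pos (r : ℕ) (x : ℝ) : 0 < Lm r x := Real.exp_pos _
theorem Lm_zero (r : ℕ) : Lm r 0 = 1 := by simp [Lm]
theorem Lm_add (r : ℕ) (x y : ℝ) : Lm r (x + y) = Lm r x * Lm r y := by
  rw [Lm, Lm, Lm, mul_add, Real.exp_add]
theorem Lm_neg (r : ℕ) (x : ℝ) : Lm r (-x) = (Lm r x)⁻¹ := by
  rw [Lm, Lm, mul_neg, Real.exp_neg]
theorem Lm_lt (hr : 1 ≤ r) {x y : ℝ} (h : x < y) : Lm r x < Lm r y :=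
  Real.exp_lt_exp.2 (mul_lt_mul_of_pos_left h (vt_pos hr))
theorem Lm_smooth (r : ℕ) : ContDiff ℝ ∞ (Lm r) := by
  unfold Lm
  exact Real.contDiff_exp.comp (contDiff_const.mul contDiff_id)
theorem Lm_bd (hr : 1 ≤ r) {x : ℝ} (h : |x| ≤ 4 * r) : |Lm r x - 1| ≤ 1 / 120 := by
  have h1 := SpA_r hr
  have h2 : |vt r * x| ≤ 1 / 250 := by
    rw [abs_mul, abs_of_pos (vt_pos hr)]
    have h3 : vt r * |x| ≤ vt r * (4 * r) := mul_le_mul_of_nonneg_left h (vt_pos hr).le
    refine h3.trans ?_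
    unfold vt
    rw [div_mul_eq_mul_div, one_mul, div_le_div_iff₀ (by positivity) (by norm_num)]
    nlinarith
  unfold Lm
  have h4 := Real.abs_exp_sub_one_le (h2.trans (by norm_num))
  linarith
theorem rad_pos (r : ℕ) (x : ℝ) : 0 < rad r x := mul_pos (by norm_num [rh0]) (Lm_pos r x)
theorem SpA_rh0 : 0 < rh0 := by norm_num [rh0]
theorem rad_lt (hr : 1 ≤ r) {x y : ℝ} (h : x < y) : rad r x < rad r y :=
  mul_lt_mul_of_pos_left (Lm_lt hr h) SpA_rh0
theorem rad_zero (r : ℕ) : rad r 0 = rh0 := by simp [rad, Lm_zero]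
theorem lam_rad (hr : 1 ≤ r) (x : ℝ) : lam r (rad r x) = x := by
  unfold lam rad
  rw [mul_div_cancel_left₀ _ SpA_rh0.ne']
  unfold Lm
  rw [Real.log_exp, mul_div_cancel_left₀ _ (vt_pos hr).ne']
theorem rad_lam (hr : 1 ≤ r) {ρ : ℝ} (h : 0 < ρ) : rad r (lam r ρ) = ρ := by
  unfold rad Lm lam
  rw [mul_div_cancel₀ _ (vt_pos hr).ne', Real.exp_log (div_pos h SpA_rh0), mul_div_cancel₀ _ SpA_rh0.ne']
theorem rad_bd (hr : 1 ≤ r) {x : ℝ} (h : |x| ≤ 4 * r) : |rad r x - rh0| ≤ rh0 / 120 := by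
  have h1 := Lm_bd hr h
  have e : rad r x - rh0 = rh0 * (Lm r x - 1) := by unfold rad; ring
  rw [e, abs_mul, abs_of_pos SpA_rh0]
  have := mul_le_mul_of_nonneg_left h1 SpA_rh0.le
  linarith
theorem SpA_y (hr : 1 ≤ r) : vt r * r = 1 / (1000 * r) := by
  have h1 := SpA_r hr
  unfold vt
  field_simp
theorem SpA_exp (hr : 1 ≤ r) : 1 / (1000 * r) ≤ Lm r r - 1 ∧ Lm r r - 1 ≤ 1001 / 1000 * (1 / (1000 * (r : ℝ))) := by
  have h1 := SpA_r hr
  have hy0 : 0 < 1 / (1000 * (r : ℝ)) := by positivity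
  have hy1 : 1 / (1000 * (r : ℝ)) ≤ 1 / 1000 := by
    rw [div_le_div_iff₀ (by positivity) (by norm_num)]
    linarith
  unfold Lm
  rw [SpA_y hr]
  generalize 1 / (1000 * (r : ℝ)) = y at hy0 hy1
  have h2 := Real.add_one_le_exp y
  have h3 := Real.abs_exp_sub_one_sub_id_le (x := y) (by rw [abs_of_pos hy0]; linarith)
  have h4 := (abs_le.1 h3).2
  constructor
  · linarith
  · nlinarith

/-- `δ = rad r r - rh0` -/
theorem del_bd (hr : 1 ≤ r) : rh0 / (1000 * r) ≤ rad r r - rh0 ∧ rad r r - rh0 ≤ 1001 / 1000 * rh0 / (1000 * r) := by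
  obtain ⟨h1, h2⟩ := SpA_exp hr
  have e : rad r r - rh0 = rh0 * (Lm r r - 1) := by unfold rad; ring
  have e1 : rh0 / (1000 * r) = rh0 * (1 / (1000 * r)) := by ring
  have e2 : 1001 / 1000 * rh0 / (1000 * r) = rh0 * (1001 / 1000 * (1 / (1000 * r))) := by ring
  rw [e, e1, e2]
  exact ⟨mul_le_mul_of_nonneg_left h1 SpA_rh0.le, mul_le_mul_of_nonneg_left h2 SpA_rh0.le⟩
theorem muR_neg (hr : 1 ≤ r) : muR r < 0 := by
  have h := rad_lt (r := r) hr (x := 0) (y := r) (by have := SpA_r hr; linarith)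
  rw [rad_zero] at h
  unfold muR
  linarith
theorem muR_bd (hr : 1 ≤ r) : rh0 / (2000 * r) ≤ -muR r ∧ -muR r ≤ 1001 / 1000 * rh0 / (2000 * r) := by
  obtain ⟨h1, h2⟩ := del_bd hr
  have hr' := SpA_r hr
  have e1 : rh0 / (2000 * r) = rh0 / (1000 * r) / 2 := by
    field_simp
    ring
  have e2 : 1001 / 1000 * rh0 / (2000 * r) = 1001 / 1000 * rh0 / (1000 * r) / 2 := by
    field_simp
    ring
  rw [e1, e2]
  unfold muR
  constructor <;> linarith
theorem mR_bd (hr : 1 ≤ r) : rh0 ≤ mR r ∧ mR r ≤ 1001 / 1000 * rh0 := by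
  obtain ⟨h1, h2⟩ := del_bd hr
  have hr' := SpA_r hr
  have h3 : 0 ≤ rh0 / (1000 * r) := div_nonneg SpA_rh0.le (by positivity)
  have h4 : 1001 / 1000 * rh0 / (1000 * r) ≤ 2 / 1000 * rh0 := by
    rw [div_le_iff₀ (by positivity)]
    have := SpA_rh0
    nlinarith
  unfold mR
  constructor <;> linarith
theorem mR_add (r : ℕ) : mR r + muR r = rh0 := by simp [mR, muR]; ring
theorem mR_sub (r : ℕ) : mR r - muR r = rad r r := by simp [mR, muR]; ring
/-- the strand `2 r` is far away -/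
theorem rad_two (hr : 1 ≤ r) : 2 * (rad r r - rh0) < rad r (2 * r) - rh0 := by
  have h1 : 1 < Lm r r := by
    have := Lm_lt (r := r) hr (x := 0) (y := r) (by have := SpA_r hr; linarith)
    rw [Lm_zero] at this
    exact this
  have e : Lm r (2 * r) = Lm r r * Lm r r := by rw [two_mul, Lm_add]
  unfold rad
  rw [e]
  have h2 : 0 < (Lm r r - 1) * (Lm r r - 1) := mul_pos (by linarith) (by linarith)
  have := mul_pos SpA_rh0 h2
  nlinarith

theorem Cn_zero (r : ℕ) : Cn r 0 = 1 := by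
  unfold Cn
  rw [Lm_zero, zero_div, neg_zero, Pool.Agent.RSG.ex_zero]
  simp
theorem Cn_add (r : ℕ) (x y : ℝ) : Cn r (x + y) = Cn r x * Cn r y := by
  unfold Cn
  have e : -((x + y) / r) = -(x / r) + -(y / r) := by ring
  rw [Lm_add, e, Pool.Agent.RSG.ex_add]
  push_cast
  ring
theorem Cn_norm (r : ℕ) (x : ℝ) : ‖Cn r x‖ = Lm r x := by
  unfold Cn
  rw [norm_mul, Pool.Agent.RSG.ex_norm, mul_one, Complex.norm_real, Real.norm_of_nonneg (Lm_pos r x).le]
theorem Cn_ne (r : ℕ) (x : ℝ) : Cn r x ≠ 0 := by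
  rw [← norm_ne_zero_iff, Cn_norm]
  exact (Lm_pos r x).ne'
theorem Cn_r (hr : 1 ≤ r) : Cn r r = Lm r r := by
  have h1 := SpA_r hr
  unfold Cn
  have e : -((r : ℝ) / r) = ((-1 : ℤ) : ℝ) := by
    rw [div_self (by positivity)]
    simp
  rw [e, Pool.Agent.RSG.ex_int, mul_one]
theorem Cn_smooth (r : ℕ) : ContDiff ℝ ∞ (Cn r) := by
  unfold Cn
  exact (Complex.ofRealCLM.contDiff.comp (Lm_smooth r)).mul
    (Pool.Agent.RSG.ex_smooth.comp (contDiff_id.div_const _).neg)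
theorem SpA_sin {r d : ℕ} (h1 : 1 ≤ d) (h2 : d < r) : 2 / (r : ℝ) ≤ Real.sin (Real.pi * (d / r)) := by
  have hr : (0 : ℝ) < r := by
    have : 0 < r := by omega
    exact_mod_cast this
  have hpi := Real.pi_pos
  have key : ∀ m : ℕ, 1 ≤ m → 2 * m ≤ r → 2 / (r : ℝ) ≤ Real.sin (Real.pi * (m / r)) := by
    intro m hm hm2
    have hm' : (1 : ℝ) ≤ m := by exact_mod_cast hm
    have hm2' : 2 * (m : ℝ) ≤ r := by exact_mod_cast hm2
    have a1 : (m : ℝ) / r ≤ 1 / 2 := by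
      rw [div_le_div_iff₀ hr (by norm_num)]
      linarith
    have a2 := Real.mul_le_sin (x := Real.pi * (m / r)) (by positivity) (by nlinarith)
    have e : 2 / Real.pi * (Real.pi * (m / r)) = 2 * m / r := by
      field_simp
    rw [e] at a2
    refine le_trans ?_ a2
    exact div_le_div_of_nonneg_right (by linarith) hr.le
  rcases Nat.lt_or_ge r (2 * d) with h | h
  · have h3 := key (r - d) (by omega) (by omega)
    have e : Real.pi * (d / r) = Real.pi - Real.pi * ((r - d : ℕ) / r) := by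
      rw [Nat.cast_sub h2.le]
      field_simp
      ring
    rw [e, Real.sin_pi_sub]
    exact h3
  · exact key d h1 h
theorem SpA_two (a b s t : ℝ) : ‖(a : ℂ) * ex s - b * ex t‖ ^ 2 =
    (a - b) ^ 2 + 4 * (a * b) * Real.sin (Real.pi * (s - t)) ^ 2 := by
  rw [Complex.sq_norm, Complex.normSq_apply, Complex.sub_re, Complex.sub_im, Complex.re_ofReal_mul,
    Complex.re_ofReal_mul, Complex.im_ofReal_mul, Complex.im_ofReal_mul, Pool.Agent.RSG.ex_re,
    Pool.Agent.RSG.ex_re, Pool.Agent.RSG.ex_im, Pool.Agent.RSG.ex_im]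
  have h1 : Real.cos (2 * Real.pi * s - 2 * Real.pi * t) = 1 - 2 * Real.sin (Real.pi * (s - t)) ^ 2 := by
    have e : 2 * Real.pi * s - 2 * Real.pi * t = 2 * (Real.pi * (s - t)) := by ring
    rw [e, Real.cos_two_mul, Real.cos_sq']
    ring
  rw [Real.cos_sub] at h1
  have h2 := Real.sin_sq_add_cos_sq (2 * Real.pi * s)
  have h3 := Real.sin_sq_add_cos_sq (2 * Real.pi * t)
  linear_combination a ^ 2 * h2 + b ^ 2 * h3 - 2 * a * b * h1
theorem SpA_dist (hr : 1 ≤ r) {i j : ℕ} (hj : j < r) (hij : i < j) : 3 / r ≤ ‖Cn r i - Cn r j‖ := by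
  have h1 := SpA_r hr
  have hs := SpA_sin (r := r) (d := j - i) (by omega) (by omega)
  have hL : ∀ k : ℕ, 1 ≤ Lm r k := by
    intro k
    unfold Lm
    exact Real.one_le_exp (mul_nonneg (vt_pos hr).le (by positivity))
  have e := SpA_two (Lm r i) (Lm r j) (-(i / r)) (-(j / r))
  have e2 : Real.pi * (-((i : ℝ) / r) - -((j : ℝ) / r)) = Real.pi * ((j - i : ℕ) / r) := by
    rw [Nat.cast_sub hij.le]
    ring
  rw [e2] at e
  have h3 : (3 / (r : ℝ)) ^ 2 ≤ ‖Cn r i - Cn r j‖ ^ 2 := by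
    unfold Cn
    rw [e]
    have hr0 : (0 : ℝ) < 2 / r := by positivity
    have a1 : (2 / (r : ℝ)) ^ 2 ≤ Real.sin (Real.pi * ((j - i : ℕ) / r)) ^ 2 := pow_le_pow_left₀ hr0.le hs 2
    have a2 : 1 ≤ Lm r i * Lm r j := one_le_mul_of_one_le_of_one_le (hL i) (hL j)
    have a3 : (3 / (r : ℝ)) ^ 2 = 9 / 4 * (2 / (r : ℝ)) ^ 2 := by ring
    rw [a3]
    have a4 : 0 < (2 / (r : ℝ)) ^ 2 := by positivity
    nlinarith [sq_nonneg (Lm r i - Lm r j), mul_le_mul_of_nonneg_right a2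
      (sq_nonneg (Real.sin (Real.pi * ((j - i : ℕ) / r))))]
  exact (sq_le_sq₀ (by positivity) (norm_nonneg _)).1 h3
/-- the numbers `C^i`, `0 ≤ i < r`, are far apart -/
theorem Cn_dist (hr : 1 ≤ r) {i j : ℕ} (hi : i < r) (hj : j < r) (hij : i ≠ j) : 3 / r ≤ ‖Cn r i - Cn r j‖ := by
  rcases lt_or_gt_of_ne hij with h | h
  · exact SpA_dist hr hj h
  · rw [norm_sub_rev]
    exact SpA_dist hr hi h

theorem Th_shift (r : ℕ) (ζ : ℂ) (s : ℝ) (n : ℤ) : Th r (ζ, s + n) = Th r (Cn r n * ζ, s) + (0, (n : ℝ)) := by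
  unfold Th
  refine Prod.ext ?_ rfl
  change -(Cn r (s + n) * ζ) = -(Cn r s * (Cn r n * ζ)) + 0
  rw [Cn_add]
  ring
theorem Th_mt (r : ℕ) (ζ ζ' : ℂ) (s s' : ℝ) :
    MT (Th r (ζ, s)) (Th r (ζ', s')) ↔ ∃ n : ℤ, s' = s + n ∧ ζ = Cn r n * ζ' := by
  constructor
  · rintro ⟨n, hn⟩
    have h1 : -(Cn r s' * ζ') = -(Cn r s * ζ) + 0 := congrArg Prod.fst hn
    have h2 : s' = s + n := congrArg Prod.snd hn
    refine ⟨n, h2, ?_⟩
    rw [h2, Cn_add] at h1
    have h3 : Cn r s * ζ = Cn r s * (Cn r n * ζ') := by linear_combination h1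
    exact mul_left_cancel₀ (Cn_ne r s) h3
  · rintro ⟨n, h2, h1⟩
    refine ⟨n, ?_⟩
    rw [h2, Th_shift, h1]
theorem Th_norm (r : ℕ) (ζ : ℂ) (s : ℝ) : ‖(Th r (ζ, s)).1‖ = Lm r s * ‖ζ‖ := by
  unfold Th
  rw [norm_neg, norm_mul, Cn_norm]
theorem Th_smooth (r : ℕ) : ContDiff ℝ ∞ (Th r) := by
  unfold Th
  exact (((Cn_smooth r).comp contDiff_snd).mul contDiff_fst).neg.prodMk contDiff_snd
noncomputable def SpA_inv (r : ℕ) (q : ℂ × ℝ) : ℂ × ℝ := (-(Cn r (-q.2) * q.1), q.2)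
theorem SpA_inv_smooth (r : ℕ) : ContDiff ℝ ∞ (SpA_inv r) := by
  unfold SpA_inv
  exact (((Cn_smooth r).comp contDiff_snd.neg).mul contDiff_fst).neg.prodMk contDiff_snd
theorem SpA_c1 (r : ℕ) (s : ℝ) : Cn r (-s) * Cn r s = 1 := by
  rw [← Cn_add, neg_add_cancel, Cn_zero]
theorem SpA_left (r : ℕ) (q : ℂ × ℝ) : SpA_inv r (Th r q) = q := by
  unfold SpA_inv Th
  refine Prod.ext ?_ rfl
  change -(Cn r (-q.2) * -(Cn r q.2 * q.1)) = q.1
  linear_combination q.1 * SpA_c1 r q.2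
theorem SpA_right (r : ℕ) (q : ℂ × ℝ) : Th r (SpA_inv r q) = q := by
  unfold SpA_inv Th
  refine Prod.ext ?_ rfl
  change -(Cn r q.2 * -(Cn r (-q.2) * q.1)) = q.1
  linear_combination q.1 * SpA_c1 r q.2
theorem Th_ld (r : ℕ) (q : ℂ × ℝ) : IsLocalDiffeomorphAt 𝓘(ℝ, ℂ × ℝ) 𝓘(ℝ, ℂ × ℝ) ∞ (Th r) q := by
  have h := CSG.ld_of_perm (f := (⟨Th r, SpA_inv r, SpA_left r, SpA_right r⟩ : (ℂ × ℝ) ≃ (ℂ × ℝ)))
    (Th_smooth r) (SpA_inv_smooth r) q
  exact h
theorem Th_inj (r : ℕ) : Function.Injective (Th r) := Function.LeftInverse.injective (SpA_left r)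

/-- a point in the thin sector with argument `D - n / r`: `r` divides `n` -/
theorem thin (hr : 1 ≤ r) {ρ x D : ℝ} (hρ : 0 < ρ) (hx : 0 < x) (hD : |D| ≤ hd r) {n : ℤ} {ζ : ℂ}
    (hζ : ‖ζ - ρ‖ ≤ ρ / (90 * r)) (h : ζ = x * ex (D - n / r)) : ∃ j : ℤ, n = r * j := by
  have h1 := SpA_r hr
  have hr0 : (0 : ℝ) < r := by linarith
  have hpi := Real.pi_pos
  obtain ⟨φ, hφ⟩ : ∃ φ : ℝ, φ = D - n / r := ⟨_, rfl⟩
  obtain ⟨ψ, hψ⟩ : ∃ ψ : ℝ, ψ = φ - round φ := ⟨_, rfl⟩
  have hψ2 : |ψ| ≤ 1 / 2 := by rw [hψ]; exact abs_sub_round φ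
  have hex : ex (D - n / r) = ex ψ := by
    rw [← hφ]
    have : φ = ψ + ((round φ : ℤ) : ℝ) := by rw [hψ]; ring
    rw [this, Pool.Agent.RSG.ex_add_int]
  rw [hex] at h
  have hb : ρ / (90 * r) ≤ ρ / 90 := by
    apply div_le_div_of_nonneg_left hρ.le (by norm_num)
    linarith
  have hre : |ζ.re - ρ| ≤ ρ / (90 * r) := by
    have := Complex.abs_re_le_norm (ζ - ρ)
    rw [Complex.sub_re, Complex.ofReal_re] at this
    exact this.trans hζ
  have him : |ζ.im| ≤ ρ / (90 * r) := by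
    have := Complex.abs_im_le_norm (ζ - ρ)
    rw [Complex.sub_im, Complex.ofReal_im, sub_zero] at this
    exact this.trans hζ
  have e1 : ζ.re = x * Real.cos (2 * Real.pi * ψ) := by
    rw [h, Complex.re_ofReal_mul, Pool.Agent.RSG.ex_re]
  have e2 : ζ.im = x * Real.sin (2 * Real.pi * ψ) := by
    rw [h, Complex.im_ofReal_mul, Pool.Agent.RSG.ex_im]
  have hre' : 89 / 90 * ρ ≤ ζ.re := by
    have := (abs_le.1 hre).1
    linarith
  have hx1 : 89 / 90 * ρ ≤ x := by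
    have := Real.cos_le_one (2 * Real.pi * ψ)
    rw [e1] at hre'
    nlinarith
  have hcos : 0 < Real.cos (2 * Real.pi * ψ) := by
    have h3 : 0 < x * Real.cos (2 * Real.pi * ψ) := by rw [← e1]; nlinarith
    exact (pos_iff_pos_of_mul_pos h3).1 hx
  have hq : |ψ| < 1 / 4 := by
    by_contra hc
    push Not at hc
    have h3 : Real.cos (2 * Real.pi * |ψ|) ≤ 0 :=
      Real.cos_nonpos_of_pi_div_two_le_of_le (by nlinarith) (by nlinarith)
    have h4 : Real.cos (2 * Real.pi * |ψ|) = Real.cos (2 * Real.pi * ψ) := by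
      rcases abs_choice ψ with h5 | h5
      · rw [h5]
      · rw [h5, mul_neg, Real.cos_neg]
    linarith
  have hsin : 4 * |ψ| ≤ |Real.sin (2 * Real.pi * ψ)| := by
    have h3 := Real.mul_le_sin (x := 2 * Real.pi * |ψ|) (by positivity) (by nlinarith)
    have e : 2 / Real.pi * (2 * Real.pi * |ψ|) = 4 * |ψ| := by
      field_simp
      ring
    rw [e] at h3
    have h4 : |Real.sin (2 * Real.pi * ψ)| = |Real.sin (2 * Real.pi * |ψ|)| := by
      rcases abs_choice ψ with h5 | h5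
      · rw [h5]
      · rw [h5, mul_neg, Real.sin_neg, abs_neg]
    rw [h4]
    exact h3.trans (le_abs_self _)
  have hbound : (r : ℝ) * |ψ| ≤ 1 / 300 := by
    have h3 : x * |Real.sin (2 * Real.pi * ψ)| ≤ ρ / (90 * r) := by
      rw [e2, abs_mul, abs_of_pos hx] at him
      exact him
    have h4 : (89 / 90 * ρ) * (4 * |ψ|) ≤ ρ / (90 * r) :=
      (mul_le_mul hx1 hsin (by positivity) hx.le).trans h3
    rw [le_div_iff₀ (by positivity)] at h4
    have h5 : ρ * ((r : ℝ) * |ψ| * 356) ≤ ρ * 1 := by nlinarith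
    have h6 := le_of_mul_le_mul_left h5 hρ
    linarith
  have hrD : |(r : ℝ) * D| ≤ 1 / 100000 := by
    rw [abs_mul, abs_of_pos hr0]
    have h3 : (r : ℝ) * |D| ≤ r * hd r := mul_le_mul_of_nonneg_left hD hr0.le
    have e : (r : ℝ) * hd r = 1 / 100000 := by
      unfold hd
      field_simp
    linarith
  have hint : |((n + r * round φ : ℤ) : ℝ)| < 1 := by
    have e : ((n + r * round φ : ℤ) : ℝ) = r * D - r * ψ := by
      rw [hψ, hφ]
      push_cast
      field_simp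
      ring
    rw [e]
    have h3 := abs_sub (r * D) (r * ψ)
    have h4 : |(r : ℝ) * ψ| = r * |ψ| := by rw [abs_mul, abs_of_pos hr0]
    rw [h4] at h3
    linarith
  have hz : n + r * round φ = 0 := by
    have h3 : |n + r * round φ| < 1 := by exact_mod_cast hint
    exact Int.abs_lt_one_iff.1 h3
  exact ⟨-round φ, by rw [mul_neg]; linarith⟩

end

end Pool.Agent.SPR
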