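import Pool.Agent.SPR.LiB

/-!
# SPR/SpF: the spiral, definitions

`r ≥ 1`.  `Lm r x = Λ^x` with `Λ = exp (1 / (1000 r²))` (very close to `1`), `rad r x = ρ₀ Λ^x`, `ρ₀ = rh0 = 1/1000`, `lam r` the inverse function of `rad r`.
The path `qsp r ε ρ = (X, Y)`, `Y = Ssp r ρ`, `X = 1/2 + Dsp r ε ρ - Ssp r ρ / r`:
* `Ssp`: `0` for `ρ ≤ ρ₀/8`, strictly increasing up to `ρ = rad r (2 r)`, then constant `2 r - wd r / 2`; `Ssp r (rad r x) = x` for `9/10 wd r ≤ x ≤ 2 r - wd r`.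
* `Dsp`: `-1/2` for `ρ ≤ ρ₀/4`, `0` for `ρ ≥ ρ₀/2` except for the detour `ε hd bp` near `Ssp = r`.
Box coordinates: `Th r (ζ, s) = (-(C^s ζ), s)`, `C^s = Cn r s = Λ^s e^{-2πi s/r}`, so that the spiral is `Th r (ρ₀, x)`, `x = lam r ρ`.  `Th r (ζ, s + n) = Th r (C^n ζ, s) + (0, n)`.
Ribbon: `Th r (mR + muR z, t)`: `z = 1` is the strand `x = t`, `z = -1` the strand `x = t + r`.
-/

open scoped Manifold ContDiff Topology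
open Set Filter
open Complex (I)
open Pool.Agent.RSG (E4 cj ex)

namespace Pool.Agent.SPR

open Pool.Agent.RBM (Box gs Ro)

/-- primitive of `Real.smoothTransition` -/
noncomputable def PS (x : ℝ) : ℝ := ∫ t in (0 : ℝ)..x, Real.smoothTransition t

/-- `0` for `|x| ≥ 1`, positive for `|x| < 1`, `1` at `0` -/
noncomputable def bp (x : ℝ) : ℝ := Real.smoothTransition (1 + x) * Real.smoothTransition (1 - x)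

noncomputable def rh0 : ℝ := 1 / 1000
noncomputable def vt (r : ℕ) : ℝ := 1 / (1000 * (r : ℝ) ^ 2)
noncomputable def wd (r : ℕ) : ℝ := 1 / (1000 * (r : ℝ))
noncomputable def hd (r : ℕ) : ℝ := 1 / (100000 * (r : ℝ))
noncomputable def Lm (r : ℕ) (x : ℝ) : ℝ := Real.exp (vt r * x)
noncomputable def rad (r : ℕ) (x : ℝ) : ℝ := rh0 * Lm r x
noncomputable def lam (r : ℕ) (ρ : ℝ) : ℝ := Real.log (ρ / rh0) / vt r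

/-- `0` for `ρ ≤ rad r (3/5 wd)`, `1` for `ρ ≥ rad r (9/10 wd)` -/
noncomputable def Xi (r : ℕ) (ρ : ℝ) : ℝ := CSG.stp (rad r (3 / 5 * wd r)) (rad r (9 / 10 * wd r)) ρ

noncomputable def Ssp (r : ℕ) (ρ : ℝ) : ℝ :=
  wd r / 2 * PS ((ρ - rh0 / 8) / rh0) * (1 - Xi r ρ) +
    Xi r ρ * (lam r ρ - wd r * PS ((lam r ρ - (2 * r - wd r)) / wd r))

noncomputable def Dsp (r : ℕ) (ε ρ : ℝ) : ℝ :=
  (CSG.stp (rh0 / 4) (rh0 / 2) ρ - 1) / 2 + ε * hd r * bp ((Ssp r ρ - r) / wd r)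

/-- the spiral path -/
noncomputable def qsp (r : ℕ) (ε ρ : ℝ) : ℝ × ℝ := (1 / 2 + Dsp r ε ρ - Ssp r ρ / r, Ssp r ρ)

noncomputable def Cn (r : ℕ) (x : ℝ) : ℂ := (Lm r x : ℂ) * ex (-(x / r))

/-- box coordinates -/
noncomputable def Th (r : ℕ) (q : ℂ × ℝ) : ℂ × ℝ := (-(Cn r q.2 * q.1), q.2)

/-- the spiral path in box coordinates: `Th r (zq r ε ρ, Ssp r ρ)` -/
noncomputable def zq (r : ℕ) (ε ρ : ℝ) : ℂ := ((ρ * Lm r (-Ssp r ρ) : ℝ) : ℂ) * ex (Dsp r ε ρ)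

noncomputable def mR (r : ℕ) : ℝ := (rh0 + rad r r) / 2
noncomputable def muR (r : ℕ) : ℝ := (rh0 - rad r r) / 2

/-- `u` for `|u| ≤ 1/2`, slope `κ` for `|u| ≥ 1/2 + κ` -/
noncomputable def thk (κ u : ℝ) : ℝ :=
  u - (1 - κ) * (κ * PS ((u - 1 / 2) / κ) - κ * PS ((-u - 1 / 2) / κ))

/-- level of the ribbon: `r/2 + (r - 2 v) u` for `|u| ≤ 1/2`, from `v` to `r - v` -/
noncomputable def tv (r : ℕ) (v u : ℝ) : ℝ := r / 2 + (r - 2 * v) * thk (v / (10 * r)) u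

/-- number of turns of the path after the full twist of the level disc -/
noncomputable def GG (r : ℕ) (ρ : ℝ) : ℝ :=
  ∑ k ∈ Finset.range (2 * r), gs (16 * (Ssp r ρ - k - 1 / 4))

/-- An arc which consists of the ray `p`, an inner part near the level `0` and the spiral. -/
structure QArc (r : ℕ) (ε : ℝ) (γ : ℝ → ℂ × ℝ) : Prop where
  pin : ∀ l, -(1 / 4) < l → 4 * l ≤ -rad r (1 / 2) → γ l = (((4 * l : ℝ) : ℂ), 0)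
  inner : ∀ l, -rad r (1 / 2) ≤ 4 * l → 4 * l ≤ rad r (wd r) → ∃ (ζ : ℂ) (s : ℝ), γ l = Th r (ζ, s) ∧
    0 ≤ s ∧ s ≤ wd r ∧ (‖ζ‖ ≤ 3 / 4 * rh0 ∨ ∃ x : ℝ, 0 < x ∧ x ≤ rad r (1 / 2) ∧ ζ = x)
  spiral : ∀ l, rad r (wd r) ≤ 4 * l → 4 * l ≤ 1 / 8 → γ l = PTH.arc (qsp r ε) l
  outer : ∀ l, 1 / 8 ≤ 4 * l → l < 1 / 4 → 1 / 8 ≤ ‖(γ l).1‖

/-- The arc of the path `w` with inner part `I` and modified strands `0` and `r`. -/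
noncomputable def GA (r : ℕ) (w : ℝ → ℝ × ℝ) (I : ℝ → ℂ × ℝ) (Z₀ Zr : ℝ → ℂ) (l : ℝ) : ℂ × ℝ :=
  if 4 * l ≤ -rad r (1 / 2) then (((4 * l : ℝ) : ℂ), 0)
  else if 4 * l ≤ rad r (wd r) then Th r (I l)
  else if 4 * l ≤ rad r (1 / 2) then Th r (Z₀ (lam r (4 * l)), lam r (4 * l))
  else if rad r (r - 1 / 2) ≤ 4 * l ∧ 4 * l ≤ rad r (r + 1 / 2) then
    Th r (Zr (lam r (4 * l) - r), lam r (4 * l) - r) + (0, (r : ℝ))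
  else PTH.arc w l

/-- Admissible family of modifications (parameter `τ ∈ [0, 1]`); `δ = rad r r - rh0`. -/
structure Fam (r : ℕ) (I : ℝ → ℝ → ℂ × ℝ) (Z₀ Zr : ℝ → ℝ → ℂ) : Prop where
  smI : ContDiff ℝ ∞ fun q : ℝ × ℝ => I q.1 q.2
  sm₀ : ContDiff ℝ ∞ fun q : ℝ × ℝ => Z₀ q.1 q.2
  smr : ContDiff ℝ ∞ fun q : ℝ × ℝ => Zr q.1 q.2
  ends : ∃ e : ℝ, 0 < e ∧ (∀ τ l, |4 * l + rad r (1 / 2)| ≤ e → I τ l = (((-(4 * l) : ℝ) : ℂ), 0)) ∧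
    (∀ τ l, |4 * l - rad r (wd r)| ≤ e → I τ l = ((rh0 : ℂ), lam r (4 * l))) ∧
    (∀ τ x, x ≤ wd r + e ∨ 1 / 2 - e ≤ x → Z₀ τ x = rh0) ∧ ∀ τ s, 1 / 2 - e ≤ |s| → Zr τ s = rad r r
  regI : ∀ τ ∈ Icc (0 : ℝ) 1, ∀ l, -rad r (1 / 2) ≤ 4 * l → 4 * l ≤ rad r (wd r) →
    ‖(I τ l).1‖ ≤ rad r (1 / 2) ∧ 0 ≤ (I τ l).2 ∧ (I τ l).2 ≤ wd r
  tilt : ∃ c : ℝ, 0 < c ∧ ∀ τ ∈ Icc (0 : ℝ) 1, ∀ l, -rad r (1 / 2) ≤ 4 * l → 4 * l ≤ rad r (wd r) →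
    0 < deriv (fun l => (I τ l).2 - c * (I τ l).1.re) l
  reg₀ : ∀ τ ∈ Icc (0 : ℝ) 1, ∀ x, wd r ≤ x → x ≤ 1 / 2 → ‖Z₀ τ x - rh0‖ ≤ 3 * (rad r r - rh0)
  regr : ∀ τ ∈ Icc (0 : ℝ) 1, ∀ s, |s| ≤ 1 / 2 → ‖Zr τ s - rh0‖ ≤ 3 * (rad r r - rh0) ∧
    (s < 0 → ‖Zr τ s - rh0‖ ≤ 3 / 2 * (rad r r - rh0))
  dis : ∀ τ ∈ Icc (0 : ℝ) 1, ∀ x, wd r ≤ x → x ≤ 1 / 2 → Z₀ τ x ≠ Zr τ x
  disp : ∀ τ ∈ Icc (0 : ℝ) 1, ∀ x : ℝ, rad r (1 / 2) ≤ x → Zr τ 0 ≠ x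
  disI : ∀ τ ∈ Icc (0 : ℝ) 1, ∀ l, -rad r (1 / 2) ≤ 4 * l → 4 * l ≤ rad r (wd r) →
    Zr τ (I τ l).2 ≠ (I τ l).1

end Pool.Agent.SPR
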