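import Pool.Agent.SPR.SpA

/-!
# SPR/SpS: the functions `Ssp`, `Dsp`, `qsp`   (difficulty 3)

Write `w = wd r`, `ρ₀ = rh0`, `S₁ ρ = w/2 PS ((ρ - ρ₀/8)/ρ₀)`, `S₂ ρ = Sat (lam r ρ)`, `Sat x = x - w PS ((x - (2 r - w)) / w)`, `S = S₁ (1 - Xi) + Xi S₂`.
* Smoothness: near `ρ ≤ 0` (indeed for `ρ < rad r (3/5 w)`) `Xi = 0`, so `S = S₁`; for `ρ > 0` `lam r` is smooth.
* `Sat` is smooth, `Sat' = 1 - smoothTransition (..) ∈ [0, 1]`, `> 0` for `x < 2 r` (`Real.smoothTransition` is `< 1` for arguments `< 1`: `CSG.stp_lt_one`), `Sat x = x` for `x ≤ 2 r - w`, `Sat x = 2 r - w/2` for `x ≥ 2 r` (`PS_one`).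
* `S_deriv`: for `ρ₀/8 < ρ ≤ rad r (3/5 w)`: `S = S₁`-part, `S₁' = w/(2 ρ₀) smoothTransition ((ρ - ρ₀/8)/ρ₀) > 0`.  On `(rad r (3/5 w), rad r (9/10 w))`: `S' = (1 - Xi) S₁' + Xi S₂' + Xi' (S₂ - S₁)`, `S₂ = lam r ρ ≥ 3/5 w`,
  `S₁ ≤ w/2 * ρ / ρ₀ ≤ w/2 * 1.01 < 3/5 w` (`PS_le`, `rad_bd`), `Xi' ≥ 0`: all terms `≥ 0`, and `(1 - Xi) S₁' + Xi S₂' > 0`.  For `ρ ≥ rad r (9/10 w)`: `S = Sat (lam r ρ)`, `lam r` has the derivative `1 / (vt r ρ) > 0`.
* `S_mono`: derivative `≥ 0` everywhere.  `S_inv`: `S` is strictly increasing on `[ρ₀/8, rad r (2 r)]`; if `w ≤ S ρ ≤ 2 r - w` then `ρ` is in this interval (`S_low`, `S_high`) and so is `rad r (S ρ)`, where `S` has the value `S ρ` (`S_mid`).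
* `D`: the bump term vanishes if `Ssp ≤ r - w` (in particular for `ρ ≤ rad r w`, where `Ssp ≤ w ≤ r - w`) or `Ssp ≥ r + w`.
* `q_avoid`: `qsp = (m + 1/2, n)` with integers: `S = n`, `D - n / r = m`.  `ρ ≤ ρ₀/8`: `S = 0`, `D = -1/2`, `-1/2 = m`: no.  `ρ > ρ₀/8`: `0 < S ≤ 2 r - w/2`, so `1 ≤ n ≤ 2 r - 1`, so `S ≥ w`, `ρ > ρ₀/2`.  If `n = r`: `D = ε hd`,
  `ε hd - 1 = m`: no (`0 < hd < 1`, `ε = ±1`).  If `n ≠ r`: `|n - r| ≥ 1 ≥ w`, `D = 0`, `n / r` is not an integer for `1 ≤ n ≤ 2 r - 1`, `n ≠ r`.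
* `q_pt`: `-(C^S ζ)`, `ζ = ρ Λ^(-S) ex D`: `= ρ ex (1/2 + D - S/r)` (`ex (1/2) = -1`).  `zq_mid`: `S = x`, `D = 0`.
-/

open scoped Manifold ContDiff Topology
open Set Filter
open Complex (I)
open Pool.Agent.RSG (E4 cj ex)

namespace Pool.Agent.SPR

section
variable {r : ℕ}

theorem SpS_rh0 : 0 < rh0 := by norm_num [rh0]
theorem SpS_r (hr : 1 ≤ r) : (1 : ℝ) ≤ r := by exact_mod_cast hr
theorem SpS_w (hr : 1 ≤ r) : 0 < wd r ∧ wd r ≤ 1 / 1000 := ⟨wd_pos hr, wd_le hr⟩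

/-- first piece -/
noncomputable def SpS_1 (r : ℕ) (ρ : ℝ) : ℝ := wd r / 2 * PS ((ρ - rh0 / 8) / rh0)
/-- second piece -/
noncomputable def SpS_2 (r : ℕ) (x : ℝ) : ℝ := x - wd r * PS ((x - (2 * r - wd r)) / wd r)

theorem SpS_eq (r : ℕ) (ρ : ℝ) : Ssp r ρ = SpS_1 r ρ * (1 - Xi r ρ) + Xi r ρ * SpS_2 r (lam r ρ) := rfl

theorem SpS_1d (r : ℕ) (ρ : ℝ) : HasDerivAt (SpS_1 r)
    (wd r / 2 * (Real.smoothTransition ((ρ - rh0 / 8) / rh0) * (1 / rh0))) ρ := by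
  have h1 : HasDerivAt (fun ρ : ℝ => (ρ - rh0 / 8) / rh0) (1 / rh0) ρ :=
    ((hasDerivAt_id ρ).sub_const _).div_const _
  exact ((PS_deriv _).comp ρ h1).const_mul _

theorem SpS_1_smooth (r : ℕ) : ContDiff ℝ ∞ (SpS_1 r) := by
  unfold SpS_1
  exact contDiff_const.mul (PS_smooth.comp ((contDiff_id.sub contDiff_const).div_const _))

theorem SpS_2_smooth (r : ℕ) : ContDiff ℝ ∞ (SpS_2 r) := by
  unfold SpS_2
  exact contDiff_id.sub (contDiff_const.mul (PS_smooth.comp ((contDiff_id.sub contDiff_const).div_const _)))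

theorem SpS_2d (hr : 1 ≤ r) (x : ℝ) : HasDerivAt (SpS_2 r)
    (1 - Real.smoothTransition ((x - (2 * r - wd r)) / wd r)) x := by
  have hw := (SpS_w hr).1
  have h1 : HasDerivAt (fun x : ℝ => (x - (2 * r - wd r)) / wd r) (1 / wd r) x :=
    ((hasDerivAt_id x).sub_const _).div_const _
  have h2 := (hasDerivAt_id x).sub (((PS_deriv _).comp x h1).const_mul (wd r))
  have e : 1 - wd r * (Real.smoothTransition ((x - (2 * r - wd r)) / wd r) * (1 / wd r)) =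
      1 - Real.smoothTransition ((x - (2 * r - wd r)) / wd r) := by
    have hw' := hw.ne'
    field_simp
  rw [e] at h2
  exact h2

theorem SpS_2_low (hr : 1 ≤ r) {x : ℝ} (h : x ≤ 2 * r - wd r) : SpS_2 r x = x := by
  have hw := (SpS_w hr).1
  unfold SpS_2
  rw [PS_zero (div_nonpos_of_nonpos_of_nonneg (by linarith) hw.le)]
  ring

theorem SpS_2_high (hr : 1 ≤ r) {x : ℝ} (h : 2 * r ≤ x) : SpS_2 r x = 2 * r - wd r / 2 := by
  have hw := (SpS_w hr).1
  unfold SpS_2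
  rw [PS_one (by rw [le_div_iff₀ hw]; linarith)]
  field_simp
  ring

theorem SpS_2_mono (hr : 1 ≤ r) : Monotone (SpS_2 r) :=
  monotone_of_deriv_nonneg (fun x => (SpS_2d hr x).differentiableAt) fun x => by
    rw [(SpS_2d hr x).deriv]
    linarith [Real.smoothTransition.le_one ((x - (2 * r - wd r)) / wd r)]

theorem SpS_2_le (hr : 1 ≤ r) (x : ℝ) : SpS_2 r x ≤ x := by
  have hw := (SpS_w hr).1
  unfold SpS_2
  have := mul_nonneg hw.le (PS_nonneg ((x - (2 * r - wd r)) / wd r))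
  linarith

theorem SpS_rad (hr : 1 ≤ r) : rad r (3 / 5 * wd r) < rad r (9 / 10 * wd r) :=
  rad_lt hr (by have := (SpS_w hr).1; linarith)

theorem SpS_Xi0 (hr : 1 ≤ r) {ρ : ℝ} (h : ρ ≤ rad r (3 / 5 * wd r)) : Xi r ρ = 0 :=
  CSG.stp_zero (SpS_rad hr) h

theorem SpS_Xi1 (hr : 1 ≤ r) {ρ : ℝ} (h : rad r (9 / 10 * wd r) ≤ ρ) : Xi r ρ = 1 :=
  CSG.stp_one (SpS_rad hr) h

theorem SpS_Xi_smooth (r : ℕ) : ContDiff ℝ ∞ (Xi r) := CSG.stp_smooth _ _

theorem SpS_low' (hr : 1 ≤ r) {ρ : ℝ} (h : ρ ≤ rad r (3 / 5 * wd r)) : Ssp r ρ = SpS_1 r ρ := by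
  rw [SpS_eq, SpS_Xi0 hr h]
  ring

theorem SpS_high' (hr : 1 ≤ r) {ρ : ℝ} (h : rad r (9 / 10 * wd r) ≤ ρ) : Ssp r ρ = SpS_2 r (lam r ρ) := by
  rw [SpS_eq, SpS_Xi1 hr h]
  ring

theorem SpS_lam_smooth {ρ : ℝ} (r : ℕ) (h : 0 < ρ) : ContDiffAt ℝ ∞ (lam r) ρ := by
  unfold lam
  have h1 : ContDiffAt ℝ ∞ (fun ρ : ℝ => ρ / rh0) ρ := contDiffAt_id.div_const _
  exact (h1.log (div_pos h SpS_rh0).ne').div_const _

theorem SpS_lamd {ρ : ℝ} (hr : 1 ≤ r) (h : 0 < ρ) : HasDerivAt (lam r) (1 / (vt r * ρ)) ρ := by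
  have h1 : HasDerivAt (fun ρ : ℝ => ρ / rh0) (1 / rh0) ρ := (hasDerivAt_id ρ).div_const _
  have h2 := (h1.log (div_pos h SpS_rh0).ne').div_const (vt r)
  have hv := vt_pos hr
  have hr0 := SpS_rh0
  have e : 1 / rh0 / (ρ / rh0) / vt r = 1 / (vt r * ρ) := by
    field_simp
  rw [e] at h2
  exact h2

theorem SpS_lam_mono (hr : 1 ≤ r) {ρ ρ' : ℝ} (h : 0 < ρ) (h' : ρ ≤ ρ') : lam r ρ ≤ lam r ρ' := by
  unfold lam
  apply div_le_div_of_nonneg_right _ (vt_pos hr).le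
  exact Real.log_le_log (div_pos h SpS_rh0) (div_le_div_of_nonneg_right h' SpS_rh0.le)

theorem SpS_lam_ge (hr : 1 ≤ r) {ρ x : ℝ} (h : rad r x ≤ ρ) : x ≤ lam r ρ := by
  have := SpS_lam_mono hr (rad_pos r x) h
  rw [lam_rad hr] at this
  exact this

theorem SpS_lam_le (hr : 1 ≤ r) {ρ x : ℝ} (h0 : 0 < ρ) (h : ρ ≤ rad r x) : lam r ρ ≤ x := by
  have := SpS_lam_mono hr h0 h
  rw [lam_rad hr] at this
  exact this

/-- numeric bounds on the radii at small `x` -/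
theorem SpS_radb (hr : 1 ≤ r) {x : ℝ} (h0 : 0 ≤ x) (h : x ≤ 1) : rh0 ≤ rad r x ∧ rad r x ≤ 121 / 120 * rh0 := by
  have hr' := SpS_r hr
  have h1 := rad_bd (r := r) hr (x := x) (by rw [abs_of_nonneg h0]; linarith)
  have h2 := (abs_le.1 h1).2
  constructor
  · rcases eq_or_lt_of_le h0 with h3 | h3
    · rw [← h3, rad_zero]
    · have := rad_lt (r := r) hr h3
      rw [rad_zero] at this
      exact this.le
  · linarith

theorem SpS_1_le (hr : 1 ≤ r) {ρ : ℝ} (h : ρ ≤ rad r (9 / 10 * wd r)) : SpS_1 r ρ ≤ 3 / 5 * wd r := by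
  have hw := SpS_w hr
  have h1 := SpS_radb (r := r) hr (x := 9 / 10 * wd r) (by linarith [hw.1]) (by linarith [hw.2])
  have hr0 := SpS_rh0
  unfold SpS_1
  have h2 : PS ((ρ - rh0 / 8) / rh0) ≤ 121 / 120 := by
    have h3 : (ρ - rh0 / 8) / rh0 ≤ 121 / 120 := by
      rw [div_le_iff₀ hr0]
      linarith
    refine (PS_mono h3).trans (PS_le (by norm_num))
  have := mul_le_mul_of_nonneg_left h2 (show 0 ≤ wd r / 2 by linarith [hw.1])
  linarith [hw.1]

theorem SpS_1_nonneg (hr : 1 ≤ r) (ρ : ℝ) : 0 ≤ SpS_1 r ρ :=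
  mul_nonneg (by linarith [(SpS_w hr).1]) (PS_nonneg _)

theorem S_smooth (hr : 1 ≤ r) : ContDiff ℝ ∞ (Ssp r) := by
  rw [contDiff_iff_contDiffAt]
  intro ρ
  rcases lt_or_ge ρ (rad r (3 / 5 * wd r)) with h | h
  · refine (SpS_1_smooth r).contDiffAt.congr_of_eventuallyEq ?_
    filter_upwards [Iio_mem_nhds h] with ρ' hρ'
    exact SpS_low' hr (le_of_lt hρ')
  · have h0 : 0 < ρ := (rad_pos r _).trans_le h
    have h1 : ContDiffAt ℝ ∞ (fun ρ => SpS_1 r ρ * (1 - Xi r ρ) + Xi r ρ * SpS_2 r (lam r ρ)) ρ :=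
      ((SpS_1_smooth r).contDiffAt.mul (contDiffAt_const.sub (SpS_Xi_smooth r).contDiffAt)).add
        ((SpS_Xi_smooth r).contDiffAt.mul ((SpS_2_smooth r).contDiffAt.comp ρ (SpS_lam_smooth r h0)))
    exact h1
theorem S_low (hr : 1 ≤ r) {ρ : ℝ} (h : ρ ≤ rh0 / 8) : Ssp r ρ = 0 := by
  have hw := SpS_w hr
  have hr0 := SpS_rh0
  have h1 := SpS_radb (r := r) hr (x := 3 / 5 * wd r) (by linarith [hw.1]) (by linarith [hw.2])
  rw [SpS_low' hr (by linarith)]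
  unfold SpS_1
  rw [PS_zero (div_nonpos_of_nonpos_of_nonneg (by linarith) hr0.le), mul_zero]
/-- derivative on the whole of `ρ > rh0 / 8` -/
theorem SpS_deriv (hr : 1 ≤ r) {ρ : ℝ} (h : rh0 / 8 < ρ) :
    0 ≤ deriv (Ssp r) ρ ∧ (ρ < rad r (2 * r) → 0 < deriv (Ssp r) ρ) := by
  have hw := SpS_w hr
  have hr0 := SpS_rh0
  have hr1 := SpS_r hr
  have h0 : 0 < ρ := by linarith
  have hv := vt_pos hr
  -- S₁'
  have hd1 : 0 < wd r / 2 * (Real.smoothTransition ((ρ - rh0 / 8) / rh0) * (1 / rh0)) := by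
    have : 0 < Real.smoothTransition ((ρ - rh0 / 8) / rh0) :=
      Real.smoothTransition.pos_of_pos (div_pos (by linarith) hr0)
    have hw0 := hw.1
    positivity
  have hS1 := SpS_1d r ρ
  -- S₂'
  have hS2 : HasDerivAt (fun ρ => SpS_2 r (lam r ρ))
      ((1 - Real.smoothTransition ((lam r ρ - (2 * r - wd r)) / wd r)) * (1 / (vt r * ρ))) ρ :=
    (SpS_2d hr (lam r ρ)).comp ρ (SpS_lamd hr h0)
  have hd2 : 0 ≤ (1 - Real.smoothTransition ((lam r ρ - (2 * r - wd r)) / wd r)) * (1 / (vt r * ρ)) :=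
    mul_nonneg (by linarith [Real.smoothTransition.le_one ((lam r ρ - (2 * r - wd r)) / wd r)]) (by positivity)
  have hd2' : ρ < rad r (2 * r) →
      0 < (1 - Real.smoothTransition ((lam r ρ - (2 * r - wd r)) / wd r)) * (1 / (vt r * ρ)) := by
    intro h'
    have h1 : lam r ρ < 2 * r := by
      by_contra hc
      push Not at hc
      have h2 : rad r (2 * r) ≤ rad r (lam r ρ) := by
        rcases eq_or_lt_of_le hc with h3 | h3
        · rw [← h3]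
        · exact (rad_lt hr h3).le
      rw [rad_lam hr h0] at h2
      linarith
    have h2 : Real.smoothTransition ((lam r ρ - (2 * r - wd r)) / wd r) < 1 := by
      apply Real.smoothTransition.lt_one_of_lt_one
      rw [div_lt_one hw.1]
      linarith
    exact mul_pos (by linarith) (by positivity)
  rcases lt_trichotomy ρ (rad r (3 / 5 * wd r)) with h1 | h1 | h1
  · -- first piece
    have e : deriv (Ssp r) ρ = deriv (SpS_1 r) ρ := by
      apply Filter.EventuallyEq.deriv_eq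
      filter_upwards [Iio_mem_nhds h1] with ρ' hρ'
      exact SpS_low' hr (le_of_lt hρ')
    rw [e, hS1.deriv]
    exact ⟨hd1.le, fun _ => hd1⟩
  all_goals
    have h1' : rad r (3 / 5 * wd r) ≤ ρ := by linarith
    have hX : HasDerivAt (Xi r) (deriv (Xi r) ρ) ρ :=
      ((SpS_Xi_smooth r).contDiffAt.differentiableAt (by simp)).hasDerivAt
    have hXn : 0 ≤ deriv (Xi r) ρ := CSG.stp_deriv_nonneg (SpS_rad hr) ρ
    have hX0 : 0 ≤ Xi r ρ := CSG.stp_nonneg _ _ _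
    have hX1 : Xi r ρ ≤ 1 := CSG.stp_le_one _ _ _
    have hD : deriv (Ssp r) ρ = (1 - Xi r ρ) * (wd r / 2 * (Real.smoothTransition ((ρ - rh0 / 8) / rh0) * (1 / rh0))) +
        Xi r ρ * ((1 - Real.smoothTransition ((lam r ρ - (2 * r - wd r)) / wd r)) * (1 / (vt r * ρ))) +
        deriv (Xi r) ρ * (SpS_2 r (lam r ρ) - SpS_1 r ρ) := by
      have h2 := (hS1.mul (hX.const_sub 1)).add (hX.mul hS2)
      have h3 : HasDerivAt (Ssp r) _ ρ := h2
      rw [h3.deriv]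
      ring
    have hpos : 0 ≤ deriv (Xi r) ρ * (SpS_2 r (lam r ρ) - SpS_1 r ρ) := by
      rcases lt_or_ge ρ (rad r (9 / 10 * wd r)) with h4 | h4
      · have h5 := SpS_1_le hr h4.le
        have h6 : 3 / 5 * wd r ≤ lam r ρ := SpS_lam_ge hr h1'
        have h7 : SpS_2 r (3 / 5 * wd r) ≤ SpS_2 r (lam r ρ) := SpS_2_mono hr h6
        rw [SpS_2_low hr (by nlinarith [hw.1, hw.2])] at h7
        exact mul_nonneg hXn (by linarith)
      · rcases eq_or_lt_of_le h4 with h5 | h5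
        · have h6 : SpS_1 r ρ ≤ 3 / 5 * wd r := SpS_1_le hr (by rw [h5])
          have h7 : lam r ρ = 9 / 10 * wd r := by rw [← h5, lam_rad hr]
          rw [h7, SpS_2_low hr (by nlinarith [hw.1, hw.2])]
          exact mul_nonneg hXn (by linarith [hw.1])
        · have e : deriv (Xi r) ρ = 0 := by
            have : Xi r =ᶠ[𝓝 ρ] fun _ => (1 : ℝ) := by
              filter_upwards [Ioi_mem_nhds h5] with ρ' hρ'
              exact SpS_Xi1 hr (le_of_lt hρ')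
            rw [this.deriv_eq]
            simp
          rw [e, zero_mul]
    rw [hD]
    constructor
    · have a1 := mul_nonneg (sub_nonneg.2 hX1) hd1.le
      have a2 := mul_nonneg hX0 hd2
      linarith
    · intro h'
      have hd2'' := hd2' h'
      rcases eq_or_lt_of_le hX0 with h8 | h8
      · rw [← h8]
        linarith
      · have a1 := mul_nonneg (sub_nonneg.2 hX1) hd1.le
        have a2 := mul_pos h8 hd2''
        linarith
theorem S_deriv (hr : 1 ≤ r) {ρ : ℝ} (h : rh0 / 8 < ρ) (h' : ρ < rad r (2 * r)) : 0 < deriv (Ssp r) ρ :=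
  (SpS_deriv hr h).2 h'
theorem S_high (hr : 1 ≤ r) {ρ : ℝ} (h : rad r (2 * r) ≤ ρ) : Ssp r ρ = 2 * r - wd r / 2 := by
  have hw := SpS_w hr
  have hr1 := SpS_r hr
  rw [SpS_high' hr ((rad_lt hr (by nlinarith [hw.1, hw.2])).le.trans h), SpS_2_high hr (SpS_lam_ge hr h)]
theorem S_mono (hr : 1 ≤ r) : Monotone (Ssp r) :=
  monotone_of_deriv_nonneg ((S_smooth hr).differentiable (by simp)) fun ρ => by
    rcases lt_trichotomy ρ (rh0 / 8) with h | h | h
    · have e : Ssp r =ᶠ[𝓝 ρ] fun _ => (0 : ℝ) := by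
        filter_upwards [Iio_mem_nhds h] with ρ' hρ'
        exact S_low hr (le_of_lt hρ')
      rw [e.deriv_eq]
      simp
    · have hr0 := SpS_rh0
      have hw := SpS_w hr
      have h1 := SpS_radb (r := r) hr (x := 3 / 5 * wd r) (by linarith [hw.1]) (by linarith [hw.2])
      have e : Ssp r =ᶠ[𝓝 ρ] SpS_1 r := by
        filter_upwards [Iio_mem_nhds (show ρ < rad r (3 / 5 * wd r) by linarith)] with ρ' hρ'
        exact SpS_low' hr (le_of_lt hρ')
      rw [e.deriv_eq, (SpS_1d r ρ).deriv]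
      have hw0 := hw.1
      have := Real.smoothTransition.nonneg ((ρ - rh0 / 8) / rh0)
      positivity
    · exact (SpS_deriv hr h).1
theorem S_nonneg (hr : 1 ≤ r) (ρ : ℝ) : 0 ≤ Ssp r ρ := by
  rcases le_total ρ (rh0 / 8) with h | h
  · rw [S_low hr h]
  · have := S_mono hr h
    rw [S_low hr le_rfl] at this
    exact this
theorem SpS_strict (hr : 1 ≤ r) : StrictMonoOn (Ssp r) (Icc (rh0 / 8) (rad r (2 * r))) := by
  apply strictMonoOn_of_deriv_pos (convex_Icc _ _) (S_smooth hr).continuous.continuousOn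
  intro ρ hρ
  rw [interior_Icc] at hρ
  exact S_deriv hr hρ.1 hρ.2
theorem SpS_rad2 (hr : 1 ≤ r) : rh0 < rad r (2 * r) := by
  have hr1 := SpS_r hr
  have := rad_lt (r := r) hr (x := 0) (y := 2 * r) (by linarith)
  rw [rad_zero] at this
  exact this
theorem S_pos (hr : 1 ≤ r) {ρ : ℝ} (h : rh0 / 8 < ρ) : 0 < Ssp r ρ := by
  have hr0 := SpS_rh0
  have h2 := SpS_rad2 hr
  rcases le_total ρ (rad r (2 * r)) with h1 | h1
  · have := SpS_strict hr (left_mem_Icc.2 (by linarith)) ⟨h.le, h1⟩ h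
    rw [S_low hr le_rfl] at this
    exact this
  · have h3 := SpS_strict hr (left_mem_Icc.2 (by linarith)) (right_mem_Icc.2 (by linarith)) (by linarith)
    rw [S_low hr le_rfl] at h3
    exact h3.trans_le (S_mono hr h1)
theorem S_le (hr : 1 ≤ r) (ρ : ℝ) : Ssp r ρ ≤ 2 * r - wd r / 2 := by
  rcases le_total ρ (rad r (2 * r)) with h1 | h1
  · have := S_mono hr h1
    rw [S_high hr le_rfl] at this
    exact this
  · rw [S_high hr h1]
theorem SpS_rad_le (hr : 1 ≤ r) {x y : ℝ} (h : x ≤ y) : rad r x ≤ rad r y := by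
  rcases eq_or_lt_of_le h with h1 | h1
  · rw [h1]
  · exact (rad_lt hr h1).le
theorem S_mid (hr : 1 ≤ r) {x : ℝ} (h : 9 / 10 * wd r ≤ x) (h' : x ≤ 2 * r - wd r) : Ssp r (rad r x) = x := by
  rw [SpS_high' hr (SpS_rad_le hr h), lam_rad hr, SpS_2_low hr h']
theorem S_inv (hr : 1 ≤ r) {ρ : ℝ} (h : wd r ≤ Ssp r ρ) (h' : Ssp r ρ ≤ 2 * r - wd r) :
    ρ = rad r (Ssp r ρ) := by
  have hw := SpS_w hr
  have hr0 := SpS_rh0
  have hr1 := SpS_r hr
  have h1 : rh0 / 8 ≤ ρ := by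
    by_contra hc
    push Not at hc
    rw [S_low hr hc.le] at h
    linarith [hw.1]
  have h2 : ρ ≤ rad r (2 * r) := by
    by_contra hc
    push Not at hc
    rw [S_high hr hc.le] at h'
    linarith [hw.1]
  have h3 : rh0 / 8 ≤ rad r (Ssp r ρ) := by
    have := SpS_rad_le (r := r) hr (x := 0) (y := Ssp r ρ) (by linarith [hw.1])
    rw [rad_zero] at this
    linarith
  have h4 : rad r (Ssp r ρ) ≤ rad r (2 * r) := SpS_rad_le hr (by linarith [hw.1])
  exact (SpS_strict hr).injOn ⟨h1, h2⟩ ⟨h3, h4⟩ (S_mid hr (by linarith [hw.1]) h').symm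
/-- for `ρ ≥ rad r (9/10 w)` the level is at most `lam r ρ` -/
theorem S_le_lam (hr : 1 ≤ r) {ρ : ℝ} (h : rad r (9 / 10 * wd r) ≤ ρ) : Ssp r ρ ≤ lam r ρ := by
  rw [SpS_high' hr h]
  exact SpS_2_le hr _

theorem D_smooth (hr : 1 ≤ r) (ε : ℝ) : ContDiff ℝ ∞ (Dsp r ε) := by
  unfold Dsp
  exact (((CSG.stp_smooth _ _).sub contDiff_const).div_const _).add
    (contDiff_const.mul (bp_smooth.comp (((S_smooth hr).sub contDiff_const).div_const _)))
theorem SpS_bp (hr : 1 ≤ r) {x : ℝ} (h : x ≤ r - wd r ∨ r + wd r ≤ x) : bp ((x - r) / wd r) = 0 := by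
  have hw := SpS_w hr
  apply bp_zero
  rw [abs_div, abs_of_pos hw.1, le_div_iff₀ hw.1, one_mul]
  rcases h with h | h
  · rw [abs_of_nonpos (by linarith [hw.1])]
    linarith
  · rw [abs_of_nonneg (by linarith [hw.1])]
    linarith
theorem SpS_quarter (hr : 1 ≤ r) {ρ : ℝ} (h : ρ ≤ rh0) : Ssp r ρ ≤ wd r / 2 := by
  have hw := SpS_w hr
  have hr0 := SpS_rh0
  have h1 := SpS_radb (r := r) hr (x := 3 / 5 * wd r) (by linarith [hw.1]) (by linarith [hw.2])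
  rw [SpS_low' hr (by linarith)]
  unfold SpS_1
  have h2 : PS ((ρ - rh0 / 8) / rh0) ≤ 1 := by
    have h3 : (ρ - rh0 / 8) / rh0 ≤ 1 := by
      rw [div_le_iff₀ hr0]
      linarith
    refine (PS_mono h3).trans (PS_le (by norm_num))
  have := mul_le_mul_of_nonneg_left h2 (show 0 ≤ wd r / 2 by linarith [hw.1])
  linarith
theorem D_low (hr : 1 ≤ r) (ε : ℝ) {ρ : ℝ} (h : ρ ≤ rh0 / 4) : Dsp r ε ρ = -1 / 2 := by
  have hw := SpS_w hr
  have hr0 := SpS_rh0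
  have hr1 := SpS_r hr
  have h1 := SpS_quarter hr (show ρ ≤ rh0 by linarith)
  unfold Dsp
  rw [CSG.stp_zero (by linarith) h, SpS_bp hr (Or.inl (by linarith [hw.1, hw.2]))]
  ring
theorem D_mid (ε : ℝ) {ρ : ℝ} (h : rh0 / 2 ≤ ρ) : Dsp r ε ρ = ε * hd r * bp ((Ssp r ρ - r) / wd r) := by
  have hr0 := SpS_rh0
  unfold Dsp
  rw [CSG.stp_one (by linarith) h]
  ring
theorem D_zero (hr : 1 ≤ r) (ε : ℝ) {ρ : ℝ} (h : rh0 / 2 ≤ ρ) (h' : Ssp r ρ ≤ r - wd r ∨ r + wd r ≤ Ssp r ρ) :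
    Dsp r ε ρ = 0 := by
  rw [D_mid ε h, SpS_bp hr h', mul_zero]
theorem D_bd (hr : 1 ≤ r) {ε : ℝ} (hε : |ε| ≤ 1) {ρ : ℝ} (h : rh0 / 2 ≤ ρ) : |Dsp r ε ρ| ≤ hd r := by
  have hh := hd_pos hr
  have h1 := bp_nonneg ((Ssp r ρ - r) / wd r)
  have h2 := bp_le ((Ssp r ρ - r) / wd r)
  rw [D_mid ε h, abs_mul, abs_mul, abs_of_pos hh, abs_of_nonneg h1]
  calc |ε| * hd r * bp ((Ssp r ρ - r) / wd r) ≤ 1 * hd r * 1 :=
        mul_le_mul (mul_le_mul_of_nonneg_right hε hh.le) h2 h1 (by positivity)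
    _ = hd r := by ring

theorem q_smooth (hr : 1 ≤ r) (ε : ℝ) : ContDiff ℝ ∞ (qsp r ε) := by
  unfold qsp
  exact ((contDiff_const.add (D_smooth hr ε)).sub ((S_smooth hr).div_const _)).prodMk (S_smooth hr)
theorem q_start (hr : 1 ≤ r) (ε : ℝ) {ρ : ℝ} (h : ρ ≤ rh0 / 8) : qsp r ε ρ = (0, 0) := by
  have hr0 := SpS_rh0
  unfold qsp
  rw [D_low hr ε (by linarith), S_low hr h]
  norm_num
theorem q_end (hr : 1 ≤ r) (ε : ℝ) {ρ : ℝ} (h : rad r (2 * r) ≤ ρ) :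
    qsp r ε ρ = (1 / 2 - (2 * r - wd r / 2) / r, 2 * r - wd r / 2) := by
  have hr0 := SpS_rh0
  have hr1 := SpS_r hr
  have hw := SpS_w hr
  have h2 := SpS_rad2 hr
  unfold qsp
  rw [D_zero hr ε (by linarith) (Or.inr (by rw [S_high hr h]; linarith [hw.1, hw.2])), S_high hr h, add_zero]
theorem q_avoid (hr : 1 ≤ r) {ε : ℝ} (hε : ε = 1 ∨ ε = -1) (ρ : ℝ) : ¬ PTH.Obs (qsp r ε ρ) := by
  have hr0 := SpS_rh0
  have hr1 := SpS_r hr
  have hw := SpS_w hr
  have hrne : (r : ℝ) ≠ 0 := by linarith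
  rintro ⟨m, n, hmn⟩
  have h1 := congrArg Prod.fst hmn
  have hS : Ssp r ρ = n := congrArg Prod.snd hmn
  have hX : 1 / 2 + Dsp r ε ρ - Ssp r ρ / r = 1 / 2 + m := by
    have h3 : 1 / 2 + Dsp r ε ρ - Ssp r ρ / r = _ := h1
    linarith
  rcases le_or_gt ρ (rh0 / 8) with h3 | h3
  · rw [D_low hr ε (by linarith), S_low hr h3] at hX
    have h4 : (2 * m : ℝ) = -1 := by
      rw [zero_div] at hX
      linarith
    have h5 : 2 * m = -1 := by exact_mod_cast h4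
    omega
  · have h4 := S_pos hr h3
    have h5 := S_le hr ρ
    rw [hS] at h4 h5
    have hn1 : 1 ≤ n := by
      have : 0 < n := by exact_mod_cast h4
      omega
    have hn2 : n ≤ 2 * r - 1 := by
      have : (n : ℝ) < ((2 * r : ℤ) : ℝ) := by push_cast; linarith [hw.1]
      have : n < 2 * r := by exact_mod_cast this
      omega
    have hn1' : (1 : ℝ) ≤ n := by exact_mod_cast hn1
    have hρ : rh0 / 2 ≤ ρ := by
      by_contra hc
      push Not at hc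
      have h6 := SpS_quarter hr (show ρ ≤ rh0 by linarith)
      rw [hS] at h6
      linarith [hw.2]
    by_cases hnr : n = r
    · have hnr' : (n : ℝ) = r := by exact_mod_cast hnr
      rw [D_mid ε hρ, hS, hnr', sub_self, zero_div, bp_at, mul_one, div_self hrne] at hX
      have hh := hd_pos hr
      have hh' := hd_le hr
      rcases hε with rfl | rfl
      · have h6 : (-1 : ℝ) < m := by linarith
        have h7 : (m : ℝ) < 0 := by linarith
        have h8 : -1 < m := by exact_mod_cast h6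
        have h9 : m < 0 := by exact_mod_cast h7
        omega
      · have h6 : (-2 : ℝ) < m := by linarith
        have h7 : (m : ℝ) < -1 := by linarith
        have h8 : -2 < m := by exact_mod_cast h6
        have h9 : m < -1 := by exact_mod_cast h7
        omega
    · have hor : Ssp r ρ ≤ r - wd r ∨ r + wd r ≤ Ssp r ρ := by
        rw [hS]
        rcases lt_or_gt_of_ne hnr with h6 | h6
        · left
          have : (n : ℝ) + 1 ≤ r := by exact_mod_cast h6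
          linarith [hw.2]
        · right
          have : (r : ℝ) + 1 ≤ n := by exact_mod_cast h6
          linarith [hw.2]
      rw [D_zero hr ε hρ hor, hS] at hX
      have h6 : (n : ℝ) = -(m * r) := by
        have h7 : (n : ℝ) / r = -m := by linarith
        rw [div_eq_iff hrne] at h7
        linarith
      have h7 : n = -(m * r) := by exact_mod_cast h6
      have hrpos : (0 : ℤ) < r := by exact_mod_cast hr
      have h8 : (-m) * r = n := by rw [h7]; ring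
      have h9 : 0 < -m := by
        by_contra hc
        push Not at hc
        nlinarith
      have h10 : -m < 2 := by
        by_contra hc
        push Not at hc
        nlinarith
      have h11 : -m = 1 := by omega
      rw [h11, one_mul] at h8
      exact hnr h8.symm
theorem q_pt (r : ℕ) (ε ρ : ℝ) :
    Th r (zq r ε ρ, Ssp r ρ) = ((ρ : ℂ) * ex (qsp r ε ρ).1, (qsp r ε ρ).2) := by
  unfold Th zq qsp Cn
  refine Prod.ext ?_ rfl
  change -(((Lm r (Ssp r ρ) : ℝ) : ℂ) * ex (-(Ssp r ρ / r)) * (((ρ * Lm r (-Ssp r ρ) : ℝ) : ℂ) * ex (Dsp r ε ρ))) =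
    (ρ : ℂ) * ex (1 / 2 + Dsp r ε ρ - Ssp r ρ / r)
  have e1 : (1 / 2 + Dsp r ε ρ - Ssp r ρ / r : ℝ) = 1 / 2 + (Dsp r ε ρ + -(Ssp r ρ / r)) := by ring
  have e2 : ((Lm r (Ssp r ρ) : ℝ) : ℂ) * ((Lm r (-Ssp r ρ) : ℝ) : ℂ) = 1 := by
    rw [← Complex.ofReal_mul, ← Lm_add, add_neg_cancel, Lm_zero, Complex.ofReal_one]
  rw [e1, Pool.Agent.RSG.ex_add, Pool.Agent.RSG.ex_add, Pool.Agent.RSG.ex_half]
  push_cast
  linear_combination (-(ex (-(Ssp r ρ / r)) * (ρ : ℂ) * ex (Dsp r ε ρ))) * e2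
theorem zq_smooth (hr : 1 ≤ r) (ε : ℝ) : ContDiff ℝ ∞ (zq r ε) := by
  unfold zq
  exact (Complex.ofRealCLM.contDiff.comp (contDiff_id.mul ((Lm_smooth r).comp (S_smooth hr).neg))).mul
    (Pool.Agent.RSG.ex_smooth.comp (D_smooth hr ε))
theorem zq_norm (r : ℕ) (ε ρ : ℝ) : ‖zq r ε ρ‖ = |ρ| * Lm r (-Ssp r ρ) := by
  unfold zq
  rw [norm_mul, Pool.Agent.RSG.ex_norm, mul_one, Complex.norm_real, Real.norm_eq_abs, abs_mul,
    abs_of_pos (Lm_pos r _)]
theorem zq_low (hr : 1 ≤ r) (ε : ℝ) {ρ : ℝ} (h : ρ ≤ rh0 / 8) : zq r ε ρ = ((-ρ : ℝ) : ℂ) := by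
  have hr0 := SpS_rh0
  unfold zq
  have e : (-1 / 2 : ℝ) = -(1 / 2) := by norm_num
  rw [D_low hr ε (by linarith), S_low hr h, neg_zero, Lm_zero, mul_one, e, Pool.Agent.RSG.ex_neg,
    Pool.Agent.RSG.ex_half]
  simp
theorem zq_mid (hr : 1 ≤ r) (ε : ℝ) {x : ℝ} (h : 9 / 10 * wd r ≤ x) (h' : x ≤ 2 * r - wd r)
    (h'' : x ≤ r - wd r ∨ r + wd r ≤ x) : zq r ε (rad r x) = rh0 := by
  have hw := SpS_w hr
  have hr0 := SpS_rh0
  have hS := S_mid hr h h'
  have h1 : rh0 ≤ rad r x := by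
    have := SpS_rad_le (r := r) hr (x := 0) (y := x) (by linarith [hw.1])
    rw [rad_zero] at this
    exact this
  unfold zq
  rw [hS, D_zero hr ε (by linarith) (by rw [hS]; exact h''), Pool.Agent.RSG.ex_zero, mul_one]
  unfold rad
  rw [mul_assoc, ← Lm_add, add_neg_cancel, Lm_zero, mul_one]
/-- the detour -/
theorem zq_det (hr : 1 ≤ r) (ε : ℝ) {x : ℝ} (h : |x - r| ≤ 1 / 2) :
    zq r ε (rad r x) = rh0 * ex (ε * hd r * bp ((x - r) / wd r)) := by
  have hw := SpS_w hr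
  have hr0 := SpS_rh0
  have hr1 := SpS_r hr
  obtain ⟨h1, h2⟩ := abs_le.1 h
  have hS := S_mid (r := r) hr (x := x) (by linarith [hw.2]) (by linarith [hw.2])
  have h3 : rh0 ≤ rad r x := by
    have := SpS_rad_le (r := r) hr (x := 0) (y := x) (by linarith)
    rw [rad_zero] at this
    exact this
  unfold zq
  rw [D_mid ε (by linarith), hS]
  congr 2
  unfold rad
  rw [mul_assoc, ← Lm_add, add_neg_cancel, Lm_zero, mul_one]
/-- the end -/
theorem zq_end (hr : 1 ≤ r) (ε : ℝ) {ρ : ℝ} (h : 2 * r - wd r ≤ Ssp r ρ) :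
    ∃ x : ℝ, rh0 ≤ x ∧ zq r ε ρ = x := by
  have hw := SpS_w hr
  have hr0 := SpS_rh0
  have hr1 := SpS_r hr
  have h0 : rad r (9 / 10 * wd r) ≤ ρ := by
    by_contra hc
    push Not at hc
    have h1 := S_mono hr hc.le
    rw [S_mid hr le_rfl (by nlinarith [hw.1, hw.2])] at h1
    linarith [hw.1, hw.2]
  have hρ : rh0 ≤ ρ := by
    have := SpS_rad_le (r := r) hr (x := 0) (y := 9 / 10 * wd r) (by linarith [hw.1])
    rw [rad_zero] at this
    linarith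
  have hρ0 : 0 < ρ := by linarith
  refine ⟨ρ * Lm r (-Ssp r ρ), ?_, ?_⟩
  · have h1 := S_le_lam hr h0
    have h2 : rad r (Ssp r ρ) ≤ ρ := by
      have := SpS_rad_le (r := r) hr h1
      rw [rad_lam hr hρ0] at this
      exact this
    have h3 : rad r (Ssp r ρ) * Lm r (-Ssp r ρ) ≤ ρ * Lm r (-Ssp r ρ) :=
      mul_le_mul_of_nonneg_right h2 (Lm_pos r _).le
    have h4 : rad r (Ssp r ρ) * Lm r (-Ssp r ρ) = rh0 := by
      unfold rad
      rw [mul_assoc, ← Lm_add, add_neg_cancel, Lm_zero, mul_one]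
    linarith
  · unfold zq
    rw [D_zero hr ε (by linarith) (Or.inr (by linarith [hw.1, hw.2])), Pool.Agent.RSG.ex_zero, mul_one]

end

end Pool.Agent.SPR
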