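import Pool.Agent.SPR.Defs

/-!
# SPR/TwA: the twist of a ribbon box, basic facts   (difficulty 2)

* `tw_box`: the chosen `q` has `b q = b (z, s, t)`, so by `Box.inj` `q = (z, s, t + m)`; period `1` in `t` (`Box.per`, induction on `m`, see `LChart.per_int` in
  SPI/LevD or `BBox` lemmas).  `tw_strand`: `cz (±1) = 1`.  `tw_add`: `‖ex x * z‖ = ‖z‖`, so `cz` is unchanged; `ex (x + y) = ex x * ex y`.  `tw_inj`: left inverse `Tw b (-θ)`.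
* `tw_equi`: `a u (b (z, s, t)) = b (z, s, t + u)` from `EquiB` and `Act.add`; the image of the box is invariant under `a u` (also under `a (-u)`).
* `tw_perm`: the inverse is `Tw b (-θ)`.  Local diffeomorphism at `p = b (z, s, t)`, `‖z‖ < 5`, `|s| < 1`: near `p`, `Tw b θ = b ∘ R ∘ (local inverse of b)` with the diffeomorphism
  `R (z, s, t) = (ex (θ s * cz z) * z, s, t)` of `ℂ × ℝ × ℝ` (inverse with `-θ`): `Tw b θ ∘ b = b ∘ R` near `(z, s, t)`, use `CSG.ld_of_comp_right`.  At a point `p` outside `b ({‖z‖ ≤ 3, |s| ≤ 3/4})`: this set is closed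
  (image of the compact set `{‖z‖ ≤ 3, |s| ≤ 3/4, t ∈ [0, 1]}`, `P` is `T2`), off it `Tw b θ = id`.
* `rotb_box`: `(z, s, t) ↦ (ex (θ s) * z, s, t)` is a diffeomorphism which preserves `‖z‖` and `s`.  `rotb_two`: `Tw b θ (b (e, s, 0)) = b (ex (θ s) e, s, 0) = rotb b θ (e, s, 0)` for `e = ±1`; off the strands `K l` is not in the
  image of the box, so `Tw b θ (K l) = K l`.
-/

open scoped Manifold ContDiff Topology
open Set Filter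
open Complex (I)
open Pool.Agent.RSG (E4 cj ex)

namespace Pool.Agent.SPR

open Pool.Agent.RBM (Box gs Ro)
open Pool.Agent.COR (BBox EquiB TwoStrands CPieces)

section
variable {EP : Type*} [NormedAddCommGroup EP] [NormedSpace ℝ EP] {HP : Type*} [TopologicalSpace HP]
  {IP : ModelWithCorners ℝ EP HP} {P : Type*} [TopologicalSpace P] [ChartedSpace HP P]
  {b : ℂ × ℝ × ℝ → P} {a : ℝ → P → P} {K : ℝ → P} {f₁ f₂ : ℝ → ℝ} {ε₁ ε₂ : ℝ}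

theorem TwA_per (hb : Box IP b 5) (z : ℂ) (s t : ℝ) (m : ℤ) : b (z, s, t + m) = b (z, s, t) := by
  have h1 : Function.Periodic (fun t : ℝ => b (z, s, t)) 1 := fun t => hb.per z s t
  have h2 := h1.int_mul m t
  simpa using h2

theorem TwA_norm (x : ℝ) (z : ℂ) : ‖ex x * z‖ = ‖z‖ := by
  rw [norm_mul, RSG.ex_norm, one_mul]

theorem TwA_cz_mul (x : ℝ) (z : ℂ) : cz (ex x * z) = cz z := by
  rw [cz, cz, TwA_norm]

theorem TwA_cz_one {z : ℂ} (h : ‖z‖ ≤ 2) : cz z = 1 := by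
  rw [cz, CSG.stp_zero (by norm_num) (by nlinarith [norm_nonneg z]), sub_zero]

theorem TwA_cz_zero {z : ℂ} (h : 3 ≤ ‖z‖) : cz z = 0 := by
  rw [cz, CSG.stp_one (by norm_num) (by nlinarith [norm_nonneg z]), sub_self]

theorem TwA_cz_smooth : ContDiff ℝ ∞ cz := by
  have h1 : ContDiff ℝ ∞ fun z : ℂ => ‖z‖ ^ 2 := contDiff_norm_sq ℝ
  have h2 : ContDiff ℝ ∞ fun z : ℂ => CSG.stp 4 9 (‖z‖ ^ 2) := (CSG.stp_smooth 4 9).comp h1
  exact contDiff_const.sub h2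

theorem tw_box (hb : Box IP b 5) (θ : ℝ → ℝ) {z : ℂ} {s : ℝ} (hz : ‖z‖ < 5) (hs : |s| < 1) (t : ℝ) :
    Tw b θ (b (z, s, t)) = b (ex (θ s * cz z) * z, s, t) := by
  have h : ∃ q : ℂ × ℝ × ℝ, ‖q.1‖ < 5 ∧ |q.2.1| < 1 ∧ b q = b (z, s, t) := ⟨(z, s, t), hz, hs, rfl⟩
  have h0 : Tw b θ (b (z, s, t)) =
      b (ex (θ h.choose.2.1 * cz h.choose.1) * h.choose.1, h.choose.2.1, h.choose.2.2) := dif_pos h
  rw [h0]
  obtain ⟨h1, h2, h3⟩ := h.choose_spec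
  generalize h.choose = q at h1 h2 h3
  obtain ⟨z', s', t'⟩ := q
  obtain ⟨h4, h5, m, h6⟩ := hb.inj z' s' t' z s t h1 h2 hz hs h3
  subst h4
  subst h5
  subst h6
  exact (TwA_per hb _ _ _ m).symm

theorem tw_out (θ : ℝ → ℝ) {p : P} (h : ∀ (z : ℂ) (s t : ℝ), ‖z‖ < 5 → |s| < 1 → b (z, s, t) ≠ p) :
    Tw b θ p = p := by
  refine dif_neg ?_
  rintro ⟨⟨z, s, t⟩, h1, h2, h3⟩
  exact h z s t h1 h2 h3

theorem TwA_cases (b : ℂ × ℝ × ℝ → P) (p : P) :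
    (∃ (z : ℂ) (s t : ℝ), ‖z‖ < 5 ∧ |s| < 1 ∧ p = b (z, s, t)) ∨
      ∀ (z : ℂ) (s t : ℝ), ‖z‖ < 5 → |s| < 1 → b (z, s, t) ≠ p := by
  by_cases h : ∃ (z : ℂ) (s t : ℝ), ‖z‖ < 5 ∧ |s| < 1 ∧ p = b (z, s, t)
  · exact Or.inl h
  · refine Or.inr fun z s t h1 h2 h3 => h ⟨z, s, t, h1, h2, h3.symm⟩

theorem tw_strand (hb : Box IP b 5) (θ : ℝ → ℝ) {e : ℂ} (he : e = 1 ∨ e = -1) {s : ℝ} (hs : |s| < 1) (t : ℝ) :
    Tw b θ (b (e, s, t)) = b (ex (θ s) * e, s, t) := by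
  have h1 : ‖e‖ = 1 := by
    rcases he with h | h <;> simp [h]
  rw [tw_box hb θ (by rw [h1]; norm_num) hs, TwA_cz_one (by rw [h1]; norm_num), mul_one]

theorem tw_add (hb : Box IP b 5) (θ θ' : ℝ → ℝ) (p : P) :
    Tw b θ (Tw b θ' p) = Tw b (fun s => θ s + θ' s) p := by
  rcases TwA_cases b p with ⟨z, s, t, hz, hs, rfl⟩ | h
  · rw [tw_box hb θ' hz hs, tw_box hb θ (by rw [TwA_norm]; exact hz) hs, tw_box hb _ hz hs, TwA_cz_mul, ← mul_assoc,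
      ← RSG.ex_add, add_mul]
  · rw [tw_out θ' h, tw_out θ h, tw_out _ h]

theorem tw_zero (hb : Box IP b 5) (p : P) : Tw b (fun _ => 0) p = p := by
  rcases TwA_cases b p with ⟨z, s, t, hz, hs, rfl⟩ | h
  · rw [tw_box hb _ hz hs, zero_mul, RSG.ex_zero, one_mul]
  · exact tw_out _ h

theorem TwA_left (hb : Box IP b 5) (θ : ℝ → ℝ) (p : P) : Tw b (fun s => -θ s) (Tw b θ p) = p := by
  rw [tw_add hb]
  simp only [neg_add_cancel]
  exact tw_zero hb p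

theorem TwA_right (hb : Box IP b 5) (θ : ℝ → ℝ) (p : P) : Tw b θ (Tw b (fun s => -θ s) p) = p := by
  rw [tw_add hb]
  simp only [add_neg_cancel]
  exact tw_zero hb p

theorem tw_inj (hb : Box IP b 5) (θ : ℝ → ℝ) : Function.Injective (Tw b θ) := by
  intro p p' h
  rw [← TwA_left hb θ p, h, TwA_left hb θ p']

theorem tw_equi (ha : PTH.Act IP a) (hb : Box IP b 5) (heq : EquiB a b) (θ : ℝ → ℝ) (u : ℝ) (p : P) :
    Tw b θ (a u p) = a u (Tw b θ p) := by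
  have hkey : ∀ (z : ℂ) (s t : ℝ), a u (b (z, s, t)) = b (z, s, u + t) := by
    intro z s t
    rw [heq z s t, heq z s (u + t), ha.add]
  rcases TwA_cases b p with ⟨z, s, t, hz, hs, rfl⟩ | h
  · rw [hkey, tw_box hb θ hz hs, tw_box hb θ hz hs, hkey]
  · rw [tw_out θ h, tw_out θ]
    intro z s t h1 h2 h3
    refine h z s (-u + t) h1 h2 ?_
    have h4 : a (-u) (b (z, s, t)) = a (-u) (a u p) := by rw [h3]
    rw [← ha.add, neg_add_cancel, ha.zero] at h4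
    rw [← h4, heq z s t, heq z s (-u + t), ha.add]

/-- rotation by `f (z, s)` turns, `f` invariant under rotation -/
theorem TwA_rot {f : ℂ × ℝ × ℝ → ℝ} (hf : ContDiff ℝ ∞ f) (hinv : ∀ (x : ℝ) (q : ℂ × ℝ × ℝ), f (ex x * q.1, q.2) = f q)
    (q : ℂ × ℝ × ℝ) :
    IsLocalDiffeomorphAt 𝓘(ℝ, ℂ × ℝ × ℝ) 𝓘(ℝ, ℂ × ℝ × ℝ) ∞ (fun q : ℂ × ℝ × ℝ => (ex (f q) * q.1, q.2)) q := by
  have h1 : ContDiff ℝ ∞ fun q : ℂ × ℝ × ℝ => (ex (f q) * q.1, q.2) :=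
    ((RSG.ex_smooth.comp hf).mul contDiff_fst).prodMk contDiff_snd
  have h2 : ContDiff ℝ ∞ fun q : ℂ × ℝ × ℝ => (ex (-f q) * q.1, q.2) :=
    ((RSG.ex_smooth.comp hf.neg).mul contDiff_fst).prodMk contDiff_snd
  have h := CSG.ld_of_perm (f := (⟨fun q : ℂ × ℝ × ℝ => (ex (f q) * q.1, q.2),
    fun q : ℂ × ℝ × ℝ => (ex (-f q) * q.1, q.2), fun q => by
      refine Prod.ext ?_ rfl
      change ex (-f (ex (f q) * q.1, q.2)) * (ex (f q) * q.1) = q.1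
      rw [hinv, ← mul_assoc, ← RSG.ex_add, neg_add_cancel, RSG.ex_zero, one_mul], fun q => by
      refine Prod.ext ?_ rfl
      change ex (f (ex (-f q) * q.1, q.2)) * (ex (-f q) * q.1) = q.1
      rw [hinv, ← mul_assoc, ← RSG.ex_add, add_neg_cancel, RSG.ex_zero, one_mul]⟩ :
      ℂ × ℝ × ℝ ≃ ℂ × ℝ × ℝ)) h1 h2 q
  exact h

theorem TwA_closed [T2Space P] (hb : Box IP b 5) :
    IsClosed (b '' {q : ℂ × ℝ × ℝ | ‖q.1‖ ≤ 3 ∧ |q.2.1| ≤ 3 / 4 ∧ q.2.2 ∈ Icc (0 : ℝ) 1}) := by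
  have h1 : {q : ℂ × ℝ × ℝ | ‖q.1‖ ≤ 3 ∧ |q.2.1| ≤ 3 / 4 ∧ q.2.2 ∈ Icc (0 : ℝ) 1} =
      Metric.closedBall (0 : ℂ) 3 ×ˢ (Icc (-(3 / 4)) (3 / 4) ×ˢ Icc (0 : ℝ) 1) := by
    ext q
    simp only [Set.mem_setOf_eq, Set.mem_prod, Metric.mem_closedBall, dist_zero_right, Set.mem_Icc, abs_le]
  have h2 : IsCompact {q : ℂ × ℝ × ℝ | ‖q.1‖ ≤ 3 ∧ |q.2.1| ≤ 3 / 4 ∧ q.2.2 ∈ Icc (0 : ℝ) 1} := by
    rw [h1]
    exact (isCompact_closedBall _ _).prod (isCompact_Icc.prod isCompact_Icc)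
  refine (h2.image_of_continuousOn ?_).isClosed
  intro q hq
  exact (CSG.ld_continuousAt (hb.loc q.1 q.2.1 q.2.2 (by linarith [hq.1]) (by linarith [hq.2.1]))).continuousWithinAt

theorem TwA_loc [T2Space P] (hb : Box IP b 5) {θ : ℝ → ℝ} (hθ : ContDiff ℝ ∞ θ)
    (h0 : ∀ s, 3 / 4 ≤ |s| → θ s = 0) (p : P) : IsLocalDiffeomorphAt IP IP ∞ (Tw b θ) p := by
  rcases TwA_cases b p with ⟨z, s, t, hz, hs, rfl⟩ | h
  · have hf : ContDiff ℝ ∞ fun q : ℂ × ℝ × ℝ => θ q.2.1 * cz q.1 :=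
      (hθ.comp (contDiff_fst.comp contDiff_snd)).mul (TwA_cz_smooth.comp contDiff_fst)
    have h1 := TwA_rot hf (fun x q => by
      change θ q.2.1 * cz (ex x * q.1) = θ q.2.1 * cz q.1
      rw [TwA_cz_mul]) (z, s, t)
    have h2 : IsLocalDiffeomorphAt 𝓘(ℝ, ℂ × ℝ × ℝ) IP ∞ b (ex (θ s * cz z) * z, s, t) :=
      hb.loc _ _ _ (by rw [TwA_norm]; exact hz) hs
    have h3 : IsLocalDiffeomorphAt 𝓘(ℝ, ℂ × ℝ × ℝ) IP ∞
        (b ∘ fun q : ℂ × ℝ × ℝ => (ex (θ q.2.1 * cz q.1) * q.1, q.2)) (z, s, t) :=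
      IsLocalDiffeomorphAt.comp (hf := h1) (hg := h2) ..
    have h4 : (Tw b θ ∘ b) =ᶠ[𝓝 (z, s, t)] (b ∘ fun q : ℂ × ℝ × ℝ => (ex (θ q.2.1 * cz q.1) * q.1, q.2)) := by
      have ho : IsOpen {q : ℂ × ℝ × ℝ | ‖q.1‖ < 5 ∧ |q.2.1| < 1} :=
        (isOpen_lt (continuous_norm.comp continuous_fst) continuous_const).inter
          (isOpen_lt (continuous_abs.comp (continuous_fst.comp continuous_snd)) continuous_const)
      filter_upwards [ho.mem_nhds (show (z, s, t) ∈ {q : ℂ × ℝ × ℝ | ‖q.1‖ < 5 ∧ |q.2.1| < 1} from ⟨hz, hs⟩)] with q hq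
      exact tw_box hb θ hq.1 hq.2 q.2.2
    exact CSG.ld_of_comp_left (CSG.ld_congr h3 h4) (hb.loc z s t hz hs)
  · have h1 := TwA_closed hb
    have h2 : p ∉ b '' {q : ℂ × ℝ × ℝ | ‖q.1‖ ≤ 3 ∧ |q.2.1| ≤ 3 / 4 ∧ q.2.2 ∈ Icc (0 : ℝ) 1} := by
      rintro ⟨q, hq, h3⟩
      exact h q.1 q.2.1 q.2.2 (by linarith [hq.1]) (by linarith [hq.2.1]) h3
    refine CSG.ld_congr (CSG.ld_id p) ?_
    filter_upwards [h1.isOpen_compl.mem_nhds h2] with p' hp'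
    change Tw b θ p' = p'
    rcases TwA_cases b p' with ⟨z, s, t, hz, hs, rfl⟩ | h'
    · rw [tw_box hb θ hz hs]
      by_cases hz3 : 3 ≤ ‖z‖
      · rw [TwA_cz_zero hz3, mul_zero, RSG.ex_zero, one_mul]
      · by_cases hs3 : 3 / 4 ≤ |s|
        · rw [h0 s hs3, zero_mul, RSG.ex_zero, one_mul]
        · exfalso
          apply hp'
          refine ⟨(z, s, Int.fract t), ⟨by linarith, by linarith, Int.fract_nonneg t, (Int.fract_lt_one t).le⟩, ?_⟩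
          have h5 := TwA_per hb z s (Int.fract t) ⌊t⌋
          rw [Int.fract_add_floor] at h5
          exact h5.symm
    · exact tw_out θ h'

theorem tw_perm [T2Space P] (hb : Box IP b 5) {θ : ℝ → ℝ} (hθ : ContDiff ℝ ∞ θ)
    (h0 : ∀ s, 3 / 4 ≤ |s| → θ s = 0) :
    ∃ F : Equiv.Perm P, (∀ p, F p = Tw b θ p) ∧ ∀ p, IsLocalDiffeomorphAt IP IP ∞ F p :=
  ⟨⟨Tw b θ, Tw b (fun s => -θ s), TwA_left hb θ, TwA_right hb θ⟩, fun _ => rfl, fun p => TwA_loc hb hθ h0 p⟩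

theorem rotb_box (hb : Box IP b 5) {θ : ℝ → ℝ} (hθ : ContDiff ℝ ∞ θ) : Box IP (rotb b θ) 5 where
  per := fun z s t => hb.per _ s t
  loc := by
    intro z s t hz hs
    have hf : ContDiff ℝ ∞ fun q : ℂ × ℝ × ℝ => θ q.2.1 := hθ.comp (contDiff_fst.comp contDiff_snd)
    have h1 := TwA_rot hf (fun x q => rfl) (z, s, t)
    have h2 : IsLocalDiffeomorphAt 𝓘(ℝ, ℂ × ℝ × ℝ) IP ∞ b (ex (θ s) * z, s, t) :=
      hb.loc _ _ _ (by rw [TwA_norm]; exact hz) hs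
    have h3 : IsLocalDiffeomorphAt 𝓘(ℝ, ℂ × ℝ × ℝ) IP ∞
        (b ∘ fun q : ℂ × ℝ × ℝ => (ex (θ q.2.1) * q.1, q.2)) (z, s, t) :=
      IsLocalDiffeomorphAt.comp (hf := h1) (hg := h2) ..
    exact h3
  inj := by
    intro z s t z' s' t' hz hs hz' hs' h
    obtain ⟨h1, h2, h3⟩ := hb.inj _ s t _ s' t' (by rw [TwA_norm]; exact hz) hs (by rw [TwA_norm]; exact hz') hs' h
    simp only at h1
    rw [h2] at h1
    exact ⟨mul_left_cancel₀ (RSG.ex_ne _) h1, h2, h3⟩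

theorem rotb_equi (heq : EquiB a b) (θ : ℝ → ℝ) : EquiB a (rotb b θ) := fun _ s t => heq _ s t

theorem rotb_two (hb : Box IP b 5) (hs : TwoStrands b K f₁ f₂ ε₁ ε₂) (θ : ℝ → ℝ) :
    TwoStrands (rotb b θ) (fun l => Tw b θ (K l)) f₁ f₂ ε₁ ε₂ where
  smooth₁ := hs.smooth₁
  smooth₂ := hs.smooth₂
  deriv₁ := hs.deriv₁
  deriv₂ := hs.deriv₂
  sign₁ := hs.sign₁
  sign₂ := hs.sign₂
  ord₁ := hs.ord₁
  ord₂ := hs.ord₂
  strand₁ := by
    intro u hu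
    have h1 : |ε₁ * u| < 1 := by
      rcases hs.sign₁ with h | h <;> simpa [h] using hu
    rw [hs.strand₁ u hu, tw_strand hb θ (Or.inl rfl) h1]
    rfl
  strand₂ := by
    intro u hu
    have h1 : |ε₂ * u| < 1 := by
      rcases hs.sign₂ with h | h <;> simpa [h] using hu
    rw [hs.strand₂ u hu, tw_strand hb θ (Or.inr rfl) h1]
    rfl
  off := by
    intro l hl z s t hz hs' h
    have h1 : Tw b θ (K l) = K l := tw_out θ fun z' s' t' h2 h3 h4 => hs.off l hl z' s' t' h2 h3 h4.symm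
    simp only [h1] at h
    exact hs.off l hl _ s t (by rw [TwA_norm]; exact hz) hs' h

end

end Pool.Agent.SPR
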