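import Pool.Agent.SPR.Two
import Pool.Agent.SPR.Rib

/-!
# SPR/TwL: the path arcs and the twisted arcs as modified arcs   (difficulty 2)

Let `ρ = 4 l`, `x = lam r ρ` (for `ρ > 0`, `ρ = rad r x`).
* `ga_path`: `w = qsp r ε` on `ρ ≤ 1/8`; `PTH.arc w l = Th r (zq r ε ρ, Ssp r ρ)` there (`q_pt`).  `ρ ≤ -rad (1/2)`: `w ρ = (0, 0)`.  Inner: `Ic r ε c 0 l = (zq r ε ρ, Ssp r ρ)`.  `wd < x ≤ 1/2`: `S = x`; `zq = rh0` if `x ≤ r - wd` (`zq_mid`; `1/2 ≤ r - wd`).  `r - 1/2 ≤ x ≤ r + 1/2`: `S = x`, `zq_det`: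
  `Th r (rh0 ex (..), x) = Th r (Cn r (rh0 ex (..)), x - r) + (0, r)` (`Th_shift`, `Cn_r`).
* `ga_path'`: the path `w₂ = qsp r (-ε)` on `ρ ≤ 1/8`, `w₂ = w` on `ρ ≥ 1/8`: the same with `-ε`; the inner parts agree: `zq r (-ε) ρ = zq r ε ρ` for `ρ ≤ rad wd` (the bump in `Dsp` vanishes: `Ssp ≤ wd ≤ r - wd`); in the last case of `GA` (`1/2 < x < r - 1/2`, or `x > r + 1/2`) `qsp r (-ε) ρ = qsp r ε ρ` for `ρ ≤ 1/8`
  (`|S - r| ≥ wd`: `S = x` for `x ≤ 2 r - wd`, `S ≥ 2 r - wd` otherwise).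
* `ga_tw`: `IsTwArc (rbf r (1/8)) f₁ f₂ 1 1 θ (arc w) (GA ..)`, `θ u = th0 ε (tv r (1/8) u)`, `t = tv r (1/8) u ∈ [9/80, r - 9/80]` (`tv_bd`).  First: `4 l = rad r t`.  `t ≤ 1/2`: `GA = Th r (Zt0 t, t) = rbf (ex (θ u), u)`.  `t > 1/2`: `θ u = ε`, `ex ε = 1`, `rbf (1, u) = Th r (rh0, t)`;
  if `t < r - 1/2`: `arc w l = Th r (rh0, t)`; if `t ≥ r - 1/2`: `Ztr (t - r) = rad r r` (`wd ≤ r - t`, `th0 = 0`), `Th r (rad r r, t - r) + (0, r) = Th r (rh0, t)`.  Second: `4 l = rad r (r + t)`: `t ≤ 1/2`: `GA = Th r (mR - muR ex (th0 t), t) + (0, r)`; `t > 1/2`: `arc w l = Th r (rh0, r + t)`, `MT` to `Th r (rad r r, t) = rbf (-1, u)`.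
  Third: `l` not in the windows: `GA` differs from the untwisted arc (`ga_path`) only where `th0 ≠ 0`, i.e. `x > 3/20` with `x ≤ 1/2`, or `x - r > 3/20`, `x - r ≤ 1/2`; these `l` are `f₁ u`, `f₂ u` (`3/20 > 1/8`, `tv_inv`: `1/8 < t < r - 1/8`).
* `th_step`: `tv r (1/8) u ≤ 1/8` for `u ≤ -1/2` (monotone), `≥ 3/4 > 1/5` for `u ≥ 1/2` (`tv (1/2) = r - 1/8`).
-/

open scoped Manifold ContDiff Topology
open Set Filter
open Complex (I)
open Pool.Agent.RSG (E4 cj ex)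

namespace Pool.Agent.SPR

section
variable {r : ℕ} {ε : ℝ} {w w₂ : ℝ → ℝ × ℝ}

theorem TwL_r1 (hr : 1 ≤ r) : (1 : ℝ) ≤ r := by exact_mod_cast hr

theorem TwL_rad_le (hr : 1 ≤ r) {x y : ℝ} (h : x ≤ y) : rad r x ≤ rad r y := by
  rcases h.eq_or_lt with h1 | h1
  · rw [h1]
  · exact (rad_lt hr h1).le

theorem TwL_lt_of (hr : 1 ≤ r) {x y : ℝ} (h : rad r x < rad r y) : x < y := by
  by_contra hn
  exact absurd (TwL_rad_le hr (not_lt.mp hn)) (not_le.mpr h)

theorem TwL_le_of (hr : 1 ≤ r) {x y : ℝ} (h : rad r x ≤ rad r y) : x ≤ y := by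
  by_contra hn
  exact absurd (rad_lt hr (not_le.mp hn)) (not_lt.mpr h)

theorem TwL_rad_small (hr : 1 ≤ r) {x : ℝ} (h : |x| ≤ 4 * r) : rad r x ≤ 1 / 8 := by
  have h1 := rad_bd hr h
  have h2 := (abs_le.mp h1).2
  have : rh0 = 1 / 1000 := rfl
  rw [this] at h2
  linarith

theorem TwL_arc (hq : ∀ ρ ≤ 1 / 8, w ρ = qsp r ε ρ) {l : ℝ} (h : 4 * l ≤ 1 / 8) :
    PTH.arc w l = Th r (zq r ε (4 * l), Ssp r (4 * l)) := by
  rw [q_pt]
  show (((4 * l : ℝ) : ℂ) * ex (w (4 * l)).1, (w (4 * l)).2) = _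
  rw [hq _ h]

theorem TwL_shift (r : ℕ) (ζ : ℂ) (x : ℝ) :
    Th r (ζ, x) = Th r (Cn r r * ζ, x - r) + (0, (r : ℝ)) := by
  have h := Th_shift r ζ (x - r) (r : ℤ)
  simp only [Int.cast_natCast, sub_add_cancel] at h
  exact h

theorem TwL_Cn (hr : 1 ≤ r) : Cn r r * (rh0 : ℂ) = (rad r r : ℂ) := by
  rw [Cn_r hr, rad]
  push_cast
  ring

theorem TwL_case3 (hr : 1 ≤ r) (ε : ℝ) {x : ℝ} (h1 : wd r ≤ x) (h2 : x ≤ r - wd r) :
    zq r ε (rad r x) = rh0 ∧ Ssp r (rad r x) = x := by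
  have h3 := wd_pos hr
  have h5 := TwL_r1 hr
  exact ⟨zq_mid hr ε (by linarith) (by linarith) (Or.inl h2), S_mid hr (by linarith) (by linarith)⟩

theorem TwL_case4 (hr : 1 ≤ r) (ε : ℝ) {x : ℝ} (h : |x - r| ≤ 1 / 2) :
    Th r (zq r ε (rad r x), Ssp r (rad r x)) = Th r (Zd r ε (x - r), x - r) + (0, (r : ℝ)) := by
  have h1 := wd_le hr
  have h2 := wd_pos hr
  have h3 := TwL_r1 hr
  have h4 := abs_le.mp h
  rw [zq_det hr ε h, S_mid hr (by linarith [h4.1]) (by linarith [h4.2]), TwL_shift, ← mul_assoc,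
    TwL_Cn hr]
  rfl

theorem ga_path (hr : 1 ≤ r) (hε : ε = 1 ∨ ε = -1) (c : ℝ) (hq : ∀ ρ ≤ 1 / 8, w ρ = qsp r ε ρ) {l : ℝ}
    (hl : |l| < 1 / 4) : PTH.arc w l = GA r w (Ic r ε c 0) (fun _ => (rh0 : ℂ)) (Zd r ε) l := by
  have h1 := TwL_r1 hr
  have hw := wd_pos hr
  have hw' := wd_le hr
  have hrh : rh0 = 1 / 1000 := rfl
  unfold GA
  split_ifs with c1 c2 c3 c4
  · have h2 := rad_pos r (1 / 2)
    have h3 : 4 * l ≤ rh0 / 8 := by rw [hrh]; linarith
    show (((4 * l : ℝ) : ℂ) * ex (w (4 * l)).1, (w (4 * l)).2) = _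
    rw [hq _ (by linarith), q_start hr ε h3]
    simp only [RSG.ex_zero, mul_one]
  · have h2 : rad r (wd r) ≤ 1 / 8 := TwL_rad_small hr (by rw [abs_of_pos hw]; linarith)
    rw [TwL_arc hq (by linarith)]
    unfold Ic
    simp
  · have h2 : rad r (1 / 2) ≤ 1 / 8 := TwL_rad_small hr (by rw [abs_of_pos (by norm_num)]; linarith)
    rw [TwL_arc hq (by linarith)]
    have h3 : 0 < 4 * l := lt_trans (rad_pos r _) (not_le.mp c2)
    have h4 := rad_lam hr h3
    have h5 : wd r ≤ lam r (4 * l) := TwL_le_of hr (by rw [h4]; exact (not_le.mp c2).le)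
    have h6 : lam r (4 * l) ≤ 1 / 2 := TwL_le_of hr (by rw [h4]; exact c3)
    have h7 := TwL_case3 hr ε h5 (by linarith)
    rw [h4] at h7
    rw [h7.1, h7.2]
  · have h2 : rad r (r + 1 / 2) ≤ 1 / 8 := TwL_rad_small hr (by rw [abs_of_pos (by linarith)]; linarith)
    rw [TwL_arc hq (by linarith [c4.2])]
    have h3 : 0 < 4 * l := lt_trans (rad_pos r _) (not_le.mp c2)
    have h4 := rad_lam hr h3
    have h5 : r - 1 / 2 ≤ lam r (4 * l) := TwL_le_of hr (by rw [h4]; exact c4.1)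
    have h6 : lam r (4 * l) ≤ r + 1 / 2 := TwL_le_of hr (by rw [h4]; exact c4.2)
    have h7 := TwL_case4 hr ε (x := lam r (4 * l)) (abs_le.mpr ⟨by linarith, by linarith⟩)
    rw [h4] at h7
    exact h7
  · rfl

theorem TwL_D (r : ℕ) (ε : ℝ) {ρ : ℝ} (h : wd r ≤ |Ssp r ρ - r|) (hw : 0 < wd r) :
    Dsp r (-ε) ρ = Dsp r ε ρ := by
  have h1 : bp ((Ssp r ρ - r) / wd r) = 0 := by
    apply bp_zero
    rw [abs_div, abs_of_pos hw, le_div_iff₀ hw, one_mul]
    exact h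
  unfold Dsp
  rw [h1, mul_zero, mul_zero]

theorem TwL_zq (r : ℕ) (ε : ℝ) {ρ : ℝ} (h : wd r ≤ |Ssp r ρ - r|) (hw : 0 < wd r) :
    zq r (-ε) ρ = zq r ε ρ := by
  unfold zq
  rw [TwL_D r ε h hw]

theorem TwL_q (r : ℕ) (ε : ℝ) {ρ : ℝ} (h : wd r ≤ |Ssp r ρ - r|) (hw : 0 < wd r) :
    qsp r (-ε) ρ = qsp r ε ρ := by
  unfold qsp
  rw [TwL_D r ε h hw]

theorem ga_path' (hr : 1 ≤ r) (hε : ε = 1 ∨ ε = -1) (c : ℝ) (hq : ∀ ρ ≤ 1 / 8, w ρ = qsp r ε ρ)
    (hq₂ : ∀ ρ ≤ 1 / 8, w₂ ρ = qsp r (-ε) ρ) (h₂ : ∀ ρ, 1 / 8 ≤ ρ → w₂ ρ = w ρ) {l : ℝ}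
    (hl : |l| < 1 / 4) : PTH.arc w₂ l = GA r w (Ic r ε c 0) (fun _ => (rh0 : ℂ)) (Zd r (-ε)) l := by
  have h1 := TwL_r1 hr
  have hw := wd_pos hr
  have hw' := wd_le hr
  have hε' : -ε = 1 ∨ -ε = -1 := by rcases hε with rfl | rfl <;> norm_num
  rw [ga_path hr hε' c hq₂ hl]
  unfold GA
  split_ifs with c1 c2 c3 c4
  · rfl
  · have h3 : Ssp r (4 * l) ≤ wd r := by
      have h4 := S_mono hr c2
      rw [S_mid hr (by linarith) (by linarith)] at h4
      exact h4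
    have h4 : zq r (-ε) (4 * l) = zq r ε (4 * l) := by
      refine TwL_zq r ε ?_ hw
      rw [abs_sub_comm, abs_of_nonneg (by linarith)]
      linarith
    unfold Ic
    rw [h4]
  · rfl
  · rfl
  · rcases le_or_gt (1 / 8) (4 * l) with h3 | h3
    · show (((4 * l : ℝ) : ℂ) * ex (w₂ (4 * l)).1, (w₂ (4 * l)).2) =
        (((4 * l : ℝ) : ℂ) * ex (w (4 * l)).1, (w (4 * l)).2)
      rw [h₂ _ h3]
    · show (((4 * l : ℝ) : ℂ) * ex (w₂ (4 * l)).1, (w₂ (4 * l)).2) =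
        (((4 * l : ℝ) : ℂ) * ex (w (4 * l)).1, (w (4 * l)).2)
      have h4 : wd r ≤ |Ssp r (4 * l) - r| := by
        by_cases c5 : rad r (r - 1 / 2) ≤ 4 * l
        · have c6 : rad r (r + 1 / 2) < 4 * l := by
            by_contra hn
            exact c4 ⟨c5, not_lt.mp hn⟩
          have h5 := S_mono hr c6.le
          rw [S_mid hr (by linarith) (by linarith)] at h5
          exact le_trans (by linarith) (le_abs_self _)
        · have h5 := S_mono hr (not_le.mp c5).le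
          rw [S_mid hr (by linarith) (by linarith)] at h5
          rw [abs_sub_comm]
          exact le_trans (by linarith) (le_abs_self _)
      rw [hq _ h3.le, hq₂ _ h3.le, TwL_q r ε h4 hw]

theorem TwL_th_low (σ : ℝ) {s : ℝ} (h : s ≤ 3 / 20) : th0 σ s = 0 := by
  unfold th0
  rw [CSG.stp_zero (by norm_num) h, mul_zero]

theorem TwL_th_high (σ : ℝ) {s : ℝ} (h : 1 / 5 ≤ s) : th0 σ s = σ := by
  unfold th0
  rw [CSG.stp_one (by norm_num) h, mul_one]

theorem TwL_ex (hε : ε = 1 ∨ ε = -1) : ex ε = 1 := by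
  rcases hε with rfl | rfl
  · have := RSG.ex_int 1
    simpa using this
  · have := RSG.ex_int (-1)
    simpa using this

theorem TwL_Zt0_low (r : ℕ) (σ : ℝ) {s : ℝ} (h : s ≤ 3 / 20) : Zt0 r σ s = (rh0 : ℂ) := by
  unfold Zt0
  rw [TwL_th_low σ h, RSG.ex_zero, mul_one]
  have := mR_add r
  exact_mod_cast congrArg (fun x : ℝ => (x : ℂ)) this

theorem TwL_Ztr_low (r : ℕ) (ε σ : ℝ) {s : ℝ} (h : s ≤ 3 / 20) : Ztr r ε σ s = Zd r ε s := by
  unfold Ztr Zd
  rw [TwL_th_low σ h, RSG.ex_zero, mul_one]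
  have h2 : (mR r : ℂ) - muR r = rad r r := by
    exact_mod_cast congrArg (fun x : ℝ => (x : ℂ)) (mR_sub r)
  rw [h2]
  ring

theorem TwL_Zd_out (r : ℕ) (ε : ℝ) {s : ℝ} (hw : 0 < wd r) (h : wd r ≤ |s|) : Zd r ε s = rad r r := by
  unfold Zd
  rw [bp_zero (by rw [abs_div, abs_of_pos hw, le_div_iff₀ hw, one_mul]; exact h), mul_zero,
    RSG.ex_zero, mul_one]

theorem TwL_Ztr_out (r : ℕ) (ε σ : ℝ) {s : ℝ} (hw : 0 < wd r) (h : wd r ≤ |s|) :
    Ztr r ε σ s = mR r - muR r * ex (th0 σ s) := by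
  have h1 := TwL_Zd_out r ε hw h
  unfold Ztr
  unfold Zd at h1
  rw [h1]
  ring

theorem TwL_mt (x : ℂ × ℝ) : MT x x := ⟨0, by simp⟩

theorem TwL_mt_of {x y : ℂ × ℝ} (h : y = x) : MT x y := by rw [h]; exact TwL_mt x

theorem ga_tw (hr : 1 ≤ r) (hε : ε = 1 ∨ ε = -1) (c : ℝ) (hq : ∀ ρ ≤ 1 / 8, w ρ = qsp r ε ρ) :
    IsTwArc (rbf r (1 / 8)) (fun u => rad r (tv r (1 / 8) u) / 4) (fun u => rad r (r + tv r (1 / 8) u) / 4) 1 1
      (fun u => th0 ε (tv r (1 / 8) u)) (PTH.arc w) (GA r w (Ic r ε c 0) (Zt0 r ε) (Ztr r ε ε)) := by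
  have h1 := TwL_r1 hr
  have hw := wd_pos hr
  have hw' := wd_le hr
  have hv : (1 / 8 : ℝ) < r / 2 := by linarith
  refine ⟨?_, ?_, ?_⟩
  · intro u hu
    obtain ⟨t, ht⟩ : ∃ t, t = tv r (1 / 8) u := ⟨_, rfl⟩
    have hb := tv_bd hr (by norm_num) hv hu.le
    rw [← ht] at hb
    simp only [one_mul]
    unfold rbf Bf
    simp only
    rw [← ht]
    have e4 : 4 * (rad r t / 4) = rad r t := by ring
    have g1 : ¬ rad r t ≤ -rad r (1 / 2) := by
      have := rad_pos r t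
      have := rad_pos r (1 / 2)
      linarith
    have g2 : ¬ rad r t ≤ rad r (wd r) := fun h => by
      have := TwL_le_of hr h
      linarith
    apply TwL_mt_of
    unfold GA
    rw [e4, if_neg g1, if_neg g2, lam_rad hr]
    split_ifs with c3 c4
    · rfl
    · have h3 : 1 / 2 < t := by
        by_contra hn
        exact c3 (TwL_rad_le hr (not_lt.mp hn))
      have h4 := TwL_le_of hr c4.1
      rw [TwL_th_high ε (by linarith), TwL_ex hε, mul_one]
      have h5 : wd r ≤ |t - r| := by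
        rw [abs_sub_comm]
        exact le_trans (by linarith) (le_abs_self _)
      rw [TwL_Ztr_out r ε ε hw h5, TwL_th_low ε (by linarith), RSG.ex_zero, mul_one]
      have h6 : (mR r : ℂ) + muR r = rh0 := by exact_mod_cast congrArg (fun x : ℝ => (x : ℂ)) (mR_add r)
      have h7 : (mR r : ℂ) - muR r = rad r r := by
        exact_mod_cast congrArg (fun x : ℝ => (x : ℂ)) (mR_sub r)
      rw [h6, h7, TwL_shift r (rh0 : ℂ) t, TwL_Cn hr]
    · have h3 : 1 / 2 < t := by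
        by_contra hn
        exact c3 (TwL_rad_le hr (not_lt.mp hn))
      have h4 : t < r - 1 / 2 := by
        by_contra hn
        exact c4 ⟨TwL_rad_le hr (not_lt.mp hn), TwL_rad_le hr (by linarith)⟩
      rw [TwL_th_high ε (by linarith), TwL_ex hε, mul_one]
      have h6 : (mR r : ℂ) + muR r = rh0 := by exact_mod_cast congrArg (fun x : ℝ => (x : ℂ)) (mR_add r)
      have h7 := TwL_case3 hr ε (x := t) (by linarith) (by linarith)
      have h8 : rad r t ≤ 1 / 8 := TwL_rad_small hr (by rw [abs_of_pos (by linarith)]; linarith)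
      rw [TwL_arc hq (by rw [e4]; exact h8), e4, h7.1, h7.2, h6]
  · intro u hu
    obtain ⟨t, ht⟩ : ∃ t, t = tv r (1 / 8) u := ⟨_, rfl⟩
    have hb := tv_bd hr (by norm_num) hv hu.le
    rw [← ht] at hb
    simp only [one_mul]
    unfold rbf Bf
    simp only
    rw [← ht]
    have e4 : 4 * (rad r (r + t) / 4) = rad r (r + t) := by ring
    have g1 : ¬ rad r (r + t) ≤ -rad r (1 / 2) := by
      have := rad_pos r (r + t)
      have := rad_pos r (1 / 2)
      linarith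
    have g2 : ¬ rad r (r + t) ≤ rad r (wd r) := fun h => by
      have := TwL_le_of hr h
      linarith
    have g3 : ¬ rad r (r + t) ≤ rad r (1 / 2) := fun h => by
      have := TwL_le_of hr h
      linarith
    have h5 : wd r ≤ |t| := le_trans (by linarith) (le_abs_self _)
    refine ⟨(r : ℤ), ?_⟩
    unfold GA
    rw [e4, if_neg g1, if_neg g2, if_neg g3, lam_rad hr, add_sub_cancel_left]
    split_ifs with c4
    · rw [TwL_Ztr_out r ε ε hw h5]
      simp only [Int.cast_natCast, mul_neg, sub_eq_add_neg]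
    · have h3 : 1 / 2 < t := by
        by_contra hn
        exact c4 ⟨TwL_rad_le hr (by linarith), TwL_rad_le hr (by linarith [not_lt.mp hn])⟩
      rw [TwL_th_high ε (by linarith), TwL_ex hε]
      have h7 : (mR r : ℂ) + muR r * -1 = rad r r := by
        have : (mR r : ℂ) - muR r = rad r r := by
          exact_mod_cast congrArg (fun x : ℝ => (x : ℂ)) (mR_sub r)
        rw [← this]
        ring
      have h8 : rad r (r + t) ≤ 1 / 8 := TwL_rad_small hr (by rw [abs_of_pos (by linarith)]; linarith)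
      rw [TwL_arc hq (by rw [e4]; exact h8), e4,
        zq_mid hr ε (by linarith) (by linarith) (Or.inr (by linarith)),
        S_mid hr (by linarith) (by linarith), TwL_shift r (rh0 : ℂ) (r + t), TwL_Cn hr,
        add_sub_cancel_left, h7]
      simp
  · intro l hl hout
    apply TwL_mt_of
    rw [ga_path hr hε c hq hl]
    unfold GA
    split_ifs with c1 c2 c3 c4
    · rfl
    · rfl
    · have h3 : 0 < 4 * l := lt_trans (rad_pos r _) (not_le.mp c2)
      have h4 := rad_lam hr h3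
      have h6 : lam r (4 * l) ≤ 1 / 2 := TwL_le_of hr (by rw [h4]; exact c3)
      have h7 : lam r (4 * l) ≤ 1 / 8 := by
        by_contra hn
        obtain ⟨h8, h9⟩ := tv_inv hr (v := 1 / 8) (by norm_num) hv (t := lam r (4 * l)) (not_le.mp hn)
          (by linarith)
        refine (hout _ (lt_trans h8 (by norm_num))).1 ?_
        simp only
        rw [h9, h4]
        ring
      rw [TwL_Zt0_low r ε (by linarith)]
    · have h3 : 0 < 4 * l := lt_trans (rad_pos r _) (not_le.mp c2)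
      have h4 := rad_lam hr h3
      have h6 : lam r (4 * l) ≤ r + 1 / 2 := TwL_le_of hr (by rw [h4]; exact c4.2)
      have h7 : lam r (4 * l) - r ≤ 1 / 8 := by
        by_contra hn
        obtain ⟨h8, h9⟩ := tv_inv hr (v := 1 / 8) (by norm_num) hv (t := lam r (4 * l) - r) (not_le.mp hn)
          (by linarith)
        refine (hout _ (lt_trans h8 (by norm_num))).2 ?_
        simp only
        rw [h9, add_sub_cancel, h4]
        ring
      rw [TwL_Ztr_low r ε ε (by linarith)]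
    · rfl

theorem th_step (hr : 1 ≤ r) {m : ℤ} (h : ε = m) : IsStep (fun u => th0 ε (tv r (1 / 8) u)) m := by
  have h1 := TwL_r1 hr
  have hv : (1 / 8 : ℝ) < r / 2 := by linarith
  have hm := tv_strictMono hr (v := 1 / 8) (by norm_num) hv
  refine ⟨?_, ?_, ?_⟩
  · unfold th0
    exact contDiff_const.mul ((CSG.stp_smooth _ _).comp (tv_smooth r (1 / 8)))
  · intro s hs
    have h2 := tv_mid r (1 / 8) (u := -(1 / 2)) hr (by norm_num) (by norm_num)
    have h3 : tv r (1 / 8) s < tv r (1 / 8) (-(1 / 2)) := hm (by linarith)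
    exact TwL_th_low ε (by linarith)
  · intro s hs
    have h2 := tv_mid r (1 / 8) (u := 1 / 2) hr (by norm_num) (by norm_num)
    have h3 : tv r (1 / 8) (1 / 2) < tv r (1 / 8) s := hm (by linarith)
    show th0 ε _ = m
    rw [TwL_th_high ε (by linarith), h]

end

end Pool.Agent.SPR
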