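import Pool.Agent.SPR.InA

/-!
# SPR/Two: the homotopy of the two strands   (difficulty 3)

`δ = rad r r - rh0 = -2 muR`, `h = hd r`, `w = wd r`, `ε = ±1`, `θ s = th0 ε s` (`0` for `s ≤ 3/20`, `ε` for `s ≥ 1/5`).  `A± s = (rad r r ex (±ε h bp (s/w)) - rh0) / δ`: `|A± - 1| ≤ rad r r 2 π h / δ ≤ 1.01 * 6.3 * 1000 / 100000 < 1/10` (`‖ex x - 1‖ ≤ 2 π |x|`, `del_bd`), so `Complex.log (A± s)` is smooth
(slit plane: `Complex.contDiffAt_log`), `A± = 1` for `|s| ≥ w`.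
`L0 = log A₊ + 2 π i θ`, `L1 = log A₋ + 2 π i ε`.  `Z₀ τ s = rh0 + (1 - τ) muR (ex (θ s) - 1)`, `Zr τ s = Z₀ τ s + δ ((1 - χ) + χ exp ((1 - τ) L0 + τ L1))`, `χ s = stp (-2 w) (-w) s`.
* `two_zero`: `Z₀ 0 s = mR + muR ex θ`; `Zr 0`: `exp L0 = A₊ ex θ`.  `s ≤ -w`: `A₊ = 1`, `θ = 0`: `rh0 + δ = rad r r`, and `Ztr = rad r r - rad r r + mR - muR = rad r r`.  `-w ≤ s ≤ 3/20`: `χ = 1`, `θ = 0`: `rh0 + δ A₊ = rad r r ex (..)`, and `Ztr` is the same (`mR - muR = rad r r`).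
  `s ≥ 3/20`: `A₊ = 1`: `mR + muR ex θ + δ ex θ = mR - muR ex θ = Ztr`.
* `two_one`: `Z₀ 1 = rh0`, `exp L1 = A₋ ex ε = A₋`: `rh0 + δ ((1 - χ) + χ A₋) = rad r r ex (-ε h bp)` (where `χ ≠ 1`, `A₋ = 1`).
* `fam_two`: `ends`: `Z₀ = rh0` where `ex θ = 1` (`s ≤ 3/20` or `s ≥ 1/5`); `Zr = rad r r` for `s ≤ -2 w` (`χ = 0`) and for `s ≥ 1/5` (`L0 = L1 = 2 π i ε`).  `regI`, `tilt`, `ends` for the inner part: `fam_ret` for any `ZC`, or `Ic_slot`, `Ic_tilt`.
  `reg₀`: `‖muR (ex θ - 1)‖ ≤ 2 |muR| = δ`.  `regr`: `‖exp ((1 - τ) L0 + τ L1)‖ = exp (re ..) ≤ 1.1` (`re L = log |A| ≤ log 1.1`), so `‖Zr - rh0‖ ≤ δ + 1.1 δ ≤ 3 δ`; for `s < 0`: `θ = 0`, `Z₀ = rh0`: `≤ 1.1 δ`.  `dis`: for `s ≥ w`: `χ = 1`, `Zr - Z₀ = δ exp .. ≠ 0`.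
  `disp` and `disI` come from: (KEY) for `0 ≤ s < w` (so `bp (s/w) > 0`, `θ = 0`, `χ = 1`, `Z₀ = rh0`): `Zr τ s - rh0 = δ exp L`, `im L = (1 - τ) arg A₊ + τ (arg A₋ + 2 π ε)`; `arg A₊ = -arg A₋` (complex conjugates) has the sign of `ε` and absolute value in `(0, π/2)` (`im A₊ = rad r r sin (2 π ε h bp) / δ ≠ 0`); so `ε im L ∈ (0, 2 π)`
  and `exp L` is not a nonnegative real number.  `disp`: `s = 0`, `x ≥ rad (1/2) > rh0`.  `disI`: `(Ic ..).1 = z1 r l ≥ rh0` real, `s = (Ic ..).2 ∈ [0, w]` (`Ic_slot`): if `s < w`: KEY (`z1 - rh0 ≥ 0`); if `s = w`: `z1 = rh0` and `Zr - rh0 = δ exp L ≠ 0`.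
* `zc_tw`, `zc_un`: the same bounds at `τ = 0`, resp. `τ = 1` (with `-ε` in place of `ε`); `low`: for `0 ≤ s ≤ w` `‖Ztr‖ = ‖Zd‖ = rad r r > rad (1/2)`.  `disp`: `rad r r ex (ε h)` is not real.
-/

open scoped Manifold ContDiff Topology
open Set Filter
open Complex (I)
open Pool.Agent.RSG (E4 cj ex)

namespace Pool.Agent.SPR

noncomputable def th0 (σ s : ℝ) : ℝ := σ * CSG.stp (3 / 20) (1 / 5) s

/-- strand `0`, twisted -/
noncomputable def Zt0 (r : ℕ) (σ s : ℝ) : ℂ := (mR r : ℂ) + muR r * ex (th0 σ s)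
/-- strand `r`, with detour and twisted -/
noncomputable def Ztr (r : ℕ) (ε σ s : ℝ) : ℂ :=
  (rad r r : ℂ) * ex (ε * hd r * bp (s / wd r)) - rad r r + (mR r - muR r * ex (th0 σ s))
/-- strand `r`, with detour -/
noncomputable def Zd (r : ℕ) (ε s : ℝ) : ℂ := (rad r r : ℂ) * ex (ε * hd r * bp (s / wd r))

noncomputable def L0 (r : ℕ) (ε s : ℝ) : ℂ :=
  Complex.log (((rad r r : ℂ) * ex (ε * hd r * bp (s / wd r)) - rh0) / ((rad r r - rh0 : ℝ) : ℂ)) +
    2 * Real.pi * th0 ε s * I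
noncomputable def L1 (r : ℕ) (ε s : ℝ) : ℂ :=
  Complex.log (((rad r r : ℂ) * ex (-ε * hd r * bp (s / wd r)) - rh0) / ((rad r r - rh0 : ℝ) : ℂ)) +
    2 * Real.pi * ε * I

noncomputable def Zh0 (r : ℕ) (ε τ s : ℝ) : ℂ := (rh0 : ℂ) + (1 - τ : ℝ) * muR r * (ex (th0 ε s) - 1)
noncomputable def Zhr (r : ℕ) (ε τ s : ℝ) : ℂ :=
  Zh0 r ε τ s + (rad r r - rh0 : ℝ) * ((1 - CSG.stp (-2 * wd r) (-wd r) s : ℝ) +
    CSG.stp (-2 * wd r) (-wd r) s * Complex.exp ((1 - τ : ℝ) * L0 r ε s + (τ : ℝ) * L1 r ε s))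

section
variable {r : ℕ} {ε : ℝ}

/-- the quotient -/
noncomputable def Two_A (r : ℕ) (x : ℝ) : ℂ := ((rad r r : ℂ) * ex x - rh0) / ((rad r r - rh0 : ℝ) : ℂ)

theorem Two_del (hr : 1 ≤ r) : 0 < rad r r - rh0 := by
  have h := (del_bd hr).1
  have hr1 := InA_r hr
  have hrh : 0 < rh0 := by norm_num [rh0]
  have : 0 < rh0 / (1000 * (r : ℝ)) := by positivity
  linarith

theorem Two_delC (hr : 1 ≤ r) : ((rad r r - rh0 : ℝ) : ℂ) ≠ 0 := by
  exact_mod_cast (Two_del hr).ne'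

theorem Two_ex (x : ℝ) : ‖ex x - 1‖ ≤ 7 * |x| := by
  have h1 : ‖ex x - 1‖ ≤ |2 * Real.pi * x| := by
    have h2 := Real.norm_exp_I_mul_ofReal_sub_one_le (x := 2 * Real.pi * x)
    have h3 : ex x = Complex.exp (I * ((2 * Real.pi * x : ℝ) : ℂ)) := by
      unfold RSG.ex
      rw [mul_comm]
    rw [h3]
    exact h2
  have h4 : |2 * Real.pi * x| = 2 * Real.pi * |x| := by
    rw [abs_mul, abs_of_pos (by positivity)]
  rw [h4] at h1
  have h5 : 2 * Real.pi ≤ 7 := by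
    have := Real.pi_lt_d2
    linarith
  exact h1.trans (mul_le_mul_of_nonneg_right h5 (abs_nonneg x))

theorem Two_Am (hr : 1 ≤ r) {x : ℝ} (hx : |x| ≤ hd r) : ‖Two_A r x - 1‖ ≤ 1 / 10 := by
  have hr1 := InA_r hr
  have hd0 := Two_del hr
  have hrh : 0 < rh0 := by norm_num [rh0]
  have h1 : Two_A r x - 1 = ((rad r r : ℝ) : ℂ) * (ex x - 1) / ((rad r r - rh0 : ℝ) : ℂ) := by
    unfold Two_A
    rw [div_sub_one (Two_delC hr)]
    congr 1
    push_cast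
    ring
  have h2 : 0 < rad r r := rad_pos r r
  have h3 : rad r r ≤ 121 / 120 * rh0 := by
    have := (abs_le.1 (rad_bd hr (x := (r : ℝ)) (by rw [abs_of_nonneg (by linarith)]; linarith))).2
    linarith
  have h4 := (del_bd hr).1
  rw [h1, norm_div, norm_mul, Complex.norm_real, Complex.norm_real, Real.norm_eq_abs, Real.norm_eq_abs,
    abs_of_pos h2, abs_of_pos hd0, div_le_iff₀ hd0]
  have h5 := Two_ex x
  have h6 : ‖ex x - 1‖ ≤ 7 * (1 / (100000 * (r : ℝ))) := h5.trans (by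
    unfold hd at hx
    linarith)
  have h7 : rad r r * ‖ex x - 1‖ ≤ (121 / 120 * rh0) * (7 * (1 / (100000 * (r : ℝ)))) :=
    mul_le_mul h3 h6 (norm_nonneg _) (by positivity)
  have h8 : (121 / 120 * rh0) * (7 * (1 / (100000 * (r : ℝ)))) = 121 / 120 * 7 / 100 * (rh0 / (1000 * r)) := by
    field_simp
    norm_num
  have h9 : 0 < rh0 / (1000 * (r : ℝ)) := by positivity
  rw [h8] at h7
  nlinarith

theorem Two_Are (hr : 1 ≤ r) {x : ℝ} (hx : |x| ≤ hd r) : 9 / 10 ≤ (Two_A r x).re := by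
  have h1 := Two_Am hr hx
  have h2 := (Complex.abs_re_le_norm (Two_A r x - 1)).trans h1
  rw [Complex.sub_re, Complex.one_re] at h2
  have := (abs_le.1 h2).1
  linarith

theorem Two_slit (hr : 1 ≤ r) {x : ℝ} (hx : |x| ≤ hd r) : Two_A r x ∈ Complex.slitPlane := by
  rw [Complex.mem_slitPlane_iff]
  left
  have := Two_Are hr hx
  linarith

theorem Two_A0 (hr : 1 ≤ r) : Two_A r 0 = 1 := by
  unfold Two_A
  rw [RSG.ex_zero, mul_one]
  have := Two_delC hr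
  rw [div_eq_one_iff_eq this]
  push_cast
  rfl

theorem Two_conj (r : ℕ) (x : ℝ) : Two_A r (-x) = (starRingEnd ℂ) (Two_A r x) := by
  unfold Two_A
  rw [RSG.ex_neg]
  simp only [map_div₀, map_sub, map_mul, Complex.conj_ofReal]

/-- real part of the logarithm -/
theorem Two_logre (hr : 1 ≤ r) {x : ℝ} (hx : |x| ≤ hd r) :
    (Complex.log (Two_A r x)).re ≤ Real.log (11 / 10) := by
  rw [Complex.log_re]
  have h1 := Two_Am hr hx
  have h2 : ‖Two_A r x‖ ≤ 11 / 10 := by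
    have h3 : ‖Two_A r x‖ ≤ ‖Two_A r x - 1‖ + ‖(1 : ℂ)‖ := by
      have := norm_add_le (Two_A r x - 1) (1 : ℂ)
      rwa [sub_add_cancel] at this
    rw [norm_one] at h3
    linarith
  have h3 : 0 < ‖Two_A r x‖ := by
    rw [norm_pos_iff]
    exact Complex.slitPlane_ne_zero (Two_slit hr hx)
  exact Real.log_le_log h3 h2

/-- argument -/
theorem Two_arg (hr : 1 ≤ r) {x : ℝ} (hx0 : 0 < x) (hx : x ≤ hd r) :
    0 < Complex.arg (Two_A r x) ∧ Complex.arg (Two_A r x) < Real.pi / 2 ∧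
      Complex.arg (Two_A r (-x)) = -Complex.arg (Two_A r x) := by
  have hax : |x| ≤ hd r := by rw [abs_of_pos hx0]; exact hx
  have h1 := Two_Are hr hax
  have h2 : |Complex.arg (Two_A r x)| < Real.pi / 2 := by
    rw [Complex.abs_arg_lt_pi_div_two_iff]
    left
    linarith
  have h3 : 0 < (Two_A r x).im := by
    have hd0 := Two_del hr
    have hx1 := hd_le hr
    have e : (Two_A r x).im = rad r r * Real.sin (2 * Real.pi * x) / (rad r r - rh0) := by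
      unfold Two_A
      rw [Complex.div_ofReal_im, Complex.sub_im, Complex.im_ofReal_mul, Complex.ofReal_im, RSG.ex_im, sub_zero]
    rw [e]
    have h4 : 0 < Real.sin (2 * Real.pi * x) := by
      apply Real.sin_pos_of_pos_of_lt_pi
      · positivity
      · have := Real.pi_pos
        nlinarith
    have h5 := rad_pos r r
    positivity
  have h4 : 0 ≤ Complex.arg (Two_A r x) := Complex.arg_nonneg_iff.2 h3.le
  have h5 : Complex.arg (Two_A r x) ≠ 0 := by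
    intro h
    have := (Complex.arg_eq_zero_iff.1 h).2
    linarith
  have h6 := (abs_lt.1 h2).2
  refine ⟨lt_of_le_of_ne h4 (Ne.symm h5), h6, ?_⟩
  rw [Two_conj, Complex.arg_conj, if_neg]
  intro h
  have := Real.pi_pos
  linarith

theorem Two_eps (hε : ε = 1 ∨ ε = -1) : |ε| = 1 := by
  rcases hε with rfl | rfl <;> norm_num

theorem Two_x (hr : 1 ≤ r) (hε : ε = 1 ∨ ε = -1) (s : ℝ) : |ε * hd r * bp (s / wd r)| ≤ hd r ∧
    |-ε * hd r * bp (s / wd r)| ≤ hd r := by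
  have h1 := bp_nonneg (s / wd r)
  have h2 := bp_le (s / wd r)
  have h3 := hd_pos hr
  have h4 : hd r * bp (s / wd r) ≤ hd r := by nlinarith
  rw [abs_mul, abs_mul, abs_mul, abs_mul, abs_neg, Two_eps hε, abs_of_pos h3, abs_of_nonneg h1, one_mul]
  exact ⟨h4, h4⟩

theorem Two_L0 (r : ℕ) (ε s : ℝ) : L0 r ε s = Complex.log (Two_A r (ε * hd r * bp (s / wd r))) +
    2 * Real.pi * th0 ε s * I := rfl

theorem Two_L1 (r : ℕ) (ε s : ℝ) : L1 r ε s = Complex.log (Two_A r (-ε * hd r * bp (s / wd r))) +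
    2 * Real.pi * ε * I := rfl

theorem Two_expI (x : ℝ) : Complex.exp (2 * Real.pi * x * I) = ex x := by
  unfold RSG.ex
  push_cast
  rfl

theorem Two_exeps (hε : ε = 1 ∨ ε = -1) : ex ε = 1 := by
  rcases hε with rfl | rfl
  · have := RSG.ex_int 1
    simpa using this
  · have := RSG.ex_int (-1)
    simpa using this

theorem Two_th_lo (ε : ℝ) {s : ℝ} (h : s ≤ 3 / 20) : th0 ε s = 0 := by
  unfold th0
  rw [CSG.stp_zero (by norm_num) h, mul_zero]

theorem Two_th_hi (ε : ℝ) {s : ℝ} (h : 1 / 5 ≤ s) : th0 ε s = ε := by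
  unfold th0
  rw [CSG.stp_one (by norm_num) h, mul_one]

theorem Two_bp (hr : 1 ≤ r) {s : ℝ} (h : wd r ≤ |s|) : bp (s / wd r) = 0 := by
  apply bp_zero
  have hw := wd_pos hr
  rw [abs_div, abs_of_pos hw, le_div_iff₀ hw]
  linarith

theorem Two_chi1 (hr : 1 ≤ r) {s : ℝ} (h : -wd r ≤ s) : CSG.stp (-2 * wd r) (-wd r) s = 1 := by
  have hw := wd_pos hr
  exact CSG.stp_one (by linarith) h

theorem Two_chi0 (hr : 1 ≤ r) {s : ℝ} (h : s ≤ -2 * wd r) : CSG.stp (-2 * wd r) (-wd r) s = 0 := by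
  have hw := wd_pos hr
  exact CSG.stp_zero (by linarith) h

theorem Two_expL0 (hr : 1 ≤ r) (hε : ε = 1 ∨ ε = -1) (s : ℝ) : Complex.exp (L0 r ε s) =
    Two_A r (ε * hd r * bp (s / wd r)) * ex (th0 ε s) := by
  rw [Two_L0, Complex.exp_add, Complex.exp_log (Complex.slitPlane_ne_zero (Two_slit hr (Two_x hr hε s).1)),
    Two_expI]

theorem Two_expL1 (hr : 1 ≤ r) (hε : ε = 1 ∨ ε = -1) (s : ℝ) : Complex.exp (L1 r ε s) =
    Two_A r (-ε * hd r * bp (s / wd r)) := by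
  rw [Two_L1, Complex.exp_add, Complex.exp_log (Complex.slitPlane_ne_zero (Two_slit hr (Two_x hr hε s).2)),
    Two_expI, Two_exeps hε, mul_one]

theorem Two_mul (hr : 1 ≤ r) (x : ℝ) : ((rad r r - rh0 : ℝ) : ℂ) * Two_A r x = (rad r r : ℂ) * ex x - rh0 := by
  unfold Two_A
  rw [mul_div_cancel₀ _ (Two_delC hr)]

theorem Two_c1 (r : ℕ) : (mR r : ℂ) + muR r = rh0 := by
  rw [← Complex.ofReal_add, mR_add]

theorem Two_c2 (r : ℕ) : (mR r : ℂ) - muR r = rad r r := by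
  rw [← Complex.ofReal_sub, mR_sub]

theorem two_zero (hr : 1 ≤ r) (hε : ε = 1 ∨ ε = -1) (s : ℝ) :
    Zh0 r ε 0 s = Zt0 r ε s ∧ Zhr r ε 0 s = Ztr r ε ε s := by
  have hw := wd_pos hr
  have hw1 := wd_le hr
  have hc1 := Two_c1 r
  have hc2 := Two_c2 r
  have h1 : Zh0 r ε 0 s = Zt0 r ε s := by
    unfold Zh0 Zt0
    rw [← hc1]
    push_cast
    ring
  refine ⟨h1, ?_⟩
  have h2 : Zhr r ε 0 s = Zt0 r ε s + (rad r r - rh0 : ℝ) * ((1 - CSG.stp (-2 * wd r) (-wd r) s : ℝ) +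
      CSG.stp (-2 * wd r) (-wd r) s * (Two_A r (ε * hd r * bp (s / wd r)) * ex (th0 ε s))) := by
    unfold Zhr
    rw [h1]
    have e : ((1 - 0 : ℝ) : ℂ) * L0 r ε s + ((0 : ℝ) : ℂ) * L1 r ε s = L0 r ε s := by
      push_cast
      ring
    rw [e, Two_expL0 hr hε]
  rw [h2]
  unfold Zt0 Ztr
  rcases le_total s (-wd r) with hs | hs
  · rw [Two_bp hr (by rw [abs_of_nonpos (by linarith)]; linarith), mul_zero, Two_A0 hr,
      Two_th_lo ε (by linarith), RSG.ex_zero]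
    push_cast
    linear_combination hc1 - hc2
  · rw [Two_chi1 hr hs]
    rcases le_total s (3 / 20) with hs2 | hs2
    · rw [Two_th_lo ε hs2, RSG.ex_zero]
      have h3 := Two_mul hr (ε * hd r * bp (s / wd r))
      push_cast at h3 ⊢
      linear_combination h3 + hc1 - hc2
    · rw [Two_bp hr (by rw [abs_of_nonneg (by linarith)]; linarith), mul_zero, Two_A0 hr, RSG.ex_zero]
      push_cast
      linear_combination (ex (th0 ε s)) * (hc1 - hc2)

theorem two_one (hr : 1 ≤ r) (hε : ε = 1 ∨ ε = -1) (s : ℝ) :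
    Zh0 r ε 1 s = rh0 ∧ Zhr r ε 1 s = Zd r (-ε) s := by
  have hw := wd_pos hr
  have hw1 := wd_le hr
  have h1 : Zh0 r ε 1 s = rh0 := by
    unfold Zh0
    push_cast
    ring
  refine ⟨h1, ?_⟩
  have h2 : Zhr r ε 1 s = rh0 + (rad r r - rh0 : ℝ) * ((1 - CSG.stp (-2 * wd r) (-wd r) s : ℝ) +
      CSG.stp (-2 * wd r) (-wd r) s * Two_A r (-ε * hd r * bp (s / wd r))) := by
    unfold Zhr
    rw [h1]
    have e : ((1 - 1 : ℝ) : ℂ) * L0 r ε s + ((1 : ℝ) : ℂ) * L1 r ε s = L1 r ε s := by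
      push_cast
      ring
    rw [e, Two_expL1 hr hε]
  rw [h2]
  unfold Zd
  rcases le_total s (-wd r) with hs | hs
  · rw [Two_bp hr (by rw [abs_of_nonpos (by linarith)]; linarith), mul_zero, Two_A0 hr, RSG.ex_zero]
    push_cast
    ring
  · rw [Two_chi1 hr hs]
    have h3 := Two_mul hr (-ε * hd r * bp (s / wd r))
    push_cast at h3 ⊢
    linear_combination h3

/-- the exponent -/
noncomputable def Two_E (r : ℕ) (ε τ s : ℝ) : ℂ := ((1 - τ : ℝ) : ℂ) * L0 r ε s + ((τ : ℝ) : ℂ) * L1 r ε s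

theorem Two_Ere (hr : 1 ≤ r) (hε : ε = 1 ∨ ε = -1) {τ : ℝ} (hτ : τ ∈ Icc (0 : ℝ) 1) (s : ℝ) :
    ‖Complex.exp (Two_E r ε τ s)‖ ≤ 11 / 10 := by
  rw [Complex.norm_exp]
  have h0 : (L0 r ε s).re = (Complex.log (Two_A r (ε * hd r * bp (s / wd r)))).re := by
    rw [Two_L0]
    simp
  have h1 : (L1 r ε s).re = (Complex.log (Two_A r (-ε * hd r * bp (s / wd r)))).re := by
    rw [Two_L1]
    simp
  have h2 : (Two_E r ε τ s).re = (1 - τ) * (L0 r ε s).re + τ * (L1 r ε s).re := by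
    unfold Two_E
    rw [Complex.add_re, Complex.re_ofReal_mul, Complex.re_ofReal_mul]
  have h3 := Two_logre hr (Two_x hr hε s).1
  have h4 := Two_logre hr (Two_x hr hε s).2
  rw [h2, h0, h1]
  have h5 : (1 - τ) * (Complex.log (Two_A r (ε * hd r * bp (s / wd r)))).re ≤ (1 - τ) * Real.log (11 / 10) :=
    mul_le_mul_of_nonneg_left h3 (by linarith [hτ.2])
  have h6 : τ * (Complex.log (Two_A r (-ε * hd r * bp (s / wd r)))).re ≤ τ * Real.log (11 / 10) :=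
    mul_le_mul_of_nonneg_left h4 hτ.1
  calc Real.exp _ ≤ Real.exp (Real.log (11 / 10)) := Real.exp_le_exp.2 (by linarith)
    _ = 11 / 10 := Real.exp_log (by norm_num)

/-- the main inequality -/
theorem Two_key (hr : 1 ≤ r) (hε : ε = 1 ∨ ε = -1) {τ : ℝ} (hτ : τ ∈ Icc (0 : ℝ) 1) {s : ℝ} (hs : 0 ≤ s)
    (hs' : s < wd r) {y : ℝ} (hy : 0 ≤ y) : Zhr r ε τ s ≠ (rh0 : ℂ) + y := by
  intro h
  have hw := wd_pos hr
  have hw1 := wd_le hr
  have hd0 := Two_del hr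
  have hpi := Real.pi_pos
  have h1 : Zhr r ε τ s = rh0 + (rad r r - rh0 : ℝ) * Complex.exp (Two_E r ε τ s) := by
    unfold Zhr Zh0 Two_E
    rw [Two_chi1 hr (by linarith), Two_th_lo ε (by linarith), RSG.ex_zero]
    push_cast
    ring
  rw [h1] at h
  have h2 : ((rad r r - rh0 : ℝ) : ℂ) * Complex.exp (Two_E r ε τ s) = y := add_left_cancel h
  have him := congrArg Complex.im h2
  have hre := congrArg Complex.re h2
  rw [Complex.im_ofReal_mul, Complex.ofReal_im, Complex.exp_im] at him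
  rw [Complex.re_ofReal_mul, Complex.ofReal_re, Complex.exp_re] at hre
  have he := Real.exp_pos (Two_E r ε τ s).re
  have hsin : Real.sin (Two_E r ε τ s).im = 0 := by
    rcases mul_eq_zero.1 him with h3 | h3
    · exact absurd h3 hd0.ne'
    · exact (mul_eq_zero.1 h3).resolve_left he.ne'
  have hcos : 0 ≤ Real.cos (Two_E r ε τ s).im := by
    by_contra hn
    push Not at hn
    have h3 : (rad r r - rh0) * (Real.exp (Two_E r ε τ s).re * Real.cos (Two_E r ε τ s).im) < 0 :=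
      mul_neg_of_pos_of_neg hd0 (mul_neg_of_pos_of_neg he hn)
    linarith
  -- the imaginary part
  set t : ℝ := hd r * bp (s / wd r) with ht
  have ht0 : 0 < t := by
    apply mul_pos (hd_pos hr)
    apply bp_pos
    rw [abs_of_nonneg (div_nonneg hs hw.le), div_lt_one hw]
    exact hs'
  have ht1 : t ≤ hd r := by
    have := bp_le (s / wd r)
    have h3 := hd_pos hr
    nlinarith
  obtain ⟨a1, a2, a3⟩ := Two_arg hr ht0 ht1
  set α := Complex.arg (Two_A r t) with hα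
  have i0 : (L0 r ε s).im = Complex.arg (Two_A r (ε * t)) := by
    rw [Two_L0, Two_th_lo ε (by linarith), ht, ← mul_assoc]
    simp [Complex.log_im]
  have i1 : (L1 r ε s).im = Complex.arg (Two_A r (-(ε * t))) + 2 * Real.pi * ε := by
    have e : -(ε * t) = -ε * hd r * bp (s / wd r) := by
      rw [ht]
      ring
    rw [Two_L1, e, Complex.add_im, Complex.log_im]
    congr 1
    have : (2 * Real.pi * ε * I : ℂ) = ((2 * Real.pi * ε : ℝ) : ℂ) * I := by push_cast; rfl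
    rw [this, Complex.im_ofReal_mul, Complex.I_im, mul_one]
  have iE : (Two_E r ε τ s).im = (1 - τ) * (L0 r ε s).im + τ * (L1 r ε s).im := by
    unfold Two_E
    rw [Complex.add_im, Complex.im_ofReal_mul, Complex.im_ofReal_mul]
  have hE : (Two_E r ε τ s).im = ε * ((1 - τ) * α + τ * (2 * Real.pi - α)) := by
    rw [iE, i0, i1]
    rcases hε with rfl | rfl
    · rw [one_mul, a3]
      ring
    · rw [neg_mul, one_mul, neg_neg, a3]
      ring
  set β := (1 - τ) * α + τ * (2 * Real.pi - α) with hβ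
  have hβ0 : 0 < β := by
    rcases hτ.1.eq_or_lt with h3 | h3
    · rw [hβ, ← h3]
      linarith
    · have h4 : 0 ≤ (1 - τ) * α := mul_nonneg (by linarith [hτ.2]) a1.le
      have h5 : 0 < τ * (2 * Real.pi - α) := mul_pos h3 (by linarith)
      linarith
  have hβ1 : β < 2 * Real.pi := by
    rcases hτ.2.eq_or_lt with h3 | h3
    · rw [hβ, h3]
      linarith
    · have h4 : (1 - τ) * α < (1 - τ) * (2 * Real.pi) := mul_lt_mul_of_pos_left (by linarith) (by linarith)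
      have h5 : τ * (2 * Real.pi - α) ≤ τ * (2 * Real.pi) := mul_le_mul_of_nonneg_left (by linarith) hτ.1
      linarith
  have hsβ : Real.sin β = 0 := by
    rw [hE] at hsin
    rcases hε with h3 | h3
    · rw [h3, one_mul] at hsin
      exact hsin
    · rw [h3, neg_mul, one_mul, Real.sin_neg] at hsin
      linarith
  have hcβ : 0 ≤ Real.cos β := by
    rw [hE] at hcos
    rcases hε with h3 | h3
    · rw [h3, one_mul] at hcos
      exact hcos
    · rw [h3, neg_mul, one_mul, Real.cos_neg] at hcos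
      exact hcos
  have hβpi : β = Real.pi := by
    have h3 := Real.sin_eq_zero_iff.1 hsβ
    obtain ⟨n, hn⟩ := h3
    have h4 : 0 < (n : ℝ) := by
      by_contra hc
      push Not at hc
      have := mul_nonpos_of_nonpos_of_nonneg hc hpi.le
      linarith
    have h5 : (n : ℝ) < 2 := by
      by_contra hc
      push Not at hc
      have := mul_le_mul_of_nonneg_right hc hpi.le
      linarith
    have h6 : n = 1 := by
      have h7 : 0 < n := by exact_mod_cast h4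
      have h8 : n < 2 := by exact_mod_cast h5
      omega
    rw [h6] at hn
    simpa using hn.symm
  rw [hβpi, Real.cos_pi] at hcβ
  linarith

theorem Two_sm0 (r : ℕ) (ε : ℝ) : ContDiff ℝ ∞ fun q : ℝ × ℝ => Zh0 r ε q.1 q.2 := by
  have g1 : ContDiff ℝ ∞ (fun q : ℝ × ℝ => th0 ε q.2) :=
    contDiff_const.mul ((CSG.stp_smooth _ _).comp contDiff_snd)
  have g2 : ContDiff ℝ ∞ (fun q : ℝ × ℝ => ex (th0 ε q.2)) := RSG.ex_smooth.comp g1
  have g3' : ContDiff ℝ ∞ (fun q : ℝ × ℝ => 1 - q.1) := by fun_prop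
  have g3 : ContDiff ℝ ∞ (fun q : ℝ × ℝ => ((1 - q.1 : ℝ) : ℂ)) := Complex.ofRealCLM.contDiff.comp g3'
  unfold Zh0
  exact contDiff_const.add ((g3.mul contDiff_const).mul (g2.sub contDiff_const))

theorem Two_smA (hr : 1 ≤ r) {x : ℝ → ℝ} (hx : ContDiff ℝ ∞ x) (hxb : ∀ s, |x s| ≤ hd r) :
    ContDiff ℝ ∞ (fun s => Complex.log (Two_A r (x s))) := by
  rw [contDiff_iff_contDiffAt]
  intro s
  have g1 : ContDiff ℝ ∞ (fun s => Two_A r (x s)) := by
    unfold Two_A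
    exact ((contDiff_const.mul (RSG.ex_smooth.comp hx)).sub contDiff_const).div_const _
  exact ContDiffAt.comp s (f := fun s => Two_A r (x s)) (g := Complex.log)
    ((Complex.contDiffAt_log (n := ∞) (Two_slit hr (hxb s))).restrict_scalars ℝ) g1.contDiffAt

theorem Two_smr (hr : 1 ≤ r) (hε : ε = 1 ∨ ε = -1) : ContDiff ℝ ∞ fun q : ℝ × ℝ => Zhr r ε q.1 q.2 := by
  have b1 : ContDiff ℝ ∞ (fun s : ℝ => bp (s / wd r)) := bp_smooth.comp (contDiff_id.div_const _)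
  have x0 : ContDiff ℝ ∞ (fun s : ℝ => ε * hd r * bp (s / wd r)) := contDiff_const.mul b1
  have x1 : ContDiff ℝ ∞ (fun s : ℝ => -ε * hd r * bp (s / wd r)) := contDiff_const.mul b1
  have l0 := Two_smA hr x0 (fun s => (Two_x hr hε s).1)
  have l1 := Two_smA hr x1 (fun s => (Two_x hr hε s).2)
  have t0 : ContDiff ℝ ∞ (fun s : ℝ => ((th0 ε s : ℝ) : ℂ)) :=
    Complex.ofRealCLM.contDiff.comp (contDiff_const.mul (CSG.stp_smooth _ _))
  have L0s : ContDiff ℝ ∞ (fun s : ℝ => L0 r ε s) :=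
    l0.add ((contDiff_const.mul t0).mul contDiff_const)
  have L1s : ContDiff ℝ ∞ (fun s : ℝ => L1 r ε s) := l1.add contDiff_const
  have g3' : ContDiff ℝ ∞ (fun q : ℝ × ℝ => 1 - q.1) := by fun_prop
  have g3 : ContDiff ℝ ∞ (fun q : ℝ × ℝ => ((1 - q.1 : ℝ) : ℂ)) := Complex.ofRealCLM.contDiff.comp g3'
  have g4 : ContDiff ℝ ∞ (fun q : ℝ × ℝ => ((q.1 : ℝ) : ℂ)) := Complex.ofRealCLM.contDiff.comp contDiff_fst
  have g5 : ContDiff ℝ ∞ (fun q : ℝ × ℝ => Complex.exp (((1 - q.1 : ℝ) : ℂ) * L0 r ε q.2 + (q.1 : ℂ) * L1 r ε q.2)) :=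
    ((g3.mul (L0s.comp contDiff_snd)).add (g4.mul (L1s.comp contDiff_snd))).cexp
  have g6 : ContDiff ℝ ∞ (fun q : ℝ × ℝ => ((CSG.stp (-2 * wd r) (-wd r) q.2 : ℝ) : ℂ)) :=
    Complex.ofRealCLM.contDiff.comp ((CSG.stp_smooth _ _).comp contDiff_snd)
  have g7' : ContDiff ℝ ∞ (fun q : ℝ × ℝ => 1 - CSG.stp (-2 * wd r) (-wd r) q.2) :=
    contDiff_const.sub ((CSG.stp_smooth _ _).comp contDiff_snd)
  have g7 : ContDiff ℝ ∞ (fun q : ℝ × ℝ => ((1 - CSG.stp (-2 * wd r) (-wd r) q.2 : ℝ) : ℂ)) :=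
    Complex.ofRealCLM.contDiff.comp g7'
  unfold Zhr
  exact (Two_sm0 r ε).add (contDiff_const.mul (g7.add (g6.mul g5)))

theorem Two_end0 (hε : ε = 1 ∨ ε = -1) (τ : ℝ) {s : ℝ} (h : s ≤ 3 / 20 ∨ 1 / 5 ≤ s) : Zh0 r ε τ s = rh0 := by
  have : ex (th0 ε s) = 1 := by
    rcases h with h | h
    · rw [Two_th_lo ε h, RSG.ex_zero]
    · rw [Two_th_hi ε h, Two_exeps hε]
  unfold Zh0
  rw [this]
  ring

theorem Two_endr (hr : 1 ≤ r) (hε : ε = 1 ∨ ε = -1) (τ : ℝ) {s : ℝ} (h : 2 / 5 ≤ |s|) :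
    Zhr r ε τ s = rad r r := by
  have hw := wd_pos hr
  have hw1 := wd_le hr
  rcases le_total 0 s with hs | hs
  · rw [abs_of_nonneg hs] at h
    have hb : bp (s / wd r) = 0 := Two_bp hr (by rw [abs_of_nonneg hs]; linarith)
    have e : ((1 - τ : ℝ) : ℂ) * L0 r ε s + (τ : ℂ) * L1 r ε s = 2 * Real.pi * ε * I := by
      rw [Two_L0, Two_L1, hb, mul_zero, mul_zero, Two_A0 hr, Complex.log_one, Two_th_hi ε (by linarith)]
      push_cast
      ring
    unfold Zhr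
    rw [e, Two_end0 hε τ (Or.inr (by linarith)), Two_expI, Two_exeps hε]
    push_cast
    ring
  · rw [abs_of_nonpos hs] at h
    unfold Zhr
    rw [Two_end0 hε τ (Or.inl (by linarith)), Two_chi0 hr (by linarith)]
    push_cast
    ring

theorem Two_reg0 (hr : 1 ≤ r) {τ : ℝ} (hτ : τ ∈ Icc (0 : ℝ) 1) (s : ℝ) :
    ‖Zh0 r ε τ s - rh0‖ ≤ rad r r - rh0 := by
  have h1 : Zh0 r ε τ s - rh0 = ((1 - τ : ℝ) : ℂ) * muR r * (ex (th0 ε s) - 1) := by
    unfold Zh0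
    ring
  have h2 := muR_neg hr
  have h3 : ‖ex (th0 ε s) - 1‖ ≤ 2 := by
    refine (norm_sub_le _ _).trans ?_
    rw [RSG.ex_norm, norm_one]
    norm_num
  have h4 : -muR r = (rad r r - rh0) / 2 := by
    unfold muR
    ring
  rw [h1, norm_mul, norm_mul, Complex.norm_real, Complex.norm_real, Real.norm_eq_abs, Real.norm_eq_abs,
    abs_of_nonneg (by linarith [hτ.2] : 0 ≤ 1 - τ), abs_of_neg h2]
  have h5 : (1 - τ) * -muR r ≤ -muR r := by
    have := mul_nonneg hτ.1 (by linarith : 0 ≤ -muR r)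
    linarith
  have h6 : 0 ≤ (1 - τ) * -muR r := mul_nonneg (by linarith [hτ.2]) (by linarith)
  have h7 : (1 - τ) * -muR r * ‖ex (th0 ε s) - 1‖ ≤ -muR r * 2 :=
    mul_le_mul h5 h3 (norm_nonneg _) (by linarith)
  linarith

theorem Two_regr (hr : 1 ≤ r) (hε : ε = 1 ∨ ε = -1) {τ : ℝ} (hτ : τ ∈ Icc (0 : ℝ) 1) (s : ℝ) :
    ‖Zhr r ε τ s - Zh0 r ε τ s‖ ≤ 11 / 10 * (rad r r - rh0) := by
  have hd0 := Two_del hr
  have h1 : Zhr r ε τ s - Zh0 r ε τ s = ((rad r r - rh0 : ℝ) : ℂ) * (((1 - CSG.stp (-2 * wd r) (-wd r) s : ℝ) : ℂ) +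
      ((CSG.stp (-2 * wd r) (-wd r) s : ℝ) : ℂ) * Complex.exp (Two_E r ε τ s)) := by
    unfold Zhr Two_E
    ring
  have c0 := CSG.stp_nonneg (-2 * wd r) (-wd r) s
  have c1 := CSG.stp_le_one (-2 * wd r) (-wd r) s
  rw [h1, norm_mul, Complex.norm_real, Real.norm_eq_abs, abs_of_pos hd0]
  have h2 : ‖((1 - CSG.stp (-2 * wd r) (-wd r) s : ℝ) : ℂ) +
      ((CSG.stp (-2 * wd r) (-wd r) s : ℝ) : ℂ) * Complex.exp (Two_E r ε τ s)‖ ≤ 11 / 10 := by
    refine (norm_add_le _ _).trans ?_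
    rw [norm_mul, Complex.norm_real, Complex.norm_real, Real.norm_eq_abs, Real.norm_eq_abs,
      abs_of_nonneg c0, abs_of_nonneg (by linarith)]
    have h3 := mul_le_mul_of_nonneg_left (Two_Ere hr hε hτ s) c0
    linarith
  have h3 := mul_le_mul_of_nonneg_left h2 hd0.le
  linarith

theorem Two_regr' (hr : 1 ≤ r) (hε : ε = 1 ∨ ε = -1) {τ : ℝ} (hτ : τ ∈ Icc (0 : ℝ) 1) (s : ℝ) :
    ‖Zhr r ε τ s - rh0‖ ≤ 3 * (rad r r - rh0) ∧ (s < 0 → ‖Zhr r ε τ s - rh0‖ ≤ 3 / 2 * (rad r r - rh0)) := by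
  have hd0 := Two_del hr
  have h1 := Two_reg0 (ε := ε) hr hτ s
  have h2 := Two_regr hr hε hτ s
  constructor
  · have h3 : ‖Zhr r ε τ s - rh0‖ ≤ ‖Zhr r ε τ s - Zh0 r ε τ s‖ + ‖Zh0 r ε τ s - rh0‖ := by
      have := norm_add_le (Zhr r ε τ s - Zh0 r ε τ s) (Zh0 r ε τ s - rh0)
      rwa [sub_add_sub_cancel] at this
    linarith
  · intro hs
    rw [Two_end0 hε τ (Or.inl (by linarith))] at h2
    linarith

theorem Two_dis (hr : 1 ≤ r) (τ : ℝ) {s : ℝ} (hs : -wd r ≤ s) : Zh0 r ε τ s ≠ Zhr r ε τ s := by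
  intro h
  unfold Zhr at h
  rw [Two_chi1 hr hs] at h
  have h1 : ((rad r r - rh0 : ℝ) : ℂ) * Complex.exp (((1 - τ : ℝ) : ℂ) * L0 r ε s + (τ : ℂ) * L1 r ε s) = 0 := by
    push_cast at h ⊢
    linear_combination -h
  rcases mul_eq_zero.1 h1 with h2 | h2
  · exact Two_delC hr h2
  · exact Complex.exp_ne_zero _ h2

theorem Two_disp (hr : 1 ≤ r) (hε : ε = 1 ∨ ε = -1) {τ : ℝ} (hτ : τ ∈ Icc (0 : ℝ) 1) {x : ℝ}
    (hx : rad r (1 / 2) ≤ x) : Zhr r ε τ 0 ≠ x := by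
  have h1 := rad_lt hr (show (0 : ℝ) < 1 / 2 by norm_num)
  rw [rad_zero] at h1
  have h2 := Two_key hr hε hτ le_rfl (wd_pos hr) (y := x - rh0) (by linarith)
  intro h
  apply h2
  rw [h]
  push_cast
  ring

theorem Two_ends (hr : 1 ≤ r) (hε : ε = 1 ∨ ε = -1) (τ : ℝ) :
    (∀ x, x ≤ wd r + 1 / 10 ∨ 1 / 2 - 1 / 10 ≤ x → Zh0 r ε τ x = rh0) ∧
      ∀ s, 1 / 2 - 1 / 10 ≤ |s| → Zhr r ε τ s = rad r r := by
  have hw1 := wd_le hr
  constructor
  · intro x hx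
    apply Two_end0 hε
    rcases hx with hx | hx
    · left; linarith
    · right; linarith
  · intro s hs
    exact Two_endr hr hε τ (by linarith)

theorem Two_zc (hr : 1 ≤ r) (hε : ε = 1 ∨ ε = -1) {τ : ℝ} (hτ : τ ∈ Icc (0 : ℝ) 1)
    (hlow : ∀ s, 0 ≤ s → s ≤ wd r → ‖Zhr r ε τ s‖ = rad r r) : ZC r (Zh0 r ε τ) (Zhr r ε τ) := by
  have hd0 := Two_del hr
  have hw := wd_pos hr
  have hr1 := InA_r hr
  refine ⟨?_, ?_, ⟨1 / 10, by norm_num, Two_ends hr hε τ⟩, ?_, ?_, ?_, ?_, ?_⟩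
  · have : ContDiff ℝ ∞ (fun s : ℝ => (τ, s)) := by fun_prop
    exact (Two_sm0 r ε).comp this
  · have : ContDiff ℝ ∞ (fun s : ℝ => (τ, s)) := by fun_prop
    exact (Two_smr hr hε).comp this
  · intro x _ _
    have := Two_reg0 (ε := ε) hr hτ x
    linarith
  · intro s _
    exact Two_regr' hr hε hτ s
  · intro x hx _
    exact Two_dis hr τ (by linarith)
  · intro x hx
    exact Two_disp hr hε hτ hx
  · intro s hs hs'
    rw [hlow s hs hs']
    exact rad_lt hr (by linarith)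

theorem zc_tw (hr : 1 ≤ r) (hε : ε = 1 ∨ ε = -1) : ZC r (Zt0 r ε) (Ztr r ε ε) := by
  have h0 : Zh0 r ε 0 = Zt0 r ε := funext fun s => (two_zero hr hε s).1
  have h1 : Zhr r ε 0 = Ztr r ε ε := funext fun s => (two_zero hr hε s).2
  have hw1 := wd_le hr
  rw [← h0, ← h1]
  refine Two_zc hr hε ⟨le_rfl, zero_le_one⟩ ?_
  intro s _ hs'
  rw [h1]
  have h2 : Ztr r ε ε s = (rad r r : ℂ) * ex (ε * hd r * bp (s / wd r)) := by
    unfold Ztr
    rw [Two_th_lo ε (by linarith), RSG.ex_zero, mul_one, Two_c2]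
    ring
  rw [h2, norm_mul, RSG.ex_norm, mul_one, Complex.norm_real, Real.norm_eq_abs, abs_of_pos (rad_pos r r)]

theorem zc_un (hr : 1 ≤ r) (hε : ε = 1 ∨ ε = -1) : ZC r (fun _ => (rh0 : ℂ)) (Zd r ε) := by
  have hε' : -ε = 1 ∨ -ε = -1 := by
    rcases hε with h | h
    · right; rw [h]
    · left; rw [h]; norm_num
  have h0 : Zh0 r (-ε) 1 = fun _ => (rh0 : ℂ) := funext fun s => (two_one hr hε' s).1
  have h1 : Zhr r (-ε) 1 = Zd r ε := by
    funext s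
    have := (two_one hr hε' s).2
    rwa [neg_neg] at this
  rw [← h0, ← h1]
  refine Two_zc hr hε' ⟨zero_le_one, le_rfl⟩ ?_
  intro s _ _
  rw [h1]
  unfold Zd
  rw [norm_mul, RSG.ex_norm, mul_one, Complex.norm_real, Real.norm_eq_abs, abs_of_pos (rad_pos r r)]

theorem fam_two (hr : 1 ≤ r) (hε : ε = 1 ∨ ε = -1) {c : ℝ} (hc : TiltC r ε c) :
    Fam r (fun _ => Ic r ε c 1) (Zh0 r ε) (Zhr r ε) := by
  have F := fam_ret hr hc (zc_un hr hε)
  have h01 : (1 : ℝ) ∈ Icc (0 : ℝ) 1 := ⟨zero_le_one, le_rfl⟩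
  have hd0 := Two_del hr
  have hw := wd_pos hr
  have hw1 := wd_le hr
  refine ⟨?_, Two_sm0 r ε, Two_smr hr hε, ?_, fun _ _ => F.regI 1 h01, ?_, ?_, ?_, ?_, ?_, ?_⟩
  · have : ContDiff ℝ ∞ (fun q : ℝ × ℝ => ((1 : ℝ), q.2)) := by fun_prop
    exact F.smI.comp this
  · obtain ⟨e, he, h1, h2, -, -⟩ := F.ends
    refine ⟨min e (1 / 10), lt_min he (by norm_num), ?_, ?_, ?_, ?_⟩
    · intro _ l hl
      exact h1 1 l (hl.trans (min_le_left _ _))
    · intro _ l hl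
      exact h2 1 l (hl.trans (min_le_left _ _))
    · intro τ x hx
      apply (Two_ends hr hε τ).1 x
      have := min_le_right e (1 / 10)
      rcases hx with hx | hx
      · left; linarith
      · right; linarith
    · intro τ s hs
      apply (Two_ends hr hε τ).2 s
      have := min_le_right e (1 / 10)
      linarith
  · obtain ⟨c', hc', h⟩ := F.tilt
    exact ⟨c', hc', fun _ _ => h 1 h01⟩
  · intro τ hτ x _ _
    have := Two_reg0 (ε := ε) hr hτ x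
    linarith
  · intro τ hτ s _
    exact Two_regr' hr hε hτ s
  · intro τ _ x hx _
    exact Two_dis hr τ (by linarith)
  · intro τ hτ x hx
    exact Two_disp hr hε hτ hx
  · intro τ hτ l h1 h2
    obtain ⟨a1, a2, a3, a4⟩ := Ic_slot hr hc h1 h2
    have hz := z1_ge' hr l
    rw [a1]
    rcases a3.eq_or_lt with hs | hs
    · have hz2 : z1 r l = rh0 := by
        rcases hz.eq_or_lt with h3 | h3
        · exact h3.symm
        · exact absurd (a4 h3) (by linarith)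
      rw [hz2, hs]
      have := Two_dis (ε := ε) hr τ (s := wd r) (by linarith)
      rw [Two_end0 hε τ (Or.inl (by linarith))] at this
      exact fun h => this h.symm
    · have := Two_key hr hε hτ a2 hs (y := z1 r l - rh0) (by linarith)
      intro h
      apply this
      rw [h]
      push_cast
      ring

end

end Pool.Agent.SPR
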